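import Pool.Agent.P.MP_064970_gt.ST

/-!
The Caccioppoli inequality for chords from the chord inequality applied to the square of the cutoff.
-/

open scoped Manifold ContDiff
open MeasureTheory Set Filter Topology Metric
open scoped RealInnerProductSpace ENNReal ComplexConjugate Real

noncomputable section

namespace MW

universe u

theorem CAC_int {M : Surf} (h : M.Mem) {K : Set ℂ} (hK : IsCompact K) (T : ℝ) {g : E → ℝ}
    (hg : Measurable g) {C : ℝ} (hb : ∀ x ∈ M.S, x ∈ cyl K T → x ∈ M.top e3 → |g x| ≤ C)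
    (h0 : ∀ x, pr x ∉ K → g x = 0) : IntegrableOn g (lay T ∩ M.top e3) M.μ := by
  have hbd : Bornology.IsBounded (cyl K T) := isBounded_cyl hK.isBounded T
  have hfin : M.μ (cyl K T ∩ M.top e3) ≠ ⊤ :=
    measure_ne_top_of_subset (inter_subset_left.trans subset_closure)
      (M.mu_lt_top hbd.isCompact_closure (h.sub _)).ne
  have hm : MeasurableSet (cyl K T ∩ M.top e3) :=
    (measurableSet_cyl hK.measurableSet T).inter (M.measurableSet_top e3)
  have h1 : IntegrableOn g (cyl K T ∩ M.top e3) M.μ := by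
    refine Measure.integrableOn_of_bounded hfin hg.aestronglyMeasurable (M := C) ?_
    rw [ae_restrict_iff' hm]
    filter_upwards [M.ae_mem] with x hx hx'
    exact hb x hx hx'.1 hx'.2
  refine h1.of_forall_sdiff_eq_zero ((measurableSet_lay T).inter (M.measurableSet_top e3)) ?_
  intro x hx
  exact h0 x fun hp => hx.2 ⟨⟨hp, hx.1.1⟩, hx.1.2⟩

theorem CAC_pt (η e a D n : ℝ) (he : 0 ≤ e) (hn : 0 ≤ n) :
    |a| * √(2 * e) * (2 * |η| * D) * n ≤ η ^ 2 * e * n / 2 + 4 * (a ^ 2 * D ^ 2 * n) := by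
  have h1 : √(2 * e) ^ 2 = 2 * e := Real.sq_sqrt (by linarith)
  have h2 : |a| ^ 2 = a ^ 2 := sq_abs a
  have h3 : |η| ^ 2 = η ^ 2 := sq_abs η
  have h4 : |a| * √(2 * e) * (2 * |η| * D) ≤ η ^ 2 * e / 2 + 4 * (a ^ 2 * D ^ 2) := by
    have h5 : η ^ 2 * e / 2 = (|η| * √(2 * e)) ^ 2 / 4 := by
      rw [mul_pow, h1, h3]
      ring
    have h6 : a ^ 2 * D ^ 2 = (|a| * D) ^ 2 := by
      rw [mul_pow, h2]
    rw [h5, h6]
    nlinarith [sq_nonneg (|η| * √(2 * e) / 2 - 2 * (|a| * D))]
  have := mul_le_mul_of_nonneg_right h4 hn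
  linarith

theorem cac_of (hCI : S_CI) : S_CAC := by
  intro M h η T₀ T c hη hsupp h0 hT hs
  have hts : tsupport (fun y => η y ^ 2) ⊆ tsupport η := by
    refine closure_mono fun y hy => ?_
    intro hz
    exact hy (by simp [hz])
  have hsupp2 : HasCompactSupport fun y => η y ^ 2 :=
    hsupp.isCompact.of_isClosed_subset (isClosed_tsupport _) hts
  have key := hCI M h (fun y => η y ^ 2) T₀ T c (hη.pow 2) hsupp2 (fun y => sq_nonneg _) h0 hT
    (hs.mono hts le_rfl le_rfl)
  have hcD : Continuous (fderiv ℝ η) := hη.continuous_fderiv (by norm_num)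
  obtain ⟨B, hB⟩ := hη.continuous.bounded_above_of_compact_support hsupp
  obtain ⟨D, hD⟩ := hcD.bounded_above_of_compact_support (hsupp.fderiv (𝕜 := ℝ))
  have mN : Measurable fun x => M.N x 2 := by
    have : Continuous fun v : E => v 2 := by fun_prop
    exact this.measurable.comp M.N_meas
  have mη : Measurable fun x => η (pr x) := hη.continuous.measurable.comp measurable_pr
  have mD : Measurable fun x => ‖fderiv ℝ η (pr x)‖ :=
    hcD.norm.measurable.comp measurable_pr
  have hN1 : ∀ x ∈ M.S, |M.N x 2| ≤ 1 := fun x hx => (abs_two_le _).trans (M.N_unit x hx).le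
  have hmA : MeasurableSet (lay T ∩ M.top e3) :=
    (measurableSet_lay T).inter (M.measurableSet_top e3)
  have htop : ∀ x ∈ M.top e3, 0 < M.N x 2 := fun x hx => by
    have : 0 < ⟪M.N x, e3⟫ := hx
    rwa [inner_e3] at this
  have i1 : IntegrableOn (fun x => η (pr x) ^ 2 * M.edx e3 x * M.N x 2) (lay T ∩ M.top e3) M.μ := by
    refine CAC_int h hsupp.isCompact T (((mη.pow_const 2).mul (h.measurable_edx e3)).mul mN)
      (C := B ^ 2 * 2 * 1) (fun x hx _ _ => ?_) (fun x hx => ?_)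
    · rw [abs_mul, abs_mul, abs_pow, abs_of_nonneg (M.edx_nonneg e3 x)]
      have b1 : |η (pr x)| ^ 2 ≤ B ^ 2 := pow_le_pow_left₀ (abs_nonneg _) (hB _) 2
      exact mul_le_mul (mul_le_mul b1 (h.edx_le_two norm_e3 hx) (M.edx_nonneg e3 x) (sq_nonneg _))
        (hN1 x hx) (abs_nonneg _) (by positivity)
    · rw [image_eq_zero_of_notMem_tsupport hx]
      ring
  have i2 : IntegrableOn (fun x => (M.alpha e3 x - c) ^ 2 * ‖fderiv ℝ η (pr x)‖ ^ 2 * M.N x 2)
      (lay T ∩ M.top e3) M.μ := by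
    refine CAC_int h hsupp.isCompact T
      (((((h.measurable_alpha e3).sub_const c).pow_const 2).mul (mD.pow_const 2)).mul mN)
      (C := (T₀ + |c|) ^ 2 * D ^ 2 * 1) (fun x hx hc ht => ?_) (fun x hx => ?_)
    · have ha := ((h.chord_slab h0 hT hs hx hc).2 (htop x ht)).2.2.2.2.1
      rw [abs_mul, abs_mul, abs_pow, abs_pow, abs_norm]
      have b0 : |M.alpha e3 x - c| ≤ T₀ + |c| := (abs_sub _ _).trans (by linarith)
      have b1 : |M.alpha e3 x - c| ^ 2 ≤ (T₀ + |c|) ^ 2 := pow_le_pow_left₀ (abs_nonneg _) b0 2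
      have b2 : ‖fderiv ℝ η (pr x)‖ ^ 2 ≤ D ^ 2 := pow_le_pow_left₀ (norm_nonneg _) (hD _) 2
      exact mul_le_mul (mul_le_mul b1 b2 (sq_nonneg _) (sq_nonneg _))
        (hN1 x hx) (abs_nonneg _) (by positivity)
    · have : fderiv ℝ η (pr x) = 0 := by
        by_contra hne
        exact hx (support_fderiv_subset ℝ hne)
      rw [this]
      simp
  have hder : ∀ y, ‖fderiv ℝ (fun y => η y ^ 2) y‖ = 2 * |η y| * ‖fderiv ℝ η y‖ := by
    intro y
    have := ((hη.differentiable (by norm_num) y).hasFDerivAt.pow 2).fderiv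
    rw [this, norm_smul]
    simp
  have hle : ∫ x in lay T ∩ M.top e3, |M.alpha e3 x - c| * √(2 * M.edx e3 x) *
        ‖fderiv ℝ (fun y => η y ^ 2) (pr x)‖ * M.N x 2 ∂M.μ
      ≤ ∫ x in lay T ∩ M.top e3, (η (pr x) ^ 2 * M.edx e3 x * M.N x 2 / 2 +
        4 * ((M.alpha e3 x - c) ^ 2 * ‖fderiv ℝ η (pr x)‖ ^ 2 * M.N x 2)) ∂M.μ := by
    refine integral_mono_of_nonneg ?_ ((i1.div_const 2).add (i2.const_mul 4)) ?_
    · rw [EventuallyLE, ae_restrict_iff' hmA]
      refine Eventually.of_forall fun x hx => ?_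
      have := (htop x hx.2).le
      show (0 : ℝ) ≤ _
      positivity
    · rw [EventuallyLE, ae_restrict_iff' hmA]
      refine Eventually.of_forall fun x hx => ?_
      rw [hder]
      exact CAC_pt _ _ _ _ _ (M.edx_nonneg e3 x) (htop x hx.2).le
  rw [integral_add (i1.div_const 2) (i2.const_mul 4), integral_div, integral_const_mul] at hle
  linarith

end MW
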