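import Pool.Agent.P.MP_064970_gt.ST

/-!
Approximate g_i in L1 by continuous g_i^n with support in [-R,R], integral 0, |g_i^n| <= 4 B' ,
converging a.e. (continuous compactly supported functions are dense in L1, truncate, multiply by a
cutoff of (-R,R), subtract (int g^n) times a fixed bump of integral 1; pass to a subsequence). eta^n
= G1^n(l1 y) G2^n(l2 y) is C1 with support in the compact parallelogram. CAC for eta^n, dominated
convergence for the finite measure N3 dmu on S cap cyl cap top: the preimage under l_i o pr of a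
null set of R is null for it (AREA0; l_i <> 0).
-/

open scoped Manifold ContDiff
open MeasureTheory Set Filter Topology Metric
open scoped RealInnerProductSpace ENNReal ComplexConjugate Real

noncomputable section

namespace MW

universe u

theorem CACO_int_zero {f : ℝ → ℝ} {R a b : ℝ} (h0 : ∀ s, R ≤ |s| → f s = 0)
    (h : (R ≤ a ∧ R ≤ b) ∨ (a ≤ -R ∧ b ≤ -R)) : ∫ s in a..b, f s = 0 := by
  rw [intervalIntegral.integral_congr (g := fun _ => (0 : ℝ)) fun t ht => ?_]
  · simp
  · refine h0 t ?_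
    rcases h with h | h
    · have h1 : R ≤ t := (le_min h.1 h.2).trans ht.1
      exact h1.trans (le_abs_self t)
    · have h1 : t ≤ -R := ht.2.trans (max_le h.1 h.2)
      have h2 := neg_le_abs t
      linarith

theorem CACO_prim_zero {f : ℝ → ℝ} {R : ℝ}
    (hI : ∀ a b, IntervalIntegrable f volume a b) (h0 : ∀ s, R ≤ |s| → f s = 0)
    (hint : ∫ s in (-R)..R, f s = 0) (s : ℝ) (hs : R ≤ |s|) : ∫ t in (-R)..s, f t = 0 := by
  rcases le_abs'.1 hs with h | h
  · exact CACO_int_zero h0 (Or.inr ⟨le_rfl, h⟩)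
  · rw [← intervalIntegral.integral_add_adjacent_intervals (hI (-R) R) (hI R s), hint, zero_add]
    exact CACO_int_zero h0 (Or.inl ⟨le_rfl, h⟩)

theorem CACO_II {g : ℝ → ℝ} {B : ℝ} (hm : Measurable g) (hB : ∀ s, |g s| ≤ B) (a b : ℝ) :
    IntervalIntegrable g volume a b :=
  (intervalIntegrable_const (c := B)).mono_fun' hm.aestronglyMeasurable
    (Eventually.of_forall fun s => hB s)

theorem CACO_lip {g : ℝ → ℝ} {B : ℝ} (hm : Measurable g) (hB : ∀ s, |g s| ≤ B) (c a b : ℝ) :
    |(∫ t in c..a, g t) - ∫ t in c..b, g t| ≤ B * |a - b| := by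
  rw [intervalIntegral.integral_interval_sub_left (CACO_II hm hB c a) (CACO_II hm hB c b)]
  exact intervalIntegral.norm_integral_le_of_norm_le_const (f := g) fun t _ => hB t

/-- Continuous approximation by dilated Steklov averages. -/
theorem CACO_approx {g : ℝ → ℝ} {R B : ℝ} (hm : Measurable g) (hR : 0 < R) (hB : ∀ s, |g s| ≤ B)
    (h0 : ∀ s, R ≤ |s| → g s = 0) (hint : ∫ s in (-R)..R, g s = 0) :
    ∃ gn : ℕ → ℝ → ℝ, (∀ n, Continuous (gn n)) ∧ (∀ n s, |gn n s| ≤ 2 * B) ∧
      (∀ n s, R ≤ |s| → gn n s = 0) ∧ (∀ n, ∫ s in (-R)..R, gn n s = 0) ∧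
      ∀ᵐ s, Tendsto (fun n => gn n s) atTop (𝓝 (g s)) := by
  have hI := CACO_II hm hB
  have hB0 : 0 ≤ B := (abs_nonneg _).trans (hB 0)
  set G : ℝ → ℝ := fun s => ∫ t in (-R)..s, g t with hG
  have hGc : Continuous G := intervalIntegral.continuous_primitive hI (-R)
  have hG0 : ∀ s, R ≤ |s| → G s = 0 := CACO_prim_zero hI h0 hint
  set u : ℕ → ℝ := fun n => 1 / ((n : ℝ) + 1) with hu
  have hu0 : ∀ n, 0 < u n := fun n => Nat.one_div_pos_of_nat
  have hu1 : ∀ n, u n ≤ 1 := fun n => by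
    rw [hu]
    exact (div_le_one (by positivity)).2 (by linarith [Nat.cast_nonneg (α := ℝ) n])
  refine ⟨fun n s => (1 + u n) * (G ((1 + u n) * s + R * u n) - G ((1 + u n) * s - R * u n)) /
    (2 * R * u n), fun n => by fun_prop, fun n s => ?_, fun n s hs => ?_, fun n => ?_, ?_⟩
  · have h1 := CACO_lip hm hB (-R) ((1 + u n) * s + R * u n) ((1 + u n) * s - R * u n)
    have h2 : 0 < 2 * R * u n := by have := hu0 n; positivity
    have h3 : |(1 + u n) * s + R * u n - ((1 + u n) * s - R * u n)| = 2 * R * u n := by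
      rw [← abs_of_pos h2]
      congr 1
      ring
    rw [h3] at h1
    rw [abs_div, abs_mul, abs_of_pos h2, div_le_iff₀ h2, abs_of_pos (by linarith [hu0 n])]
    calc (1 + u n) * |G ((1 + u n) * s + R * u n) - G ((1 + u n) * s - R * u n)|
        ≤ 2 * (B * (2 * R * u n)) :=
          mul_le_mul (by linarith [hu1 n]) h1 (abs_nonneg _) zero_le_two
      _ = 2 * B * (2 * R * u n) := by ring
  · have h1 := hu0 n
    have h2 : G ((1 + u n) * s + R * u n) = 0 := hG0 _ (by
      rcases le_abs'.1 hs with h | h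
      · exact le_abs'.2 (Or.inl (by nlinarith))
      · exact le_abs'.2 (Or.inr (by nlinarith)))
    have h3 : G ((1 + u n) * s - R * u n) = 0 := hG0 _ (by
      rcases le_abs'.1 hs with h | h
      · exact le_abs'.2 (Or.inl (by nlinarith))
      · exact le_abs'.2 (Or.inr (by nlinarith)))
    simp only [h2, h3, sub_self, mul_zero, zero_div]
  · have h1 := hu0 n
    set K : ℝ → ℝ := fun s => ∫ t in (-R)..s, G t with hK
    have hKd : ∀ s, HasDerivAt K (G s) s := fun s =>
      (hGc.integral_hasStrictDerivAt (-R) s).hasDerivAt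
    have hKs : ∀ a b, K a - K b = ∫ t in b..a, G t := fun a b =>
      intervalIntegral.integral_interval_sub_left (hGc.intervalIntegrable _ _)
        (hGc.intervalIntegrable _ _)
    have hd : ∀ s, HasDerivAt
        (fun s => (K ((1 + u n) * s + R * u n) - K ((1 + u n) * s - R * u n)) / (2 * R * u n))
        ((1 + u n) * (G ((1 + u n) * s + R * u n) - G ((1 + u n) * s - R * u n)) /
          (2 * R * u n)) s := by
      intro s
      have a1 : HasDerivAt (fun s => (1 + u n) * s + R * u n) (1 + u n) s := by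
        simpa using ((hasDerivAt_id s).const_mul (1 + u n)).add_const (R * u n)
      have a2 : HasDerivAt (fun s => (1 + u n) * s - R * u n) (1 + u n) s := by
        simpa using ((hasDerivAt_id s).const_mul (1 + u n)).sub_const (R * u n)
      have a3 := (((hKd _).comp s a1).fun_sub ((hKd _).comp s a2)).div_const (2 * R * u n)
      refine a3.congr_deriv ?_
      ring
    rw [intervalIntegral.integral_eq_sub_of_hasDerivAt (fun s _ => hd s)
      (Continuous.intervalIntegrable (by fun_prop) _ _), hKs, hKs,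
      CACO_int_zero hG0 (Or.inl ⟨by nlinarith, by nlinarith⟩),
      CACO_int_zero hG0 (Or.inr ⟨by nlinarith, by nlinarith⟩)]
    simp
  · have hloc : LocallyIntegrable g volume := fun x =>
      ⟨Ioc (x - 1) (x + 1), Ioc_mem_nhds (by linarith) (by linarith), (hI _ _).1⟩
    have hut : Tendsto u atTop (𝓝 0) := tendsto_one_div_add_atTop_nhds_zero_nat
    have hut' : Tendsto u atTop (𝓝[≠] 0) :=
      tendsto_nhdsWithin_iff.2 ⟨hut, Eventually.of_forall fun n => (hu0 n).ne'⟩
    filter_upwards [_root_.LocallyIntegrable.ae_hasDerivAt_integral hloc] with s hs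
    have hs' : HasDerivAt G (g s) s := hs (-R)
    have a1 : HasDerivAt (fun v : ℝ => s + v * (s + R)) (s + R) 0 := by
      simpa using ((hasDerivAt_id (0 : ℝ)).mul_const (s + R)).const_add s
    have a2 : HasDerivAt (fun v : ℝ => s + v * (s - R)) (s - R) 0 := by
      simpa using ((hasDerivAt_id (0 : ℝ)).mul_const (s - R)).const_add s
    have b1 : HasDerivAt (fun v : ℝ => G (s + v * (s + R))) (g s * (s + R)) 0 :=
      HasDerivAt.comp (0 : ℝ) (h₂ := G) (by simpa using hs') a1
    have b2 : HasDerivAt (fun v : ℝ => G (s + v * (s - R))) (g s * (s - R)) 0 :=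
      HasDerivAt.comp (0 : ℝ) (h₂ := G) (by simpa using hs') a2
    have c1 := (hasDerivAt_iff_tendsto_slope_zero.1 (b1.fun_sub b2)).comp hut'
    have c2 := ((hut.const_add 1).mul c1).div_const (2 * R)
    have e1 : (1 + 0) * (g s * (s + R) - g s * (s - R)) / (2 * R) = g s := by
      field_simp
      ring
    rw [e1] at c2
    refine c2.congr fun n => ?_
    have h1 := (hu0 n).ne'
    have e2 : s + u n * (s + R) = (1 + u n) * s + R * u n := by ring
    have e3 : s + u n * (s - R) = (1 + u n) * s - R * u n := by ring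
    simp only [Function.comp_apply, zero_add, zero_mul, add_zero, sub_self, sub_zero, smul_eq_mul,
      e2, e3]
    field_simp

/-- The primitives of the approximations. -/
theorem CACO_prim {g : ℝ → ℝ} {R C : ℝ} {gn : ℕ → ℝ → ℝ} (hR : 0 < R)
    (hc : ∀ n, Continuous (gn n)) (hC : ∀ n s, |gn n s| ≤ C)
    (h0 : ∀ n s, R ≤ |s| → gn n s = 0) (hint : ∀ n, ∫ s in (-R)..R, gn n s = 0)
    (hlim : ∀ᵐ s, Tendsto (fun n => gn n s) atTop (𝓝 (g s))) :
    (∀ n s, HasDerivAt (fun s => ∫ t in (-R)..s, gn n t) (gn n s) s) ∧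
      (∀ n, ContDiff ℝ 1 fun s => ∫ t in (-R)..s, gn n t) ∧
      (∀ n s, R ≤ |s| → ∫ t in (-R)..s, gn n t = 0) ∧
      (∀ n s, |∫ t in (-R)..s, gn n t| ≤ C * (2 * R)) ∧
      ∀ s, Tendsto (fun n => ∫ t in (-R)..s, gn n t) atTop (𝓝 (∫ t in (-R)..s, g t)) := by
  have hC0 : 0 ≤ C := (abs_nonneg _).trans (hC 0 0)
  have hd : ∀ n s, HasDerivAt (fun s => ∫ t in (-R)..s, gn n t) (gn n s) s := fun n s =>
    ((hc n).integral_hasStrictDerivAt (-R) s).hasDerivAt
  have hz : ∀ n s, R ≤ |s| → ∫ t in (-R)..s, gn n t = 0 := fun n =>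
    CACO_prim_zero (fun a b => (hc n).intervalIntegrable a b) (h0 n) (hint n)
  refine ⟨hd, fun n => ?_, hz, fun n s => ?_, fun s => ?_⟩
  · refine contDiff_one_iff_deriv.2 ⟨fun s => (hd n s).differentiableAt, ?_⟩
    have e : deriv (fun s => ∫ t in (-R)..s, gn n t) = gn n := funext fun s => (hd n s).deriv
    rw [e]
    exact hc n
  · rcases le_or_gt R |s| with h | h
    · rw [hz n s h, abs_zero]
      positivity
    · have h1 := intervalIntegral.norm_integral_le_of_norm_le_const (a := -R) (b := s)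
        (f := gn n) (C := C) fun t _ => hC n t
      have h2 := abs_lt.1 h
      refine h1.trans (mul_le_mul_of_nonneg_left (abs_le.2 ⟨by linarith, by linarith⟩) hC0)
  · refine intervalIntegral.tendsto_integral_filter_of_dominated_convergence (fun _ => C)
      (Eventually.of_forall fun n => (hc n).aestronglyMeasurable)
      (Eventually.of_forall fun n => Eventually.of_forall fun t _ => hC n t)
      intervalIntegrable_const ?_
    filter_upwards [hlim] with t ht _ using ht

theorem CACO_surj {l₁ l₂ : ℂ →L[ℝ] ℝ} (h : ∀ y, l₁ y = 0 → l₂ y = 0 → y = 0) :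
    Function.Surjective l₁ := by
  have h1 : ∃ y, l₁ y ≠ 0 := by
    by_contra hn
    have h2 : ∀ y, l₁ y = 0 := fun y => not_not.1 fun hy => hn ⟨y, hy⟩
    have h3 := h (l₂ Complex.I • (1 : ℂ) - l₂ 1 • Complex.I) (h2 _) (by
      rw [map_sub, map_smul, map_smul, smul_eq_mul, smul_eq_mul]
      ring)
    have h4 : l₂ 1 = 0 := by simpa using congrArg Complex.im h3
    exact one_ne_zero (h 1 (h2 1) h4)
  obtain ⟨y, hy⟩ := h1
  intro t
  exact ⟨(t / l₁ y) • y, by rw [map_smul, smul_eq_mul, div_mul_cancel₀ _ hy]⟩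

theorem CACO_compact {l₁ l₂ : ℂ →L[ℝ] ℝ} (h : ∀ y, l₁ y = 0 → l₂ y = 0 → y = 0) (R : ℝ) :
    IsCompact {y | |l₁ y| ≤ R ∧ |l₂ y| ≤ R} := by
  obtain ⟨K, -, hK⟩ := ((l₁ : ℂ →ₗ[ℝ] ℝ).prod (l₂ : ℂ →ₗ[ℝ] ℝ)).exists_antilipschitzWith
    (LinearMap.ker_eq_bot'.2 fun y hy => h y (congrArg Prod.fst hy) (congrArg Prod.snd hy))
  have c1 : IsClosed {y | |l₁ y| ≤ R} := isClosed_le (by fun_prop) continuous_const
  have c2 : IsClosed {y | |l₂ y| ≤ R} := isClosed_le (by fun_prop) continuous_const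
  refine Metric.isCompact_of_isClosed_isBounded (c1.inter c2)
    ((hK.isBounded_preimage (isBounded_closedBall (x := 0) (r := R))).subset fun y hy => ?_)
  rw [mem_preimage, mem_closedBall_zero_iff]
  exact max_le hy.1 hy.2

/-- Null sets of the line are invisible for the projected area. -/
theorem CACO_ae (hAREA0 : S_AREA0) (M : Surf) {l : ℂ →L[ℝ] ℝ} (hl : Function.Surjective l)
    {P : ℝ → Prop} (hP : ∀ᵐ s, P s) : ∀ᵐ x ∂M.μ, M.N x 2 ≠ 0 → P (l (pr x)) := by
  classical
  obtain ⟨Z, hZ1, hZ2, hZ3⟩ := exists_measurable_superset_of_null (ae_iff.1 hP)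
  have h1 : ∀ᵐ y : ℂ, l y ∈ Zᶜ :=
    (ae_comp_linearMap_mem_iff (l : ℂ →ₗ[ℝ] ℝ) volume volume hl hZ2.compl).2
      (compl_mem_ae_iff.2 hZ3)
  have hm : MeasurableSet ((fun x : E => l (pr x)) ⁻¹' Z) :=
    (l.continuous.comp continuous_pr).measurable hZ2
  have hg : Measurable (((fun x : E => l (pr x)) ⁻¹' Z).indicator fun _ => (1 : ℝ≥0∞)) :=
    measurable_const.indicator hm
  have hN : Measurable fun x => M.N x 2 := by
    have := M.N_meas
    fun_prop
  have h2 := (((hAREA0 M).1 _ hg).2).trans ((lintegral_congr_ae (g := fun _ => 0) (by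
    filter_upwards [h1] with y hy
    refine ENNReal.tsum_eq_zero.2 fun t => ?_
    split_ifs
    · exact indicator_of_notMem (s := (fun x : E => l (pr x)) ⁻¹' Z) (a := pt y t) hy _
    · rfl)).trans lintegral_zero)
  filter_upwards [(lintegral_eq_zero_iff (hg.fun_mul hN.abs.ennreal_ofReal)).1 h2] with x hx hne
  by_contra hn
  have h3 : x ∈ (fun x : E => l (pr x)) ⁻¹' Z := hZ1 hn
  rw [indicator_of_mem h3, one_mul, Pi.zero_apply, ENNReal.ofReal_eq_zero] at hx
  exact hne (abs_nonpos_iff.1 hx)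

theorem caco_of (hCAC : S_CAC) (hAREA0 : S_AREA0) : S_CACO := by
  intro M hM l₁ l₂ g₁ g₂ R B T₀ T c hl hm₁ hm₂ hR hB₁ hB₂ hz₁ hz₂ hi₁ hi₂ hT₀ hT hs
  obtain ⟨p, pc, pb, pz, pi, pl⟩ := CACO_approx hm₁ hR hB₁ hz₁ hi₁
  obtain ⟨q, qc, qb, qz, qi, ql⟩ := CACO_approx hm₂ hR hB₂ hz₂ hi₂
  obtain ⟨Pd, Pc, Pz, Pb, Pl⟩ := CACO_prim hR pc pb pz pi pl
  obtain ⟨Qd, Qc, Qz, Qb, Ql⟩ := CACO_prim hR qc qb qz qi ql
  have hB0 : 0 ≤ B := (abs_nonneg _).trans (hB₁ 0)
  set P : ℕ → ℝ → ℝ := fun n s => ∫ t in (-R)..s, p n t with hP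
  set Q : ℕ → ℝ → ℝ := fun n s => ∫ t in (-R)..s, q n t with hQ
  set K : Set ℂ := {y | |l₁ y| ≤ R ∧ |l₂ y| ≤ R} with hK
  have hKc : IsCompact K := CACO_compact hl R
  have hout : ∀ n y, y ∉ K → (p n (l₁ y) = 0 ∧ P n (l₁ y) = 0) ∨
      (q n (l₂ y) = 0 ∧ Q n (l₂ y) = 0) := by
    intro n y hy
    rcases not_and_or.1 hy with h | h
    · exact Or.inl ⟨pz n _ (not_le.1 h).le, Pz n _ (not_le.1 h).le⟩
    · exact Or.inr ⟨qz n _ (not_le.1 h).le, Qz n _ (not_le.1 h).le⟩
  have hη0 : ∀ n y, y ∉ K → P n (l₁ y) * Q n (l₂ y) = 0 := fun n y hy => by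
    rcases hout n y hy with h | h
    · rw [h.2, zero_mul]
    · rw [h.2, mul_zero]
  have hD0 : ∀ n y, y ∉ K →
      (p n (l₁ y) * Q n (l₂ y)) • l₁ + (P n (l₁ y) * q n (l₂ y)) • l₂ = 0 := fun n y hy => by
    rcases hout n y hy with h | h
    · rw [h.1, h.2, zero_mul, zero_mul, zero_smul, zero_smul, add_zero]
    · rw [h.1, h.2, mul_zero, mul_zero, zero_smul, zero_smul, add_zero]
  have hfd : ∀ n y, fderiv ℝ (fun y => P n (l₁ y) * Q n (l₂ y)) y =
      (p n (l₁ y) * Q n (l₂ y)) • l₁ + (P n (l₁ y) * q n (l₂ y)) • l₂ := by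
    intro n y
    have a1 := (Pd n (l₁ y)).comp_hasFDerivAt y l₁.hasFDerivAt
    have a2 := (Qd n (l₂ y)).comp_hasFDerivAt y l₂.hasFDerivAt
    refine ((a1.mul a2).fderiv).trans ?_
    simp only [Function.comp_apply, smul_smul]
    rw [add_comm, mul_comm _ (p n (l₁ y))]
  have key : ∀ n, ∫ x in lay T ∩ M.top e3, (P n (l₁ (pr x)) * Q n (l₂ (pr x))) ^ 2 * M.edx e3 x *
        M.N x 2 ∂M.μ ≤ 8 * ∫ x in lay T ∩ M.top e3, (M.alpha e3 x - c) ^ 2 *
      ‖(p n (l₁ (pr x)) * Q n (l₂ (pr x))) • l₁ + (P n (l₁ (pr x)) * q n (l₂ (pr x))) • l₂‖ ^ 2 *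
        M.N x 2 ∂M.μ := by
    intro n
    have h1 := hCAC M hM (fun y => P n (l₁ y) * Q n (l₂ y)) T₀ T c
      (((Pc n).comp l₁.contDiff).mul ((Qc n).comp l₂.contDiff))
      (HasCompactSupport.intro hKc (hη0 n)) hT₀ hT
      (hs.mono (closure_minimal (fun y hy => by_contra fun h => hy (hη0 n y h)) hKc.isClosed)
        le_rfl le_rfl)
    simp only [hfd] at h1
    exact h1
  have hN : Measurable fun x => M.N x 2 := by
    have := M.N_meas
    fun_prop
  have hcyl : MeasurableSet (cyl K T) := measurableSet_cyl hKc.measurableSet T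
  have hfin : M.μ (cyl K T) < ⊤ := hM.bd.lt_top (isBounded_cyl hKc.isBounded T)
  have hint : ∀ C : ℝ, Integrable ((cyl K T).indicator fun _ => C)
      (M.μ.restrict (lay T ∩ M.top e3)) := fun C =>
    ((integrable_indicator_iff hcyl).2 (integrableOn_const hfin.ne)).restrict
  have hA : MeasurableSet (lay T ∩ M.top e3) := (measurableSet_lay T).inter (M.measurableSet_top _)
  have hae : ∀ᵐ x ∂M.μ.restrict (lay T ∩ M.top e3), x ∈ M.S ∧ |x 2| < T ∧ 0 < M.N x 2 ∧
      |M.N x 2| ≤ 1 := by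
    filter_upwards [ae_restrict_of_ae M.ae_mem, ae_restrict_mem hA] with x h1 h2
    refine ⟨h1, h2.1, ?_, ?_⟩
    · rw [← inner_e3]
      exact h2.2
    · exact (abs_two_le _).trans (M.N_unit x h1).le
  have hPc : ∀ n, Continuous (P n) := fun n => (Pc n).continuous
  have hQc : ∀ n, Continuous (Q n) := fun n => (Qc n).continuous
  refine le_of_tendsto_of_tendsto' (b := atTop) ?_ (Tendsto.const_mul 8 ?_) key
  · refine tendsto_integral_of_dominated_convergence _ (fun n => ?_)
      (hint ((2 * B * (2 * R) * (2 * B * (2 * R))) ^ 2 * 2 * 1)) (fun n => ?_)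
      (Eventually.of_forall fun x => ?_)
    · have h1 : Continuous fun x : E => (P n (l₁ (pr x)) * Q n (l₂ (pr x))) ^ 2 := by
        have := hPc n
        have := hQc n
        fun_prop
      exact ((h1.measurable.mul (hM.measurable_edx e3)).mul hN).aestronglyMeasurable
    · filter_upwards [hae] with x hx
      by_cases hxK : pr x ∈ K
      · rw [indicator_of_mem (show x ∈ cyl K T from ⟨hxK, hx.2.1⟩), Real.norm_eq_abs, abs_mul,
          abs_mul, abs_pow, abs_mul, abs_of_nonneg (M.edx_nonneg e3 x)]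
        have h1 := hM.edx_le_two norm_e3 hx.1
        have h2 := M.edx_nonneg e3 x
        have h3 := Pb n (l₁ (pr x))
        have h4 := Qb n (l₂ (pr x))
        have h5 := hx.2.2.2
        gcongr
      · rw [hη0 n _ hxK, indicator_of_notMem (fun h => hxK h.1)]
        simp
    · exact ((((Pl _).mul (Ql _)).pow 2).mul_const _).mul_const _
  · refine tendsto_integral_of_dominated_convergence _ (fun n => ?_)
      (hint ((T₀ + |c|) ^ 2 * (2 * B * (2 * B * (2 * R)) * ‖l₁‖ +
        2 * B * (2 * R) * (2 * B) * ‖l₂‖) ^ 2 * 1)) (fun n => ?_) ?_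
    · have h1 : Continuous fun x : E => ‖(p n (l₁ (pr x)) * Q n (l₂ (pr x))) • l₁ +
          (P n (l₁ (pr x)) * q n (l₂ (pr x))) • l₂‖ ^ 2 := by
        have := hPc n
        have := hQc n
        have := pc n
        have := qc n
        fun_prop
      exact (((((hM.measurable_alpha e3).sub_const c).pow_const 2).mul h1.measurable).mul
        hN).aestronglyMeasurable
    · filter_upwards [hae] with x hx
      by_cases hxK : pr x ∈ K
      · have hxc : x ∈ cyl K T := ⟨hxK, hx.2.1⟩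
        rw [indicator_of_mem hxc, Real.norm_eq_abs, abs_mul, abs_mul, abs_pow, abs_pow, abs_norm]
        have h1 : |M.alpha e3 x - c| ≤ T₀ + |c| := (abs_sub _ _).trans
          (add_le_add ((hM.chord_slab hT₀ hT hs hx.1 hxc).2 hx.2.2.1).2.2.2.2.1.le le_rfl)
        have h2 : ‖(p n (l₁ (pr x)) * Q n (l₂ (pr x))) • l₁ +
            (P n (l₁ (pr x)) * q n (l₂ (pr x))) • l₂‖ ≤ 2 * B * (2 * B * (2 * R)) * ‖l₁‖ +
              2 * B * (2 * R) * (2 * B) * ‖l₂‖ := by
          refine (norm_add_le _ _).trans ?_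
          rw [norm_smul, norm_smul, Real.norm_eq_abs, Real.norm_eq_abs, abs_mul, abs_mul]
          have h3 := Pb n (l₁ (pr x))
          have h4 := Qb n (l₂ (pr x))
          have h5 := pb n (l₁ (pr x))
          have h6 := qb n (l₂ (pr x))
          gcongr
        have h5 := hx.2.2.2
        gcongr
      · rw [hD0 n _ hxK, indicator_of_notMem (fun h => hxK h.1)]
        simp
    · filter_upwards [hae, ae_restrict_of_ae (CACO_ae hAREA0 M (CACO_surj hl) pl),
        ae_restrict_of_ae (CACO_ae hAREA0 M (CACO_surj fun y h1 h2 => hl y h2 h1) ql)]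
        with x hx h1 h2
      exact ((((((h1 hx.2.2.1.ne').mul (Ql _)).smul_const l₁).add
        (((Pl _).mul (h2 hx.2.2.1.ne')).smul_const l₂)).norm.pow 2).const_mul _).mul_const _

end MW
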