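import Pool.Agent.P.MP_064970_gt.ST

/-!
T2. a = N x, b = N (partner x). (1) TIL for M. (2) TIL for the mirror image M~ = M.sim A 1 0 (A from
exists_mirror_iso, A e3 = -e3; IsSim.ell, edx, top, integral), transported to M as an integral over
top (-e3), then by BIJ (K = tsupport eta) to the top points: int ell Deta(b') a3 <= mu(eta) - int
eta (ed + 2|b3|) a3 (ell (-e3) (partner x) = ell e3 x, ed_comm). (3) FV with zeta = x3 eta(pr x)
chi(x3) and zeta = eta(pr x) chi(x3), v = e3, chi = 1 on [-T0,T0], support in (-T,T): int x3 N3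
Deta(N') = mu(eta) - int eta N3^2 and int N3 Deta(N') = 0; split into top and bottom, BIJ. With u1 =
alpha + ell/2, u2 = alpha - ell/2: int eta ed a3 <= - int (alpha - c) Deta(b' - a') a3, and
norm_pr_sub_sq_le.
-/

open scoped Manifold ContDiff
open MeasureTheory Set Filter Topology Metric
open scoped RealInnerProductSpace ENNReal ComplexConjugate Real

noncomputable section

namespace MW

universe u

/-- Measurable, and bounded on the part of the surface in `A`. -/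
def CI_B (M : Surf) (A : Set E) (f : E → ℝ) : Prop :=
  Measurable f ∧ ∃ C, ∀ x ∈ M.S ∩ A, |f x| ≤ C

section B

variable {M : Surf} {A : Set E} {f g : E → ℝ}

theorem CI_B.const (c : ℝ) : CI_B M A fun _ => c := ⟨measurable_const, |c|, fun _ _ => le_rfl⟩

theorem CI_B.add (hf : CI_B M A f) (hg : CI_B M A g) : CI_B M A fun x => f x + g x := by
  obtain ⟨hf, C, hC⟩ := hf
  obtain ⟨hg, D, hD⟩ := hg
  exact ⟨hf.add hg, C + D, fun x hx => (abs_add_le _ _).trans (add_le_add (hC x hx) (hD x hx))⟩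

theorem CI_B.sub (hf : CI_B M A f) (hg : CI_B M A g) : CI_B M A fun x => f x - g x := by
  obtain ⟨hf, C, hC⟩ := hf
  obtain ⟨hg, D, hD⟩ := hg
  exact ⟨hf.sub hg, C + D, fun x hx => (abs_sub _ _).trans (add_le_add (hC x hx) (hD x hx))⟩

theorem CI_B.mul (hf : CI_B M A f) (hg : CI_B M A g) : CI_B M A fun x => f x * g x := by
  obtain ⟨hf, C, hC⟩ := hf
  obtain ⟨hg, D, hD⟩ := hg
  refine ⟨hf.mul hg, C * D, fun x hx => ?_⟩
  rw [abs_mul]
  exact mul_le_mul (hC x hx) (hD x hx) (abs_nonneg _) ((abs_nonneg _).trans (hC x hx))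

theorem CI_B.abs (hf : CI_B M A f) : CI_B M A fun x => |f x| := by
  obtain ⟨hf, C, hC⟩ := hf
  exact ⟨continuous_abs.measurable.comp hf, C, fun x hx => by rw [abs_abs]; exact hC x hx⟩

theorem CI_B.sqrt (hf : CI_B M A f) : CI_B M A fun x => √(f x) := by
  obtain ⟨hf, C, hC⟩ := hf
  refine ⟨Real.continuous_sqrt.measurable.comp hf, √C, fun x hx => ?_⟩
  rw [abs_of_nonneg (Real.sqrt_nonneg _)]
  exact Real.sqrt_le_sqrt ((le_abs_self _).trans (hC x hx))

theorem CI_B.mono {A' : Set E} (hf : CI_B M A f) (h : A' ⊆ A) : CI_B M A' f := by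
  obtain ⟨hf, C, hC⟩ := hf
  exact ⟨hf, C, fun x hx => hC x ⟨hx.1, h hx.2⟩⟩

theorem CI_B.integrableOn (hf : CI_B M A f) (hM : M.Mem) (hA : Bornology.IsBounded A)
    (hAm : MeasurableSet A) : IntegrableOn f A M.μ := by
  obtain ⟨hf, C, hC⟩ := hf
  exact hM.bd.integrableOn hA hf (C := C) (fun x hx => hC x ⟨hx.2, hx.1⟩) hAm

theorem CI_congr (hA : MeasurableSet A) (h : ∀ x ∈ M.S, x ∈ A → f x = g x) :
    ∫ x in A, f x ∂M.μ = ∫ x in A, g x ∂M.μ :=
  setIntegral_congr_ae hA (M.ae_mem.mono h)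

theorem CI_meas2 : Measurable fun x : E => x 2 := by fun_prop

theorem CI_B_N {P : E → E} (hP : Measurable P) (hS : ∀ x ∈ M.S, P x ∈ M.S) :
    CI_B M A fun x => M.N (P x) 2 :=
  ⟨CI_meas2.comp (M.N_meas.comp hP), 1, fun x hx =>
    (abs_two_le _).trans (M.N_unit _ (hS x hx.1)).le⟩

variable {η : ℂ → ℝ}

theorem CI_B_eta (h1 : ContDiff ℝ 1 η) (hs : HasCompactSupport η) :
    CI_B M A fun x => η (pr x) := by
  obtain ⟨C, hC⟩ := h1.continuous.bounded_above_of_compact_support hs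
  exact ⟨h1.continuous.measurable.comp measurable_pr, C, fun x _ => hC _⟩

theorem CI_B_norm (h1 : ContDiff ℝ 1 η) (hs : HasCompactSupport η) :
    CI_B M A fun x => ‖fderiv ℝ η (pr x)‖ := by
  have hc : Continuous (fderiv ℝ η) := h1.continuous_fderiv one_ne_zero
  obtain ⟨C, hC⟩ := hc.bounded_above_of_compact_support (hs.fderiv (𝕜 := ℝ))
  exact ⟨hc.norm.measurable.comp measurable_pr, C, fun x _ => by rw [abs_norm]; exact hC _⟩

theorem CI_B_D (h1 : ContDiff ℝ 1 η) (hs : HasCompactSupport η) {P : E → E} (hP : Measurable P)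
    (hS : ∀ x ∈ M.S, P x ∈ M.S) : CI_B M A fun x => fderiv ℝ η (pr x) (pr (M.N (P x))) := by
  have hc : Continuous (fderiv ℝ η) := h1.continuous_fderiv one_ne_zero
  obtain ⟨C, hC⟩ := hc.bounded_above_of_compact_support (hs.fderiv (𝕜 := ℝ))
  have h2 : Continuous fun q : ℂ × ℂ => fderiv ℝ η q.1 q.2 :=
    (hc.comp continuous_fst).clm_apply continuous_snd
  refine ⟨h2.measurable.comp (measurable_pr.prodMk (measurable_pr.comp (M.N_meas.comp hP))), C,
    fun x hx => ?_⟩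
  have h3 := (fderiv ℝ η (pr x)).le_opNorm (pr (M.N (P x)))
  have h4 : ‖pr (M.N (P x))‖ ≤ 1 := (norm_pr_le _).trans (M.N_unit _ (hS x hx.1)).le
  have h5 := mul_le_mul (hC (pr x)) h4 (norm_nonneg _) ((norm_nonneg _).trans (hC (pr x)))
  rw [mul_one] at h5
  exact h3.trans h5

theorem CI_B_edx (hM : M.Mem) {e : E} (he : ‖e‖ = 1) : CI_B M A (M.edx e) :=
  ⟨hM.measurable_edx e, 2, fun x hx => by
    rw [abs_of_nonneg (M.edx_nonneg e x)]; exact hM.edx_le_two he hx.1⟩

theorem CI_top (x : E) : x ∈ M.top e3 ↔ 0 < M.N x 2 := by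
  change 0 < ⟪M.N x, e3⟫ ↔ _
  rw [inner_e3]

theorem CI_bot (x : E) : x ∈ M.top (-e3) ↔ M.N x 2 < 0 := by
  change 0 < ⟪M.N x, -e3⟫ ↔ _
  rw [inner_neg_right, inner_e3, neg_pos]

/-- Integrals over the layer are integrals over the cylinder. -/
theorem CI_lay {K : Set ℂ} {T : ℝ} {B : Set E} (hB : MeasurableSet B)
    (h : ∀ x, pr x ∉ K → f x = 0) :
    ∫ x in lay T ∩ B, f x ∂M.μ = ∫ x in cyl K T ∩ B, f x ∂M.μ :=
  setIntegral_eq_of_subset_of_forall_sdiff_eq_zero ((measurableSet_lay T).inter hB)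
    (fun _ hx => ⟨hx.1.2, hx.2⟩) fun x hx => h x fun hK => hx.2 ⟨⟨hK, hx.1.1⟩, hx.1.2⟩

theorem CI_lay' {K : Set ℂ} {T : ℝ} (h : ∀ x, pr x ∉ K → f x = 0) :
    ∫ x in lay T, f x ∂M.μ = ∫ x in cyl K T, f x ∂M.μ := by
  have := CI_lay (M := M) (T := T) MeasurableSet.univ h
  rwa [inter_univ, inter_univ] at this

/-- Splitting into top and bottom points. -/
theorem CI_split (hA : MeasurableSet A) (hf : IntegrableOn f A M.μ)
    (h : ∀ x, M.N x 2 = 0 → f x = 0) :
    ∫ x in A, f x ∂M.μ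
      = ∫ x in A ∩ M.top e3, f x ∂M.μ + ∫ x in A ∩ M.top (-e3), f x ∂M.μ := by
  rw [← setIntegral_union _ (hA.inter (M.measurableSet_top _)) (hf.mono_set inter_subset_left)
    (hf.mono_set inter_subset_left)]
  · refine setIntegral_eq_of_subset_of_forall_sdiff_eq_zero hA
      (union_subset inter_subset_left inter_subset_left) fun x hx => h x ?_
    by_contra h0
    rcases lt_or_gt_of_ne h0 with h1 | h1
    · exact hx.2 (Or.inr ⟨hx.1, (CI_bot x).2 h1⟩)
    · exact hx.2 (Or.inl ⟨hx.1, (CI_top x).2 h1⟩)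
  · exact disjoint_left.2 fun x hx hx' => lt_asymm ((CI_top x).1 hx.2) ((CI_bot x).1 hx'.2)

end B

/-- T1 for the mirror image, read on the bottom points. -/
theorem CI_mirror (hTIL : S_TIL) {M : Surf} (hM : M.Mem) {η : ℂ → ℝ} {T₀ T : ℝ}
    (h1 : ContDiff ℝ 1 η) (hs : HasCompactSupport η) (h0 : ∀ y, 0 ≤ η y) (hT₀ : 0 < T₀)
    (hT : T₀ < T) (hS : M.Slab (tsupport η) T₀ T) :
    ∫ x in lay T ∩ M.top (-e3),
        M.ell (-e3) x * fderiv ℝ η (pr x) (pr (M.N x)) * -M.N x 2 ∂M.μ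
      ≤ ∫ x in lay T, η (pr x) ∂M.μ - ∫ x in lay T ∩ M.top (-e3),
        η (pr x) * (M.edx (-e3) x + 2 * -M.N x 2) * -M.N x 2 ∂M.μ := by
  obtain ⟨A, hA, hAe, -⟩ := exists_mirror_iso norm_e3
  have h := M.isSim A one_pos 0
  set M' := M.sim A 1 0
  have hA' : ∀ x, A x = pt (pr x) (-(x 2)) := fun x => by rw [hA, mirror_e3]
  have hφ : ∀ x, simMap A 1 0 x = pt (pr x) (-(x 2)) := fun x => by
    rw [simMap, one_smul, add_zero, hA']
  have he : A (-e3) = e3 := by rw [map_neg, hAe, neg_neg]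
  have hS' : M'.Slab (tsupport η) T₀ T := fun y hy t ht ht' => by
    have h2 := (h.W' (pt y (-t))).2 (hS y hy (-t) (by rwa [abs_neg]) (by rwa [abs_neg]))
    rwa [hφ, pr_pt, pt_two, neg_neg] at h2
  have h3 := hTIL M' (h.mem hM) η T₀ T h1 hs h0 hT₀ hT hS'
  have hl : simMap A 1 0 ⁻¹' lay T = lay T := by
    ext x
    change |simMap A 1 0 x 2| < T ↔ |x 2| < T
    rw [hφ, pt_two, abs_neg]
  have ht : simMap A 1 0 ⁻¹' M'.top e3 = M.top (-e3) := by
    ext x
    have := h.top (-e3) x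
    rwa [he] at this
  have e1 : ∀ x, M'.ell e3 (simMap A 1 0 x) = M.ell (-e3) x := fun x => by
    have := h.ell (-e3) x
    rwa [he, one_mul] at this
  have e2 : ∀ x, M'.edx e3 (simMap A 1 0 x) = M.edx (-e3) x := fun x => by
    have := h.edx (-e3) x
    rwa [he] at this
  have e4 : ∀ x, pr (simMap A 1 0 x) = pr x := fun x => by rw [hφ, pr_pt]
  rw [h.setIntegral, h.setIntegral, h.setIntegral, preimage_inter, hl, ht] at h3
  simp only [e1, e2, e4, h.N, hA', pr_pt, pt_two, one_pow, one_mul] at h3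
  exact h3

/-- The first variation in the vertical direction. -/
theorem CI_fv (hFV : S_FV) {M : Surf} (hM : M.Mem) {η : ℂ → ℝ} {T₀ T : ℝ} (c : ℝ)
    (h1 : ContDiff ℝ 1 η) (hs : HasCompactSupport η) (hT₀ : 0 < T₀)
    (hT : T₀ < T) (hS : M.Slab (tsupport η) T₀ T) :
    ∫ x in cyl (tsupport η) T, (η (pr x) -
      (M.N x 2 * η (pr x) + (x 2 - c) * fderiv ℝ η (pr x) (pr (M.N x))) * M.N x 2) ∂M.μ = 0 := by
  let χ : ContDiffBump (0 : ℝ) := ⟨T₀, (T₀ + T) / 2, hT₀, by linarith⟩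
  let g : ℝ → ℝ := fun t => (t - c) * χ t
  have hg : ContDiff ℝ 1 g := (contDiff_id.sub contDiff_const).mul χ.contDiff
  have hin : ∀ t, |t| < T₀ → g t = t - c ∧ deriv g t = 1 := fun t ht => by
    have h2 : (χ : ℝ → ℝ) =ᶠ[𝓝 t] 1 := χ.eventuallyEq_one_of_mem_ball (by simpa using ht)
    have h3 : g =ᶠ[𝓝 t] fun s => s - c := by
      filter_upwards [h2] with s hs
      simp only [g, hs, Pi.one_apply, mul_one]
    exact ⟨h3.eq_of_nhds, by rw [h3.deriv_eq]; simp⟩
  have hout : ∀ t, T ≤ |t| → g t = 0 ∧ deriv g t = 0 := fun t ht => by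
    have h2 : ∀ᶠ s in 𝓝 t, (T₀ + T) / 2 < |s| :=
      continuous_abs.continuousAt.eventually (lt_mem_nhds (by linarith))
    have h3 : g =ᶠ[𝓝 t] fun _ => 0 := by
      filter_upwards [h2] with s hs
      have : χ s = 0 := χ.zero_of_le_dist (by simpa using hs.le)
      simp only [g, this, mul_zero]
    exact ⟨h3.eq_of_nhds, by rw [h3.deriv_eq]; simp⟩
  let p2 : E →L[ℝ] ℝ := EuclideanSpace.proj 2
  let ζ : E → ℝ := fun x => g (p2 x) * η (prL x)
  have hζ : ContDiff ℝ 1 ζ := (hg.comp p2.contDiff).mul (h1.comp prL.contDiff)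
  have hK : Bornology.IsBounded (tsupport η) := hs.isCompact.isBounded
  have hζs : HasCompactSupport ζ := by
    refine HasCompactSupport.intro (isBounded_cyl hK T).isCompact_closure fun x hx => ?_
    have hx' : x ∉ cyl (tsupport η) T := fun h => hx (subset_closure h)
    by_cases h2 : pr x ∈ tsupport η
    · have h3 : T ≤ |x 2| := not_lt.1 fun h => hx' ⟨h2, h⟩
      change g (x 2) * η (pr x) = 0
      rw [(hout _ h3).1, zero_mul]
    · change g (x 2) * η (pr x) = 0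
      rw [image_eq_zero_of_notMem_tsupport h2, mul_zero]
  have hd : ∀ x w, fderiv ℝ ζ x w
      = g (x 2) * fderiv ℝ η (pr x) (pr w) + η (pr x) * (deriv g (x 2) * w 2) := fun x w => by
    have a1 : HasFDerivAt (fun x => g (p2 x)) (deriv g (p2 x) • p2) x :=
      ((hg.differentiable one_ne_zero) (p2 x)).hasDerivAt.comp_hasFDerivAt x p2.hasFDerivAt
    have a2 : HasFDerivAt (fun x => η (prL x)) ((fderiv ℝ η (prL x)).comp prL) x :=
      ((h1.differentiable one_ne_zero) (prL x)).hasFDerivAt.comp x prL.hasFDerivAt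
    rw [(a1.fun_mul a2).fderiv]
    rfl
  have h4 := (hFV M).1 ζ hζ hζs (hM.sub _) e3
  have hKm : MeasurableSet (tsupport η) := (isClosed_tsupport η).measurableSet
  rw [← setIntegral_eq_integral_of_forall_compl_eq_zero (s := cyl (tsupport η) T)] at h4
  · rw [← h4]
    refine CI_congr (measurableSet_cyl hKm T) fun x hx hc => ?_
    have h5 := hin _ (hM.chord_slab hT₀ hT hS hx hc).1
    rw [hd, hd, h5.1, h5.2, inner_e3, pr_e3, map_zero, e3_two]
    ring
  · intro x hx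
    rw [hd, hd]
    by_cases h2 : pr x ∈ tsupport η
    · have h3 : T ≤ |x 2| := not_lt.1 fun h => hx ⟨h2, h⟩
      rw [(hout _ h3).1, (hout _ h3).2]
      ring
    · rw [image_eq_zero_of_notMem_tsupport h2, fderiv_of_notMem_tsupport ℝ h2]
      simp

/-- The pointwise inequality. -/
theorem CI_point (L : ℂ →L[ℝ] ℝ) (a b : E) (β : ℝ) :
    β * (L (pr a) - L (pr b)) ≤ |β| * √(2 * ed e3 a b) * ‖L‖ := by
  have h1 : ‖pr a - pr b‖ ≤ √(2 * ed e3 a b) := by
    rw [norm_sub_rev]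
    exact Real.le_sqrt_of_sq_le (norm_pr_sub_sq_le a b)
  have h2 : |L (pr a) - L (pr b)| ≤ √(2 * ed e3 a b) * ‖L‖ := by
    rw [← map_sub, mul_comm]
    exact (L.le_opNorm _).trans (mul_le_mul_of_nonneg_left h1 (norm_nonneg _))
  calc β * (L (pr a) - L (pr b)) ≤ |β * (L (pr a) - L (pr b))| := le_abs_self _
    _ = |β| * |L (pr a) - L (pr b)| := abs_mul _ _
    _ ≤ |β| * (√(2 * ed e3 a b) * ‖L‖) := mul_le_mul_of_nonneg_left h2 (abs_nonneg _)
    _ = _ := by ring

theorem ci_of (hTIL : S_TIL) (hBIJ : S_BIJ) (hFV : S_FV) : S_CI := by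
  intro M hM η T₀ T c h1 hs h0 hT₀ hT hS
  set K := tsupport η with hKdef
  have hK : Bornology.IsBounded K := hs.isCompact.isBounded
  have hKm : MeasurableSet K := (isClosed_tsupport η).measurableSet
  have hCm : MeasurableSet (cyl K T) := measurableSet_cyl hKm T
  have hCb : Bornology.IsBounded (cyl K T) := isBounded_cyl hK T
  have hz : ∀ x : E, pr x ∉ K → η (pr x) = 0 := fun x hx => image_eq_zero_of_notMem_tsupport hx
  have hz' : ∀ x : E, pr x ∉ K → fderiv ℝ η (pr x) = 0 := fun x hx =>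
    fderiv_of_notMem_tsupport ℝ hx
  have htm := M.measurableSet_top e3
  have hbm := M.measurableSet_top (-e3)
  have hTm : MeasurableSet (cyl K T ∩ M.top e3) := hCm.inter htm
  have hBm : MeasurableSet (cyl K T ∩ M.top (-e3)) := hCm.inter hbm
  have hTb : Bornology.IsBounded (cyl K T ∩ M.top e3) := hCb.subset inter_subset_left
  have hne : ‖-e3‖ = 1 := by rw [norm_neg, norm_e3]
  obtain ⟨hB, -⟩ := hBIJ M hM K T₀ T hKm hK hT₀ hT hS
  have hPm := hM.measurable_partner e3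
  have hPS : ∀ x ∈ M.S, M.partner e3 x ∈ M.S := fun x hx => hM.partner_mem e3 hx
  -- facts on the chords
  have hch : ∀ x ∈ M.S, x ∈ cyl K T ∩ M.top e3 → M.ell e3 x < 2 * T₀ ∧
      |M.partner e3 x 2| < T₀ ∧ pr (M.partner e3 x) = pr x ∧ |M.alpha e3 x| < T₀ ∧
      M.N (M.partner e3 x) 2 ≤ 0 ∧ M.ell (-e3) (M.partner e3 x) = M.ell e3 x ∧
      M.edx (-e3) (M.partner e3 x) = M.edx e3 x := fun x hx hc => by
    obtain ⟨a0, a1⟩ := hM.chord_slab hT₀ hT hS hx hc.1
    obtain ⟨-, a2, a3, a4, a5, -, a6⟩ := a1 ((CI_top x).1 hc.2)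
    have a7 : x - (x 2 + T₀) • e3 ∈ M.W' := by
      have := hS _ hc.1.1 (-T₀) (by rw [abs_neg, abs_of_pos hT₀])
        (by rw [abs_neg, abs_of_pos hT₀]; exact hT.le)
      have e : x - (x 2 + T₀) • e3 = pt (pr x) (-T₀) := by
        conv_lhs => rw [← pt_pr x]
        rw [pt_sub_smul_e3, pt_two]
        congr 1
        ring
      rwa [e]
    obtain ⟨-, -, -, -, b1, b2⟩ := hM.chord hx hc.2 (by linarith [(abs_lt.1 a0).1]) a7
    refine ⟨a2, a3.2, a4, a5, a6, b1, ?_⟩
    rw [Surf.edx, b2, ed_neg_left, ed_comm norm_e3]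
    rfl
  have hbot : ∀ x ∈ M.S, x ∈ cyl K T ∩ M.top (-e3) → M.ell (-e3) x ≤ 2 * T₀ := fun x hx hc => by
    have a0 := (hM.chord_slab hT₀ hT hS hx hc.1).1
    have a7 : x - (T₀ - x 2) • (-e3) ∈ M.W' := by
      have := hS _ hc.1.1 T₀ (by rw [abs_of_pos hT₀]) (by rw [abs_of_pos hT₀]; exact hT.le)
      have e : x - (T₀ - x 2) • (-e3) = pt (pr x) T₀ := by
        rw [smul_neg, sub_neg_eq_add]
        conv_lhs => rw [← pt_pr x]
        rw [pt_add_smul_e3, pt_two]
        congr 1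
        ring
      rwa [e]
    have := (hM.chord hx hc.2 (by linarith [(abs_lt.1 a0).2]) a7).2.1
    linarith [(abs_lt.1 a0).1]
  -- bounded measurable building blocks
  have bη : ∀ A, CI_B M A fun x => η (pr x) := fun _ => CI_B_eta h1 hs
  have bN : ∀ A, CI_B M A fun x => M.N x 2 := fun _ => CI_B_N measurable_id fun _ h => h
  have bD : ∀ A, CI_B M A fun x => fderiv ℝ η (pr x) (pr (M.N x)) := fun _ =>
    CI_B_D h1 hs measurable_id fun _ h => h
  have bx : CI_B M (cyl K T) fun x => x 2 - c :=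
    CI_B.sub ⟨CI_meas2, T, fun x hx => hx.2.2.le⟩ (CI_B.const c)
  have bm : CI_B M (cyl K T) fun x => min (M.ell (-e3) x) (2 * T₀) :=
    ⟨(hM.measurable_ell _).min measurable_const, 2 * T₀, fun x _ => by
      rw [abs_of_nonneg (le_min (M.ell_nonneg _ _) (by linarith))]; exact min_le_right _ _⟩
  have bNp : CI_B M (cyl K T ∩ M.top e3) fun x => M.N (M.partner e3 x) 2 := CI_B_N hPm hPS
  have bDp : CI_B M (cyl K T ∩ M.top e3) fun x =>
      fderiv ℝ η (pr x) (pr (M.N (M.partner e3 x))) := CI_B_D h1 hs hPm hPS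
  have bl : CI_B M (cyl K T ∩ M.top e3) (M.ell e3) :=
    ⟨hM.measurable_ell _, 2 * T₀, fun x hx => by
      rw [abs_of_nonneg (M.ell_nonneg _ _)]; exact (hch x hx.1 hx.2).1.le⟩
  have bα : CI_B M (cyl K T ∩ M.top e3) fun x => M.alpha e3 x - c :=
    CI_B.sub ⟨hM.measurable_alpha _, T₀, fun x hx => (hch x hx.1 hx.2).2.2.2.1.le⟩ (CI_B.const c)
  have bp : CI_B M (cyl K T ∩ M.top e3) fun x => M.partner e3 x 2 - c :=
    CI_B.sub ⟨CI_meas2.comp hPm, T₀, fun x hx => (hch x hx.1 hx.2).2.1.le⟩ (CI_B.const c)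
  have be : CI_B M (cyl K T ∩ M.top e3) (M.edx e3) := CI_B_edx hM norm_e3
  have hB' : ∀ H, CI_B M (cyl K T) H → ∫ x in cyl K T ∩ M.top (-e3), H x * |M.N x 2| ∂M.μ
      = ∫ x in cyl K T ∩ M.top e3, H (M.partner e3 x) * M.N x 2 ∂M.μ :=
    fun H ⟨hH, C, hC⟩ => hB H C hH hC
  -- (1)
  have i1 := hTIL M hM η T₀ T h1 hs h0 hT₀ hT hS
  rw [CI_lay (K := K) htm fun x hx => by simp [hz' x hx],
    CI_lay (K := K) htm fun x hx => by simp [hz x hx], CI_lay' (K := K) hz] at i1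
  -- (2)
  have i2 := CI_mirror hTIL hM h1 hs h0 hT₀ hT hS
  rw [CI_lay (K := K) hbm fun x hx => by simp [hz' x hx],
    CI_lay (K := K) hbm fun x hx => by simp [hz x hx], CI_lay' (K := K) hz] at i2
  have e3' : ∫ x in cyl K T ∩ M.top (-e3),
        M.ell (-e3) x * fderiv ℝ η (pr x) (pr (M.N x)) * -M.N x 2 ∂M.μ
      = ∫ x in cyl K T ∩ M.top e3,
        M.ell e3 x * fderiv ℝ η (pr x) (pr (M.N (M.partner e3 x))) * M.N x 2 ∂M.μ := by
    refine (CI_congr hBm fun x hx hc => ?_).trans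
      ((hB' _ (bm.mul (bD _))).trans (CI_congr hTm fun x hx hc => ?_))
    · rw [min_eq_left (hbot x hx hc), abs_of_neg ((CI_bot x).1 hc.2)]
    · obtain ⟨a1, -, a3, -, -, a6, -⟩ := hch x hx hc
      rw [a6, a3, min_eq_left a1.le]
  have e4 : ∫ x in cyl K T ∩ M.top (-e3),
        η (pr x) * (M.edx (-e3) x + 2 * -M.N x 2) * -M.N x 2 ∂M.μ
      = ∫ x in cyl K T ∩ M.top e3,
        η (pr x) * (M.edx e3 x - 2 * M.N (M.partner e3 x) 2) * M.N x 2 ∂M.μ := by
    refine (CI_congr hBm fun x hx hc => ?_).trans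
      ((hB' _ ((bη _).mul ((CI_B_edx hM hne).sub ((CI_B.const 2).mul (bN _))))).trans
        (CI_congr hTm fun x hx hc => ?_))
    · rw [abs_of_neg ((CI_bot x).1 hc.2)]
      ring
    · obtain ⟨-, -, a3, -, -, -, a7⟩ := hch x hx hc
      rw [a7, a3]
  rw [e3', e4] at i2
  -- (3)
  have bF := (((bN _).mul (bη _)).add (bx.mul (bD _))).mul (bN _)
  have i3 := CI_fv hFV hM c h1 hs hT₀ hT hS
  rw [integral_sub ((bη _).integrableOn hM hCb hCm) (bF.integrableOn hM hCb hCm), sub_eq_zero,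
    CI_split (f := fun x => (M.N x 2 * η (pr x) + (x 2 - c) * fderiv ℝ η (pr x) (pr (M.N x)))
      * M.N x 2) hCm (bF.integrableOn hM hCb hCm) fun x hx => by rw [hx, mul_zero]] at i3
  have e6 : ∫ x in cyl K T ∩ M.top (-e3),
        (M.N x 2 * η (pr x) + (x 2 - c) * fderiv ℝ η (pr x) (pr (M.N x))) * M.N x 2 ∂M.μ
      = ∫ x in cyl K T ∩ M.top e3, (0 - (M.N (M.partner e3 x) 2 * η (pr x) +
          (M.partner e3 x 2 - c) * fderiv ℝ η (pr x) (pr (M.N (M.partner e3 x))))) * M.N x 2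
          ∂M.μ := by
    refine (CI_congr hBm fun x hx hc => ?_).trans
      ((hB' _ ((CI_B.const 0).sub (((bN _).mul (bη _)).add (bx.mul (bD _))))).trans
        (CI_congr hTm fun x hx hc => ?_))
    · rw [abs_of_neg ((CI_bot x).1 hc.2)]
      ring
    · obtain ⟨-, -, a3, -, -, -, -⟩ := hch x hx hc
      rw [a3]
  rw [e6] at i3
  -- the sum
  rw [CI_lay (K := K) htm fun x hx => by simp [hz x hx],
    CI_lay (K := K) htm fun x hx => by simp [hz' x hx]]
  have j1 := ((bl.mul (bD _)).mul (bN _)).integrableOn hM hTb hTm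
  have j2 := (((bη _).mul (be.add ((CI_B.const 2).mul (bN _)))).mul (bN _)).integrableOn hM hTb hTm
  have j3 := ((bl.mul bDp).mul (bN _)).integrableOn hM hTb hTm
  have j4 := (((bη _).mul (be.sub ((CI_B.const 2).mul bNp))).mul (bN _)).integrableOn hM hTb hTm
  have j5 := (bF.mono (inter_subset_left (t := M.top e3))).integrableOn hM hTb hTm
  have j6 := (((CI_B.const 0).sub ((bNp.mul (bη _)).add (bp.mul bDp))).mul (bN _)).integrableOn
    hM hTb hTm
  have j7 := (((bη _).mul be).mul (bN _)).integrableOn hM hTb hTm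
  have j8 := (((bα.abs.mul ((CI_B.const 2).mul be).sqrt).mul (CI_B_norm h1 hs)).mul
    (bN _)).integrableOn hM hTb hTm
  have key := setIntegral_mono_on_ae
    (((j7.add j7).add (j5.add j6)).add (j5.add j6))
    (((j8.add j8).add (j1.add j2)).add (j3.add j4)) hTm (M.ae_mem.mono fun x hx hc => by
      have hp := mul_le_mul_of_nonneg_right (CI_point (fderiv ℝ η (pr x)) (M.N x)
        (M.N (M.partner e3 x)) (M.alpha e3 x - c)) ((CI_top x).1 hc.2).le
      have q1 : M.alpha e3 x = x 2 - M.ell e3 x / 2 := by rw [Surf.alpha, inner_e3]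
      have q2 : M.partner e3 x 2 = x 2 - M.ell e3 x := by simp [Surf.partner]
      have q3 : ed e3 (M.N x) (M.N (M.partner e3 x)) = M.edx e3 x := rfl
      rw [q3] at hp
      simp only [Pi.add_apply]
      rw [q2]
      generalize |M.alpha e3 x - c| = u at hp ⊢
      rw [q1] at hp
      linarith)
  rw [integral_add' ((j7.add j7).add (j5.add j6)) (j5.add j6), integral_add' (j7.add j7) (j5.add j6),
    integral_add' j7 j7, integral_add' j5 j6,
    integral_add' ((j8.add j8).add (j1.add j2)) (j3.add j4), integral_add' (j8.add j8) (j1.add j2),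
    integral_add' j8 j8, integral_add' j1 j2, integral_add' j3 j4] at key
  linarith

end MW
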