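import Pool.Agent.P.MP_064970_gt.ST1

/-!
d from DEF0. On the compact set S cap closedBall 0 R the gradient is >= 2m > 0, so it is >= m on
{|d| <= delta0} cap closedBall. nu = psi(|grad d|^2) grad d with psi smooth, psi(s) = s^(-1/2) for s
>= m^2/4, psi(s) <= s^(-1/2), 0 near 0. dv nu = 0 at x = X(z0) in S cap closedBall: |nu| = 1 near x
gives <D nu N, N> = 0; nu(X z) = -N(X z) near z0 is orthogonal to Xu, Xv; differentiate: <D nu Xu,
Xu> + <D nu Xv, Xv> = -<nu, Xuu + Xvv> = 0 (X = Re Phi); the trace in the orthogonal frame Xu, Xv, N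
(Chart.frame).
-/

open scoped Manifold ContDiff
open MeasureTheory Set Filter Topology Metric
open scoped RealInnerProductSpace ENNReal ComplexConjugate Real

noncomputable section

namespace MW

universe u

theorem DEFF_trace (c : Chart) {z : ℂ} (hz : z ∈ ball (0 : ℂ) c.r) {n : E} (hn : ‖n‖ = 1)
    (hu : ⟪n, c.Xu z⟫ = 0) (hv : ⟪n, c.Xv z⟫ = 0) (A : E →L[ℝ] E) :
    ∑ i, A (EuclideanSpace.single i 1) i =
      (⟪A (c.Xu z), c.Xu z⟫ + ⟪A (c.Xv z), c.Xv z⟫) / c.jac z + ⟪A n, n⟫ := by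
  have h : ∀ i, A (EuclideanSpace.single i 1) i = c.Xu z i / c.jac z * A (c.Xu z) i +
      c.Xv z i / c.jac z * A (c.Xv z) i + n i * A n i := fun i => by
    conv_lhs => rw [c.frame hz hn hu hv (EuclideanSpace.single i 1)]
    simp [EuclideanSpace.inner_single_left]
  simp only [h, Fin.sum_univ_three, inner_eq]
  ring

theorem DEFF_unit {ν : E → E} {x : E} (hν : DifferentiableAt ℝ ν x)
    (h : ∀ᶠ y in 𝓝 x, ‖ν y‖ = 1) (v : E) : ⟪fderiv ℝ ν x v, ν x⟫ = 0 := by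
  have h1 := hν.hasFDerivAt.inner ℝ hν.hasFDerivAt
  have h2 : HasFDerivAt (fun y => ⟪ν y, ν y⟫) (0 : E →L[ℝ] ℝ) x := by
    refine (hasFDerivAt_const (1 : ℝ) x).congr_of_eventuallyEq (h.mono fun y hy => ?_)
    simp only [real_inner_self_eq_norm_sq, hy, one_pow]
  have h3 := congrArg (fun L : E →L[ℝ] ℝ => L v) (h1.unique h2)
  simp only [ContinuousLinearMap.comp_apply, ContinuousLinearMap.prod_apply, fderivInnerCLM_apply,
    zero_apply] at h3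
  rw [real_inner_comm] at h3
  linarith

theorem DEFF_dir (c : Chart) {ν : E → E} (hν : DifferentiableAt ℝ ν (c.X 0))
    (h : ∀ᶠ z in 𝓝 (0 : ℂ), ∑ i, ((ν (c.X z) i : ℝ) : ℂ) * deriv (c.Φ i) z = 0) (w : ℂ) :
    ∑ i, (((fderiv ℝ ν (c.X 0) (c.DX 0 w) i : ℝ) : ℂ) * deriv (c.Φ i) 0 +
      ((ν (c.X 0) i : ℝ) : ℂ) * (deriv (deriv (c.Φ i)) 0 * w)) = 0 := by
  have h0 : (0 : ℂ) ∈ ball (0 : ℂ) c.r := mem_ball_self c.r_pos
  have hγ : HasDerivAt (fun t : ℝ => (t : ℂ) * w) w 0 := by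
    simpa using (hasDerivAt_id (0 : ℝ)).ofReal_comp.mul_const w
  have e0 : (0 : ℂ) = ((0 : ℝ) : ℂ) * w := by simp
  have h1 : HasDerivAt (fun t : ℝ => ν (c.X ((t : ℂ) * w))) (fderiv ℝ ν (c.X 0) (c.DX 0 w)) 0 :=
    (hν.hasFDerivAt.comp 0 (c.hasFDerivAt_X h0)).comp_hasDerivAt_of_eq 0 hγ e0
  have h2 : ∀ i, HasDerivAt (fun t : ℝ => ((ν (c.X ((t : ℂ) * w)) i : ℝ) : ℂ) *
      deriv (c.Φ i) ((t : ℂ) * w))
      (((fderiv ℝ ν (c.X 0) (c.DX 0 w) i : ℝ) : ℂ) * deriv (c.Φ i) 0 +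
        ((ν (c.X 0) i : ℝ) : ℂ) * (deriv (deriv (c.Φ i)) 0 * w)) 0 := fun i => by
    have h3 := ((EuclideanSpace.proj i : E →L[ℝ] ℝ).hasFDerivAt.comp_hasDerivAt 0 h1).ofReal_comp
    have h4 := ((c.ChartAPI_an i).deriv 0 h0).differentiableAt.hasDerivAt.comp_of_eq 0 hγ e0
    have h5 := h3.mul h4
    simp only [Function.comp_apply, ← e0] at h5
    exact h5
  have h3 : Tendsto (fun t : ℝ => (t : ℂ) * w) (𝓝 0) (𝓝 0) := by
    have h4 := hγ.continuousAt.tendsto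
    rwa [← e0] at h4
  exact (HasDerivAt.fun_sum fun i _ => h2 i).unique
    ((hasDerivAt_const (0 : ℝ) (0 : ℂ)).congr_of_eventuallyEq (h3.eventually h))

theorem DEFF_dv {M : Surf} {x : E} (hx : x ∈ M.S) {ν : E → E} (hν : DifferentiableAt ℝ ν x)
    (h1 : ∀ᶠ y in 𝓝 x, ‖ν y‖ = 1) (h2 : ∀ᶠ y in 𝓝 x, y ∈ M.S → ν y = -M.N y) : dv ν x = 0 := by
  obtain ⟨c, rfl, hf⟩ := M.chart x hx
  have h0 : (0 : ℂ) ∈ ball (0 : ℂ) c.r := mem_ball_self c.r_pos
  have h3 : ∀ᶠ z in 𝓝 (0 : ℂ), ∑ i, ((ν (c.X z) i : ℝ) : ℂ) * deriv (c.Φ i) z = 0 := by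
    filter_upwards [(c.hasFDerivAt_X h0).continuousAt.eventually h2, isOpen_ball.mem_nhds h0]
      with z h4 hz
    rw [h4 (hf.emb.mem hz)]
    simp only [PiLp.neg_apply, Complex.ofReal_neg, neg_mul, Finset.sum_neg_distrib, hf.nrm z hz,
      neg_zero]
  have h4 := congrArg Complex.re (DEFF_dir c hν h3 1)
  have h5 := congrArg Complex.im (DEFF_dir c hν h3 Complex.I)
  have h6 := DEFF_unit hν h1 (M.N (c.X 0))
  rw [h2.self_of_nhds hx, inner_neg_right, neg_eq_zero] at h6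
  rw [dv, DEFF_trace c h0 (M.N_unit _ hx) (hf.inner_Xu h0) (hf.inner_Xv h0), h6, add_zero,
    div_eq_zero_iff]
  left
  have e1 : c.DX 0 1 = c.Xu 0 := by simp [Chart.DX_apply]
  have e2 : c.DX 0 Complex.I = c.Xv 0 := by simp [Chart.DX_apply]
  rw [e1] at h4
  rw [e2] at h5
  rw [inner_eq, inner_eq]
  generalize fderiv ℝ ν (c.X 0) (c.Xu 0) = a at h4 ⊢
  generalize fderiv ℝ ν (c.X 0) (c.Xv 0) = b at h5 ⊢
  simp only [Fin.sum_univ_three, Complex.add_re, Complex.add_im, Complex.re_ofReal_mul,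
    Complex.im_ofReal_mul, mul_one, Complex.mul_I_im, Complex.zero_re, Complex.zero_im] at h4 h5
  simp only [Chart.Xu, Chart.Xv]
  linarith

/-- A smooth normalisation of vectors which are not short. -/
def DEFF_n (m : ℝ) (v : E) : E := (√(‖v‖ ^ 2 + expNegInvGlue (m ^ 2 - ‖v‖ ^ 2)))⁻¹ • v

theorem DEFF_pos {m : ℝ} (hm : 0 < m) (v : E) :
    0 < ‖v‖ ^ 2 + expNegInvGlue (m ^ 2 - ‖v‖ ^ 2) := by
  rcases lt_or_ge (‖v‖ ^ 2) (m ^ 2) with h | h
  · exact add_pos_of_nonneg_of_pos (sq_nonneg _) (expNegInvGlue.pos_of_pos (sub_pos.2 h))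
  · exact add_pos_of_pos_of_nonneg ((pow_pos hm 2).trans_le h) (expNegInvGlue.nonneg _)

theorem DEFF_smooth {m : ℝ} (hm : 0 < m) : ContDiff ℝ 1 (DEFF_n m) := by
  have h1 : ContDiff ℝ 1 fun v : E => ‖v‖ ^ 2 := contDiff_norm_sq ℝ
  have h2 : ContDiff ℝ 1 expNegInvGlue := expNegInvGlue.contDiff (n := 1)
  exact (((h1.add (h2.comp (contDiff_const.sub h1))).sqrt fun v => (DEFF_pos hm v).ne').inv
    fun v => (Real.sqrt_pos.2 (DEFF_pos hm v)).ne').smul contDiff_id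

theorem DEFF_le {m : ℝ} (hm : 0 < m) (v : E) : ‖DEFF_n m v‖ ≤ 1 := by
  have h := Real.sqrt_pos.2 (DEFF_pos hm v)
  rw [DEFF_n, norm_smul, norm_inv, Real.norm_of_nonneg h.le, inv_mul_le_one₀ h]
  exact Real.le_sqrt_of_sq_le (le_add_of_nonneg_right (expNegInvGlue.nonneg _))

theorem DEFF_eq {m : ℝ} (hm : 0 < m) {v : E} (h : m ≤ ‖v‖) : DEFF_n m v = ‖v‖⁻¹ • v := by
  rw [DEFF_n, expNegInvGlue.zero_of_nonpos (sub_nonpos.2 (pow_le_pow_left₀ hm.le h 2)), add_zero,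
    Real.sqrt_sq (norm_nonneg _)]

theorem deff_of (hDEF0 : S_DEF0) : S_DEFF := by
  intro M hM R
  obtain ⟨d, hd, hW, hW', hS⟩ := hDEF0 M hM
  obtain ⟨g, hg, hgi, hgn⟩ : ∃ g : E → E, ContDiff ℝ 1 g ∧ (∀ x v, ⟪g x, v⟫ = fderiv ℝ d x v) ∧
      ∀ x, ‖g x‖ = ‖fderiv ℝ d x‖ :=
    ⟨fun x => (InnerProductSpace.toDual ℝ E).symm (fderiv ℝ d x),
      (InnerProductSpace.toDual ℝ E).symm.contDiff.comp (hd.fderiv_right (by norm_num)),
      fun x v => InnerProductSpace.toDual_symm_apply, fun x => LinearIsometryEquiv.norm_map _ _⟩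
  have hgS : ∀ x ∈ M.S, 0 < ‖g x‖ ∧ ‖g x‖⁻¹ • g x = -M.N x := fun x hx => by
    obtain ⟨c, hc, h⟩ := hS x hx
    have h1 : g x = -(c • M.N x) := by
      refine ext_inner_right ℝ fun v => ?_
      rw [hgi, h, inner_neg_left, real_inner_smul_left]
    have h2 : ‖g x‖ = c := by
      rw [h1, norm_neg, norm_smul, M.N_unit x hx, mul_one, Real.norm_of_nonneg hc.le]
    rw [h2, h1, smul_neg, smul_smul, inv_mul_cancel₀ hc.ne', one_smul]
    exact ⟨hc, rfl⟩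
  have hz : ∀ x ∈ M.S, d x = 0 := fun x hx =>
    le_antisymm (not_lt.1 fun h => disjoint_left.1 M.disjS ((hW x).1 h) hx)
      (not_lt.1 fun h => disjoint_left.1 M.disjS' ((hW' x).1 h) hx)
  obtain ⟨a, ha, hb⟩ := (isCompact_closedBall (0 : E) R).exists_forall_le' (a := (0 : ℝ))
    (f := fun x => |d x| + ‖g x‖) (hd.continuous.abs.add hg.continuous.norm).continuousOn
    fun x _ => by
      rcases M.mem_cases (hM.sub univ (mem_univ x)) with h | h | h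
      · exact add_pos_of_pos_of_nonneg (abs_pos.2 ((hW x).2 h).ne') (norm_nonneg _)
      · exact add_pos_of_pos_of_nonneg (abs_pos.2 ((hW' x).2 h).ne) (norm_nonneg _)
      · exact add_pos_of_nonneg_of_pos (abs_nonneg _) (hgS x h).1
  have hm : 0 < a / 3 := by positivity
  have hν := (DEFF_smooth hm).comp hg
  refine ⟨d, fun x => DEFF_n (a / 3) (g x), a / 3, hm, hd, hν, fun x => DEFF_le hm _, hW, hW',
    fun x hx h => ?_, fun x hx => ?_⟩
  · have h1 : a / 3 ≤ ‖g x‖ := by linarith [hb x hx]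
    have h2 := hm.trans_le h1
    rw [DEFF_eq hm h1, ← hgn]
    refine ⟨norm_smul_inv_norm (𝕜 := ℝ) (norm_pos_iff.1 h2), h2, fun v => ?_⟩
    rw [real_inner_smul_left, mul_inv_cancel_left₀ h2.ne', hgi]
  · have h1 : a / 3 < ‖g x‖ := by
      have h2 := hb x hx.2
      rw [hz x hx.1, abs_zero, zero_add] at h2
      linarith
    have h2 : ∀ᶠ y in 𝓝 x, a / 3 < ‖g y‖ := hg.continuous.norm.continuousAt.eventually (lt_mem_nhds h1)
    have h3 : ∀ᶠ y in 𝓝 x, y ∈ M.S → DEFF_n (a / 3) (g y) = -M.N y :=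
      h2.mono fun y hy hyS => by rw [DEFF_eq hm hy.le, (hgS y hyS).2]
    refine ⟨h3.self_of_nhds hx.1, DEFF_dv hx.1 (hν.differentiable one_ne_zero x)
      (h2.mono fun y hy => ?_) h3⟩
    rw [DEFF_eq hm hy.le]
    exact norm_smul_inv_norm (𝕜 := ℝ) (norm_pos_iff.1 (hm.trans hy))

end MW
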