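import Pool.Agent.P.MP_064970_gt.ST

/-!
Let x in S be top on a regular line with edx > 0. Mem.finite_of_cxg, Mem.chord: the segment from x -
T e to x + T e has its end points in W' and is transversal. PERSIST: for x' in S_k near x the
parallel segment with direction ek through x' meets S_k in points that correspond one to one, in
order, to those of S; so partner_k x' is close to partner x with close normal. Hence edx_k >= edx/2
and <N_k, ek> >= <N,e>/2 on S_k cap ball x delta, which has mass >= c (CONV gives points of S_k near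
x, LOW). Mem.E0_mono.
-/

open scoped Manifold ContDiff
open MeasureTheory Set Filter Topology Metric
open scoped RealInnerProductSpace ENNReal ComplexConjugate Real

noncomputable section

namespace MW

universe u

theorem EDZ_pt (x e : E) (T t : ℝ) : x - T • e + t • ((2 * T) • e) = x + (2 * T * t - T) • e := by
  rw [smul_smul, sub_smul, mul_comm t]
  abel

/-- Chords of the approximating surfaces near a regular chord. -/
theorem EDZ_near (hPERSIST : S_PERSIST) {U : Ultrafilter ℕ} {Mk : ℕ → Surf} {M : Surf}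
    {ek : ℕ → E} {e : E} (hk : ∀ k, (Mk k).Mem) (hM : M.Mem) (hc : Conv (U : Filter ℕ) Mk M)
    (he : ‖e‖ = 1) (hek : Tendsto ek U (𝓝 e)) (hcx : M.CXg e) {x : E} (hx : x ∈ M.S)
    (hreg : M.RegLine e x) (htop : 0 < ⟪M.N x, e⟫) {η : ℝ} (hη : 0 < η) :
    ∃ δ, 0 < δ ∧ ∀ᶠ k in (U : Filter ℕ), ∀ x' ∈ (Mk k).S, ‖x' - x‖ < δ →
      ‖(Mk k).N x' - M.N x‖ < η ∧
        ‖(Mk k).N ((Mk k).partner (ek k) x') - M.N (M.partner e x)‖ < η := by
  obtain ⟨⟨T, hT, hW⟩, -⟩ := hM.finite_of_cxg he hcx x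
  have hlow : x - T • e ∈ M.W' := by
    have := hW (-T) (by rw [abs_neg, abs_of_pos hT])
    rwa [neg_smul, ← sub_eq_add_neg] at this
  have hup : x - T • e + (2 * T) • e ∈ M.W' := by
    have := hW T (by rw [abs_of_pos hT])
    have h2 := EDZ_pt x e T 1
    rw [one_smul] at h2
    rw [h2]
    convert this using 3
    ring
  obtain ⟨hl0, hlT, -⟩ := hM.chord hx htop hT hlow
  have hy := hM.partner_mem e hx
  set l := M.ell e x with hl
  have h2T : 0 < 2 * T := by positivity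
  obtain ⟨ε₀, hε₀, hsep, hper⟩ := hPERSIST U Mk M hk hc (x - T • e) ((2 * T) • e)
    (fun t _ => by rw [hM.univ]; trivial) (Set.disjoint_left.1 M.disjS' hlow)
    (Set.disjoint_left.1 M.disjS' hup) (fun t _ ht => by
      rw [EDZ_pt] at ht ⊢
      rw [real_inner_smul_left, real_inner_comm]
      exact mul_ne_zero h2T.ne' (hreg _ ht))
  obtain ⟨δ, hδ, hev⟩ := hper (min ε₀ η) (lt_min hε₀ hη)
  set ty : ℝ := 1 / 2 - l / (2 * T) with hty
  have hq0 : 0 < l / (2 * T) := by positivity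
  have hq1 : l / (2 * T) < 1 / 2 := by
    rw [div_lt_iff₀ h2T]
    linarith
  have hhalf : (1 / 2 : ℝ) ∈ Icc (0 : ℝ) 1 := ⟨by norm_num, by norm_num⟩
  have htyI : ty ∈ Icc (0 : ℝ) 1 := ⟨by linarith, by linarith⟩
  have hmid : ∀ z v : E, z - T • v + (1 / 2 : ℝ) • ((2 * T) • v) = z := fun z v => by
    rw [EDZ_pt, show 2 * T * (1 / 2) - T = 0 by ring, zero_smul, add_zero]
  have hbelow : ∀ (z v : E) (s : ℝ),
      z - T • v + (1 / 2 - s / (2 * T)) • ((2 * T) • v) = z - s • v := fun z v s => by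
    rw [EDZ_pt, show 2 * T * (1 / 2 - s / (2 * T)) - T = -s by field_simp; ring, neg_smul,
      sub_eq_add_neg]
  have hpy : x - T • e + ty • ((2 * T) • e) = M.partner e x := hbelow x e l
  have hxS : x - T • e + (1 / 2 : ℝ) • ((2 * T) • e) ∈ M.S := by rw [hmid]; exact hx
  have hyS : x - T • e + ty • ((2 * T) • e) ∈ M.S := by rw [hpy]; exact hy
  have heq : ∀ s ∈ Icc (0 : ℝ) 1, ∀ t ∈ Icc (0 : ℝ) 1, x - T • e + s • ((2 * T) • e) ∈ M.S →
      x - T • e + t • ((2 * T) • e) ∈ M.S → |s - t| ≤ 2 * ε₀ → s = t := by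
    intro s hs t ht h1 h2 h3
    by_contra hne
    have := hsep s hs t ht h1 h2 hne
    linarith
  have hgap : 4 * ε₀ < 1 / 2 - ty := by
    have := hsep _ hhalf _ htyI hxS hyS (by intro h; linarith)
    rwa [abs_of_pos (by linarith)] at this
  have hcl : ∀ᶠ k in (U : Filter ℕ), ‖ek k - e‖ < δ / (4 * T) := by
    have := Metric.tendsto_nhds.1 hek (δ / (4 * T)) (by positivity)
    simpa only [dist_eq_norm] using this
  refine ⟨δ / 2, by positivity, ?_⟩
  filter_upwards [hev, hcl] with k hk1 hk2 x' hx' hxx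
  have hk3 : T * ‖ek k - e‖ < δ / 4 := by
    rw [lt_div_iff₀ (by positivity)] at hk2
    linarith
  have ha : ‖x' - T • ek k - (x - T • e)‖ < δ := by
    have h1 : x' - T • ek k - (x - T • e) = (x' - x) - T • (ek k - e) := by
      rw [smul_sub]
      abel
    rw [h1]
    refine lt_of_le_of_lt (norm_sub_le _ _) ?_
    rw [norm_smul, Real.norm_of_nonneg hT.le]
    linarith
  have hb : ‖(2 * T) • ek k - (2 * T) • e‖ < δ := by
    rw [← smul_sub, norm_smul, Real.norm_of_nonneg h2T.le]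
    linarith
  obtain ⟨-, -, -, -, hfw, hbw, hinj⟩ := hk1 _ _ ha hb
  have hm1 := min_le_left ε₀ η
  have hm2 := min_le_right ε₀ η
  have hx'S : x' - T • ek k + (1 / 2 : ℝ) • ((2 * T) • ek k) ∈ (Mk k).S := by
    rw [hmid]
    exact hx'
  constructor
  · obtain ⟨t, ht, h1, h2, h3⟩ := hbw _ hhalf hx'S
    have : 1 / 2 = t := heq _ hhalf _ ht hxS h1 (by linarith)
    subst this
    rw [hmid, hmid] at h3
    linarith
  · obtain ⟨t', ht', h1, h2⟩ := hfw _ htyI hyS
    obtain ⟨h1a, h1b⟩ := abs_lt.1 h1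
    obtain ⟨t, ht, h3, h4, h5⟩ := hbw _ ht' h2
    obtain ⟨h4a, h4b⟩ := abs_lt.1 h4
    have h6 : t = ty := heq _ ht _ htyI h3 hyS (abs_le.2 ⟨by linarith, by linarith⟩)
    subst h6
    have h7 : t' = 1 / 2 - (2 * T * (1 / 2 - t')) / (2 * T) := by
      field_simp
      ring
    have h8 : x' - T • ek k + t' • ((2 * T) • ek k) = x' - (2 * T * (1 / 2 - t')) • ek k := by
      rw [← hbelow x' (ek k) (2 * T * (1 / 2 - t')), ← h7]
    have h9 : (Mk k).ell (ek k) x' = 2 * T * (1 / 2 - t') := by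
      refine Surf.ell_eq (mul_pos h2T (by linarith)) (h8 ▸ h2) ?_
      intro s hs0 hs1 hs
      rw [← hbelow x' (ek k) s] at hs
      have hs2 : 0 < s / (2 * T) := by positivity
      have hs3 : s / (2 * T) < 1 / 2 - t' := by
        rw [div_lt_iff₀ h2T]
        linarith
      have hsI : 1 / 2 - s / (2 * T) ∈ Icc (0 : ℝ) 1 := ⟨by linarith [ht'.1], by linarith⟩
      obtain ⟨r, hr, g1, g2, -⟩ := hbw _ hsI hs
      obtain ⟨g2a, g2b⟩ := abs_lt.1 g2
      by_cases c1 : 1 / 2 ≤ r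
      · have := hinj _ hsI _ hhalf hs hx'S (abs_le.2 ⟨by linarith, by linarith⟩)
        linarith
      by_cases c2 : r ≤ ty
      · have := hinj _ hsI _ ht' hs h2 (abs_le.2 ⟨by linarith, by linarith⟩)
        linarith
      have g3 : r = 1 / 2 - (2 * T * (1 / 2 - r)) / (2 * T) := by
        field_simp
        ring
      rw [g3, hbelow] at g1
      refine Surf.not_mem_of_lt_ell (mul_pos h2T (by linarith)) ?_ g1
      have g4 : 1 / 2 - r < l / (2 * T) := by linarith
      rw [lt_div_iff₀ h2T] at g4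
      linarith
    rw [hpy, h8, ← h9] at h5
    exact lt_of_lt_of_le h5 hm2

theorem EDZ_cont {e a b : E} {c : ℝ} (h1 : c < ed e a b * ⟪a, e⟫) (h2 : 0 < ⟪a, e⟫) :
    ∃ η, 0 < η ∧ ∀ e' a' b' : E, dist e' e < η → ‖a' - a‖ < η → ‖b' - b‖ < η →
      c < ed e' a' b' * ⟪a', e'⟫ ∧ 0 < ⟪a', e'⟫ := by
  have hG : Continuous fun q : E × E × E => ⟪q.2.1, q.1⟫ :=
    (continuous_fst.comp continuous_snd).inner continuous_fst
  have hF : Continuous fun q : E × E × E => ed q.1 q.2.1 q.2.2 * ⟪q.2.1, q.1⟫ :=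
    continuous_ed.mul hG
  have hev : ∀ᶠ q : E × E × E in 𝓝 (e, a, b),
      c < ed q.1 q.2.1 q.2.2 * ⟪q.2.1, q.1⟫ ∧ 0 < ⟪q.2.1, q.1⟫ :=
    ((hF.tendsto (e, a, b)).eventually (lt_mem_nhds h1)).and
      ((hG.tendsto (e, a, b)).eventually (lt_mem_nhds h2))
  obtain ⟨η, hη, hball⟩ := Metric.eventually_nhds_iff.1 hev
  refine ⟨η, hη, fun e' a' b' k1 k2 k3 => hball (y := (e', a', b')) ?_⟩
  rw [Prod.dist_eq, Prod.dist_eq]
  exact max_lt k1 (max_lt (by rwa [dist_eq_norm]) (by rwa [dist_eq_norm]))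

theorem edz_of (hPERSIST : S_PERSIST) (hCONV : S_CONV) (hLOW : S_LOW) : S_EDZ := by
  intro U Mk M ek e hk hM hc hek1 hek hcx hE x hx hreg htop
  have he : ‖e‖ = 1 := by
    have h1 := hek.norm
    simp only [hek1] at h1
    exact tendsto_nhds_unique h1 tendsto_const_nhds
  by_contra hne
  have hpos : 0 < M.edx e x := lt_of_le_of_ne (M.edx_nonneg e x) (Ne.symm hne)
  obtain ⟨m, hm⟩ : ∃ m, m = ed e (M.N x) (M.N (M.partner e x)) * ⟪M.N x, e⟫ := ⟨_, rfl⟩
  have hm0 : 0 < m := hm ▸ mul_pos hpos htop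
  obtain ⟨η, hη, hball⟩ := EDZ_cont ((half_lt_self hm0).trans_eq hm) htop
  obtain ⟨δ, hδ, hnear⟩ := EDZ_near hPERSIST hk hM hc he hek hcx hx hreg htop hη
  obtain ⟨xk, hxk, hlim, -⟩ := (hCONV U Mk M hk hc).2.1 x hx
  have hc0 : 0 < m / 2 * (π / 4 * (δ / 2) ^ 2) := by positivity
  have h1 := (hE (‖x‖ + δ)).eventually (gt_mem_nhds hc0)
  have h2 := Metric.tendsto_nhds.1 hek η hη
  have h3 := Metric.tendsto_nhds.1 hlim (δ / 2) (by positivity)
  obtain ⟨k, hk1, hk2, hk3, hk4, hk5⟩ := (h1.and (h2.and (h3.and (hxk.and hnear)))).exists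
  have hfin : (Mk k).μ (ball x δ) ≠ ⊤ :=
    ne_top_of_le_ne_top ENNReal.ofReal_ne_top ((hk k).bd x δ hδ)
  have hpt : ∀ᵐ z ∂(Mk k).μ, z ∈ ball x δ →
      m / 2 < (Mk k).edx (ek k) z * ⟪(Mk k).N z, ek k⟫ ∧ 0 < ⟪(Mk k).N z, ek k⟫ := by
    filter_upwards [(Mk k).ae_mem] with z hz hzb
    obtain ⟨a, b⟩ := hk5 z hz (mem_ball_iff_norm.1 hzb)
    exact hball _ _ _ hk2 a b
  have hset : (ball x δ ∩ (Mk k).top (ek k) : Set E) =ᵐ[(Mk k).μ] (ball x δ : Set E) := by
    filter_upwards [hpt] with z hz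
    exact propext ⟨fun h => h.1, fun h => ⟨h, (hz h).2⟩⟩
  have hmass : π / 4 * (δ / 2) ^ 2 ≤ (Mk k).μ.real (ball x δ) := by
    refine (hLOW (Mk k) (xk k) (δ / 2) hk4 (by positivity)
      (by rw [(hk k).univ]; exact subset_univ _)).2.trans (measureReal_mono ?_ hfin)
    exact ball_subset_ball' (by linarith)
  have hlow : m / 2 * (Mk k).μ.real (ball x δ) ≤ (Mk k).E0 (ek k) (ball x δ) := by
    rw [Surf.E0, setIntegral_congr_set hset, mul_comm, ← smul_eq_mul, ← setIntegral_const]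
    refine setIntegral_mono_on_ae (integrableOn_const hfin)
      ((hk k).integrableOn_E0 (hek1 k) isBounded_ball) measurableSet_ball ?_
    filter_upwards [hpt] with z hz hzb using (hz hzb).1.le
  have hmono : (Mk k).E0 (ek k) (ball x δ) ≤ (Mk k).E0 (ek k) (ball 0 (‖x‖ + δ)) := by
    refine (hk k).E0_mono (hek1 k) (inter_subset_left.trans ?_) isBounded_ball
    exact ball_subset_ball' (by rw [dist_zero_right]; linarith)
  have := mul_le_mul_of_nonneg_left hmass (half_pos hm0).le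
  linarith

end MW
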