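import Pool.Agent.P.MP_064970_gt.ST

/-!
T4. Replace nu by -nu so that nu 2 >= 0.86 (wedge_e3). For unit a with a 2 > 0: |a - nu| <= 5 wedge
a nu; for b 2 < 0: |b + nu| <= 5 wedge b nu. |a - mirror b| >= 2|nu'| - |a - nu| - |b + nu|, so ed
>= |nu'|^2 - 25 (wa^2 + wb^2). BIJ with H = wedge^2 and H = 1: int_top N3 = (1/2) int |N3|, and |N3|
>= 1/2 - 3 w^2.
-/

open scoped Manifold ContDiff
open MeasureTheory Set Filter Topology Metric
open scoped RealInnerProductSpace ENNReal ComplexConjugate Real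

noncomputable section

namespace MW

universe u

theorem ELB_near {a ν : E} (ha : ‖a‖ = 1) (hν : ‖ν‖ = 1) (ha2 : 0 ≤ a 2) (hν2 : 0 ≤ ν 2)
    (hw : ‖pr ν‖ ≤ 1 / 2) : ‖a - ν‖ ^ 2 ≤ 4 * wedge a ν ^ 2 := by
  have h1 := Coord_norm_sub_sq ha hν
  have h2 := wedge_sq ha hν
  have h3 := inner_eq_pr a ν
  have h4 : |⟪pr a, pr ν⟫| ≤ ‖pr a‖ * ‖pr ν‖ := abs_real_inner_le_norm _ _
  have h5 : ‖pr a‖ ≤ 1 := ha ▸ norm_pr_le a
  have h6 : ‖pr a‖ * ‖pr ν‖ ≤ 1 * (1 / 2) :=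
    mul_le_mul h5 hw (norm_nonneg _) zero_le_one
  have h7 := neg_abs_le ⟪pr a, pr ν⟫
  have h8 : 0 ≤ a 2 * ν 2 := mul_nonneg ha2 hν2
  have h9 : -(1 / 2) ≤ ⟪a, ν⟫ := by linarith
  have h10 : ⟪a, ν⟫ ≤ 1 := by nlinarith [sq_nonneg ‖a - ν‖]
  rw [h1, h2]
  nlinarith

theorem ELB_ed {a b ν : E} (ha : ‖a‖ = 1) (hb : ‖b‖ = 1) (hν : ‖ν‖ = 1) (ha2 : 0 ≤ a 2)
    (hb2 : b 2 ≤ 0) (hν2 : 0 ≤ ν 2) (hw : ‖pr ν‖ ≤ 1 / 2) :
    ‖pr ν‖ ^ 2 - 4 * wedge a ν ^ 2 - 4 * wedge b ν ^ 2 ≤ ed e3 a b := by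
  have h1 := ELB_near ha hν ha2 hν2 hw
  have h2 := ELB_near (a := -b) (by rw [norm_neg, hb]) hν (by simpa using hb2) hν2 hw
  rw [wedge_neg_left] at h2
  have h3 := norm_pr_sub_sq_le a b
  have h4 : ‖pr (a - ν)‖ ≤ ‖a - ν‖ := norm_pr_le _
  have h5 : ‖pr (-b - ν)‖ ≤ ‖-b - ν‖ := norm_pr_le _
  have e : (2 : ℝ) • pr ν = -(pr b - pr a) - pr (a - ν) - pr (-b - ν) := by
    rw [pr_sub, pr_sub, pr_neg, two_smul]; abel
  have h6 : 2 * ‖pr ν‖ ≤ ‖pr b - pr a‖ + ‖a - ν‖ + ‖-b - ν‖ := by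
    have h7 : ‖(2 : ℝ) • pr ν‖ = 2 * ‖pr ν‖ := by rw [norm_smul]; simp
    have h8 := norm_sub_le (-(pr b - pr a) - pr (a - ν)) (pr (-b - ν))
    have h9 := norm_sub_le (-(pr b - pr a)) (pr (a - ν))
    rw [norm_neg] at h9
    rw [← h7, e]
    linarith
  have h10 : (2 * ‖pr ν‖) ^ 2 ≤ (‖pr b - pr a‖ + ‖a - ν‖ + ‖-b - ν‖) ^ 2 :=
    pow_le_pow_left₀ (by positivity) h6 2
  nlinarith [sq_nonneg (‖pr b - pr a‖ - ‖a - ν‖ - ‖-b - ν‖), sq_nonneg (‖a - ν‖ - ‖-b - ν‖)]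

theorem ELB_height {a ν : E} (ha : ‖a‖ = 1) (hν : ‖ν‖ = 1) (hν2 : 0 ≤ ν 2)
    (hw : ‖pr ν‖ ≤ 1 / 2) : 1 / 2 - 3 * wedge a ν ^ 2 ≤ |a 2| := by
  have key : ∀ a : E, ‖a‖ = 1 → 0 ≤ a 2 → 1 / 2 - 3 * wedge a ν ^ 2 ≤ a 2 := by
    intro a ha ha2
    have h1 := ELB_near ha hν ha2 hν2 hw
    have h2 := norm_sq_eq ν
    rw [hν] at h2
    have h3 : ‖pr ν‖ ^ 2 ≤ (1 / 2) ^ 2 := pow_le_pow_left₀ (norm_nonneg _) hw 2
    have h4 : 43 / 50 ≤ ν 2 := by nlinarith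
    have h5 := abs_two_le (a - ν)
    have h6 := neg_abs_le ((a - ν) 2)
    have h7 : (a - ν) 2 = a 2 - ν 2 := by simp
    nlinarith [sq_nonneg (‖a - ν‖ - 2 / 3)]
  rcases le_total 0 (a 2) with h | h
  · rw [abs_of_nonneg h]; exact key a ha h
  · have := key (-a) (by rw [norm_neg, ha]) (by simpa using h)
    rw [wedge_neg_left] at this
    rw [abs_of_nonpos h]
    simpa using this

theorem ELB_fin {M : Surf} (hM : M.Mem) {A : Set E} (hA : Bornology.IsBounded A) :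
    M.μ A < ⊤ :=
  lt_of_le_of_lt (measure_mono subset_closure)
    (M.mu_lt_top hA.isCompact_closure (by rw [hM.univ]; exact subset_univ _))

theorem ELB_int {M : Surf} (hM : M.Mem) {A : Set E} (hA : Bornology.IsBounded A) {f : E → ℝ}
    (hf : Measurable f) {C : ℝ} (hC : ∀ x ∈ M.S, |f x| ≤ C) : IntegrableOn f A M.μ :=
  Measure.integrableOn_of_bounded (M := C) (ELB_fin hM hA).ne hf.aestronglyMeasurable
    (ae_restrict_of_ae (M.ae_mem.mono fun x hx => by rw [Real.norm_eq_abs]; exact hC x hx))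

theorem ELB_main (hBIJ : S_BIJ) (M : Surf) (hM : M.Mem) (K : Set ℂ) (T₀ T : ℝ) (ν : E)
    (hK : MeasurableSet K) (hKb : Bornology.IsBounded K) (h0 : 0 < T₀) (hT : T₀ < T)
    (hs : M.Slab K T₀ T) (hν : ‖ν‖ = 1) (hw : ‖pr ν‖ ≤ 1 / 2) (hν2 : 0 ≤ ν 2) :
    ‖pr ν‖ ^ 2 * M.μ.real (cyl K T) / 8 - 100 * ∫ x in cyl K T, wedge (M.N x) ν ^ 2 ∂M.μ
      ≤ M.E0 e3 (cyl K T) := by
  obtain ⟨hH, hneg⟩ := hBIJ M hM K T₀ T hK hKb h0 hT hs
  have hC : MeasurableSet (cyl K T) := measurableSet_cyl hK T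
  have hCb : Bornology.IsBounded (cyl K T) := isBounded_cyl hKb T
  have hP : MeasurableSet (M.top e3) := M.measurableSet_top e3
  have hQ : MeasurableSet (M.top (-e3)) := M.measurableSet_top (-e3)
  have memP : ∀ x, x ∈ M.top e3 ↔ 0 < M.N x 2 := fun x => by
    unfold Surf.top; rw [mem_ofPred_eq, inner_e3]
  have memQ : ∀ x, x ∈ M.top (-e3) ↔ M.N x 2 < 0 := fun x => by
    unfold Surf.top; rw [mem_ofPred_eq, inner_neg_right, inner_e3, neg_pos]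
  set w : E → ℝ := fun x => wedge (M.N x) ν ^ 2 with hwdef
  set n : E → ℝ := fun x => M.N x 2 with hndef
  have mw : Measurable w :=
    ((continuous_wedge.comp (continuous_id.prodMk continuous_const)).measurable.comp
      M.N_meas).pow_const 2
  have mn : Measurable n := (by fun_prop : Continuous fun a : E => a 2).measurable.comp M.N_meas
  have w0 : ∀ x, 0 ≤ w x := fun x => sq_nonneg _
  have w1 : ∀ x ∈ M.S, |w x| ≤ 1 := fun x hx => by
    rw [abs_of_nonneg (w0 x)]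
    exact pow_le_one₀ (wedge_nonneg _ _) (wedge_le_one (M.N_unit x hx) hν)
  have n1 : ∀ x ∈ M.S, |n x| ≤ 1 := fun x hx => (M.N_unit x hx) ▸ abs_two_le (M.N x)
  have prod1 : ∀ s t : ℝ, |s| ≤ 1 → |t| ≤ 1 → |s * t| ≤ 1 := fun s t a b => by
    rw [abs_mul]; exact mul_le_one₀ a (abs_nonneg _) b
  have bP : Bornology.IsBounded (cyl K T ∩ M.top e3) := hCb.subset inter_subset_left
  have bQ : Bornology.IsBounded (cyl K T ∩ M.top (-e3)) := hCb.subset inter_subset_left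
  have iw : IntegrableOn w (cyl K T) M.μ := ELB_int hM hCb mw w1
  have iabs : IntegrableOn (fun x => |n x|) (cyl K T) M.μ :=
    ELB_int hM hCb mn.abs fun x hx => by rw [abs_abs]; exact n1 x hx
  have in1 : IntegrableOn n (cyl K T ∩ M.top e3) M.μ := ELB_int hM bP mn n1
  have iwn : IntegrableOn (fun x => w x * n x) (cyl K T ∩ M.top e3) M.μ :=
    ELB_int hM bP (mw.mul mn) fun x hx => prod1 _ _ (w1 x hx) (n1 x hx)
  have iwp : IntegrableOn (fun x => w (M.partner e3 x) * n x) (cyl K T ∩ M.top e3) M.μ :=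
    ELB_int hM bP ((mw.comp (hM.measurable_partner e3)).mul mn) fun x hx =>
      prod1 _ _ (w1 _ (hM.partner_mem e3 hx)) (n1 x hx)
  have iwq : IntegrableOn (fun x => w x * |n x|) (cyl K T ∩ M.top (-e3)) M.μ :=
    ELB_int hM bQ (mw.mul mn.abs) fun x hx =>
      prod1 _ _ (w1 x hx) (by rw [abs_abs]; exact n1 x hx)
  have iE : IntegrableOn (fun x => M.edx e3 x * ⟪M.N x, e3⟫) (cyl K T ∩ M.top e3) M.μ :=
    hM.integrableOn_E0 norm_e3 bP
  set Wt : ℝ := ∫ x in cyl K T, w x ∂M.μ with hWt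
  have Wt0 : 0 ≤ Wt := integral_nonneg w0
  have sub_le : ∀ B : Set E, B ⊆ cyl K T → ∫ x in B, w x ∂M.μ ≤ Wt := fun B hB =>
    setIntegral_mono_set iw (Eventually.of_forall w0) hB.eventuallyLE
  have a1 : ∫ x in cyl K T ∩ M.top e3, w x * n x ∂M.μ ≤ Wt := by
    refine le_trans (integral_mono_ae iwn (iw.mono_set inter_subset_left) ?_)
      (sub_le _ inter_subset_left)
    refine ae_restrict_of_ae (M.ae_mem.mono fun x hx => ?_)
    exact mul_le_of_le_one_right (w0 x) ((le_abs_self _).trans (n1 x hx))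
  have a2 : ∫ x in cyl K T ∩ M.top e3, w (M.partner e3 x) * n x ∂M.μ ≤ Wt := by
    rw [← hH w 1 mw fun x hx => w1 x hx.1]
    refine le_trans (integral_mono_ae iwq (iw.mono_set inter_subset_left) ?_)
      (sub_le _ inter_subset_left)
    refine ae_restrict_of_ae (M.ae_mem.mono fun x hx => ?_)
    exact mul_le_of_le_one_right (w0 x) (n1 x hx)
  have a3 : ∫ x in cyl K T ∩ M.top (-e3), |n x| ∂M.μ = ∫ x in cyl K T ∩ M.top e3, n x ∂M.μ := by
    have := hH (fun _ => 1) 1 measurable_const fun x _ => by simp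
    simpa only [one_mul] using this
  have a4 : ∫ x in cyl K T, |n x| ∂M.μ = 2 * ∫ x in cyl K T ∩ M.top e3, n x ∂M.μ := by
    rw [← integral_inter_add_sdiff hP iabs]
    have e1 : ∫ x in cyl K T ∩ M.top e3, |n x| ∂M.μ = ∫ x in cyl K T ∩ M.top e3, n x ∂M.μ :=
      setIntegral_congr_fun (hC.inter hP) fun x hx => abs_of_pos ((memP x).1 hx.2)
    have e2 : ∫ x in cyl K T \ M.top e3, |n x| ∂M.μ
        = ∫ x in cyl K T ∩ M.top (-e3), |n x| ∂M.μ := by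
      refine setIntegral_eq_of_subset_of_forall_sdiff_eq_zero (hC.diff hP) ?_ ?_
      · rintro x ⟨hx, hx'⟩
        refine ⟨hx, fun h => ?_⟩
        have b1 := (memP x).1 h
        have b2 := (memQ x).1 hx'
        linarith
      · rintro x ⟨⟨hx, hx'⟩, hx''⟩
        have b1 : ¬ 0 < M.N x 2 := fun h => hx' ((memP x).2 h)
        have b2 : ¬ M.N x 2 < 0 := fun h => hx'' ⟨hx, (memQ x).2 h⟩
        have : n x = 0 := le_antisymm (not_lt.1 b1) (not_lt.1 b2)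
        rw [this, abs_zero]
    rw [e1, e2, a3]
    ring
  have ic : IntegrableOn (fun _ : E => (1 / 2 : ℝ)) (cyl K T) M.μ :=
    ELB_int hM hCb measurable_const (C := 1) fun x _ => by norm_num [abs_of_pos]
  have a5 : M.μ.real (cyl K T) / 2 - 3 * Wt ≤ ∫ x in cyl K T, |n x| ∂M.μ := by
    have e : ∫ x in cyl K T, (1 / 2 - 3 * w x) ∂M.μ = M.μ.real (cyl K T) / 2 - 3 * Wt := by
      rw [integral_sub ic (iw.const_mul 3), integral_const_mul, setIntegral_const, smul_eq_mul]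
      ring
    rw [← e]
    refine integral_mono_ae (ic.sub (iw.const_mul 3)) iabs ?_
    exact ae_restrict_of_ae (M.ae_mem.mono fun x hx => ELB_height (M.N_unit x hx) hν hν2 hw)
  have a6 : ‖pr ν‖ ^ 2 * (∫ x in cyl K T ∩ M.top e3, n x ∂M.μ)
      - 4 * (∫ x in cyl K T ∩ M.top e3, w x * n x ∂M.μ)
      - 4 * ∫ x in cyl K T ∩ M.top e3, w (M.partner e3 x) * n x ∂M.μ ≤ M.E0 e3 (cyl K T) := by
    have j1 := in1.const_mul (‖pr ν‖ ^ 2)
    have j2 := iwn.const_mul 4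
    have j3 := iwp.const_mul 4
    have j4 : Integrable (fun x => ‖pr ν‖ ^ 2 * n x - 4 * (w x * n x))
      (M.μ.restrict (cyl K T ∩ M.top e3)) := j1.sub j2
    rw [← integral_const_mul, ← integral_const_mul, ← integral_const_mul,
      ← integral_sub j1 j2, ← integral_sub j4 j3]
    refine integral_mono_ae (j4.sub j3) iE ?_
    rw [EventuallyLE, ae_restrict_iff' (hC.inter hP)]
    filter_upwards [M.ae_mem, hneg] with x hx hx' hxm
    have b1 := (memP x).1 hxm.2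
    have b2 := ELB_ed (M.N_unit x hx) (M.N_unit _ (hM.partner_mem e3 hx)) hν b1.le
      (hx' hxm.1 b1).le hν2 hw
    have b3 := mul_le_mul_of_nonneg_right b2 b1.le
    rw [inner_e3]
    change ‖pr ν‖ ^ 2 * M.N x 2 - 4 * (wedge (M.N x) ν ^ 2 * M.N x 2)
      - 4 * (wedge (M.N (M.partner e3 x)) ν ^ 2 * M.N x 2)
      ≤ ed e3 (M.N x) (M.N (M.partner e3 x)) * M.N x 2
    linarith
  have s0 : 0 ≤ ‖pr ν‖ ^ 2 := sq_nonneg _
  have s1 : ‖pr ν‖ ^ 2 ≤ (1 / 2) ^ 2 := pow_le_pow_left₀ (norm_nonneg _) hw 2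
  have m0 : 0 ≤ M.μ.real (cyl K T) := measureReal_nonneg
  have a7 : M.μ.real (cyl K T) / 4 - 3 / 2 * Wt ≤ ∫ x in cyl K T ∩ M.top e3, n x ∂M.μ := by
    linarith
  have a8 := mul_le_mul_of_nonneg_left a7 s0
  have a9 : ‖pr ν‖ ^ 2 * Wt ≤ (1 / 2) ^ 2 * Wt := mul_le_mul_of_nonneg_right s1 Wt0
  have a10 : 0 ≤ ‖pr ν‖ ^ 2 * M.μ.real (cyl K T) := mul_nonneg s0 m0
  nlinarith

theorem elb_of (hBIJ : S_BIJ) : S_ELB := by
  intro M hM K T₀ T ν hK hKb h0 hT hs hν hw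
  rw [wedge_e3] at hw ⊢
  rcases le_total 0 (ν 2) with h | h
  · exact ELB_main hBIJ M hM K T₀ T ν hK hKb h0 hT hs hν hw h
  · have := ELB_main hBIJ M hM K T₀ T (-ν) hK hKb h0 hT hs (by rw [norm_neg, hν])
      (by rw [pr_neg, norm_neg]; exact hw) (by simpa using h)
    simpa only [pr_neg, norm_neg, wedge_neg_right] using this

end MW
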