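import Pool.Agent.P.MP_064970_gt.ST1

/-!
Write L(x) = int_0^1 (x3 + T) exp(-int_0^1 (1-a)(x3+T) K(x - (1-a)(1-b)... e3) db) da or L(x) =
int_0^{x3+T} exp(-int_0^u K(x - s e3) ds) du; parametric integrals of C1 functions over compact
intervals are C1 (hasFDerivAt_integral_of_dominated_of_fderiv_le, continuity of parametric interval
integrals). With F(x,u) = exp(-int_0^u K(x - s e3) ds): D L v = v3 F(x, x3 + T) - int_0^{x3+T}
F(x,u) int_0^u DK(x - s e3) v ds du; substitute back.
-/

open scoped Manifold ContDiff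
open MeasureTheory Set Filter Topology Metric
open scoped RealInnerProductSpace ENNReal ComplexConjugate Real

noncomputable section

namespace MW

universe u

/-- Differentiation under the integral sign on a fixed interval. -/
theorem LDER_partial {G : E → ℝ → ℝ} {G' : E → ℝ → E →L[ℝ] ℝ}
    (hG : Continuous (Function.uncurry G)) (hG' : Continuous (Function.uncurry G'))
    (hd : ∀ x t, HasFDerivAt (fun y => G y t) (G' x t) x) (u : ℝ) (x : E) :
    HasFDerivAt (fun y => ∫ t in (0 : ℝ)..u, G y t) (∫ t in (0 : ℝ)..u, G' x t) x := by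
  have hK : IsCompact (closedBall x 1 ×ˢ uIcc (0 : ℝ) u) :=
    (isCompact_closedBall x 1).prod isCompact_uIcc
  obtain ⟨C, hC⟩ := hK.exists_bound_of_continuousOn hG'.continuousOn
  have hc : ∀ y, Continuous (G y) := fun y => hG.comp (Continuous.prodMk_right y)
  have hc' : ∀ y, Continuous (G' y) := fun y => hG'.comp (Continuous.prodMk_right y)
  refine intervalIntegral.hasFDerivAt_integral_of_dominated_of_fderiv_le (μ := volume)
    (s := closedBall x 1) (bound := fun _ => C) (closedBall_mem_nhds x one_pos)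
    (Eventually.of_forall fun y => (hc y).aestronglyMeasurable) ((hc x).intervalIntegrable _ _)
    (hc' x).aestronglyMeasurable ?_ intervalIntegrable_const ?_
  · exact Eventually.of_forall fun t ht y hy => hC (y, t) ⟨hy, uIoc_subset_uIcc ht⟩
  · exact Eventually.of_forall fun t _ y _ => hd y t

/-- The parametric primitive is differentiable jointly in the parameter and the endpoint. -/
theorem LDER_joint {G : E → ℝ → ℝ} {G' : E → ℝ → E →L[ℝ] ℝ}
    (hG : Continuous (Function.uncurry G)) (hG' : Continuous (Function.uncurry G'))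
    (hd : ∀ x t, HasFDerivAt (fun y => G y t) (G' x t) x) (q : E × ℝ) :
    HasFDerivAt (fun p : E × ℝ => ∫ t in (0 : ℝ)..p.2, G p.1 t)
      ((∫ t in (0 : ℝ)..q.2, G' q.1 t).coprod (G q.1 q.2 • ContinuousLinearMap.id ℝ ℝ)) q := by
  have hc : ∀ y, Continuous (G y) := fun y => hG.comp (Continuous.prodMk_right y)
  have h2 : ∀ v : E × ℝ, HasFDerivAt (fun u => ∫ t in (0 : ℝ)..u, G v.1 t)
      (G v.1 v.2 • ContinuousLinearMap.id ℝ ℝ) v.2 := by
    intro v
    have h := ((hc v.1).integral_hasStrictDerivAt 0 v.2).hasDerivAt.hasFDerivAt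
    refine h.congr_fderiv ?_
    ext
    simp
  have h := hasStrictFDerivAt_uncurry_coprod (𝕜 := ℝ) (u := q)
    (f := fun y u => ∫ t in (0 : ℝ)..u, G y t)
    (f₁ := fun y u => ∫ t in (0 : ℝ)..u, G' y t)
    (f₂ := fun y u => G y u • ContinuousLinearMap.id ℝ ℝ)
    (Eventually.of_forall fun v => LDER_partial hG hG' hd v.2 v.1)
    (Eventually.of_forall h2)
    (intervalIntegral.continuous_parametric_primitive_of_continuous (μ := volume)
      (a₀ := 0) hG').continuousAt
    ((hG.smul continuous_const).continuousAt)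
  exact h.hasFDerivAt

/-- The height as a continuous linear map. -/
def LDER_ht : E →L[ℝ] ℝ := EuclideanSpace.proj (2 : Fin 3)

theorem LDER_ht_apply (x : E) : LDER_ht x = x 2 := rfl

theorem LDER_shift (x : E) (r : ℝ) : x - r • e3 = pt (pr x) (x 2 - r) := by
  rw [← pt_sub_smul_e3, pt_pr]

/-- The survival factor in moving coordinates. -/
def LDER_F (K : E → ℝ) (x : E) (u : ℝ) : ℝ := Real.exp (-∫ r in (0 : ℝ)..u, K (x - r • e3))

/-- Its partial derivative. -/
def LDER_F' (K : E → ℝ) (x : E) (u : ℝ) : E →L[ℝ] ℝ :=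
  LDER_F K x u • (-∫ r in (0 : ℝ)..u, fderiv ℝ K (x - r • e3))

theorem LDER_sub (f : E → ℝ) (x : E) (u : ℝ) :
    ∫ r in (0 : ℝ)..u, f (x - r • e3) = ∫ σ in (x 2 - u)..(x 2), f (pt (pr x) σ) := by
  have h := intervalIntegral.integral_comp_sub_left (a := 0) (b := u)
    (fun σ => f (pt (pr x) σ)) (x 2)
  rw [sub_zero] at h
  rw [← h]
  simp only [LDER_shift]

theorem LDER_F_eq (K : E → ℝ) (x : E) (u : ℝ) :
    LDER_F K x u = Pk (fun σ => K (pt (pr x) σ)) (x 2 - u) (x 2) := by
  unfold LDER_F Pk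
  rw [LDER_sub]

theorem LDER_LE_eq (K : E → ℝ) (T : ℝ) (x : E) :
    LE K T x = ∫ u in (0 : ℝ)..(x 2 + T), LDER_F K x u := by
  simp only [LDER_F_eq]
  have h := intervalIntegral.integral_comp_sub_left (a := 0) (b := x 2 + T)
    (fun s => Pk (fun σ => K (pt (pr x) σ)) s (x 2)) (x 2)
  rw [h]
  unfold LE Lk
  congr 1 <;> ring

theorem LDER_cont_shift : Continuous fun p : E × ℝ => p.1 - p.2 • e3 := by fun_prop

theorem LDER_F_cont {K : E → ℝ} (hK : ContDiff ℝ 1 K) :
    Continuous (Function.uncurry (LDER_F K)) := by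
  have h : Continuous (Function.uncurry fun (x : E) (r : ℝ) => K (x - r • e3)) :=
    hK.continuous.comp LDER_cont_shift
  exact Real.continuous_exp.comp
    (intervalIntegral.continuous_parametric_primitive_of_continuous (μ := volume) (a₀ := 0) h).neg

theorem LDER_D_cont {K : E → ℝ} (hK : ContDiff ℝ 1 K) :
    Continuous (Function.uncurry fun (x : E) (r : ℝ) => fderiv ℝ K (x - r • e3)) :=
  (hK.continuous_fderiv one_ne_zero).comp LDER_cont_shift

theorem LDER_F'_cont {K : E → ℝ} (hK : ContDiff ℝ 1 K) :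
    Continuous (Function.uncurry (LDER_F' K)) :=
  (LDER_F_cont hK).smul
    (intervalIntegral.continuous_parametric_primitive_of_continuous (μ := volume) (a₀ := 0)
      (LDER_D_cont hK)).neg

theorem LDER_F_deriv {K : E → ℝ} (hK : ContDiff ℝ 1 K) (x : E) (u : ℝ) :
    HasFDerivAt (fun y => LDER_F K y u) (LDER_F' K x u) x := by
  have h : Continuous (Function.uncurry fun (x : E) (r : ℝ) => K (x - r • e3)) :=
    hK.continuous.comp LDER_cont_shift
  have hd : ∀ (y : E) (t : ℝ), HasFDerivAt (fun z : E => K (z - t • e3))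
      (fderiv ℝ K (y - t • e3)) y := by
    intro y t
    have h1 : HasFDerivAt K (fderiv ℝ K (y - t • e3)) (y - t • e3) :=
      (hK.differentiable one_ne_zero _).hasFDerivAt
    have h2 : HasFDerivAt (fun z : E => z - t • e3) (ContinuousLinearMap.id ℝ E) y :=
      (hasFDerivAt_id y).sub_const _
    exact (h1.comp y h2).congr_fderiv (ContinuousLinearMap.comp_id _)
  exact (LDER_partial h (LDER_D_cont hK) hd u x).neg.exp

theorem LDER_hasFDerivAt {K : E → ℝ} (hK : ContDiff ℝ 1 K) (T : ℝ) (x : E) :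
    HasFDerivAt (LE K T)
      ((∫ u in (0 : ℝ)..(x 2 + T), LDER_F' K x u) + LDER_F K x (x 2 + T) • LDER_ht) x := by
  have h1 := LDER_joint (LDER_F_cont hK) (LDER_F'_cont hK) (LDER_F_deriv hK) (x, x 2 + T)
  have h2 : HasFDerivAt (fun y : E => (y, y 2 + T))
      ((ContinuousLinearMap.id ℝ E).prod LDER_ht) x :=
    (hasFDerivAt_id x).prodMk (LDER_ht.hasFDerivAt.add_const T)
  have h3 := HasFDerivAt.comp x (f := fun y : E => (y, y 2 + T)) h1 h2
  have h4 : LE K T = (fun p : E × ℝ => ∫ t in (0 : ℝ)..p.2, LDER_F K p.1 t) ∘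
      fun y : E => (y, y 2 + T) := funext fun y => LDER_LE_eq K T y
  rw [h4]
  refine h3.congr_fderiv ?_
  ext v
  simp

theorem lder_of : S_LDER := by
  intro K T hK
  have hq : Continuous fun y : E => (y, y 2 + T) :=
    continuous_id.prodMk (LDER_ht.continuous.add continuous_const)
  refine ⟨contDiff_one_iff_hasFDerivAt.2 ⟨_, ?_, LDER_hasFDerivAt hK T⟩, fun x v => ?_⟩
  · exact ((intervalIntegral.continuous_parametric_primitive_of_continuous (μ := volume) (a₀ := 0)
      (LDER_F'_cont hK)).comp hq).add (((LDER_F_cont hK).comp hq).smul continuous_const)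
  · have hc : Continuous (LDER_F' K x) := (LDER_F'_cont hK).comp (Continuous.prodMk_right x)
    have hD : Continuous fun r : ℝ => fderiv ℝ K (x - r • e3) :=
      (LDER_D_cont hK).comp (Continuous.prodMk_right x)
    rw [(LDER_hasFDerivAt hK T x).fderiv, add_apply,
      ContinuousLinearMap.intervalIntegral_apply (hc.intervalIntegrable _ _)]
    have h1 : ∀ u : ℝ, LDER_F' K x u v =
        -(Pk (fun σ => K (pt (pr x) σ)) (x 2 - u) (x 2) *
          ∫ σ in (x 2 - u)..(x 2), fderiv ℝ K (pt (pr x) σ) v) := by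
      intro u
      unfold LDER_F'
      rw [smul_apply, neg_apply,
        ContinuousLinearMap.intervalIntegral_apply (hD.intervalIntegrable _ _), LDER_F_eq,
        LDER_sub (fun y => fderiv ℝ K y v), smul_eq_mul, mul_neg]
    simp only [h1]
    rw [intervalIntegral.integral_neg, intervalIntegral.integral_comp_sub_left
      (fun s => Pk (fun σ => K (pt (pr x) σ)) s (x 2) *
        ∫ σ in s..(x 2), fderiv ℝ K (pt (pr x) σ) v) (x 2),
      smul_apply, LDER_ht_apply, LDER_F_eq, smul_eq_mul]
    have e1 : x 2 - (x 2 + T) = -T := by ring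
    rw [e1, sub_zero]
    ring

end MW
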