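import Pool.Agent.P.MP_064970_gt.ST1

/-!
P(s,t) = P(s,sg) P(sg,t), d/dt P(sg,t) = -K(t) P, L' = 1 - K L. Fubini on the triangle -T < s < sg <
t < T: int_W K(t) int_s P(s,t) int_sg kp <nu sg, nu t> = int_sg kp(sg) L(sg) int_{t in W, t > sg} K
P(sg,t) <nu sg, nu t>. int_W kp L = int_{Ioo} kp L >= int kp L int_{W cap Ioi sg} K P since int_sg^T
K P(sg,t) dt = 1 - P(sg,T) <= 1.
-/

open scoped Manifold ContDiff
open MeasureTheory Set Filter Topology Metric
open scoped RealInnerProductSpace ENNReal ComplexConjugate Real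

noncomputable section

namespace MW

universe u

/-- Primitive of the rate. -/
def LINE1_A (K : ℝ → ℝ) (t : ℝ) : ℝ := ∫ σ in (0 : ℝ)..t, K σ

/-- Primitive of the exponential of the primitive. -/
def LINE1_F (K : ℝ → ℝ) (T t : ℝ) : ℝ := ∫ s in (-T)..t, Real.exp (LINE1_A K s)

theorem LINE1_A_deriv {K : ℝ → ℝ} (hK : Continuous K) (t : ℝ) :
    HasDerivAt (LINE1_A K) (K t) t :=
  (hK.integral_hasStrictDerivAt 0 t).hasDerivAt

theorem LINE1_A_cont {K : ℝ → ℝ} (hK : Continuous K) : Continuous (LINE1_A K) :=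
  continuous_iff_continuousAt.2 fun t => (LINE1_A_deriv hK t).continuousAt

theorem LINE1_P_eq {K : ℝ → ℝ} (hK : Continuous K) (s t : ℝ) :
    Pk K s t = Real.exp (LINE1_A K s) * Real.exp (-LINE1_A K t) := by
  rw [← Real.exp_add, Pk]
  congr 1
  have h := intervalIntegral.integral_interval_sub_left (hK.intervalIntegrable (μ := volume) 0 t)
    (hK.intervalIntegrable (μ := volume) 0 s)
  unfold LINE1_A
  linarith

theorem LINE1_P_pos (K : ℝ → ℝ) (s t : ℝ) : 0 < Pk K s t := Real.exp_pos _

theorem LINE1_P_self (K : ℝ → ℝ) (s : ℝ) : Pk K s s = 1 := by simp [Pk]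

theorem LINE1_P_cont {K : ℝ → ℝ} (hK : Continuous K) :
    Continuous (fun p : ℝ × ℝ => Pk K p.1 p.2) := by
  have hA := LINE1_A_cont hK
  simp only [LINE1_P_eq hK]
  fun_prop

theorem LINE1_P_deriv {K : ℝ → ℝ} (hK : Continuous K) (s t : ℝ) :
    HasDerivAt (fun t => -Pk K s t) (K t * Pk K s t) t := by
  have h := (((LINE1_A_deriv hK t).fun_neg.exp).const_mul (Real.exp (LINE1_A K s))).fun_neg
  simp only [LINE1_P_eq hK]
  refine h.congr_deriv ?_
  ring

theorem LINE1_KP_int {K : ℝ → ℝ} (hK : Continuous K) (s a b : ℝ) :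
    ∫ t in a..b, K t * Pk K s t = Pk K s a - Pk K s b := by
  have hP := LINE1_P_cont hK
  have hc : Continuous (fun t => K t * Pk K s t) :=
    hK.mul (hP.comp (continuous_const.prodMk continuous_id))
  rw [intervalIntegral.integral_eq_sub_of_hasDerivAt (fun t _ => LINE1_P_deriv hK s t)
    (hc.intervalIntegrable a b)]
  ring

theorem LINE1_F_deriv {K : ℝ → ℝ} (hK : Continuous K) (T t : ℝ) :
    HasDerivAt (LINE1_F K T) (Real.exp (LINE1_A K t)) t :=
  ((Real.continuous_exp.comp (LINE1_A_cont hK)).integral_hasStrictDerivAt (-T) t).hasDerivAt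

theorem LINE1_F_cont {K : ℝ → ℝ} (hK : Continuous K) (T : ℝ) : Continuous (LINE1_F K T) :=
  continuous_iff_continuousAt.2 fun t => (LINE1_F_deriv hK T t).continuousAt

theorem LINE1_L_eq {K : ℝ → ℝ} (hK : Continuous K) (T t : ℝ) :
    Lk K T t = LINE1_F K T t * Real.exp (-LINE1_A K t) := by
  unfold Lk LINE1_F
  simp only [LINE1_P_eq hK]
  rw [intervalIntegral.integral_mul_const]

theorem LINE1_L_cont {K : ℝ → ℝ} (hK : Continuous K) (T : ℝ) : Continuous (Lk K T) := by
  have hA := LINE1_A_cont hK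
  have hF := LINE1_F_cont hK T
  have : Lk K T = fun t => LINE1_F K T t * Real.exp (-LINE1_A K t) :=
    funext fun t => LINE1_L_eq hK T t
  rw [this]
  fun_prop

theorem LINE1_L_deriv {K : ℝ → ℝ} (hK : Continuous K) (T t : ℝ) :
    HasDerivAt (fun t => t - Lk K T t) (K t * Lk K T t) t := by
  have h := (hasDerivAt_id' t).fun_sub
    ((LINE1_F_deriv hK T t).fun_mul ((LINE1_A_deriv hK t).fun_neg.exp))
  simp only [LINE1_L_eq hK]
  refine h.congr_deriv ?_
  have h1 : Real.exp (LINE1_A K t) * Real.exp (-LINE1_A K t) = 1 := by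
    rw [← Real.exp_add]; simp
  rw [h1]
  ring

theorem LINE1_L_nonneg (K : ℝ → ℝ) (T t : ℝ) (ht : -T ≤ t) : 0 ≤ Lk K T t :=
  intervalIntegral.integral_nonneg ht fun s _ => (LINE1_P_pos K s t).le

theorem LINE1_L_start (K : ℝ → ℝ) (T : ℝ) : Lk K T (-T) = 0 := by simp [Lk]

/-- The inner double integral as a single one. -/
theorem LINE1_inner {K g : ℝ → ℝ} (hK : Continuous K) (hg : Continuous g) (T t : ℝ) :
    ∫ s in (-T)..t, Pk K s t * ∫ σ in s..t, g σ
      = ∫ σ in (-T)..t, Lk K T σ * Pk K σ t * g σ := by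
  have hA := LINE1_A_cont hK
  have hG : ∀ s, HasDerivAt (fun s => ∫ σ in s..t, g σ) (-g s) s := fun s => by
    have h := ((hg.integral_hasStrictDerivAt t s).hasDerivAt).neg
    have e : (fun s => ∫ σ in s..t, g σ) = -(fun s => ∫ σ in t..s, g σ) := by
      funext s
      simp only [Pi.neg_apply]
      rw [intervalIntegral.integral_symm]
    rw [e]
    exact h
  have hparts := intervalIntegral.integral_mul_deriv_eq_deriv_mul
    (a := -T) (b := t) (u := LINE1_F K T) (v := fun s => ∫ σ in s..t, g σ)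
    (u' := fun s => Real.exp (LINE1_A K s)) (v' := fun s => -g s)
    (fun s _ => LINE1_F_deriv hK T s) (fun s _ => hG s)
    ((Real.continuous_exp.comp hA).intervalIntegrable _ _) (hg.neg.intervalIntegrable _ _)
  have hF0 : LINE1_F K T (-T) = 0 := by simp [LINE1_F]
  simp only [intervalIntegral.integral_same, hF0, mul_zero, zero_mul, sub_zero, zero_sub,
    mul_neg, intervalIntegral.integral_neg, neg_inj] at hparts
  have e1 : ∀ s, Pk K s t * ∫ σ in s..t, g σ
      = (Real.exp (LINE1_A K s) * ∫ σ in s..t, g σ) * Real.exp (-LINE1_A K t) := fun s => by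
    rw [LINE1_P_eq hK]; ring
  have e2 : ∀ σ, Lk K T σ * Pk K σ t * g σ
      = (LINE1_F K T σ * g σ) * Real.exp (-LINE1_A K t) := fun σ => by
    have h1 : Real.exp (-LINE1_A K σ) * Real.exp (LINE1_A K σ) = 1 := by
      rw [← Real.exp_add]; simp
    rw [LINE1_P_eq hK, LINE1_L_eq hK]
    calc _ = (Real.exp (-LINE1_A K σ) * Real.exp (LINE1_A K σ)) *
        ((LINE1_F K T σ * g σ) * Real.exp (-LINE1_A K t)) := by ring
      _ = _ := by rw [h1, one_mul]
  simp only [e1, e2, intervalIntegral.integral_mul_const, hparts]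

/-- Fubini on the triangle. -/
theorem LINE1_fubini {H : ℝ → ℝ → ℝ} (hH : Continuous (Function.uncurry H)) {W : Set ℝ} {T : ℝ}
    (hW : MeasurableSet W) (hWT : W ⊆ Ioo (-T) T) :
    ∫ t in W, ∫ σ in (-T)..t, H t σ = ∫ σ in Ioo (-T) T, ∫ t in W ∩ Ioi σ, H t σ := by
  have hS : MeasurableSet {p : ℝ × ℝ | p.2 < p.1} :=
    (isOpen_lt continuous_snd continuous_fst).measurableSet
  have hint : Integrable (Function.uncurry fun t σ =>
      ({p : ℝ × ℝ | p.2 < p.1}).indicator (Function.uncurry H) (t, σ))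
      ((volume.restrict W).prod (volume.restrict (Ioo (-T) T))) := by
    have h1 : IntegrableOn (Function.uncurry H) (Icc (-T) T ×ˢ Icc (-T) T) (volume.prod volume) :=
      hH.continuousOn.integrableOn_compact (isCompact_Icc.prod isCompact_Icc)
    have h2 : IntegrableOn (Function.uncurry H) (W ×ˢ Ioo (-T) T) (volume.prod volume) :=
      h1.mono_set (Set.prod_mono (hWT.trans Ioo_subset_Icc_self) Ioo_subset_Icc_self)
    rw [Measure.prod_restrict]
    exact Integrable.indicator h2 hS
  have hsw := integral_integral_swap hint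
  have e1 : ∫ t in W, ∫ σ in (-T)..t, H t σ = ∫ t in W, ∫ σ in Ioo (-T) T,
      ({p : ℝ × ℝ | p.2 < p.1}).indicator (Function.uncurry H) (t, σ) := by
    refine setIntegral_congr_fun hW fun t ht => ?_
    have ht' := hWT ht
    have e : (fun σ => ({p : ℝ × ℝ | p.2 < p.1}).indicator (Function.uncurry H) (t, σ))
        = (Iio t).indicator (H t) := by
      funext σ
      by_cases h : σ < t
      · simp [Set.indicator, h]
      · simp [Set.indicator, h]
    simp only [e]
    rw [setIntegral_indicator measurableSet_Iio, intervalIntegral.integral_of_le ht'.1.le,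
      integral_Ioc_eq_integral_Ioo]
    have : Ioo (-T) T ∩ Iio t = Ioo (-T) t := by
      ext σ
      constructor
      · rintro ⟨h1, h2⟩
        exact ⟨h1.1, h2⟩
      · rintro ⟨h1, h2⟩
        exact ⟨⟨h1, h2.trans ht'.2⟩, h2⟩
    rw [this]
  rw [e1, hsw]
  refine setIntegral_congr_fun measurableSet_Ioo fun σ _ => ?_
  have e : (fun t => ({p : ℝ × ℝ | p.2 < p.1}).indicator (Function.uncurry H) (t, σ))
      = (Ioi σ).indicator (fun t => H t σ) := by
    funext t
    by_cases h : σ < t
    · simp [Set.indicator, h]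
    · simp [Set.indicator, h]
  simp only [e]
  rw [setIntegral_indicator measurableSet_Ioi]

theorem LINE1_intOn {f : ℝ → ℝ} (hf : Continuous f) {W : Set ℝ} {a b : ℝ} (hW : W ⊆ Icc a b) :
    IntegrableOn f W volume :=
  (hf.continuousOn.integrableOn_compact isCompact_Icc).mono_set hW

theorem LINE1_le_interval {f : ℝ → ℝ} (hf : Continuous f) {V : Set ℝ} {a b : ℝ} (hab : a ≤ b)
    (hV : V ⊆ Icc a b) (h0 : ∀ t ∈ Icc a b, 0 ≤ f t) :
    ∫ t in V, f t ≤ ∫ t in a..b, f t := by
  rw [intervalIntegral.integral_of_le hab, ← integral_Icc_eq_integral_Ioc]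
  refine setIntegral_mono_set (LINE1_intOn hf subset_rfl) ?_ hV.eventuallyLE
  exact (ae_restrict_iff' measurableSet_Icc).2 (Eventually.of_forall h0)

theorem LINE1_KP_le {K : ℝ → ℝ} (hK : Continuous K) (hK0 : ∀ t, 0 ≤ K t) (s : ℝ) {V : Set ℝ}
    {a b : ℝ} (hab : a ≤ b) (hV : V ⊆ Icc a b) :
    ∫ t in V, K t * Pk K s t ≤ Pk K s a := by
  have hP := LINE1_P_cont hK
  have hc : Continuous (fun t => K t * Pk K s t) :=
    hK.mul (hP.comp (continuous_const.prodMk continuous_id))
  have h := LINE1_le_interval hc hab hV fun t _ => mul_nonneg (hK0 t) (LINE1_P_pos K s t).le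
  rw [LINE1_KP_int hK] at h
  have := LINE1_P_pos K s b
  linarith

theorem line1_of : S_LINE1 := by
  intro K kp ν W T hT hK hkp hν hK0 hkp0 hν1 hW hWT hsupp
  have hP := LINE1_P_cont hK
  have hL := LINE1_L_cont hK T
  have hWI : W ⊆ Icc (-T) T := hWT.trans Ioo_subset_Icc_self
  have hTT : -T ≤ T := by linarith
  have hPs : ∀ s, Continuous (fun t => Pk K s t) := fun s =>
    hP.comp (continuous_const.prodMk continuous_id)
  have hin : ∀ s t, ⟪ν s, ν t⟫ ≤ 1 := fun s t => by
    have h1 := real_inner_le_norm (ν s) (ν t)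
    have h2 : ‖ν s‖ * ‖ν t‖ ≤ 1 := mul_le_one₀ (hν1 s) (norm_nonneg _) (hν1 t)
    linarith
  refine ⟨?_, ?_, ?_, ?_, fun t ht => LINE1_L_nonneg K T t ht, ?_⟩
  · -- main inequality
    have hPsw : Continuous (fun p : ℝ × ℝ => Pk K p.2 p.1) := hP.comp continuous_swap
    have hinn : Continuous (fun p : ℝ × ℝ => ⟪ν p.2, ν p.1⟫) :=
      (hν.comp continuous_snd).inner (hν.comp continuous_fst)
    have hH1 : Continuous (Function.uncurry fun t σ : ℝ =>
        kp σ * Lk K T σ * (K t * Pk K σ t)) :=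
      ((hkp.comp continuous_snd).mul (hL.comp continuous_snd)).mul
        ((hK.comp continuous_fst).mul hPsw)
    have hH2 : Continuous (Function.uncurry fun t σ : ℝ =>
        kp σ * Lk K T σ * (K t * Pk K σ t) * ⟪ν σ, ν t⟫) := hH1.mul hinn
    have hH3 : Continuous (Function.uncurry fun t σ : ℝ =>
        kp σ * Lk K T σ * (K t * Pk K σ t * (1 - ⟪ν σ, ν t⟫))) :=
      ((hkp.comp continuous_snd).mul (hL.comp continuous_snd)).mul
        (((hK.comp continuous_fst).mul hPsw).mul (continuous_const.sub hinn))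
    have hJ1 : Continuous (fun t => ∫ σ in (-T)..t, kp σ * Lk K T σ * (K t * Pk K σ t)) :=
      intervalIntegral.continuous_parametric_intervalIntegral_of_continuous hH1 continuous_id
    have hJ2 : Continuous (fun t =>
        ∫ σ in (-T)..t, kp σ * Lk K T σ * (K t * Pk K σ t) * ⟪ν σ, ν t⟫) :=
      intervalIntegral.continuous_parametric_intervalIntegral_of_continuous hH2 continuous_id
    have hPos : PosK K kp ν W T
        = (∫ t in W, ∫ σ in (-T)..t, kp σ * Lk K T σ * (K t * Pk K σ t))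
          - ∫ t in W, ∫ σ in (-T)..t, kp σ * Lk K T σ * (K t * Pk K σ t) * ⟪ν σ, ν t⟫ := by
      rw [← integral_sub (LINE1_intOn hJ1 hWI) (LINE1_intOn hJ2 hWI)]
      have h3 := LINE1_fubini hH3 hW hWT
      simp only [integral_const_mul] at h3
      rw [PosK, ← h3]
      refine setIntegral_congr_fun hW fun t _ => ?_
      have c1 : Continuous (fun σ => kp σ * Lk K T σ * (K t * Pk K σ t)) :=
        hH1.comp (continuous_const.prodMk continuous_id)
      have c2 : Continuous (fun σ => kp σ * Lk K T σ * (K t * Pk K σ t) * ⟪ν σ, ν t⟫) :=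
        hH2.comp (continuous_const.prodMk continuous_id)
      rw [← intervalIntegral.integral_sub (c1.intervalIntegrable _ _) (c2.intervalIntegrable _ _)]
      congr 1
      funext σ
      ring
    have hJ1le : (∫ t in W, ∫ σ in (-T)..t, kp σ * Lk K T σ * (K t * Pk K σ t))
        ≤ ∫ t in W, kp t * Lk K T t := by
      have h1 := LINE1_fubini hH1 hW hWT
      simp only [integral_const_mul] at h1
      rw [h1, ← setIntegral_eq_of_subset_of_forall_sdiff_eq_zero (f := fun t => kp t * Lk K T t)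
        measurableSet_Ioo hWT (fun t ht => by
          have : kp t = 0 := by
            by_contra h
            exact ht.2 (hsupp t ht.1 h)
          simp [this])]
      refine integral_mono_of_nonneg ?_ (LINE1_intOn (hkp.mul hL) Ioo_subset_Icc_self) ?_
      · refine (ae_restrict_iff' measurableSet_Ioo).2 (Eventually.of_forall fun σ hσ => ?_)
        refine mul_nonneg (mul_nonneg (hkp0 σ) (LINE1_L_nonneg K T σ hσ.1.le)) ?_
        exact integral_nonneg fun t => mul_nonneg (hK0 t) (LINE1_P_pos K σ t).le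
      · refine (ae_restrict_iff' measurableSet_Ioo).2 (Eventually.of_forall fun σ hσ => ?_)
        have h2 : ∫ t in W ∩ Ioi σ, K t * Pk K σ t ≤ Pk K σ σ :=
          LINE1_KP_le hK hK0 σ hσ.2.le fun t ht => ⟨le_of_lt ht.2, (hWT ht.1).2.le⟩
        rw [LINE1_P_self] at h2
        exact mul_le_of_le_one_right (mul_nonneg (hkp0 σ) (LINE1_L_nonneg K T σ hσ.1.le)) h2
    have hν2 : Continuous (fun t => ν t 2) := by fun_prop
    have c1 : Continuous (fun t => kp t * Lk K T t) := hkp.mul hL
    have c2 : Continuous (fun t => K t * Pk K (-T) t) := hK.mul (hPs _)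
    have c3 : Continuous (fun t => K t * Pk K (-T) t * ν t 2) := c2.mul hν2
    have hsplit : ∫ t in W, (-(kp t * Lk K T t) + K t * (ν t 2 * Pk K (-T) t
        + ∫ s in (-T)..t, Pk K s t * ∫ σ in s..t, kp σ * ⟪ν σ, ν t⟫))
        = -(∫ t in W, kp t * Lk K T t) + (∫ t in W, K t * Pk K (-T) t * ν t 2)
          + ∫ t in W, ∫ σ in (-T)..t, kp σ * Lk K T σ * (K t * Pk K σ t) * ⟪ν σ, ν t⟫ := by
      have c4 : Continuous (fun t => -(kp t * Lk K T t)) := c1.neg
      have c5 : Continuous (fun t => -(kp t * Lk K T t) + K t * Pk K (-T) t * ν t 2) := c4.add c3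
      rw [← integral_neg, ← integral_add (LINE1_intOn c4 hWI) (LINE1_intOn c3 hWI),
        ← integral_add (LINE1_intOn c5 hWI) (LINE1_intOn hJ2 hWI)]
      refine setIntegral_congr_fun hW fun t _ => ?_
      have hg : Continuous (fun σ => kp σ * ⟪ν σ, ν t⟫) := hkp.mul (hν.inner continuous_const)
      beta_reduce
      rw [LINE1_inner hK hg, mul_add, ← intervalIntegral.integral_const_mul]
      have e : (fun σ => K t * (Lk K T σ * Pk K σ t * (kp σ * ⟪ν σ, ν t⟫)))
          = fun σ => kp σ * Lk K T σ * (K t * Pk K σ t) * ⟪ν σ, ν t⟫ := by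
        funext σ
        ring
      rw [e]
      ring
    have hmid : (∫ t in W, K t * Pk K (-T) t * ν t 2) ≤ ∫ t in W, K t * Pk K (-T) t := by
      refine setIntegral_mono (LINE1_intOn c3 hWI) (LINE1_intOn c2 hWI) fun t => ?_
      have h1 : ν t 2 ≤ 1 := by
        have h2 : ‖ν t 2‖ ≤ ‖ν t‖ := PiLp.norm_apply_le (ν t) 2
        have h3 : ν t 2 ≤ ‖ν t 2‖ := Real.le_norm_self _
        have := hν1 t
        linarith
      exact mul_le_of_le_one_right (mul_nonneg (hK0 t) (LINE1_P_pos K _ t).le) h1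
    rw [hsplit, hPos]
    linarith
  · refine setIntegral_nonneg measurableSet_Ioo fun σ hσ => ?_
    refine mul_nonneg (mul_nonneg (hkp0 σ) (LINE1_L_nonneg K T σ hσ.1.le)) ?_
    exact integral_nonneg fun t => mul_nonneg (mul_nonneg (hK0 t) (LINE1_P_pos K σ t).le)
      (sub_nonneg.2 (hin σ t))
  · have h := LINE1_KP_le hK hK0 (-T) hTT hWI
    rwa [LINE1_P_self] at h
  · have hc : Continuous (fun t => K t * Lk K T t) := hK.mul hL
    have h := LINE1_le_interval hc hTT hWI fun t ht =>
      mul_nonneg (hK0 t) (LINE1_L_nonneg K T t ht.1)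
    rw [intervalIntegral.integral_eq_sub_of_hasDerivAt (fun t _ => LINE1_L_deriv hK T t)
      (hc.intervalIntegrable _ _), LINE1_L_start] at h
    have := LINE1_L_nonneg K T T hTT
    linarith
  · intro a lm ha hlm hWa
    have h : ∫ t in W, K t * Pk K (-T) t ≤ Pk K (-T) a :=
      LINE1_KP_le hK hK0 (-T) (le_max_left a T) fun t ht =>
        ⟨hWa ht, (hWI ht).2.trans (le_max_right a T)⟩
    refine h.trans ?_
    rw [Pk, Real.exp_le_exp, neg_le_neg_iff]
    have h2 : ∫ _σ in (-T)..a, lm ≤ ∫ σ in (-T)..a, K σ :=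
      intervalIntegral.integral_mono_on ha (continuous_const.intervalIntegrable _ _)
        (hK.intervalIntegrable _ _) hlm
    rw [intervalIntegral.integral_const, smul_eq_mul] at h2
    calc lm * (a + T) = (a - -T) * lm := by ring
      _ ≤ _ := h2

end MW
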