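import Pool.Agent.P.MP_064970_gt.ST1

/-!
Finitely many zeros, all simple. K = K1(d t) delta is delta^-2 where d <= delta/2, 0 where d >=
delta; L' = 1 - K L, 0 <= L. At every zero u (and every point with d <= 0 at distance >= c from -T):
K = delta^-2 on [u - c delta, u] (d Lipschitz), so L(u) <= delta^2 + 2T exp(-c/delta) -> 0. On a
component (a,b) of {d > 0} in (-T,T) and a small fixed eta: K = 0 on [a + eta, b - eta] for small
delta, and also near an end that is +-T. int_a^{a+eta} K L = eta - L(a+eta) + L(a) and L(a + eta) >=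
eta - C delta, so it tends to 0; int_{b-eta}^b K L = eta + L(b - eta) - L(b) -> b - a = len d T b; K
L is concentrated within C delta of b, phi is continuous.
-/

open scoped Manifold ContDiff
open MeasureTheory Set Filter Topology Metric
open scoped RealInnerProductSpace ENNReal ComplexConjugate Real

noncomputable section

namespace MW

universe u

theorem LINE2A_kk_nonneg (s : ℝ) : 0 ≤ kk s := sub_nonneg.2 (Real.smoothTransition.le_one _)

theorem LINE2A_K1_nonneg (x δ : ℝ) : 0 ≤ K1 x δ :=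
  mul_nonneg (sq_nonneg _) (LINE2A_kk_nonneg _)

theorem LINE2A_K1_zero {x δ : ℝ} (hδ : 0 < δ) (h : δ ≤ x) : K1 x δ = 0 := by
  have h1 : 1 ≤ x / δ := (one_le_div hδ).2 h
  rw [K1, kk, Real.smoothTransition.one_of_one_le (by linarith), sub_self, mul_zero]

theorem LINE2A_K1_full {x δ : ℝ} (hδ : 0 < δ) (h : x ≤ δ / 2) : K1 x δ = δ⁻¹ ^ 2 := by
  have h1 : x / δ ≤ 1 / 2 := by rw [div_le_iff₀ hδ]; linarith
  rw [K1, kk, Real.smoothTransition.zero_of_nonpos (by linarith), sub_zero, mul_one]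

theorem LINE2A_K1_cont {d : ℝ → ℝ} (hd : Continuous d) (δ : ℝ) :
    Continuous fun σ => K1 (d σ) δ := by
  unfold K1 kk
  exact continuous_const.mul
    (continuous_const.sub (Real.smoothTransition.continuous.comp (by fun_prop)))

theorem LINE2A_Pk_eq {K : ℝ → ℝ} (hK : Continuous K) (c s t : ℝ) :
    Pk K s t = Real.exp (-∫ σ in c..t, K σ) * Real.exp (∫ σ in c..s, K σ) := by
  rw [Pk, ← Real.exp_add, ← intervalIntegral.integral_interval_sub_left
    (hK.intervalIntegrable c t) (hK.intervalIntegrable c s)]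
  congr 1
  ring

theorem LINE2A_prim {K : ℝ → ℝ} (hK : Continuous K) (c t : ℝ) :
    HasDerivAt (fun t => ∫ σ in c..t, K σ) (K t) t :=
  (hK.integral_hasStrictDerivAt c t).hasDerivAt

theorem LINE2A_prim_cont {K : ℝ → ℝ} (hK : Continuous K) (c : ℝ) :
    Continuous fun t => ∫ σ in c..t, K σ :=
  continuous_iff_continuousAt.2 fun t => (LINE2A_prim hK c t).continuousAt

theorem LINE2A_Pk_cont {K : ℝ → ℝ} (hK : Continuous K) (t : ℝ) : Continuous fun s => Pk K s t := by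
  have e : (fun s => Pk K s t) =
      fun s => Real.exp (-∫ σ in (0 : ℝ)..t, K σ) * Real.exp (∫ σ in (0 : ℝ)..s, K σ) :=
    funext fun s => LINE2A_Pk_eq hK 0 s t
  rw [e]
  exact continuous_const.mul (Real.continuous_exp.comp (LINE2A_prim_cont hK 0))

theorem LINE2A_Lk_deriv {K : ℝ → ℝ} (hK : Continuous K) (T t : ℝ) :
    HasDerivAt (Lk K T) (1 - K t * Lk K T t) t := by
  have e : Lk K T = fun t => Real.exp (-∫ σ in (0 : ℝ)..t, K σ) *
      ∫ s in (-T)..t, Real.exp (∫ σ in (0 : ℝ)..s, K σ) := by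
    funext t
    rw [Lk, ← intervalIntegral.integral_const_mul]
    exact intervalIntegral.integral_congr fun s _ => LINE2A_Pk_eq hK 0 s t
  have hc : Continuous fun s => Real.exp (∫ σ in (0 : ℝ)..s, K σ) :=
    Real.continuous_exp.comp (LINE2A_prim_cont hK 0)
  have h := (LINE2A_prim hK 0 t).fun_neg.exp.fun_mul (LINE2A_prim hc (-T) t)
  rw [e]
  refine HasDerivAt.congr_deriv h ?_
  rw [← Real.exp_add, neg_add_cancel, Real.exp_zero]
  ring

theorem LINE2A_Lk_cont {K : ℝ → ℝ} (hK : Continuous K) (T : ℝ) : Continuous (Lk K T) :=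
  continuous_iff_continuousAt.2 fun t => (LINE2A_Lk_deriv hK T t).continuousAt

theorem LINE2A_Lk_nonneg (K : ℝ → ℝ) {T t : ℝ} (h : -T ≤ t) : 0 ≤ Lk K T t :=
  intervalIntegral.integral_nonneg h fun _ _ => (Real.exp_pos _).le

theorem LINE2A_mass {K : ℝ → ℝ} (hK : Continuous K) (T x y : ℝ) :
    ∫ t in x..y, K t * Lk K T t = y - x - Lk K T y + Lk K T x := by
  have h : ∀ t ∈ uIcc x y, HasDerivAt (fun t => t - Lk K T t) (K t * Lk K T t) t := fun t _ =>
    HasDerivAt.congr_deriv ((hasDerivAt_id' t).fun_sub (LINE2A_Lk_deriv hK T t)) (by ring)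
  rw [intervalIntegral.integral_eq_sub_of_hasDerivAt h
    ((hK.mul (LINE2A_Lk_cont hK T)).intervalIntegrable _ _)]
  ring

theorem LINE2A_Pk_le {K : ℝ → ℝ} (h0 : ∀ σ, 0 ≤ K σ) {s t : ℝ} (h : s ≤ t) : Pk K s t ≤ 1 :=
  Real.exp_le_one_iff.2 (neg_nonpos.2 (intervalIntegral.integral_nonneg h fun σ _ => h0 σ))

/-- No survival across a zero. -/
theorem LINE2A_P_zero {d : ℝ → ℝ} (hd : ContDiff ℝ 1 d) {s u t : ℝ} (hsu : s < u) (hut : u ≤ t)
    (hu : d u = 0) : Tendsto (fun δ => Pk (fun σ => K1 (d σ) δ) s t) (𝓝[>] 0) (𝓝 0) := by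
  have hdu : HasDerivAt d (deriv d u) u := (hd.differentiable one_ne_zero u).hasDerivAt
  obtain ⟨M, hM, hb⟩ := hdu.isBigO_sub.exists_pos
  obtain ⟨ρ, hρ, hb⟩ := Metric.eventually_nhds_iff.1 hb.bound
  set c : ℝ := 1 / (2 * M) with hc
  have hc0 : 0 < c := by positivity
  have hMc : M * c = 1 / 2 := by rw [hc]; field_simp
  have lim : Tendsto (fun δ : ℝ => Real.exp (-(c * δ⁻¹))) (𝓝[>] 0) (𝓝 0) :=
    Real.tendsto_exp_neg_atTop_nhds_zero.comp (tendsto_inv_nhdsGT_zero.const_mul_atTop hc0)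
  refine squeeze_zero' (Eventually.of_forall fun δ => (Real.exp_pos _).le) ?_ lim
  have h0 : Tendsto (fun δ : ℝ => c * δ) (𝓝[>] 0) (𝓝 0) := by
    have : Tendsto (fun δ : ℝ => c * δ) (𝓝 0) (𝓝 (c * 0)) := tendsto_id.const_mul c
    rw [mul_zero] at this
    exact this.mono_left nhdsWithin_le_nhds
  filter_upwards [self_mem_nhdsWithin, h0.eventually (gt_mem_nhds hρ),
    h0.eventually (gt_mem_nhds (sub_pos.2 hsu))] with δ hδ h1 h2
  have hδ' : 0 < δ := hδ
  have hcδ : 0 < c * δ := by positivity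
  refine Real.exp_le_exp.2 (neg_le_neg ?_)
  have e : ∫ σ in (u - c * δ)..u, K1 (d σ) δ = c * δ⁻¹ := by
    rw [intervalIntegral.integral_congr (g := fun _ => δ⁻¹ ^ 2), intervalIntegral.integral_const]
    · rw [smul_eq_mul]; field_simp; ring
    · intro σ hσ
      rw [uIcc_of_le (by linarith)] at hσ
      have h3 : |σ - u| ≤ c * δ := abs_le.2 ⟨by linarith [hσ.1], by linarith [hσ.2]⟩
      have h4 := hb (y := σ) (by rw [Real.dist_eq]; linarith)
      rw [hu, sub_zero, Real.norm_eq_abs, Real.norm_eq_abs] at h4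
      refine LINE2A_K1_full hδ' ?_
      have h5 : M * |σ - u| ≤ M * (c * δ) := mul_le_mul_of_nonneg_left h3 hM.le
      have h6 : M * (c * δ) = δ / 2 := by rw [← mul_assoc, hMc]; ring
      linarith [le_abs_self (d σ)]
  rw [← e]
  exact intervalIntegral.integral_mono_interval (by linarith) (by linarith) hut
    (Eventually.of_forall fun σ => LINE2A_K1_nonneg _ _)
    ((LINE2A_K1_cont hd.continuous δ).intervalIntegrable _ _)

/-- No killing on a compact set where `d` is positive. -/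
theorem LINE2A_K_zero {d : ℝ → ℝ} (hd : Continuous d) {C : Set ℝ} (hC : IsCompact C)
    (h : ∀ t ∈ C, 0 < d t) : ∀ᶠ δ in 𝓝[>] (0 : ℝ), ∀ t ∈ C, K1 (d t) δ = 0 := by
  obtain ⟨a, ha, h'⟩ := hC.exists_forall_le' hd.continuousOn h
  filter_upwards [Ioo_mem_nhdsGT ha] with δ hδ t ht
  exact LINE2A_K1_zero hδ.1 (hδ.2.le.trans (h' t ht))

theorem LINE2A_dct {d : ℝ → ℝ} (hd : Continuous d) {p q x c : ℝ} (hpq : p ≤ q) (hq : q ≤ x)
    (h : ∀ s ∈ Ioo p q, Tendsto (fun δ => Pk (fun σ => K1 (d σ) δ) s x) (𝓝[>] 0) (𝓝 c)) :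
    Tendsto (fun δ => ∫ s in p..q, Pk (fun σ => K1 (d σ) δ) s x) (𝓝[>] 0) (𝓝 ((q - p) * c)) := by
  have e : (q - p) * c = ∫ _ in p..q, c := by simp
  rw [e]
  refine intervalIntegral.tendsto_integral_filter_of_dominated_convergence (fun _ => 1)
    (Eventually.of_forall fun δ => (LINE2A_Pk_cont (LINE2A_K1_cont hd δ) x).aestronglyMeasurable)
    (Eventually.of_forall fun δ => Eventually.of_forall fun s hs => ?_) (by simp) ?_
  · rw [uIoc_of_le hpq] at hs
    exact (Real.norm_of_nonneg (Real.exp_pos _).le).trans_le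
      (LINE2A_Pk_le (fun σ => LINE2A_K1_nonneg _ _) (hs.2.trans hq))
  · have : ∀ᵐ s : ℝ, s ∉ ({q} : Set ℝ) := (countable_singleton q).ae_notMem _
    filter_upwards [this] with s hs hs'
    rw [uIoc_of_le hpq] at hs'
    exact h s ⟨hs'.1, lt_of_le_of_ne hs'.2 hs⟩

theorem LINE2A_L_zero {d : ℝ → ℝ} (hd : ContDiff ℝ 1 d) {T x : ℝ} (hx : -T ≤ x) (h0 : d x = 0) :
    Tendsto (fun δ => Lk (fun σ => K1 (d σ) δ) T x) (𝓝[>] 0) (𝓝 0) := by
  have := LINE2A_dct hd.continuous hx le_rfl fun s hs => LINE2A_P_zero hd hs.2 le_rfl h0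
  rwa [mul_zero] at this

theorem LINE2A_L_pos {d : ℝ → ℝ} (hd : ContDiff ℝ 1 d) {T x : ℝ} (hx : -T ≤ x) (h0 : 0 < d x) :
    Tendsto (fun δ => Lk (fun σ => K1 (d σ) δ) T x) (𝓝[>] 0) (𝓝 (len d T x)) := by
  set A : Set ℝ := insert (-T) {s | s ∈ Ioo (-T) x ∧ d s = 0} with hA
  have hne : A.Nonempty := insert_nonempty _ _
  have hub : ∀ s ∈ A, s ≤ x := by
    rintro s (rfl | hs)
    · exact hx
    · exact hs.1.2.le
  have hbd : BddAbove A := ⟨x, hub⟩
  have h1 : -T ≤ sSup A := le_csSup hbd (mem_insert _ _)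
  have h2 : sSup A ≤ x := csSup_le hne hub
  have l1 := LINE2A_dct hd.continuous (c := 0) h1 h2 fun s hs => by
    obtain ⟨u, hu, hsu⟩ := exists_lt_of_lt_csSup hne hs.2
    rcases hu with rfl | hu
    · exact absurd hs.1 (not_lt.2 hsu.le)
    · exact LINE2A_P_zero hd hsu hu.1.2.le hu.2
  have l2 := LINE2A_dct hd.continuous (c := 1) h2 le_rfl fun s hs => by
    have hpos : ∀ t ∈ Icc s x, 0 < d t := fun t ht => by
      by_contra hn
      obtain ⟨u, hu, hu0⟩ := intermediate_value_Icc ht.2 hd.continuous.continuousOn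
        (show (0 : ℝ) ∈ Icc (d t) (d x) from ⟨not_lt.1 hn, h0.le⟩)
      have hux : u < x := lt_of_le_of_ne hu.2 fun e => by rw [e] at hu0; exact h0.ne' hu0
      have hsu : sSup A < u := hs.1.trans_le (ht.1.trans hu.1)
      exact absurd (le_csSup hbd (mem_insert_of_mem _ ⟨⟨h1.trans_lt hsu, hux⟩, hu0⟩))
        (not_le.2 hsu)
    refine tendsto_const_nhds.congr' ?_
    filter_upwards [LINE2A_K_zero hd.continuous isCompact_Icc hpos] with δ hδ
    rw [Pk, intervalIntegral.integral_congr (g := fun _ => 0)]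
    · simp
    · intro σ hσ
      rw [uIcc_of_le hs.2.le] at hσ
      exact hδ σ hσ
  have l3 := l1.add l2
  rw [mul_zero, zero_add, mul_one] at l3
  refine l3.congr fun δ => ?_
  have hc := LINE2A_Pk_cont (LINE2A_K1_cont hd.continuous δ) x
  exact intervalIntegral.integral_add_adjacent_intervals (hc.intervalIntegrable _ _)
    (hc.intervalIntegrable _ _)

theorem LINE2A_abs_le {w ψ : ℝ → ℝ} (hw : Continuous w) {p q C : ℝ} (hpq : p ≤ q)
    (h : ∀ t ∈ Ioc p q, |w t * ψ t| ≤ C * w t) :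
    |∫ t in p..q, w t * ψ t| ≤ C * ∫ t in p..q, w t := by
  rw [← intervalIntegral.integral_const_mul]
  exact intervalIntegral.norm_integral_le_of_norm_le (f := fun t => w t * ψ t)
    (g := fun t => C * w t) hpq (Eventually.of_forall h)
    ((continuous_const.fun_mul hw).intervalIntegrable _ _)

/-- The piece above a zero contributes nothing. -/
theorem LINE2A_bot {d φ : ℝ → ℝ} (hd : ContDiff ℝ 1 d) (hφ : Continuous φ) {T z q : ℝ}
    (hz : -T < z) (hzq : z < q) (h0 : d z = 0) (hpos : ∀ t ∈ Ioc z q, 0 < d t) :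
    Tendsto (fun δ => ∫ t in z..q, K1 (d t) δ * Lk (fun σ => K1 (d σ) δ) T t * φ t) (𝓝[>] 0)
      (𝓝 0) := by
  have hlen : len d T q = q - z := by
    rw [len]
    congr 1
    refine IsGreatest.csSup_eq ⟨mem_insert_of_mem _ ⟨⟨hz, hzq⟩, h0⟩, ?_⟩
    rintro s (rfl | hs)
    · exact hz.le
    · by_contra hn
      exact (hpos s ⟨not_le.1 hn, hs.1.2.le⟩).ne' hs.2
  have l1 := LINE2A_L_pos hd (hz.trans hzq).le (hpos q ⟨hzq, le_rfl⟩)
  have l2 := LINE2A_L_zero hd hz.le h0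
  obtain ⟨C, hC⟩ := isCompact_Icc.exists_bound_of_continuousOn (hφ.continuousOn (s := Icc z q))
  have l3 := ((l1.const_sub (q - z)).add l2).const_mul C
  rw [hlen, sub_self, add_zero, mul_zero] at l3
  refine squeeze_zero_norm (fun δ => ?_) l3
  have hK := LINE2A_K1_cont hd.continuous δ
  rw [← LINE2A_mass hK]
  refine LINE2A_abs_le (hK.fun_mul (LINE2A_Lk_cont hK T)) hzq.le fun t ht => ?_
  have hw : 0 ≤ K1 (d t) δ * Lk (fun σ => K1 (d σ) δ) T t :=
    mul_nonneg (LINE2A_K1_nonneg _ _) (LINE2A_Lk_nonneg _ (hz.trans ht.1).le)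
  rw [abs_mul, abs_of_nonneg hw, mul_comm]
  exact mul_le_mul_of_nonneg_right (hC t ⟨ht.1.le, ht.2⟩) hw

/-- The piece below a zero. -/
theorem LINE2A_top {d φ : ℝ → ℝ} (hd : ContDiff ℝ 1 d) (hφ : Continuous φ) {T p z : ℝ}
    (hp : -T < p) (hpz : p < z) (h0 : d z = 0) (hpos : ∀ t ∈ Ico p z, 0 < d t) :
    Tendsto (fun δ => ∫ t in p..z, K1 (d t) δ * Lk (fun σ => K1 (d σ) δ) T t * φ t) (𝓝[>] 0)
      (𝓝 (len d T z * φ z)) := by
  have hlen : len d T z = z - p - 0 + len d T p := by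
    have e : {s | s ∈ Ioo (-T) z ∧ d s = 0} = {s | s ∈ Ioo (-T) p ∧ d s = 0} := by
      ext s
      refine ⟨fun hs => ⟨⟨hs.1.1, ?_⟩, hs.2⟩, fun hs => ⟨⟨hs.1.1, hs.1.2.trans hpz⟩, hs.2⟩⟩
      by_contra hn
      exact (hpos s ⟨not_lt.1 hn, hs.1.2⟩).ne' hs.2
    rw [len, len, e]
    ring
  have l1 := LINE2A_L_pos hd hp.le (hpos p ⟨le_rfl, hpz⟩)
  have l2 := LINE2A_L_zero hd (hp.trans hpz).le h0
  have l3 : Tendsto (fun δ => ∫ t in p..z, K1 (d t) δ * Lk (fun σ => K1 (d σ) δ) T t) (𝓝[>] 0)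
      (𝓝 (len d T z)) := by
    rw [hlen]
    exact ((l2.const_sub (z - p)).add l1).congr fun δ =>
      (LINE2A_mass (LINE2A_K1_cont hd.continuous δ) T p z).symm
  have l4 : Tendsto (fun δ => ∫ t in p..z,
      K1 (d t) δ * Lk (fun σ => K1 (d σ) δ) T t * (φ t - φ z)) (𝓝[>] 0) (𝓝 0) := by
    rw [NormedAddGroup.tendsto_nhds_zero]
    intro ε hε
    set m : ℝ := |len d T z| + 1 with hm
    have hm0 : 0 < m := by positivity
    have hε' : 0 < ε / m := by positivity
    obtain ⟨ρ, hρ, hb⟩ := Metric.continuousAt_iff.1 (hφ.continuousAt (x := z)) _ hε'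
    have hC : ∀ t ∈ Icc p (z - ρ), 0 < d t := fun t ht => hpos t ⟨ht.1, by linarith [ht.2]⟩
    filter_upwards [LINE2A_K_zero hd.continuous isCompact_Icc hC,
      l3.eventually (gt_mem_nhds (show len d T z < m by linarith [le_abs_self (len d T z)]))]
      with δ h1 h2
    have hK := LINE2A_K1_cont hd.continuous δ
    have h3 := LINE2A_abs_le (ψ := fun t => φ t - φ z) (C := ε / m)
      (hK.mul (LINE2A_Lk_cont hK T)) hpz.le fun t ht => by
        have hw : 0 ≤ K1 (d t) δ * Lk (fun σ => K1 (d σ) δ) T t :=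
          mul_nonneg (LINE2A_K1_nonneg _ _) (LINE2A_Lk_nonneg _ (hp.trans ht.1).le)
        change |K1 (d t) δ * Lk (fun σ => K1 (d σ) δ) T t * (φ t - φ z)| ≤
          ε / m * (K1 (d t) δ * Lk (fun σ => K1 (d σ) δ) T t)
        rcases le_or_gt t (z - ρ) with h4 | h4
        · rw [h1 t ⟨ht.1.le, h4⟩]; simp
        · have h5 := hb (x := t) (by rw [Real.dist_eq, abs_lt]; constructor <;> linarith [ht.2])
          rw [abs_mul, abs_of_nonneg hw, mul_comm]
          exact mul_le_mul_of_nonneg_right h5.le hw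
    calc _ ≤ ε / m * ∫ t in p..z, K1 (d t) δ * Lk (fun σ => K1 (d σ) δ) T t := h3
      _ < ε / m * m := mul_lt_mul_of_pos_left h2 hε'
      _ = ε := by field_simp
  have l5 := l4.add (l3.mul_const (φ z))
  rw [zero_add] at l5
  refine l5.congr fun δ => ?_
  have hK := LINE2A_K1_cont hd.continuous δ
  have hw := hK.fun_mul (LINE2A_Lk_cont hK T)
  rw [← intervalIntegral.integral_mul_const, ← intervalIntegral.integral_add
    ((hw.fun_mul (hφ.fun_sub continuous_const)).intervalIntegrable _ _)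
    ((hw.fun_mul continuous_const).intervalIntegrable _ _)]
  exact intervalIntegral.integral_congr fun t _ => by ring

theorem LINE2A_finite {d : ℝ → ℝ} (hd : ContDiff ℝ 1 d) {T : ℝ}
    (h : ∀ t ∈ Icc (-T) T, d t = 0 → deriv d t ≠ 0) : {t | t ∈ Icc (-T) T ∧ d t = 0}.Finite := by
  by_contra hn
  obtain ⟨z, hz, hacc⟩ := Set.Infinite.exists_accPt_of_subset_isCompact hn isCompact_Icc
    fun t ht => ht.1
  have h1 : ∃ᶠ y in 𝓝[≠] z, d y = 0 := (accPt_iff_frequently_nhdsNE.1 hacc).mono fun y hy => hy.2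
  have h2 : d z = 0 :=
    (isClosed_eq hd.continuous continuous_const).mem_of_frequently_of_tendsto h1
      (tendsto_id.mono_left nhdsWithin_le_nhds)
  have h3 := ((hd.differentiable one_ne_zero z).hasDerivAt).eventually_ne (c := 0) (h z hz h2)
  exact h1 h3

theorem LINE2A_sign {d : ℝ → ℝ} (hd : ContDiff ℝ 1 d) {z : ℝ} (h0 : d z = 0) (h1 : deriv d z ≠ 0) :
    ∀ᶠ η in 𝓝[>] (0 : ℝ), ∀ t, |t - z| ≤ η → t ≠ z → 0 < deriv d z * ((t - z) * d t) := by
  have h2 := (hasDerivAt_iff_tendsto_slope.1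
    (hd.differentiable one_ne_zero z).hasDerivAt).const_mul (deriv d z)
  have h3 := h2.eventually (lt_mem_nhds (mul_self_pos.2 h1))
  obtain ⟨ρ, hρ, hb⟩ := Metric.eventually_nhds_iff.1 (eventually_nhdsWithin_iff.1 h3)
  filter_upwards [Ioo_mem_nhdsGT hρ] with η hη t ht htz
  have h4 := hb (y := t) (by rw [Real.dist_eq]; exact ht.trans_lt hη.2) htz
  have h5 : t - z ≠ 0 := sub_ne_zero.2 htz
  rw [slope_def_field, h0, sub_zero] at h4
  have e : deriv d z * ((t - z) * d t) = deriv d z * (d t / (t - z)) * (t - z) ^ 2 := by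
    field_simp
  rw [e]
  positivity

theorem line2a_of : S_LINE2A := by
  classical
  intro d φ T hT hd hφ hl hr hs
  have hfin := LINE2A_finite hd hs
  set Z : Finset ℝ := hfin.toFinset with hZ
  have hmem : ∀ z, z ∈ Z ↔ z ∈ Icc (-T) T ∧ d z = 0 := fun z => hfin.mem_toFinset
  have hin : ∀ z ∈ Z, z ∈ Ioo (-T) T := fun z hz => by
    obtain ⟨h1, h2⟩ := (hmem z).1 hz
    exact ⟨lt_of_le_of_ne h1.1 fun e => hl (e ▸ h2), lt_of_le_of_ne h1.2 fun e => hr (e ▸ h2)⟩
  have e1 : ∀ᶠ η in 𝓝[>] (0 : ℝ), ∀ z ∈ Z, ∀ t, |t - z| ≤ η → t ≠ z →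
      0 < deriv d z * ((t - z) * d t) := (eventually_all_finset Z).2 fun z hz =>
    LINE2A_sign hd ((hmem z).1 hz).2 (hs z ((hmem z).1 hz).1 ((hmem z).1 hz).2)
  have e2 : ∀ᶠ η in 𝓝[>] (0 : ℝ), ∀ z ∈ Z, η < z + T ∧ η < T - z :=
    (eventually_all_finset Z).2 fun z hz => by
      have h := hin z hz
      filter_upwards [Ioo_mem_nhdsGT (show 0 < z + T by linarith [h.1]),
        Ioo_mem_nhdsGT (show 0 < T - z by linarith [h.2])] with η h1 h2
      exact ⟨h1.2, h2.2⟩
  have e3 : ∀ᶠ η in 𝓝[>] (0 : ℝ), ∀ z ∈ Z, ∀ z' ∈ Z, z ≠ z' → η < |z - z'| / 2 :=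
    (eventually_all_finset Z).2 fun z _ => (eventually_all_finset Z).2 fun z' _ => by
      by_cases h : z = z'
      · exact Eventually.of_forall fun _ h' => absurd h h'
      · have := abs_pos.2 (sub_ne_zero.2 h)
        filter_upwards [Ioo_mem_nhdsGT (show 0 < |z - z'| / 2 by positivity)] with η h1 _
        exact h1.2
  obtain ⟨η, ⟨⟨h1, h2⟩, h3⟩, hη⟩ := (((e1.and e2).and e3).and self_mem_nhdsWithin).exists
  have hη0 : 0 < η := hη
  set W : Set ℝ := {t | t ∈ Ioo (-T) T ∧ 0 < d t} with hW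
  have hWm : MeasurableSet W :=
    (isOpen_Ioo.inter (isOpen_lt continuous_const hd.continuous)).measurableSet
  -- the remote part
  set C : Set ℝ := (Icc (-T) T ∩ {t | 0 ≤ d t}) \ ⋃ z ∈ Z, Ioo (z - η) (z + η) with hC
  have hCc : IsCompact C :=
    (isCompact_Icc.inter_right (isClosed_le continuous_const hd.continuous)).diff
      (isOpen_biUnion fun _ _ => isOpen_Ioo)
  have hCp : ∀ t ∈ C, 0 < d t := fun t ht => by
    refine lt_of_le_of_ne ht.1.2 fun e => ht.2 ?_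
    exact mem_biUnion ((hmem t).2 ⟨ht.1.1, e.symm⟩) ⟨by linarith, by linarith⟩
  have hsum : (∑ᶠ t ∈ {t | t ∈ Ioo (-T) T ∧ d t = 0 ∧ deriv d t < 0}, len d T t * φ t) =
      ∑ z ∈ Z, if deriv d z < 0 then len d T z * φ z else 0 := by
    have e : {t | t ∈ Ioo (-T) T ∧ d t = 0 ∧ deriv d t < 0} =
        (↑(Z.filter fun z => deriv d z < 0) : Set ℝ) := by
      ext t
      rw [Finset.coe_filter]
      exact ⟨fun h => ⟨(hmem t).2 ⟨Ioo_subset_Icc_self h.1, h.2.1⟩, h.2.2⟩,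
        fun h => ⟨hin t h.1, ((hmem t).1 h.1).2, h.2⟩⟩
    rw [← Finset.sum_filter, e, finsum_mem_coe_finset]
  rw [hsum]
  have lim : Tendsto (fun δ : ℝ => ∑ z ∈ Z, ∫ t in W ∩ Ioo (z - η) (z + η),
      K1 (d t) δ * Lk (fun σ => K1 (d σ) δ) T t * φ t) (𝓝[>] 0)
      (𝓝 (∑ z ∈ Z, if deriv d z < 0 then len d T z * φ z else 0)) := by
    refine tendsto_finsetSum _ fun z hz => ?_
    obtain ⟨hzI, hz0⟩ := (hmem z).1 hz
    obtain ⟨a1, a2⟩ := h2 z hz
    split_ifs with hneg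
    · have hpos : ∀ t ∈ Ico (z - η) z, 0 < d t := fun t ht => by
        have h4 := h1 z hz t (abs_le.2 ⟨by linarith [ht.1], by linarith [ht.2]⟩) ht.2.ne
        have h5 : (t - z) * d t < 0 := by
          by_contra hn
          nlinarith [mul_nonneg (neg_nonneg.2 hneg.le) (not_lt.1 hn)]
        by_contra hn
        nlinarith [mul_nonneg (sub_nonneg.2 ht.2.le) (neg_nonneg.2 (not_lt.1 hn))]
      have e : W ∩ Ioo (z - η) (z + η) = Ioo (z - η) z := by
        ext t
        refine ⟨fun ht => ⟨ht.2.1, ?_⟩, fun ht => ⟨⟨⟨by linarith [ht.1], by linarith [ht.2]⟩,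
          hpos t ⟨ht.1.le, ht.2⟩⟩, ht.1, by linarith [ht.2]⟩⟩
        by_contra hn
        have h6 : t ≠ z := fun e => by
          have := ht.1.2
          rw [e, hz0] at this
          exact lt_irrefl _ this
        have h4 := h1 z hz t (abs_le.2 ⟨by linarith [ht.2.1], by linarith [ht.2.2]⟩) h6
        nlinarith [mul_nonneg (neg_nonneg.2 hneg.le)
          (mul_nonneg (sub_nonneg.2 (not_lt.1 hn)) ht.1.2.le)]
      refine (LINE2A_top hd hφ (T := T) (by linarith) (by linarith) hz0 hpos).congr fun δ => ?_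
      rw [e, intervalIntegral.integral_of_le (by linarith), integral_Ioc_eq_integral_Ioo]
    · have hp : 0 < deriv d z := lt_of_le_of_ne (not_lt.1 hneg) (hs z hzI hz0).symm
      have hpos : ∀ t ∈ Ioc z (z + η), 0 < d t := fun t ht => by
        have h4 := h1 z hz t (abs_le.2 ⟨by linarith [ht.1], by linarith [ht.2]⟩) ht.1.ne'
        exact (pos_iff_pos_of_mul_pos ((pos_iff_pos_of_mul_pos h4).1 hp)).1 (sub_pos.2 ht.1)
      have e : W ∩ Ioo (z - η) (z + η) = Ioo z (z + η) := by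
        ext t
        refine ⟨fun ht => ⟨?_, ht.2.2⟩, fun ht => ⟨⟨⟨by linarith [ht.1], by linarith [ht.2]⟩,
          hpos t ⟨ht.1, ht.2.le⟩⟩, by linarith [ht.1], ht.2⟩⟩
        by_contra hn
        have h6 : t ≠ z := fun e => by
          have := ht.1.2
          rw [e, hz0] at this
          exact lt_irrefl _ this
        have h4 := h1 z hz t (abs_le.2 ⟨by linarith [ht.2.1], by linarith [ht.2.2]⟩) h6
        nlinarith [mul_nonneg hp.le (mul_nonneg (sub_nonneg.2 (not_lt.1 hn)) ht.1.2.le)]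
      refine (LINE2A_bot hd hφ (T := T) (by linarith) (by linarith) hz0 hpos).congr fun δ => ?_
      rw [e, intervalIntegral.integral_of_le (by linarith), integral_Ioc_eq_integral_Ioo]
  refine lim.congr' ?_
  filter_upwards [LINE2A_K_zero hd.continuous hCc hCp] with δ hδ
  have hK := LINE2A_K1_cont hd.continuous δ
  have hf := (hK.fun_mul (LINE2A_Lk_cont hK T)).fun_mul hφ
  rw [← integral_biUnion_finset Z (fun z _ => hWm.inter measurableSet_Ioo)]
  · refine (setIntegral_eq_of_subset_of_forall_sdiff_eq_zero hWm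
      (iUnion₂_subset fun z _ => inter_subset_left) fun t ht => ?_).symm
    rw [hδ t ⟨⟨Ioo_subset_Icc_self ht.1.1, ht.1.2.le⟩, fun h => ht.2 ?_⟩, zero_mul, zero_mul]
    obtain ⟨z, hz, hz'⟩ := mem_iUnion₂.1 h
    exact mem_biUnion hz ⟨ht.1, hz'⟩
  · intro z hz z' hz' hne
    refine disjoint_left.2 fun t ht ht' => ?_
    have h4 := h3 z hz z' hz' hne
    have h5 : |z - z'| < 2 * η :=
      abs_lt.2 ⟨by linarith [ht.2.2, ht'.2.1], by linarith [ht.2.1, ht'.2.2]⟩
    linarith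
  · intro z _
    exact (hf.integrableOn_Icc (a := -T) (b := T)).mono_set
      fun t ht => Ioo_subset_Icc_self ht.1.1

end MW
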