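import Pool.Agent.P.MP_064970_gt.ST1

/-!
All integrands in PosK are >= 0, so restrict sg to (a, m) and t to (m, b) for each component (a,b)
of {d > 0} with top zero b (a = b - len is a zero with d' > 0 because d(-T) < 0), m the midpoint;
different components are disjoint. For small delta kp lives within C delta of a and K(t), t > m,
within C delta of b; there 1 - <nu sg, nu t> >= 1 - <nu a, nu b> - eta and kp = -K'/nu3 >=
-K'/(nu3(a) + eta), K' = -K2 g nu3. P(sg,t) = P(sg,m) P(m,t); int_m^b K P(m,t) dt = 1 - P(m,b) -> 1;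
(L(sg) P(sg,m))' = P(sg,m), so int_a^m (-K') L P = K(a) L(a) P(a,m) + 1 - P(a,m) >= 1 - P(a,m) -> 1
(K(m) = 0).
-/

open scoped Manifold ContDiff
open MeasureTheory Set Filter Topology Metric
open scoped RealInnerProductSpace ENNReal ComplexConjugate Real

noncomputable section

namespace MW

universe u

/-- A primitive of the killing rate. -/
def LINE2B_I (K : ℝ → ℝ) (t : ℝ) : ℝ := ∫ σ in (0 : ℝ)..t, K σ

lemma LINE2B_I_der {K : ℝ → ℝ} (hK : Continuous K) (t : ℝ) : HasDerivAt (LINE2B_I K) (K t) t :=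
  (hK.integral_hasStrictDerivAt 0 t).hasDerivAt

lemma LINE2B_I_cont {K : ℝ → ℝ} (hK : Continuous K) : Continuous (LINE2B_I K) :=
  continuous_iff_continuousAt.2 fun t => (LINE2B_I_der hK t).continuousAt

lemma LINE2B_int {K : ℝ → ℝ} (hK : Continuous K) (s t : ℝ) :
    ∫ σ in s..t, K σ = LINE2B_I K t - LINE2B_I K s :=
  (intervalIntegral.integral_interval_sub_left (hK.intervalIntegrable _ _)
    (hK.intervalIntegrable _ _)).symm

lemma LINE2B_P {K : ℝ → ℝ} (hK : Continuous K) (s t : ℝ) :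
    Pk K s t = Real.exp (LINE2B_I K s - LINE2B_I K t) := by
  unfold Pk
  rw [LINE2B_int hK, neg_sub]

lemma LINE2B_P_pos (K : ℝ → ℝ) (s t : ℝ) : 0 < Pk K s t := Real.exp_pos _

lemma LINE2B_P_le {K : ℝ → ℝ} (h0 : ∀ t, 0 ≤ K t) {s t : ℝ} (h : s ≤ t) : Pk K s t ≤ 1 :=
  Real.exp_le_one_iff.2 (neg_nonpos.2 (intervalIntegral.integral_nonneg h fun u _ => h0 u))

lemma LINE2B_P_mul {K : ℝ → ℝ} (hK : Continuous K) (s t u : ℝ) :
    Pk K s t * Pk K t u = Pk K s u := by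
  simp only [LINE2B_P hK, ← Real.exp_add]
  congr 1
  ring

lemma LINE2B_P_cont {K : ℝ → ℝ} (hK : Continuous K) :
    Continuous fun p : ℝ × ℝ => Pk K p.1 p.2 := by
  simp only [LINE2B_P hK]
  have := LINE2B_I_cont hK
  fun_prop

lemma LINE2B_P_left {K : ℝ → ℝ} (hK : Continuous K) (m s : ℝ) :
    HasDerivAt (fun s => Pk K s m) (K s * Pk K s m) s := by
  simp only [LINE2B_P hK]
  exact (((LINE2B_I_der hK s).sub_const _).exp).congr_deriv (mul_comm _ _)

lemma LINE2B_P_right {K : ℝ → ℝ} (hK : Continuous K) (m t : ℝ) :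
    HasDerivAt (fun t => -Pk K m t) (K t * Pk K m t) t := by
  simp only [LINE2B_P hK]
  exact (((LINE2B_I_der hK t).const_sub _).exp).neg.congr_deriv (by ring)

lemma LINE2B_P_self (K : ℝ → ℝ) (s : ℝ) : Pk K s s = 1 := by simp [Pk]

lemma LINE2B_L_mul {K : ℝ → ℝ} (hK : Continuous K) (T σ m : ℝ) :
    Lk K T σ * Pk K σ m = ∫ s in (-T)..σ, Pk K s m := by
  unfold Lk
  rw [← intervalIntegral.integral_mul_const]
  simp only [LINE2B_P_mul hK]

lemma LINE2B_L_cont {K : ℝ → ℝ} (hK : Continuous K) (T : ℝ) : Continuous (Lk K T) := by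
  have h1 : Continuous fun s => Pk K s 0 :=
    (LINE2B_P_cont hK).comp (continuous_id.prodMk continuous_const)
  have h2 : Continuous fun σ => ∫ s in (-T)..σ, Pk K s 0 :=
    continuous_iff_continuousAt.2 fun t =>
      (h1.integral_hasStrictDerivAt (-T) t).hasDerivAt.continuousAt
  have h3 : Continuous fun s => Pk K 0 s :=
    (LINE2B_P_cont hK).comp (continuous_const.prodMk continuous_id)
  refine (h2.mul h3).congr fun σ => ?_
  rw [Pi.mul_apply, ← LINE2B_L_mul hK, mul_assoc, LINE2B_P_mul hK, LINE2B_P_self, mul_one]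

lemma LINE2B_L_nonneg (K : ℝ → ℝ) {T σ : ℝ} (h : -T ≤ σ) : 0 ≤ Lk K T σ :=
  intervalIntegral.integral_nonneg h fun _ _ => (LINE2B_P_pos _ _ _).le

lemma LINE2B_inner {ν : ℝ → E} (hν : ∀ t, ‖ν t‖ ≤ 1) (s t : ℝ) : 0 ≤ 1 - ⟪ν s, ν t⟫ := by
  have h := real_inner_le_norm (ν s) (ν t)
  have h2 : ‖ν s‖ * ‖ν t‖ ≤ 1 := mul_le_one₀ (hν s) (norm_nonneg _) (hν t)
  linarith

/-- The outer integrand of the positive term. -/
def LINE2B_F (K kp : ℝ → ℝ) (ν : ℝ → E) (W : Set ℝ) (T σ : ℝ) : ℝ :=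
  kp σ * Lk K T σ * ∫ t in W ∩ Ioi σ, K t * Pk K σ t * (1 - ⟪ν σ, ν t⟫)

section abstr
variable {K kp : ℝ → ℝ} {ν : ℝ → E} {W : Set ℝ} {T : ℝ}

lemma LINE2B_f_cont (hK : Continuous K) (hν : Continuous ν) :
    Continuous fun p : ℝ × ℝ => K p.2 * Pk K p.1 p.2 * (1 - ⟪ν p.1, ν p.2⟫) :=
  ((hK.comp continuous_snd).mul (LINE2B_P_cont hK)).mul
    (continuous_const.sub ((hν.comp continuous_fst).inner (hν.comp continuous_snd)))

lemma LINE2B_F_int (hK : Continuous K) (hkp : Continuous kp) (hν : Continuous ν)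
    (hWT : W ⊆ Ioo (-T) T) :
    IntegrableOn (LINE2B_F K kp ν W T) (Ioo (-T) T) := by
  have h1 : Continuous fun p : ℝ × ℝ =>
      kp p.1 * Lk K T p.1 * (K p.2 * Pk K p.1 p.2 * (1 - ⟪ν p.1, ν p.2⟫)) :=
    ((hkp.comp continuous_fst).mul ((LINE2B_L_cont hK T).comp continuous_fst)).mul
      (LINE2B_f_cont hK hν)
  have h2 : IntegrableOn (fun p : ℝ × ℝ =>
      kp p.1 * Lk K T p.1 * (K p.2 * Pk K p.1 p.2 * (1 - ⟪ν p.1, ν p.2⟫)))
      (Ioo (-T) T ×ˢ W) (volume.prod volume) :=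
    (h1.continuousOn.integrableOn_compact (μ := volume.prod volume)
      ((isCompact_Icc (a := -T) (b := T)).prod (isCompact_Icc (a := -T) (b := T)))).mono_set
      (prod_mono Ioo_subset_Icc_self (hWT.trans Ioo_subset_Icc_self))
  rw [IntegrableOn, ← Measure.prod_restrict] at h2
  have h3 := (h2.indicator (measurableSet_lt measurable_fst measurable_snd)).integral_prod_left
  refine h3.congr (Eventually.of_forall fun σ => ?_)
  unfold LINE2B_F
  dsimp only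
  rw [← integral_const_mul, ← setIntegral_indicator measurableSet_Ioi]
  rfl

lemma LINE2B_F_nonneg (h0 : ∀ t, 0 ≤ K t) (hp : ∀ t, 0 ≤ kp t) (hν : ∀ t, ‖ν t‖ ≤ 1) {σ : ℝ}
    (hσ : -T ≤ σ) : 0 ≤ LINE2B_F K kp ν W T σ :=
  mul_nonneg (mul_nonneg (hp σ) (LINE2B_L_nonneg K hσ)) (integral_nonneg fun t =>
    mul_nonneg (mul_nonneg (h0 t) (LINE2B_P_pos _ _ _).le) (LINE2B_inner hν _ _))

/-- The contribution of one component. -/
lemma LINE2B_comp {K' : ℝ → ℝ} (hK' : ∀ t, HasDerivAt K (K' t) t) (hc : Continuous K')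
    (hkp : Continuous kp) (hνc : Continuous ν) (h0 : ∀ t, 0 ≤ K t) (hp : ∀ t, 0 ≤ kp t)
    (hν : ∀ t, ‖ν t‖ ≤ 1) (hWT : W ⊆ Ioo (-T) T) {a m m' b c n : ℝ}
    (ha : -T ≤ a) (ham : a ≤ m) (hmm : m ≤ m') (hmb : m' ≤ b) (hb : b ≤ T) (hsub : Ioo m' b ⊆ W)
    (hz : ∀ t ∈ Icc m m', K t = 0) (hn : 0 < n) (hkn : ∀ σ ∈ Icc a m, -K' σ ≤ kp σ * n)
    (hc0 : 0 ≤ c) (hcc : ∀ σ ∈ Icc a m, ∀ t ∈ Icc m' b, c ≤ 1 - ⟪ν σ, ν t⟫) :
    c / n * (1 - Pk K a m) * (1 - Pk K m' b) ≤ ∫ σ in Ioo a b, LINE2B_F K kp ν W T σ := by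
  have hK : Continuous K := continuous_iff_continuousAt.2 fun t => (hK' t).continuousAt
  have hF := LINE2B_F_int hK hkp hνc hWT
  have hPl : ∀ u, Continuous fun s => Pk K s u := fun u =>
    (LINE2B_P_cont hK).comp (continuous_id.prodMk continuous_const)
  have hPr : ∀ u, Continuous fun s => Pk K u s := fun u =>
    (LINE2B_P_cont hK).comp (continuous_const.prodMk continuous_id)
  have hq : 0 ≤ 1 - Pk K m' b := sub_nonneg.2 (LINE2B_P_le h0 hmb)
  have hmm1 : Pk K m m' = 1 := by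
    unfold Pk
    rw [intervalIntegral.integral_congr (g := fun _ => (0 : ℝ))
      (by rw [uIcc_of_le hmm]; exact hz)]
    simp
  have h1 : ∫ t in m'..b, K t * Pk K m' t = 1 - Pk K m' b := by
    rw [intervalIntegral.integral_eq_sub_of_hasDerivAt (fun t _ => LINE2B_P_right hK m' t)
      ((hK.mul (hPr m')).intervalIntegrable _ _), LINE2B_P_self]
    ring
  have hG : ∀ σ ∈ Icc a m, c * Pk K σ m * (1 - Pk K m' b)
      ≤ ∫ t in W ∩ Ioi σ, K t * Pk K σ t * (1 - ⟪ν σ, ν t⟫) := by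
    intro σ hσ
    have hf : Continuous fun t => K t * Pk K σ t * (1 - ⟪ν σ, ν t⟫) :=
      (LINE2B_f_cont hK hνc).comp (continuous_const.prodMk continuous_id)
    have hi : IntegrableOn (fun t => K t * Pk K σ t * (1 - ⟪ν σ, ν t⟫)) (W ∩ Ioi σ) :=
      (hf.continuousOn.integrableOn_compact (isCompact_Icc (a := -T) (b := T))).mono_set
        (inter_subset_left.trans (hWT.trans Ioo_subset_Icc_self))
    refine le_trans ?_ (setIntegral_mono_set hi (Eventually.of_forall fun t =>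
      mul_nonneg (mul_nonneg (h0 t) (LINE2B_P_pos _ _ _).le) (LINE2B_inner hν _ _))
      (s := Ioo m' b) (LE.le.eventuallyLE fun t ht =>
        ⟨hsub ht, (hσ.2.trans hmm).trans_lt ht.1⟩))
    rw [← integral_Ioc_eq_integral_Ioo, ← intervalIntegral.integral_of_le hmb, ← h1,
      ← intervalIntegral.integral_const_mul]
    refine intervalIntegral.integral_mono_on hmb
      ((continuous_const.mul (hK.mul (hPr m'))).intervalIntegrable _ _)
      (hf.intervalIntegrable _ _) fun t ht => ?_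
    have e1 : Pk K σ t = Pk K σ m * Pk K m' t := by
      rw [← LINE2B_P_mul hK σ m t, ← LINE2B_P_mul hK m m' t, hmm1, one_mul]
    have e2 : 0 ≤ K t * Pk K σ t := mul_nonneg (h0 t) (LINE2B_P_pos _ _ _).le
    calc c * Pk K σ m * (K t * Pk K m' t) = K t * Pk K σ t * c := by rw [e1]; ring
      _ ≤ _ := mul_le_mul_of_nonneg_left (hcc σ hσ t ht) e2
  have hH : ∀ σ, HasDerivAt (fun σ => ∫ s in (-T)..σ, Pk K s m) (Pk K σ m) σ := fun σ =>
    ((hPl m).integral_hasStrictDerivAt (-T) σ).hasDerivAt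
  have hHc : Continuous fun σ => ∫ s in (-T)..σ, Pk K s m :=
    continuous_iff_continuousAt.2 fun t => (hH t).continuousAt
  have h2 : 1 - Pk K a m ≤ ∫ σ in a..m, -K' σ * ∫ s in (-T)..σ, Pk K s m := by
    have hd : ∀ σ, HasDerivAt (fun σ => Pk K σ m - K σ * ∫ s in (-T)..σ, Pk K s m)
        (-K' σ * ∫ s in (-T)..σ, Pk K s m) σ := fun σ =>
      ((LINE2B_P_left hK m σ).sub ((hK' σ).mul (hH σ))).congr_deriv (by ring)
    rw [intervalIntegral.integral_eq_sub_of_hasDerivAt (fun σ _ => hd σ)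
      ((hc.neg.mul hHc).intervalIntegrable _ _), LINE2B_P_self, hz m ⟨le_rfl, hmm⟩]
    have : 0 ≤ K a * ∫ s in (-T)..a, Pk K s m := mul_nonneg (h0 a)
      (intervalIntegral.integral_nonneg ha fun _ _ => (LINE2B_P_pos _ _ _).le)
    linarith
  have hab : Ioo a b ⊆ Ioo (-T) T := Ioo_subset_Ioo ha hb
  have hamb : Ioo a m ⊆ Ioo a b := Ioo_subset_Ioo_right (hmm.trans hmb)
  refine le_trans ?_ (setIntegral_mono_set (hF.mono_set hab)
    ((ae_restrict_iff' measurableSet_Ioo).2 (Eventually.of_forall fun σ hσ =>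
      LINE2B_F_nonneg h0 hp hν (ha.trans hσ.1.le))) (s := Ioo a m) hamb.eventuallyLE)
  have hcn : 0 ≤ c / n * (1 - Pk K m' b) := mul_nonneg (div_nonneg hc0 hn.le) hq
  calc c / n * (1 - Pk K a m) * (1 - Pk K m' b) = c / n * (1 - Pk K m' b) * (1 - Pk K a m) := by
        ring
    _ ≤ c / n * (1 - Pk K m' b) * ∫ σ in a..m, -K' σ * ∫ s in (-T)..σ, Pk K s m :=
        mul_le_mul_of_nonneg_left h2 hcn
    _ = ∫ σ in Ioo a m, c / n * (1 - Pk K m' b) * (-K' σ * ∫ s in (-T)..σ, Pk K s m) := by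
        rw [← intervalIntegral.integral_const_mul, intervalIntegral.integral_of_le ham,
          integral_Ioc_eq_integral_Ioo]
    _ ≤ _ := by
        refine setIntegral_mono_on
          (((continuous_const.mul (hc.neg.mul hHc)).continuousOn.integrableOn_compact
            (isCompact_Icc (a := a) (b := m))).mono_set Ioo_subset_Icc_self)
          (hF.mono_set (hamb.trans hab)) measurableSet_Ioo fun σ hσ => ?_
        have hσ' := Ioo_subset_Icc_self hσ
        have hL := LINE2B_L_nonneg K (ha.trans hσ'.1)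
        have hP := (LINE2B_P_pos K σ m).le
        unfold LINE2B_F
        rw [← LINE2B_L_mul hK]
        calc c / n * (1 - Pk K m' b) * (-K' σ * (Lk K T σ * Pk K σ m))
            ≤ c / n * (1 - Pk K m' b) * (kp σ * n * (Lk K T σ * Pk K σ m)) :=
              mul_le_mul_of_nonneg_left
                (mul_le_mul_of_nonneg_right (hkn σ hσ') (mul_nonneg hL hP)) hcn
          _ = kp σ * Lk K T σ * (c * Pk K σ m * (1 - Pk K m' b)) := by
              field_simp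
          _ ≤ _ := mul_le_mul_of_nonneg_left (hG σ hσ') (mul_nonneg (hp σ) hL)

end abstr

lemma LINE2B_kk_cd : ContDiff ℝ 1 kk := by
  unfold kk
  exact contDiff_const.sub (Real.smoothTransition.contDiff.comp
    ((contDiff_const.mul contDiff_id).sub contDiff_const))

lemma LINE2B_kk_anti : Antitone kk := fun x y h => by
  unfold kk
  have := Real.smoothTransition.monotone (show 2 * x - 1 ≤ 2 * y - 1 by linarith)
  linarith

lemma LINE2B_K1_nonneg (s δ : ℝ) : 0 ≤ K1 s δ :=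
  mul_nonneg (sq_nonneg _) (sub_nonneg.2 (Real.smoothTransition.le_one _))

lemma LINE2B_K2_nonneg (s : ℝ) {δ : ℝ} (hδ : 0 < δ) : 0 ≤ K2 s δ := by
  unfold K2
  have h := LINE2B_kk_anti.deriv_nonpos (x := s / δ)
  have h2 : 0 ≤ δ⁻¹ ^ 3 := by positivity
  exact neg_nonneg.2 (mul_nonpos_of_nonneg_of_nonpos h2 h)

lemma LINE2B_K1_low {s δ : ℝ} (hδ : 0 < δ) (h : s ≤ δ / 2) : K1 s δ = δ⁻¹ ^ 2 := by
  unfold K1 kk
  have : s / δ ≤ 1 / 2 := by rw [div_le_iff₀ hδ]; linarith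
  rw [Real.smoothTransition.zero_of_nonpos (by linarith)]
  ring

lemma LINE2B_K1_high {s δ : ℝ} (hδ : 0 < δ) (h : δ ≤ s) : K1 s δ = 0 := by
  unfold K1 kk
  have : 1 ≤ s / δ := by rw [le_div_iff₀ hδ]; linarith
  rw [Real.smoothTransition.one_of_one_le (by linarith)]
  ring

lemma LINE2B_K1_der (s δ : ℝ) : HasDerivAt (fun s => K1 s δ) (-K2 s δ) s := by
  unfold K1 K2
  have h1 : HasDerivAt kk (deriv kk (s / δ)) (s / δ) :=
    (LINE2B_kk_cd.differentiable (by simp) _).hasDerivAt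
  have h2 : HasDerivAt (fun s : ℝ => s / δ) (1 / δ) s := (hasDerivAt_id s).div_const δ
  exact ((h1.comp s h2).const_mul (δ⁻¹ ^ 2)).congr_deriv (by rw [one_div]; ring)

lemma LINE2B_K2_cont (δ : ℝ) : Continuous fun s => K2 s δ := by
  unfold K2
  have h := LINE2B_kk_cd.continuous_deriv le_rfl
  fun_prop

lemma LINE2B_K1_cont (δ : ℝ) : Continuous fun s => K1 s δ :=
  continuous_iff_continuousAt.2 fun s => (LINE2B_K1_der s δ).continuousAt

/-- The survival factor across an interval that ends at a zero tends to zero. -/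
lemma LINE2B_P_lim {d : ℝ → ℝ} (hd : Continuous d) {u v M : ℝ} (huv : u < v) (hM : 0 < M)
    (h : (∀ t ∈ Icc u v, d t ≤ M * (t - u)) ∨ ∀ t ∈ Icc u v, d t ≤ M * (v - t)) :
    Tendsto (fun δ : ℝ => Pk (fun σ => K1 (d σ) δ) u v) (𝓝[>] 0) (𝓝 0) := by
  have h1 : Tendsto (fun δ : ℝ => (2 * M)⁻¹ * δ⁻¹) (𝓝[>] 0) atTop :=
    tendsto_inv_nhdsGT_zero.const_mul_atTop (by positivity)
  unfold Pk
  refine Real.tendsto_exp_atBot.comp (tendsto_neg_atTop_atBot.comp (tendsto_atTop_mono' _ ?_ h1))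
  have h2 : ∀ᶠ δ in 𝓝[>] (0 : ℝ), δ ∈ Ioo 0 (2 * M * (v - u)) :=
    Ioo_mem_nhdsGT (by have := sub_pos.2 huv; positivity)
  filter_upwards [h2] with δ hδ
  have hK : Continuous fun σ => K1 (d σ) δ := (LINE2B_K1_cont δ).comp hd
  have hw : 0 < δ / (2 * M) := div_pos hδ.1 (by positivity)
  have hw' : δ / (2 * M) ≤ v - u := by
    rw [div_le_iff₀ (by positivity)]
    linarith [hδ.2]
  have hMw : M * (δ / (2 * M)) = δ / 2 := by field_simp
  have key : ∀ x y : ℝ, u ≤ x → y ≤ v → y = x + δ / (2 * M) → (∀ t ∈ Icc x y, d t ≤ δ / 2) →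
      (2 * M)⁻¹ * δ⁻¹ ≤ ∫ σ in u..v, K1 (d σ) δ := by
    intro x y hx hy hxy hle
    have hxy' : x ≤ y := by linarith
    refine le_trans (le_of_eq ?_) (intervalIntegral.integral_mono_interval hx hxy' hy
      (Eventually.of_forall fun t => LINE2B_K1_nonneg _ _) (hK.intervalIntegrable _ _))
    rw [intervalIntegral.integral_congr (g := fun _ => δ⁻¹ ^ 2)
      (by rw [uIcc_of_le hxy']; exact fun t ht => LINE2B_K1_low hδ.1 (hle t ht)),
      intervalIntegral.integral_const, hxy, smul_eq_mul]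
    have := hδ.1.ne'
    field_simp
    ring
  rcases h with h | h
  · refine key u (u + δ / (2 * M)) le_rfl (by linarith) rfl fun t ht => ?_
    refine (h t ⟨ht.1, by linarith [ht.2]⟩).trans ?_
    rw [← hMw]
    exact mul_le_mul_of_nonneg_left (by linarith [ht.2]) hM.le
  · refine key (v - δ / (2 * M)) v (by linarith) le_rfl (by ring) fun t ht => ?_
    refine (h t ⟨by linarith [ht.1], ht.2⟩).trans ?_
    rw [← hMw]
    exact mul_le_mul_of_nonneg_left (by linarith [ht.1]) hM.le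

/-- One component of the positive set. -/
lemma LINE2B_one {d g : ℝ → ℝ} {ν : ℝ → E} {T δ₀ : ℝ} (hδ₀ : 0 < δ₀) (hd : ContDiff ℝ 1 d)
    (hg : Continuous g) (hνc : Continuous ν) (hg0 : ∀ t, 0 ≤ g t) (hν : ∀ t, ‖ν t‖ ≤ 1)
    (hder : ∀ t ∈ Icc (-T) T, |d t| ≤ δ₀ → deriv d t = g t * ν t 2) {a b : ℝ} (ha : -T ≤ a)
    (hab : a < b) (hb : b ≤ T) (hda : d a = 0) (hdb : d b = 0) (hpos : ∀ t ∈ Ioo a b, 0 < d t)
    (hn : 0 < ν a 2) {ε : ℝ} (hε : 0 < ε) : ∀ᶠ δ in 𝓝[>] (0 : ℝ),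
      (1 - ⟪ν b, ν a⟫) / |ν a 2| - ε ≤ ∫ σ in Ioo a b, LINE2B_F (fun σ => K1 (d σ) δ)
        (fun σ => K2 (d σ) δ * g σ) ν {t | t ∈ Ioo (-T) T ∧ 0 < d t} T σ := by
  have hdc := hd.continuous
  have hdd : Differentiable ℝ d := hd.differentiable (by simp)
  have hd' : Continuous (deriv d) := hd.continuous_deriv le_rfl
  rw [abs_of_pos hn, real_inner_comm]
  set c := 1 - ⟪ν a, ν b⟫ with hc
  set n := ν a 2 with hn'
  have hc0 : 0 ≤ c := LINE2B_inner hν a b
  obtain ⟨η, hη, hη0⟩ : ∃ η : ℝ, c / n - ε < max (c - η) 0 / (n + η) ∧ 0 < η := by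
    have h1 : ContinuousAt (fun η : ℝ => max (c - η) 0 / (n + η)) 0 :=
      ContinuousAt.div (by fun_prop) (by fun_prop) (by simpa using hn.ne')
    have h2 : c / n - ε < max (c - 0) 0 / (n + 0) := by
      rw [sub_zero, add_zero, max_eq_left hc0]
      linarith
    exact (((h1.eventually (lt_mem_nhds h2)).filter_mono nhdsWithin_le_nhds).and
      (self_mem_nhdsWithin (s := Ioi (0 : ℝ)))).exists
  have hν2 : Continuous fun t => ν t 2 := by fun_prop
  obtain ⟨r, hr0, hr⟩ : ∃ r > 0, ∀ p : ℝ × ℝ, dist p (a, b) < r →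
      c - η < 1 - ⟪ν p.1, ν p.2⟫ ∧ ν p.1 2 < n + η ∧ |d p.1| < δ₀ := by
    refine Metric.eventually_nhds_iff.1 (Eventually.and ?_ (Eventually.and ?_ ?_))
    · have h1 : Continuous fun p : ℝ × ℝ => 1 - ⟪ν p.1, ν p.2⟫ :=
        continuous_const.sub ((hνc.comp continuous_fst).inner (hνc.comp continuous_snd))
      exact h1.continuousAt.eventually (lt_mem_nhds (show c - η < c by linarith))
    · exact (hν2.comp continuous_fst).continuousAt.eventually
        (gt_mem_nhds (show n < n + η by linarith))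
    · exact (hdc.comp continuous_fst).abs.continuousAt.eventually
        (gt_mem_nhds (show |d a| < δ₀ by rw [hda, abs_zero]; exact hδ₀))
  obtain ⟨ρ, hρ0, hρr, hρ2⟩ : ∃ ρ : ℝ, 0 < ρ ∧ ρ < r ∧ ρ ≤ (b - a) / 2 :=
    ⟨min (r / 2) ((b - a) / 2), lt_min (by linarith) (by linarith),
      (min_le_left _ _).trans_lt (by linarith), min_le_right _ _⟩
  have hr' : ∀ σ ∈ Icc a (a + ρ), ∀ t ∈ Icc (b - ρ) b,
      c - η < 1 - ⟪ν σ, ν t⟫ ∧ ν σ 2 < n + η ∧ |d σ| < δ₀ := by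
    intro σ hσ t ht
    refine hr (σ, t) ?_
    rw [Prod.dist_eq, max_lt_iff, Real.dist_eq, Real.dist_eq, abs_lt, abs_lt]
    refine ⟨⟨?_, ?_⟩, ?_, ?_⟩ <;> dsimp only <;> linarith [hσ.1, hσ.2, ht.1, ht.2]
  have hmm : a + ρ ≤ b - ρ := by linarith
  obtain ⟨x₀, hx₀, hmin⟩ := (isCompact_Icc (a := a + ρ) (b := b - ρ)).exists_isMinOn
    (nonempty_Icc.2 hmm) hdc.continuousOn
  have hx₀pos : 0 < d x₀ := hpos x₀ ⟨by linarith [hx₀.1], by linarith [hx₀.2]⟩
  obtain ⟨M, hM⟩ := (isCompact_Icc (a := a) (b := b)).exists_bound_of_continuousOn hd'.continuousOn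
  have hM0 : 0 ≤ M := (norm_nonneg _).trans (hM a ⟨le_rfl, hab.le⟩)
  have hlip : ∀ x ∈ Icc a b, ∀ y ∈ Icc a b, ‖d y - d x‖ ≤ M * ‖y - x‖ := fun x hx y hy =>
    (convex_Icc a b).norm_image_sub_le_of_norm_deriv_le (fun z _ => hdd z) hM hx hy
  have hp1 := LINE2B_P_lim hdc (u := a) (v := a + ρ) (M := M + 1) (by linarith) (by linarith)
    (Or.inl fun t ht => by
      have h1 := hlip a ⟨le_rfl, hab.le⟩ t ⟨ht.1, by linarith [ht.2]⟩
      rw [hda, sub_zero, Real.norm_eq_abs, Real.norm_eq_abs, abs_of_nonneg (sub_nonneg.2 ht.1)]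
        at h1
      have h2 := le_abs_self (d t)
      nlinarith [ht.1])
  have hp2 := LINE2B_P_lim hdc (u := b - ρ) (v := b) (M := M + 1) (by linarith) (by linarith)
    (Or.inr fun t ht => by
      have h1 := hlip b ⟨hab.le, le_rfl⟩ t ⟨by linarith [ht.1], ht.2⟩
      rw [hdb, sub_zero, Real.norm_eq_abs, Real.norm_eq_abs, abs_sub_comm,
        abs_of_nonneg (sub_nonneg.2 ht.2)] at h1
      have h2 := le_abs_self (d t)
      nlinarith [ht.2])
  have hlim := ((hp1.const_sub 1).const_mul (max (c - η) 0 / (n + η))).mul (hp2.const_sub 1)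
  simp only [sub_zero, mul_one] at hlim
  filter_upwards [hlim.eventually (lt_mem_nhds hη), Ioo_mem_nhdsGT hx₀pos] with δ h1 hδ
  refine h1.le.trans (LINE2B_comp (K' := fun σ => -K2 (d σ) δ * deriv d σ)
    (fun t => (LINE2B_K1_der (d t) δ).comp t (hdd t).hasDerivAt)
    (((LINE2B_K2_cont δ).comp hdc).neg.mul hd') (((LINE2B_K2_cont δ).comp hdc).mul hg) hνc
    (fun t => LINE2B_K1_nonneg _ _) (fun t => mul_nonneg (LINE2B_K2_nonneg _ hδ.1) (hg0 t)) hν
    (fun t ht => ht.1) ha (by linarith) hmm (by linarith) hb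
    (fun t ht => ⟨⟨by linarith [ht.1], ht.2.trans_le hb⟩, hpos t ⟨by linarith [ht.1], ht.2⟩⟩)
    (fun t ht => LINE2B_K1_high hδ.1 (hδ.2.le.trans (hmin ht))) (by linarith)
    (fun σ hσ => ?_) (le_max_right _ _)
    fun σ hσ t ht => max_le (hr' σ hσ t ht).1.le (LINE2B_inner hν _ _))
  have h2 := hr' σ hσ b ⟨by linarith, le_rfl⟩
  rw [hder σ ⟨ha.trans hσ.1, by linarith [hσ.2]⟩ h2.2.2.le]
  have h3 := mul_nonneg (LINE2B_K2_nonneg (d σ) hδ.1) (hg0 σ)
  calc -(-K2 (d σ) δ * (g σ * ν σ 2)) = K2 (d σ) δ * g σ * ν σ 2 := by ring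
    _ ≤ _ := mul_le_mul_of_nonneg_left h2.2.1.le h3

lemma LINE2B_fin {d : ℝ → ℝ} {T : ℝ} (hd : ContDiff ℝ 1 d)
    (hz : ∀ t ∈ Icc (-T) T, d t = 0 → deriv d t ≠ 0) : {t | t ∈ Icc (-T) T ∧ d t = 0}.Finite := by
  have hc : IsCompact {t | t ∈ Icc (-T) T ∧ d t = 0} :=
    isCompact_Icc.inter_right (isClosed_eq hd.continuous continuous_const)
  obtain ⟨s, -, hcov⟩ := hc.elim_nhds_subcover (fun x => {y | d y = 0 → y = x}) fun x hx => by
    have h1 := ((hd.differentiable (by simp) x).hasDerivAt).eventually_ne (c := d x)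
      (hz x hx.1 hx.2)
    rw [eventually_nhdsWithin_iff] at h1
    filter_upwards [h1] with y hy h2
    by_contra h3
    exact hy h3 (h2.trans hx.2.symm)
  refine s.finite_toSet.subset fun y hy => ?_
  obtain ⟨x, hx, hxy⟩ := mem_iUnion₂.1 (hcov hy)
  rw [hxy hy.2]
  exact hx

/-- The zero below a top zero. -/
lemma LINE2B_below {d : ℝ → ℝ} {T : ℝ} (hd : ContDiff ℝ 1 d) (hneg : d (-T) < 0)
    (hz : ∀ t ∈ Icc (-T) T, d t = 0 → deriv d t ≠ 0) {b : ℝ} (hb : b ∈ Ioo (-T) T) (hdb : d b = 0)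
    (hb' : deriv d b < 0) : -T < b - len d T b ∧ b - len d T b < b ∧ d (b - len d T b) = 0 ∧
      (∀ t ∈ Ioo (b - len d T b) b, 0 < d t) ∧ 0 < deriv d (b - len d T b) := by
  have hdc := hd.continuous
  have hdd : Differentiable ℝ d := hd.differentiable (by simp)
  have hleft : ∀ᶠ t in 𝓝[<] b, 0 < d t := by
    have h1 := (hasDerivAt_iff_tendsto_slope_left_right.1 (hdd b).hasDerivAt).1
    filter_upwards [h1.eventually (gt_mem_nhds hb'), self_mem_nhdsWithin] with t ht htb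
    rw [slope_def_field, hdb, sub_zero] at ht
    have h2 : t - b < 0 := sub_neg.2 htb
    by_contra h3
    exact absurd (div_nonneg_of_nonpos (not_lt.1 h3) h2.le) (not_le.2 ht)
  have hzero : ∀ x, x < b → d x ≤ 0 → ∃ s ∈ Ico x b, d s = 0 := by
    intro x hx hdx
    obtain ⟨t, ht, htx⟩ := (hleft.and (Ioo_mem_nhdsLT hx)).exists
    obtain ⟨s, hs, hs0⟩ := intermediate_value_Icc htx.1.le hdc.continuousOn ⟨hdx, ht.le⟩
    exact ⟨s, ⟨hs.1, hs.2.trans_lt htx.2⟩, hs0⟩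
  have hfin : {s | s ∈ Ioo (-T) b ∧ d s = 0}.Finite := (LINE2B_fin hd hz).subset fun s hs =>
    ⟨⟨hs.1.1.le, (hs.1.2.trans hb.2).le⟩, hs.2⟩
  have he : b - len d T b = sSup (insert (-T) {s | s ∈ Ioo (-T) b ∧ d s = 0}) := by
    unfold len
    ring
  rw [he]
  set a := sSup (insert (-T) {s | s ∈ Ioo (-T) b ∧ d s = 0})
  have hmem : a ∈ insert (-T) {s | s ∈ Ioo (-T) b ∧ d s = 0} :=
    (insert_nonempty _ _).csSup_mem (hfin.insert _)
  have hub : ∀ s ∈ Ioo (-T) b, d s = 0 → s ≤ a := fun s hs h0 =>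
    le_csSup (hfin.insert _).bddAbove (Or.inr ⟨hs, h0⟩)
  obtain ⟨s, hs, hs0⟩ := hzero (-T) hb.1 hneg.le
  have hs1 : -T < s := lt_of_le_of_ne hs.1 fun h => by rw [← h] at hs0; exact hneg.ne hs0
  have ha : -T < a := hs1.trans_le (hub s ⟨hs1, hs.2⟩ hs0)
  rcases hmem with h | h
  · exact absurd h ha.ne'
  have hpos : ∀ t ∈ Ioo a b, 0 < d t := by
    intro t ht
    by_contra h1
    obtain ⟨u, hu, hu0⟩ := hzero t ht.2 (not_lt.1 h1)
    exact absurd (hub u ⟨(ha.trans ht.1).trans_le hu.1, hu.2⟩ hu0) (not_le.2 (ht.1.trans_le hu.1))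
  refine ⟨ha, h.1.2, h.2, hpos, lt_of_le_of_ne ?_
    (hz a ⟨ha.le, (h.1.2.trans hb.2).le⟩ h.2).symm⟩
  have h1 := (hasDerivAt_iff_tendsto_slope_left_right.1 (hdd a).hasDerivAt).2
  refine ge_of_tendsto h1 ?_
  filter_upwards [Ioo_mem_nhdsGT h.1.2] with t ht
  rw [slope_def_field, h.2, sub_zero]
  exact div_nonneg (hpos t ht).le (sub_nonneg.2 ht.1.le)

theorem line2b_of : S_LINE2B := by
  intro d g ν T δ₀ _ hδ₀ hd hg hνc hg0 hν hneg _ hz hder ε hε
  have hfin : {t | t ∈ Ioo (-T) T ∧ d t = 0 ∧ deriv d t < 0}.Finite :=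
    (LINE2B_fin hd hz).subset fun s hs => ⟨Ioo_subset_Icc_self hs.1, hs.2.1⟩
  rw [finsum_mem_eq_finite_toFinset_sum _ hfin]
  set D := hfin.toFinset with hD
  have hbel := fun b (hb : b ∈ D) => LINE2B_below hd hneg hz (hfin.mem_toFinset.1 hb).1
    (hfin.mem_toFinset.1 hb).2.1 (hfin.mem_toFinset.1 hb).2.2
  have hε' : 0 < ε / (D.card + 1) := by positivity
  have hall := (eventually_all_finset D).2 fun b hb => by
    obtain ⟨h1, h2, h3, h4, h5⟩ := hbel b hb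
    have hb' := hfin.mem_toFinset.1 hb
    refine LINE2B_one hδ₀ hd hg hνc hg0 hν hder h1.le h2 hb'.1.2.le h3 hb'.2.1 h4 ?_ hε'
    rw [hder _ ⟨h1.le, (h2.trans hb'.1.2).le⟩ (by rw [h3, abs_zero]; exact hδ₀.le)] at h5
    exact pos_of_mul_pos_right h5 (hg0 _)
  filter_upwards [hall, self_mem_nhdsWithin] with δ hδ hδ0
  have hsum := Finset.sum_le_sum hδ
  have hF := LINE2B_F_int (K := fun σ => K1 (d σ) δ) (kp := fun σ => K2 (d σ) δ * g σ)
    (W := {t | t ∈ Ioo (-T) T ∧ 0 < d t}) (T := T) ((LINE2B_K1_cont δ).comp hd.continuous)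
    (((LINE2B_K2_cont δ).comp hd.continuous).mul hg) hνc fun t ht => ht.1
  have hsub : ∀ b ∈ D, Ioo (b - len d T b) b ⊆ Ioo (-T) T := fun b hb =>
    Ioo_subset_Ioo (hbel b hb).1.le (hfin.mem_toFinset.1 hb).1.2.le
  have hdis : ∀ b ∈ D, ∀ b' ∈ D, b < b' →
      Disjoint (Ioo (b - len d T b) b) (Ioo (b' - len d T b') b') := by
    intro b hb b' hb' hlt
    refine disjoint_left.2 fun t ht ht' => ?_
    have := (hbel b' hb').2.2.2.1 b ⟨ht'.1.trans ht.2, hlt⟩
    exact this.ne' (hfin.mem_toFinset.1 hb).2.1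
  rw [← integral_biUnion_finset D (fun _ _ => measurableSet_Ioo)
    (fun b hb b' hb' hne => (lt_or_gt_of_ne hne).elim (hdis b hb b' hb')
      fun h => (hdis b' hb' b hb h).symm) (fun b hb => hF.mono_set (hsub b hb)),
    Finset.sum_sub_distrib, Finset.sum_const, nsmul_eq_mul] at hsum
  have h1 : (D.card : ℝ) * (ε / (D.card + 1)) ≤ ε := by
    rw [← mul_div_assoc, div_le_iff₀ (by positivity)]
    nlinarith
  refine le_trans (by linarith) (hsum.trans (setIntegral_mono_set hF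
    ((ae_restrict_iff' measurableSet_Ioo).2 (Eventually.of_forall fun σ hσ =>
      LINE2B_F_nonneg (fun t => LINE2B_K1_nonneg _ _)
        (fun t => mul_nonneg (LINE2B_K2_nonneg _ hδ0) (hg0 t)) hν hσ.1.le))
    (iUnion₂_subset hsub).eventuallyLE))

end MW
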