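import Pool.Agent.P.MP_064970_gt.ST

/-!
T5, first half. x* = partner e3 x (Mem.finite_of_cxg, Mem.chord), N x* 2 < 0. LG at x and x* gives
u1, u2. For y near pr x the line over y has no point of S strictly between u2 y and u1 y
(compactness: the middle part of the chord is in the open set W), and it is regular for y near pr x
(LG at each of the finitely many points, the rest of the segment is off the closed set S, CXg
outside). So partner (pt y (u1 y)) = pt y (u2 y), EdZero gives D u1 + D u2 = 0, u1 + u2 = 2 alpha.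
M' = M.sim A 1 (2 alpha e3) (exists_mirror_iso). {z in S : S subset S' near z} is open, closed (UC),
nonempty, so S subset S', i.e. refl preserves S. N' = +-N on S (UC), the sign is locally constant, +
at x. SIDE at a nearest point (S closed, nonempty) gives W = W(M').
-/

open scoped Manifold ContDiff
open MeasureTheory Set Filter Topology Metric
open scoped RealInnerProductSpace ENNReal ComplexConjugate Real

noncomputable section

namespace MW

universe u

theorem MIRR_conn {S : Set E} (hS : IsPreconnected S) {P : E → Prop}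
    (hop : ∀ z ∈ S, P z → ∀ᶠ y in 𝓝[S] z, P y) (hcl : ∀ z ∈ S, (∃ᶠ y in 𝓝[S] z, P y) → P z)
    {x : E} (hx : x ∈ S) (hP : P x) : ∀ z ∈ S, P z := by
  intro z hz
  have key : ∀ a ∈ S, ∀ᶠ b in 𝓝[S] a, (P a → P b) ∧ (P b → P a) := by
    intro a ha
    by_cases h : P a
    · filter_upwards [hop a ha h] with b hb using ⟨fun _ => hb, fun _ => h⟩
    · filter_upwards [not_frequently.1 (mt (hcl a ha) h)] with b hb
        using ⟨fun h' => absurd h' h, fun h' => absurd h' hb⟩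
  exact hS.induction₂' (fun a b => P a → P b) key (fun _ _ _ _ _ _ h1 h2 h => h2 (h1 h)) hx hz hP

theorem MIRR_tube {G : Set E} (hG : IsOpen G) {K : Set ℝ} (hK : IsCompact K) {y₀ : ℂ}
    (h : ∀ t ∈ K, pt y₀ t ∈ G) : ∀ᶠ y in 𝓝 y₀, ∀ t ∈ K, pt y t ∈ G :=
  hK.eventually_forall_of_forall_eventually (P := fun y t => pt y t ∈ G) fun t ht =>
    (hG.preimage continuous_pt).mem_nhds (show (y₀, t) ∈ _ from h t ht)

theorem MIRR_add (x : E) (t : ℝ) : x + t • e3 = pt (pr x) (x 2 + t) := by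
  rw [← pt_add_smul_e3, pt_pr]

theorem MIRR_sub (x : E) (t : ℝ) : x - t • e3 = pt (pr x) (x 2 - t) := by
  rw [← pt_sub_smul_e3, pt_pr]

/-- Regular vertical lines form an open set. -/
theorem MIRR_reg {M : Surf} (hM : M.Mem) (hc : M.CXg e3) {x : E} (hr : M.RegLine e3 x) :
    ∀ᶠ y in 𝓝 (pr x), ∀ t, pt y t ∈ M.S → M.N (pt y t) 2 ≠ 0 := by
  obtain ⟨R, L, hR, hL, hc⟩ := hc
  have hcont : ContinuousOn (fun z => M.N z 2) M.S :=
    (EuclideanSpace.proj (𝕜 := ℝ) (2 : Fin 3)).continuous.comp_continuousOn M.N_cont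
  have hZ : IsClosed (M.S ∩ (fun z => M.N z 2) ⁻¹' {0}) :=
    hcont.preimage_isClosed_of_isClosed hM.isClosed isClosed_singleton
  set T : ℝ := R + L * (‖pr x‖ + 1) with hT
  have h1 := MIRR_tube hZ.isOpen_compl (isCompact_Icc (a := -T) (b := T)) (y₀ := pr x)
    fun t _ ht => by
      have e : x + (t - x 2) • e3 = pt (pr x) t := by rw [MIRR_add]; congr 1; ring
      have := hr (t - x 2) (by rw [e]; exact ht.1)
      rw [e, inner_e3] at this
      exact this ht.2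
  filter_upwards [h1, ball_mem_nhds (pr x) one_pos] with y hy hy1 t ht h0
  by_cases htT : |t| ≤ T
  · exact hy t (abs_le.1 htT) ⟨ht, h0⟩
  · have a1 : ‖y‖ ≤ ‖pr x‖ + 1 := by
      have := mem_ball_iff_norm.1 hy1
      linarith [norm_sub_norm_le y (pr x)]
    have a2 := mul_le_mul_of_nonneg_left a1 hL.le
    have a3 : |t| ≤ ‖pt y t‖ := abs_two_le (pt y t)
    have a4 : 0 ≤ L * (‖pr x‖ + 1) := by positivity
    have a5 := hc (pt y t) (by linarith [not_le.1 htT]) (by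
      rw [inner_e3, pt_two, pt_sub_smul_e3, sub_self, norm_pt_zero]
      linarith [not_le.1 htT])
    exact Set.disjoint_left.1 M.disjS' a5 ht

/-- The local symmetry. -/
theorem MIRR_loc (hLG : S_LG) {M : Surf} {x : E} (hM : M.Mem) (hc : M.CXg e3)
    (hE : M.EdZero e3) (hx : x ∈ M.S) (hr : M.RegLine e3 x) (hN : 0 < M.N x 2) :
    (∀ᶠ z in 𝓝[M.S] x, refl e3 (M.alpha e3 x) z ∈ M.S) ∧
      M.N x = mirror e3 (M.N (refl e3 (M.alpha e3 x) x)) := by
  obtain ⟨⟨T, hT, hW⟩, -⟩ := hM.finite_of_cxg norm_e3 hc x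
  have hW' : x - T • e3 ∈ M.W' := by
    have := hW (-T) (by rw [abs_neg, abs_of_pos hT])
    rwa [neg_smul, ← sub_eq_add_neg] at this
  obtain ⟨hl, -, hmid, -, -, -⟩ := hM.chord hx (by rwa [inner_e3]) hT hW'
  set l := M.ell e3 x with hldef
  have hp : M.partner e3 x = pt (pr x) (x 2 - l) := MIRR_sub x l
  have hpS : pt (pr x) (x 2 - l) ∈ M.S := hp ▸ hM.partner_mem e3 hx
  have hα : 2 * M.alpha e3 x = x 2 + (x 2 - l) := by
    rw [Surf.alpha, inner_e3, ← hldef]; ring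
  have hreg := MIRR_reg hM hc hr
  obtain ⟨ρ₁, δ₁, u₁, hρ₁, hδ₁, c₁, e₁, g₁⟩ := hLG M x hx hN.ne'
  obtain ⟨ρ₂, δ₂, u₂, hρ₂, hδ₂, c₂, e₂, g₂⟩ := hLG M _ hpS (hreg.self_of_nhds _ hpS)
  simp only [pr_pt, pt_two] at c₂ e₂ g₂
  have b₁ := ball_mem_nhds (pr x) hρ₁
  have b₂ := ball_mem_nhds (pr x) hρ₂
  have k₁ : ContinuousAt u₁ (pr x) := c₁.continuousOn.continuousAt b₁
  have k₂ : ContinuousAt u₂ (pr x) := c₂.continuousOn.continuousAt b₂
  have s₁ : ∀ y ∈ ball (pr x) ρ₁, pt y (u₁ y) ∈ M.S := fun y hy =>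
    ((g₁ y hy).2.2.2 _ (g₁ y hy).1).2 rfl
  have s₂ : ∀ y ∈ ball (pr x) ρ₂, pt y (u₂ y) ∈ M.S := fun y hy =>
    ((g₂ y hy).2.2.2 _ (g₂ y hy).1).2 rfl
  have hlt : ∀ᶠ y in 𝓝 (pr x), u₂ y < u₁ y := k₂.eventually_lt k₁ (by rw [e₁, e₂]; linarith)
  have hpos : ∀ᶠ y in 𝓝 (pr x), 0 < M.N (pt y (u₁ y)) 2 := by
    have t1 : Tendsto (fun y => pt y (u₁ y)) (𝓝 (pr x)) (𝓝[M.S] x) := by
      refine tendsto_nhdsWithin_iff.2 ⟨?_, mem_of_superset b₁ s₁⟩
      have := (continuous_pt.tendsto (pr x, u₁ (pr x))).comp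
        (tendsto_id.prodMk_nhds k₁.tendsto)
      rw [e₁] at this
      simpa [Function.comp_def] using this
    have t2 := ((EuclideanSpace.proj (𝕜 := ℝ) (2 : Fin 3)).continuous.tendsto _).comp
      ((M.N_cont x hx).tendsto.comp t1)
    exact t2.eventually (lt_mem_nhds hN)
  have hη : 0 < min δ₁ δ₂ := lt_min hδ₁ hδ₂
  have htube := MIRR_tube M.isOpen_W
    (isCompact_Icc (a := x 2 - l + min δ₁ δ₂) (b := x 2 - min δ₁ δ₂)) (y₀ := pr x) fun t ht => by
      have := hmid (x 2 - t) (by linarith [ht.2]) (by linarith [ht.1])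
      rwa [MIRR_sub, sub_sub_cancel] at this
  have hmir : ∀ᶠ y in 𝓝 (pr x), M.N (pt y (u₁ y)) = mirror e3 (M.N (pt y (u₂ y))) := by
    filter_upwards [b₁, b₂, hlt, hpos, htube, hreg] with y y₁ y₂ h12 h0 hW hR
    have hl' : M.ell e3 (pt y (u₁ y)) = u₁ y - u₂ y := by
      refine Surf.ell_eq (by linarith) ?_ fun s hs0 hs hS => ?_
      · rw [pt_sub_smul_e3, sub_sub_cancel]; exact s₂ y y₂
      · rw [pt_sub_smul_e3] at hS
        have a1 := abs_lt.1 (g₁ y y₁).1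
        have a2 := abs_lt.1 (g₂ y y₂).1
        by_cases q₁ : |u₁ y - s - x 2| < δ₁
        · have := ((g₁ y y₁).2.2.2 _ q₁).1 hS
          linarith
        by_cases q₂ : |u₁ y - s - (x 2 - l)| < δ₂
        · have := ((g₂ y y₂).2.2.2 _ q₂).1 hS
          linarith
        rw [abs_lt, not_and_or] at q₁ q₂
        refine Set.disjoint_left.1 M.disjS (hW _ ⟨?_, ?_⟩) hS
        · rcases q₂ with q | q <;> linarith [min_le_right δ₁ δ₂, not_lt.1 q]
        · rcases q₁ with q | q <;> linarith [min_le_left δ₁ δ₂, not_lt.1 q]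
    have h1 := hE _ (s₁ y y₁) (fun t ht => by
      rw [pt_add_smul_e3] at ht
      rw [pt_add_smul_e3, inner_e3]
      exact hR _ ht) (by rwa [inner_e3])
    rw [Surf.edx, Surf.partner, hl', pt_sub_smul_e3, sub_sub_cancel] at h1
    exact ed_eq_zero.1 h1
  obtain ⟨ε, hε, hb⟩ := Metric.mem_nhds_iff.1 (inter_mem hmir (inter_mem b₁ b₂))
  have d₁ : ∀ y ∈ ball (pr x) ε, DifferentiableAt ℝ u₁ y := fun y hy =>
    (c₁.contDiffAt (isOpen_ball.mem_nhds (hb hy).2.1)).differentiableAt (by simp)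
  have d₂ : ∀ y ∈ ball (pr x) ε, DifferentiableAt ℝ u₂ y := fun y hy =>
    (c₂.contDiffAt (isOpen_ball.mem_nhds (hb hy).2.2)).differentiableAt (by simp)
  have hsum : ∀ y ∈ ball (pr x) ε, u₁ y + u₂ y = 2 * M.alpha e3 x := by
    intro y hy
    rw [hα, ← e₂, ← e₁]
    refine isOpen_ball.is_const_of_fderiv_eq_zero (𝕜 := ℝ) (f := fun y => u₁ y + u₂ y)
      (convex_ball _ _).isPreconnected
      (fun w hw => ((d₁ w hw).add (d₂ w hw)).differentiableWithinAt) (fun w hw => ?_) hy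
      (mem_ball_self hε)
    ext v
    have m : M.N (pt w (u₁ w)) = mirror e3 (M.N (pt w (u₂ w))) := (hb hw).1
    rw [fderiv_fun_add (d₁ w hw) (d₂ w hw), ContinuousLinearMap.add_apply,
      (g₁ w (hb hw).2.1).2.2.1, (g₂ w (hb hw).2.2).2.2.1, m, mirror_e3, pr_pt, pt_two]
    simp only [Pi.zero_apply, ContinuousLinearMap.zero_apply]
    ring
  constructor
  · have n1 : ∀ᶠ z in 𝓝 x, pr z ∈ ball (pr x) ε :=
      continuous_pr.continuousAt.eventually (ball_mem_nhds _ hε)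
    have n2 : ∀ᶠ z in 𝓝 x, dist (z 2) (x 2) < δ₁ :=
      ((EuclideanSpace.proj (𝕜 := ℝ) (2 : Fin 3)).continuous.tendsto x).eventually
        (ball_mem_nhds _ hδ₁)
    filter_upwards [mem_nhdsWithin_of_mem_nhds n1, mem_nhdsWithin_of_mem_nhds n2,
      self_mem_nhdsWithin] with z z1 z2 z3
    have a1 : z 2 = u₁ (pr z) :=
      ((g₁ _ (hb z1).2.1).2.2.2 _ (by rwa [← Real.dist_eq])).1 (by rwa [pt_pr])
    rw [refl_e3, ← hsum _ z1, a1, add_sub_cancel_left]
    exact s₂ _ (hb z1).2.2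
  · have m := hmir.self_of_nhds
    rw [e₁, e₂, pt_pr] at m
    rw [refl_e3, hα, add_sub_cancel_left]
    exact m

/-- The sides are determined by the set and the normal. -/
theorem MIRR_sides (hSIDE : S_SIDE) {M M' : Surf} (hM : M.Mem) (hM' : M'.Mem)
    (hne : M.S.Nonempty) (hS : M'.S = M.S) (hN : ∀ z ∈ M.S, M'.N z = M.N z) (z : E) :
    (z ∈ M'.W ↔ z ∈ M.W) ∧ (z ∈ M'.W' ↔ z ∈ M.W') := by
  by_cases hz : z ∈ M.S
  · have hz' : z ∈ M'.S := hS ▸ hz
    exact ⟨iff_of_false (fun h => Set.disjoint_left.1 M'.disjS h hz')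
        fun h => Set.disjoint_left.1 M.disjS h hz,
      iff_of_false (fun h => Set.disjoint_left.1 M'.disjS' h hz')
        fun h => Set.disjoint_left.1 M.disjS' h hz⟩
  · obtain ⟨p, hp, hd⟩ := hM.isClosed.exists_infDist_eq_dist hne z
    have hmin : ∀ y ∈ M.S, ‖z - p‖ ≤ ‖z - y‖ := fun y hy => by
      rw [← dist_eq_norm, ← dist_eq_norm, ← hd]; exact infDist_le_dist_of_mem hy
    have h1 := hSIDE M hM z p hz hp hmin
    have h2 := hSIDE M' hM' z p (hS ▸ hz) (hS ▸ hp) (hS ▸ hmin)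
    rw [hN p hp] at h2
    exact ⟨h2.2.trans h1.2.symm, h2.1.trans h1.1.symm⟩

theorem mirr_of (hLG : S_LG) (hUC : S_UC) (hSIDE : S_SIDE) : S_MIRR := by
  intro M x hM hconn hc hE hx hr hN
  obtain ⟨hloc, hNx⟩ := MIRR_loc hLG hM hc hE hx hr hN
  set a := M.alpha e3 x with ha
  obtain ⟨A, hA, -, hsim⟩ := exists_mirror_iso norm_e3
  obtain ⟨M', h⟩ := exists_isSim M A one_pos ((2 * a) • e3)
  have hM' := h.mem hM
  have hS' : ∀ z, z ∈ M'.S ↔ refl e3 a z ∈ M.S := fun z => by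
    rw [← h.S, hsim, refl_refl norm_e3]
  have hN' : ∀ z, M'.N z = mirror e3 (M.N (refl e3 a z)) := fun z => by
    rw [← hA, ← h.N, hsim, refl_refl norm_e3]
  have hall : ∀ z ∈ M.S, ∀ᶠ y in 𝓝[M.S] z, y ∈ M'.S := by
    refine MIRR_conn hconn (P := fun z => ∀ᶠ y in 𝓝[M.S] z, y ∈ M'.S)
      (fun z _ hz => eventually_eventually_nhdsWithin.2 hz) (fun z hz hf => ?_) hx
      (hloc.mono fun y hy => (hS' y).2 hy)
    refine (hUC M M' z hz ?_).1 hf
    have h1 : ∃ᶠ y in 𝓝[M.S] z, y ∈ M'.S :=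
      (hf.and_eventually self_mem_nhdsWithin).mono fun y hy => hy.1.self_of_nhdsWithin hy.2
    exact hM'.isClosed.closure_subset
      (mem_closure_iff_frequently.2 (h1.filter_mono nhdsWithin_le_nhds))
  have hsub : M.S ⊆ M'.S := fun z hz => (hall z hz).self_of_nhdsWithin hz
  have hsym : ∀ z, refl e3 a z ∈ M.S ↔ z ∈ M.S := fun z =>
    ⟨fun hz => by simpa [refl_refl norm_e3] using (hS' _).1 (hsub hz),
      fun hz => (hS' z).1 (hsub hz)⟩
  have hSS : M'.S = M.S := Set.ext fun z => (hS' z).trans (hsym z)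
  have hg : ContinuousOn (fun z => M'.N z - M.N z) M.S := (M'.N_cont.mono hsub).sub M.N_cont
  have hNN : ∀ z ∈ M.S, M'.N z = M.N z := by
    refine MIRR_conn hconn (P := fun z => M'.N z = M.N z) (fun z hz h0 => ?_)
      (fun z hz hf => ?_) hx (by rw [hN', ← hNx])
    · have h1 : ∀ᶠ y in 𝓝[M.S] z, ‖M'.N y - M.N y‖ < 1 :=
        (hg z hz).norm.tendsto.eventually (gt_mem_nhds (by rw [h0]; simp))
      filter_upwards [h1, self_mem_nhdsWithin] with y hy hyS
      rcases (hUC M M' y hyS (hsub hyS)).2 (hall y hyS) with q | q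
      · exact q
      · exfalso
        have e : -M.N y - M.N y = (-2 : ℝ) • M.N y := by module
        rw [q, e, norm_smul, M.N_unit y hyS] at hy
        norm_num at hy
    · by_contra hne
      have h1 : ∀ᶠ y in 𝓝[M.S] z, M'.N y - M.N y ≠ 0 :=
        (hg z hz).tendsto.eventually_ne (sub_ne_zero.2 hne)
      exact hf (h1.mono fun y hy q => hy (sub_eq_zero.2 q))
  have hsd := MIRR_sides hSIDE hM hM' ⟨x, hx⟩ hSS hNN
  refine ⟨hsym, fun z => ?_, fun z => ?_, fun z hz => ?_⟩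
  · rw [← (hsd _).1, ← hsim, h.W]
  · rw [← (hsd _).2, ← hsim, h.W']
  · rw [← hNN z hz, hN', mirror_mirror norm_e3]

end MW
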