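import Pool.Agent.P.MP_064970_gt.ST1

/-!
T3. Apply TIL0, TIL1 to M.swap (bands miss S), Py >= 0, Ry <= 1: int_{N3 < 0} ellT Deta(-N') (-N3)
<= mu(eta) + int eta. On Bot, ellT = x 2 + T and N3 <= 0 (below is W'); at other points of S over
the support 0 <= ellT <= 2 T0; |x 2| < T0.
-/

open scoped Manifold ContDiff
open MeasureTheory Set Filter Topology Metric
open scoped RealInnerProductSpace ENNReal ComplexConjugate Real

noncomputable section

namespace MW

universe u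

/-- The flux density. -/
def PI_F (M : Surf) (η : ℂ → ℝ) (x : E) : ℝ := fderiv ℝ η (pr x) (pr (M.N x)) * |M.N x 2|

theorem PI_meas (M : Surf) {η : ℂ → ℝ} (hη : ContDiff ℝ 1 η) : Measurable (PI_F M η) := by
  have h₁ : Continuous fun q : E × E => fderiv ℝ η (pr q.1) (pr q.2) * |q.2 2| :=
    (((hη.continuous_fderiv one_ne_zero).comp (continuous_pr.comp continuous_fst)).clm_apply
      (continuous_pr.comp continuous_snd)).mul (by fun_prop)
  exact h₁.measurable.comp (measurable_id.prodMk M.N_meas)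

theorem PI_abs_le (M : Surf) (η : ℂ → ℝ) {x : E} (hx : x ∈ M.S) :
    |PI_F M η x| ≤ ‖fderiv ℝ η (pr x)‖ := by
  have h₁ : ‖pr (M.N x)‖ ≤ 1 := (norm_pr_le _).trans (M.N_unit x hx).le
  have h₂ : |M.N x 2| ≤ 1 := (abs_two_le _).trans (M.N_unit x hx).le
  have h₃ : |fderiv ℝ η (pr x) (pr (M.N x))| ≤ ‖fderiv ℝ η (pr x)‖ :=
    ((fderiv ℝ η (pr x)).le_opNorm _).trans (mul_le_of_le_one_right (norm_nonneg _) h₁)
  rw [PI_F, abs_mul, abs_abs]
  exact (mul_le_of_le_one_right (abs_nonneg _) h₂).trans h₃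

theorem PI_fderiv_zero {η : ℂ → ℝ} {y : ℂ} (hy : y ∉ tsupport η) : fderiv ℝ η y = 0 := by
  by_contra h
  exact hy (support_fderiv_subset ℝ h)

theorem PI_ellT_bounds (M : Surf) {T : ℝ} {x : E} (hx : x ∈ lay T) :
    0 ≤ M.ellT T x ∧ M.ellT T x ≤ x 2 + T := by
  have hx' : -T < x 2 := (abs_lt.1 hx).1
  have hb : ∀ s ∈ insert (-T) {s | s ∈ Ioo (-T) (x 2) ∧ pt (pr x) s ∈ M.S}, s ≤ x 2 := by
    rintro s (rfl | hs)
    · exact hx'.le
    · exact hs.1.2.le
  have h₁ := csSup_le (insert_nonempty _ _) hb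
  have h₂ := le_csSup ⟨_, hb⟩ (mem_insert (-T) _)
  unfold Surf.ellT
  constructor <;> linarith

theorem PI_ellT_le (M : Surf) {T t : ℝ} {x : E} (h₁ : -T < t) (h₂ : t < x 2)
    (h₃ : pt (pr x) t ∈ M.S) : M.ellT T x ≤ x 2 - t := by
  have hb : ∀ s ∈ insert (-T) {s | s ∈ Ioo (-T) (x 2) ∧ pt (pr x) s ∈ M.S}, s ≤ x 2 := by
    rintro s (rfl | hs)
    · exact (h₁.trans h₂).le
    · exact hs.1.2.le
  have h := le_csSup ⟨_, hb⟩ (mem_insert_of_mem (-T) ⟨⟨h₁, h₂⟩, h₃⟩)
  unfold Surf.ellT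
  linarith

theorem PI_ellT_bot (M : Surf) {T : ℝ} {x : E} (hx : x ∈ M.Bot T) : M.ellT T x = x 2 + T := by
  have h : {s | s ∈ Ioo (-T) (x 2) ∧ pt (pr x) s ∈ M.S} = ∅ :=
    eq_empty_of_forall_notMem fun s hs => hx.2.2 s hs.1.1 hs.1.2 hs.2
  unfold Surf.ellT
  rw [h, insert_empty_eq, csSup_singleton]
  ring

theorem PI_bot_nonpos {M : Surf} (hM : M.Mem) {K : Set ℂ} {T₀ T : ℝ} (h0 : 0 < T₀) (hT : T₀ < T)
    (hs : M.Slab K T₀ T) {x : E} (hx : x ∈ M.Bot T) (hK : pr x ∈ K) : M.N x 2 ≤ 0 := by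
  by_contra hn
  obtain ⟨h₁, -, h₂, h₃, -⟩ := (hM.chord_slab h0 hT hs hx.1 ⟨hK, hx.2.1⟩).2 (not_le.1 hn)
  have h₄ : M.partner e3 x 2 = x 2 - M.ell e3 x := by
    simp [Surf.partner]
  refine hx.2.2 (M.partner e3 x 2) ?_ (by linarith) ?_
  · have := (abs_lt.1 h₂.2).1
    linarith
  · rw [← h₃, pt_pr]
    exact hM.partner_mem e3 hx.1

/-- The pointwise comparison of the flux with the main term. -/
theorem PI_point {M : Surf} (hM : M.Mem) {η : ℂ → ℝ} {T₀ T : ℝ} (h0 : 0 < T₀) (hT : T₀ < T)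
    (hs : M.Slab (tsupport η) T₀ T) {x : E} (hx : x ∈ M.S) :
    (lay T ∩ M.swap.top e3).indicator (fun x => M.ellT T x * PI_F M η x) x
      - 4 * T₀ * (lay T).indicator (fun x => ‖fderiv ℝ η (pr x)‖) x
      ≤ T * (M.Bot T).indicator (PI_F M η) x := by
  by_cases hl : x ∈ lay T
  swap
  · rw [indicator_of_notMem (fun h => hl h.1), indicator_of_notMem hl,
      indicator_of_notMem (fun h => hl h.2.1)]
    simp
  rw [indicator_of_mem hl]
  have hF := PI_abs_le M η hx
  have hn := norm_nonneg (fderiv ℝ η (pr x))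
  by_cases hK : pr x ∈ tsupport η
  swap
  · have h₀ : PI_F M η x = 0 := by rw [PI_F, PI_fderiv_zero hK]; simp
    rw [PI_fderiv_zero hK]
    simp [indicator, h₀]
  have h2 : |x 2| < T₀ := (hM.chord_slab h0 hT hs hx ⟨hK, hl⟩).1
  have htop : x ∈ M.swap.top e3 ↔ M.N x 2 < 0 := by
    simp [Surf.top, inner_neg_left, inner_e3]
  have key : ∀ a : ℝ, |a| ≤ 2 * T₀ → a * PI_F M η x ≤ 4 * T₀ * ‖fderiv ℝ η (pr x)‖ := by
    intro a ha
    have h₁ : a * PI_F M η x ≤ |a| * |PI_F M η x| := by rw [← abs_mul]; exact le_abs_self _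
    have h₂ : |a| * |PI_F M η x| ≤ 2 * T₀ * ‖fderiv ℝ η (pr x)‖ :=
      mul_le_mul ha hF (abs_nonneg _) (by positivity)
    nlinarith [mul_nonneg h0.le hn]
  by_cases hb : x ∈ M.Bot T
  · rw [indicator_of_mem hb]
    rcases (PI_bot_nonpos hM h0 hT hs hb hK).lt_or_eq with h | h
    · rw [indicator_of_mem (show x ∈ lay T ∩ M.swap.top e3 from ⟨hl, htop.2 h⟩),
        PI_ellT_bot M hb]
      have := key (x 2) (by linarith)
      linarith
    · have h₀ : PI_F M η x = 0 := by rw [PI_F, h]; simp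
      have := key 0 (by rw [abs_zero]; positivity)
      simp only [indicator, h₀, mul_zero, ite_self] at this ⊢
      linarith
  · rw [indicator_of_notMem hb, mul_zero]
    by_cases ht : x ∈ lay T ∩ M.swap.top e3
    · rw [indicator_of_mem ht]
      obtain ⟨t, h₁, h₂, h₃⟩ : ∃ t, -T < t ∧ t < x 2 ∧ pt (pr x) t ∈ M.S := by
        by_contra hc
        exact hb ⟨hx, hl, fun t h₁ h₂ h₃ => hc ⟨t, h₁, h₂, h₃⟩⟩
      have h₄ : |t| < T₀ := by
        have := (hM.chord_slab h0 hT hs h₃ ⟨by simpa using hK, by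
          have := (abs_lt.1 h2).2
          simp only [pt_two]
          exact abs_lt.2 ⟨h₁, by linarith⟩⟩).1
        simpa using this
      have h₅ := PI_ellT_le M h₁ h₂ h₃
      have h₆ := (PI_ellT_bounds M hl).1
      have := key (M.ellT T x) (by
        rw [abs_of_nonneg h₆]
        linarith [(abs_lt.1 h2).2, (abs_lt.1 h₄).1])
      linarith
    · rw [indicator_of_notMem ht]
      have := key 0 (by rw [abs_zero]; positivity)
      linarith

/-- Functions dominated by the gradient of the cutoff are integrable on the layer. -/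
theorem PI_integrable {M : Surf} (hM : M.Mem) {η : ℂ → ℝ} (hη : ContDiff ℝ 1 η)
    (hc : HasCompactSupport η) {T C : ℝ} {A : Set E} (hA : MeasurableSet A) (hAT : A ⊆ lay T)
    {g : E → ℝ} (hg : Measurable g)
    (hb : ∀ x ∈ M.S, x ∈ A → |g x| ≤ C * ‖fderiv ℝ η (pr x)‖) :
    Integrable (A.indicator g) M.μ := by
  obtain ⟨B, hB⟩ := (hη.continuous_fderiv one_ne_zero).bounded_above_of_compact_support
    (hc.fderiv ℝ)
  have hfin : M.μ (cyl (tsupport η) T) < ⊤ := hM.bd.lt_top (isBounded_cyl hc.isBounded T)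
  have hm := measurableSet_cyl (isClosed_tsupport η).measurableSet T
  refine ((integrable_indicator_iff hm).2
    (integrableOn_const (C := |C| * B) hfin.ne)).mono' (hg.indicator hA).aestronglyMeasurable ?_
  filter_upwards [M.ae_mem] with x hx
  have hB0 : 0 ≤ |C| * B := mul_nonneg (abs_nonneg _) ((norm_nonneg _).trans (hB 0))
  by_cases hxA : x ∈ A
  · rw [indicator_of_mem hxA, Real.norm_eq_abs]
    by_cases hK : pr x ∈ tsupport η
    · rw [indicator_of_mem (show x ∈ cyl (tsupport η) T from ⟨hK, hAT hxA⟩)]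
      exact (hb x hx hxA).trans
        (mul_le_mul (le_abs_self C) (hB _) (norm_nonneg _) (abs_nonneg _))
    · have := hb x hx hxA
      rw [PI_fderiv_zero hK, norm_zero, mul_zero] at this
      exact this.trans (indicator_nonneg (fun _ _ => hB0) x)
  · rw [indicator_of_notMem hxA, norm_zero]
    exact indicator_nonneg (fun _ _ => hB0) x

/-- The tilt inequality for the exchanged sides. -/
theorem PI_main (hDEFF : S_DEFF) (hTILM : S_TILM) (hTIL0 : S_TIL0) (hTIL1 : S_TIL1) {M : Surf}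
    (hM : M.Mem) {η : ℂ → ℝ} {T₀ T : ℝ} (hη : ContDiff ℝ 1 η) (hc : HasCompactSupport η)
    (hn : ∀ y, 0 ≤ η y) (h0 : 0 < T₀) (hT : T₀ < T) (hs : M.Slab (tsupport η) T₀ T) :
    Measurable (M.ellT T) ∧
      -∫ x in lay T ∩ M.swap.top e3, M.ellT T x * PI_F M η x ∂M.μ
        ≤ (∫ x in lay T, η (pr x) ∂M.μ) + ∫ y, η y := by
  obtain ⟨ρ, hρ⟩ := hc.isBounded.exists_norm_le
  obtain ⟨d, ν, δ₀, hd⟩ := hDEFF M.swap hM.swap (ρ + T)
  have hyp : T1Hyp M.swap η T₀ T (ρ + T) d ν δ₀ :=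
    ⟨hM.swap, hη, hc, hn, h0, hT,
      fun y hy t h₁ h₂ h₃ => disjoint_left.1 M.disjS' (hs y hy t h₁ h₂) h₃,
      fun y hy t ht => by
        rw [mem_closedBall_zero_iff]
        refine (norm_le_pr_add _).trans ?_
        rw [pr_pt, pt_two]
        exact add_le_add (hρ y hy) ht, hd⟩
  obtain ⟨hm, hlim⟩ := hTIL1 _ _ _ _ _ _ _ _ hyp
  refine ⟨hm, ?_⟩
  have he : ∫ x in lay T ∩ M.swap.top e3,
      M.swap.ellT T x * fderiv ℝ η (pr x) (pr (M.swap.N x)) * M.swap.N x 2 ∂M.swap.μ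
        = -∫ x in lay T ∩ M.swap.top e3, M.ellT T x * PI_F M η x ∂M.μ := by
    rw [← integral_neg]
    refine setIntegral_congr_fun ((measurableSet_lay T).inter (M.swap.measurableSet_top e3))
      fun x hx => ?_
    have h : M.N x 2 < 0 := by
      simpa [Surf.top, inner_neg_left, inner_e3] using hx.2
    have h' : M.swap.ellT T x = M.ellT T x := rfl
    simp only [Surf.swap_N, pr_neg, map_neg, PiLp.neg_apply, PI_F, abs_of_neg h, h']
    ring
  rw [← he]
  refine le_of_forall_pos_le_add fun ε hε => le_of_tendsto hlim ?_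
  filter_upwards [hTIL0 _ _ _ _ _ _ _ _ hyp ε hε, self_mem_nhdsWithin] with δ h₁ hδ
  obtain ⟨-, -, -, -, -, -, -, -, -, hR, hy⟩ :=
    hTILM d ν η T δ hd.cd hd.cν.continuous hd.le hη hc (h0.trans hT) hδ
  have h₂ : 0 ≤ ∫ y, η y * Py d ν T δ y :=
    integral_nonneg fun y => mul_nonneg (hn y) (hy y).2.1
  have h₃ : ∫ y, η y * Ry d T δ y ≤ ∫ y, η y :=
    integral_mono hR (hη.continuous.integrable_of_hasCompactSupport hc)
      fun y => mul_le_of_le_one_right (hn y) (hy y).2.2.2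
  rw [Surf.swap_μ] at h₁
  linarith

theorem pi_of (hDEFF : S_DEFF) (hTILM : S_TILM) (hTIL0 : S_TIL0) (hTIL1 : S_TIL1) : S_PI := by
  intro M hM η T₀ T hη hc hn h0 hT hs
  obtain ⟨hm, hmain⟩ := PI_main hDEFF hTILM hTIL0 hTIL1 hM hη hc hn h0 hT hs
  have hT0 : 0 < T := h0.trans hT
  have hG : MeasurableSet (lay T ∩ M.swap.top e3) :=
    (measurableSet_lay T).inter (M.swap.measurableSet_top e3)
  have i₁ : Integrable ((lay T ∩ M.swap.top e3).indicator fun x => M.ellT T x * PI_F M η x) M.μ :=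
    PI_integrable hM hη hc (C := 2 * T) hG inter_subset_left (hm.mul (PI_meas M hη))
      fun x hx hA => by
        obtain ⟨h₁, h₂⟩ := PI_ellT_bounds M hA.1
        have h₃ : x 2 < T := (abs_lt.1 hA.1).2
        rw [abs_mul, abs_of_nonneg h₁]
        exact mul_le_mul (by linarith) (PI_abs_le M η hx) (abs_nonneg _) (by positivity)
  have i₂ : Integrable ((lay T).indicator fun x => ‖fderiv ℝ η (pr x)‖) M.μ :=
    PI_integrable hM hη hc (C := 1) (measurableSet_lay T) Subset.rfl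
      ((hη.continuous_fderiv one_ne_zero).comp continuous_pr).norm.measurable
      fun x _ _ => by rw [abs_norm, one_mul]
  have i₃ : Integrable ((M.Bot T).indicator (PI_F M η)) M.μ :=
    PI_integrable hM hη hc (C := 1) (T := T) (hM.measurableSet_Bot T) (fun x hx => hx.2.1)
      (PI_meas M hη) fun x hx _ => by rw [one_mul]; exact PI_abs_le M η hx
  have h := integral_mono_ae (i₁.sub (i₂.const_mul (4 * T₀))) (i₃.const_mul T)
    (M.ae_mem.mono fun x hx => PI_point hM h0 hT hs hx)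
  simp only [Pi.sub_apply] at h
  rw [integral_sub i₁ (i₂.const_mul (4 * T₀)), integral_const_mul, integral_const_mul,
    integral_indicator hG, integral_indicator (measurableSet_lay T),
    integral_indicator (hM.measurableSet_Bot T)] at h
  have hF : M.Flux T η = ∫ x in M.Bot T, PI_F M η x ∂M.μ := rfl
  rw [div_le_iff₀ hT0, hF]
  linarith

end MW
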