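import Pool.Agent.P.MP_064970_gt.ST

/-!
Rotate e to e3 (Surf.sim) or work with an orthonormal basis. In a chart with phi = Phi', sum phi_i^2
= 0, N orthogonal to phi: at z = 0, N3 = 0 forces phi1 - i phi2 <> 0. G = phi3/(phi1 - i phi2) is
holomorphic near 0 and N = +-(2 Re G, 2 Im G, |G|^2 - 1)/(|G|^2 + 1) with a locally constant sign
(Chart.normal_eq_or, continuity). |G(0)| = 1 and |G| <= 1 or |G| >= 1 near 0;
Complex.eventually_eq_of_isLocalMax_norm for G or 1/G. Emb.map_nhds.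
-/

open scoped Manifold ContDiff
open MeasureTheory Set Filter Topology Metric
open scoped RealInnerProductSpace ENNReal ComplexConjugate Real

noncomputable section

namespace MW

universe u

/-- Completeness of the frame `e`, `n × e`, `n`. -/
theorem STRICT_frame {e n : E} (he : ‖e‖ = 1) (hn : ‖n‖ = 1) (hen : ⟪n, e⟫ = 0) :
    ∃ f : Fin 3 → ℝ, ∀ u v : Fin 3 → ℂ, ∑ i, u i * v i =
      (∑ i, (e i : ℂ) * u i) * (∑ i, (e i : ℂ) * v i) +
        (∑ i, (f i : ℂ) * u i) * (∑ i, (f i : ℂ) * v i) +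
        (∑ i, (n i : ℂ) * u i) * (∑ i, (n i : ℂ) * v i) := by
  have h1 : e 0 * e 0 + e 1 * e 1 + e 2 * e 2 = 1 := by rw [← ChartAPI_norm_sq, he]; norm_num
  have h2 : n 0 * n 0 + n 1 * n 1 + n 2 * n 2 = 1 := by rw [← ChartAPI_norm_sq, hn]; norm_num
  rw [ChartAPI_inner] at hen
  have h1' : (e 0 : ℂ) * e 0 + e 1 * e 1 + e 2 * e 2 = 1 := by
    simpa using congrArg ((↑) : ℝ → ℂ) h1
  have h2' : (n 0 : ℂ) * n 0 + n 1 * n 1 + n 2 * n 2 = 1 := by
    simpa using congrArg ((↑) : ℝ → ℂ) h2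
  have h3' : (n 0 : ℂ) * e 0 + n 1 * e 1 + n 2 * e 2 = 0 := by exact_mod_cast hen
  refine ⟨![n 1 * e 2 - n 2 * e 1, n 2 * e 0 - n 0 * e 2, n 0 * e 1 - n 1 * e 0], fun u v => ?_⟩
  simp only [Fin.sum_univ_three, Matrix.cons_val_zero, Matrix.cons_val_one, Matrix.cons_val]
  push_cast
  generalize (e 0 : ℂ) = e0 at *
  generalize (e 1 : ℂ) = e1 at *
  generalize (e 2 : ℂ) = e2 at *
  generalize (n 0 : ℂ) = n0 at *
  generalize (n 1 : ℂ) = n1 at *
  generalize (n 2 : ℂ) = n2 at *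
  have key : (u 0 * v 0 + u 1 * v 1 + u 2 * v 2) * ((e0 * e0 + e1 * e1 + e2 * e2) *
      (n0 * n0 + n1 * n1 + n2 * n2) - (n0 * e0 + n1 * e1 + n2 * e2) ^ 2) =
      ((n1 * e2 - n2 * e1) * u 0 + (n2 * e0 - n0 * e2) * u 1 + (n0 * e1 - n1 * e0) * u 2) *
        ((n1 * e2 - n2 * e1) * v 0 + (n2 * e0 - n0 * e2) * v 1 + (n0 * e1 - n1 * e0) * v 2) +
      (n0 * n0 + n1 * n1 + n2 * n2) *
        ((e0 * u 0 + e1 * u 1 + e2 * u 2) * (e0 * v 0 + e1 * v 1 + e2 * v 2)) +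
      (e0 * e0 + e1 * e1 + e2 * e2) *
        ((n0 * u 0 + n1 * u 1 + n2 * u 2) * (n0 * v 0 + n1 * v 1 + n2 * v 2)) -
      (n0 * e0 + n1 * e1 + n2 * e2) *
        ((e0 * u 0 + e1 * u 1 + e2 * u 2) * (n0 * v 0 + n1 * v 1 + n2 * v 2) +
          (n0 * u 0 + n1 * u 1 + n2 * u 2) * (e0 * v 0 + e1 * v 1 + e2 * v 2)) := by ring
  rw [h1', h2', h3'] at key
  linear_combination key

/-- The stereographic projection of the normal. -/
theorem STRICT_alg {p₁ p₂ p₃ : ℂ} {a b c : ℝ} (h0 : p₁ * p₁ + p₂ * p₂ + p₃ * p₃ = 0)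
    (h1 : a * p₁ + b * p₂ + c * p₃ = 0) (h2 : a * a + b * b + c * c = 1) (hc : 0 < c)
    (hp : p₁ - Complex.I * p₂ ≠ 0) (hG : ‖p₃ / (p₁ - Complex.I * p₂)‖ < 1) :
    p₃ / (p₁ - Complex.I * p₂) * (1 + c) = -(a + b * Complex.I) := by
  set G := p₃ / (p₁ - Complex.I * p₂) with hGd
  set p := p₁ - Complex.I * p₂ with hpd
  have h3 : p₃ = G * p := by rw [hGd]; field_simp
  have hI := Complex.I_mul_I
  have h4 : p₁ + Complex.I * p₂ = -(G * G * p) := by
    refine mul_left_cancel₀ hp ?_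
    have h5 : p * (p₁ + Complex.I * p₂) = p₁ * p₁ + p₂ * p₂ := by
      rw [hpd]; linear_combination (-(p₂ * p₂)) * hI
    rw [h5]
    linear_combination h0 - (p₃ + G * p) * h3
  have h2' : (a : ℂ) * a + b * b + c * c = 1 := by exact_mod_cast h2
  have h5 : (a - b * Complex.I) * (G * G) - 2 * c * G - (a + b * Complex.I) = 0 := by
    refine mul_left_cancel₀ hp ?_
    have e1 : 2 * p₁ = p - G * G * p := by linear_combination h4 - hpd
    have e2 : 2 * p₂ = Complex.I * (p + G * G * p) := by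
      linear_combination (-Complex.I) * h4 - Complex.I * hpd + 2 * p₂ * hI
    linear_combination (-2) * h1 + a * e1 + b * e2 + 2 * c * h3
  have h6 : (G * (1 + c) + (a + b * Complex.I)) * ((a - b * Complex.I) * G - (1 + c)) = 0 := by
    linear_combination (1 + c) * h5 + G * h2' - G * b * b * hI
  rcases mul_eq_zero.1 h6 with h | h
  · linear_combination h
  · exfalso
    have h7 : (a - b * Complex.I) * G = ((1 + c : ℝ) : ℂ) := by push_cast; linear_combination h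
    have h8 := congrArg norm h7
    rw [norm_mul, Complex.norm_real, Real.norm_eq_abs, abs_of_pos (by linarith)] at h8
    have h9 : ‖(a : ℂ) - b * Complex.I‖ ^ 2 = a * a + b * b := by
      rw [Complex.sq_norm, Complex.normSq_apply]; simp
    have h10 : ‖(a : ℂ) - b * Complex.I‖ ≤ 1 :=
      abs_le_of_sq_le_sq' (by nlinarith) zero_le_one |>.2
    nlinarith [norm_nonneg G, norm_nonneg ((a : ℂ) - b * Complex.I)]

/-- The maximum principle. -/
theorem STRICT_core {p₁ p₂ p₃ : ℂ → ℂ} {a b c : ℂ → ℝ} (d₁ : AnalyticAt ℂ p₁ 0)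
    (d₂ : AnalyticAt ℂ p₂ 0) (d₃ : AnalyticAt ℂ p₃ 0)
    (h : ∀ᶠ z in 𝓝 (0 : ℂ), p₁ z * p₁ z + p₂ z * p₂ z + p₃ z * p₃ z = 0 ∧
      a z * p₁ z + b z * p₂ z + c z * p₃ z = 0 ∧ a z * a z + b z * b z + c z * c z = 1 ∧
      0 ≤ a z ∧ 0 < c z) (h0 : p₃ 0 = 0) (hp : p₁ 0 - Complex.I * p₂ 0 ≠ 0) :
    ∀ᶠ z in 𝓝 (0 : ℂ), c z = 1 := by
  have dp : AnalyticAt ℂ (fun z => p₁ z - Complex.I * p₂ z) 0 := d₁.sub (analyticAt_const.mul d₂)
  have dG : AnalyticAt ℂ (fun z => p₃ z / (p₁ z - Complex.I * p₂ z)) 0 := d₃.div dp hp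
  set G : ℂ → ℂ := fun z => p₃ z / (p₁ z - Complex.I * p₂ z) with hGd
  have hG0 : G 0 = 0 := by simp [hGd, h0]
  have e1 : ∀ᶠ z in 𝓝 (0 : ℂ), p₁ z - Complex.I * p₂ z ≠ 0 := dp.continuousAt.eventually_ne hp
  have e2 : ∀ᶠ z in 𝓝 (0 : ℂ), ‖G z‖ < 1 :=
    dG.continuousAt.norm.eventually_lt continuousAt_const (by simp [hG0])
  have e3 : ∀ᶠ z in 𝓝 (0 : ℂ), G z * (1 + c z) = -(a z + b z * Complex.I) := by
    filter_upwards [h, e1, e2] with z hz h1 h2
    exact STRICT_alg hz.1 hz.2.1 hz.2.2.1 hz.2.2.2.2 h1 h2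
  have dF : AnalyticAt ℂ (fun z => (1 - G z)⁻¹) 0 :=
    (analyticAt_const.sub dG).inv (by simp [hG0])
  have hmax : IsLocalMax (norm ∘ fun z => (1 - G z)⁻¹) 0 := by
    filter_upwards [h, e3] with z hz h3
    have h4 : (G z).re * (1 + c z) = -a z := by simpa using congrArg Complex.re h3
    have h5 : (G z).re ≤ 0 := by
      by_contra h6
      have := mul_pos (not_le.1 h6) (show 0 < 1 + c z by linarith [hz.2.2.2.2])
      linarith [hz.2.2.2.1]
    have h6 : 1 ≤ ‖1 - G z‖ := by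
      have h7 := Complex.re_le_norm (1 - G z)
      simp only [Complex.sub_re, Complex.one_re] at h7
      linarith
    simp only [Function.comp, hG0, sub_zero, inv_one, norm_one, norm_inv]
    exact inv_le_one_of_one_le₀ h6
  have e4 := Complex.eventually_eq_of_isLocalMax_norm
    (dF.eventually_analyticAt.mono fun z hz => hz.differentiableAt) hmax
  filter_upwards [h, e3, e4] with z hz h3 h4
  rw [hG0, sub_zero, inv_one, inv_eq_one, sub_eq_self] at h4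
  rw [h4, zero_mul] at h3
  have h5 : a z = 0 := by simpa using congrArg Complex.re h3
  have h6 : b z = 0 := by simpa using congrArg Complex.im h3
  have h7 := hz.2.2.1
  rw [h5, h6] at h7
  nlinarith [hz.2.2.2.2]

theorem STRICT_cast (v w : E) : ∑ i, (v i : ℂ) * (w i : ℂ) = ((⟪w, v⟫ : ℝ) : ℂ) := by
  rw [ChartAPI_inner, Fin.sum_univ_three]
  push_cast
  ring

theorem strict_of : S_STRICT := by
  intro M x e hx he hge h0
  obtain ⟨c, hc0, hc⟩ := M.chart x hx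
  have hz0 : (0 : ℂ) ∈ ball (0 : ℂ) c.r := mem_ball_self c.r_pos
  have hmap := hc.emb.map_nhds hz0
  rw [hc0] at hmap
  rw [← hmap, eventually_map] at hge ⊢
  have hn := M.N_unit x hx
  obtain ⟨f, hf⟩ := STRICT_frame he hn h0
  have hb : ∀ᶠ z in 𝓝 (0 : ℂ), z ∈ ball (0 : ℂ) c.r := isOpen_ball.mem_nhds hz0
  have an : ∀ w : Fin 3 → ℝ, AnalyticAt ℂ (fun z => ∑ i, (w i : ℂ) * deriv (c.Φ i) z) 0 :=
    fun w => Finset.analyticAt_fun_sum _ fun i _ =>
      analyticAt_const.mul ((c.ChartAPI_an i).deriv 0 hz0)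
  have hNc : ContinuousAt (fun z => M.N (c.X z)) 0 :=
    (hc.analyticOnNhd_N M.N_cont M.N_unit 0 hz0).continuousAt
  have hpos : ∀ᶠ z in 𝓝 (0 : ℂ), 0 < ⟪M.N (c.X z), M.N x⟫ := by
    refine continuousAt_const.eventually_lt (hNc.inner continuousAt_const) ?_
    rw [hc0, real_inner_self_eq_norm_sq, hn]; norm_num
  have h3 : ∑ i, (M.N x i : ℂ) * deriv (c.Φ i) 0 = 0 := by
    have := hc.nrm 0 hz0
    rwa [hc0] at this
  have main : ∀ g : Fin 3 → ℝ, (∀ u v : Fin 3 → ℂ, ∑ i, u i * v i =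
      (∑ i, (e i : ℂ) * u i) * (∑ i, (e i : ℂ) * v i) +
        (∑ i, (g i : ℂ) * u i) * (∑ i, (g i : ℂ) * v i) +
        (∑ i, (M.N x i : ℂ) * u i) * (∑ i, (M.N x i : ℂ) * v i)) →
      (∑ i, (e i : ℂ) * deriv (c.Φ i) 0) - Complex.I * ∑ i, (g i : ℂ) * deriv (c.Φ i) 0 ≠ 0 →
      ∀ᶠ z in 𝓝 (0 : ℂ), ⟪M.N (c.X z), M.N x⟫ = 1 := by
    intro g hg hp
    refine STRICT_core (a := fun z => ⟪M.N (c.X z), e⟫)
      (b := fun z => ⟪M.N (c.X z), (WithLp.toLp 2 g : E)⟫) (an e) (an g) (an (M.N x)) ?_ h3 hp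
    filter_upwards [hb, hge, hpos] with z hz h1 h2
    have hg' := STRICT_cast (WithLp.toLp 2 g : E) (M.N (c.X z))
    refine ⟨?_, ?_, ?_, h1, h2⟩
    · rw [← hg, ← c.null z hz]
      exact Finset.sum_congr rfl fun i _ => (sq _).symm
    · rw [← STRICT_cast, ← STRICT_cast (M.N x), ← hg', ← hg]
      exact hc.nrm z hz
    · have h4 := hg (fun i => M.N (c.X z) i) (fun i => M.N (c.X z) i)
      rw [STRICT_cast, STRICT_cast, STRICT_cast (M.N x), hg', real_inner_self_eq_norm_sq,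
        M.N_unit _ (hc.emb.mem hz)] at h4
      apply Complex.ofReal_injective
      rw [Complex.ofReal_add, Complex.ofReal_add, Complex.ofReal_mul, Complex.ofReal_mul,
        Complex.ofReal_mul, ← h4, one_pow]
  have fin : ∀ᶠ z in 𝓝 (0 : ℂ), ⟪M.N (c.X z), M.N x⟫ = 1 := by
    by_cases hp : (∑ i, (e i : ℂ) * deriv (c.Φ i) 0)
        - Complex.I * ∑ i, (f i : ℂ) * deriv (c.Φ i) 0 = 0
    · have hneg : ∀ u : Fin 3 → ℂ, ∑ i, (((-f) i : ℝ) : ℂ) * u i = -∑ i, (f i : ℂ) * u i := by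
        intro u
        simp [Finset.sum_neg_distrib]
      refine main (-f) (fun u v => ?_) fun hq => ?_
      · rw [hneg, hneg, hf]; ring
      · rw [hneg] at hq
        have h4 : ∑ i, (e i : ℂ) * deriv (c.Φ i) 0 = 0 := by linear_combination (hp + hq) / 2
        have h5 : ∑ i, (f i : ℂ) * deriv (c.Φ i) 0 = 0 := by
          rw [h4, zero_sub, neg_eq_zero] at hp
          exact (mul_eq_zero.1 hp).resolve_left Complex.I_ne_zero
        obtain ⟨i, hi⟩ := c.ne 0 hz0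
        have h6 := hf (Pi.single i 1) (fun j => deriv (c.Φ j) 0)
        rw [h3, h4, h5] at h6
        simp [Pi.single_apply] at h6
        exact hi h6
    · exact main f hf hp
  filter_upwards [fin, hb] with z hz hzb
  exact (inner_eq_one_iff_of_norm_eq_one (M.N_unit _ (hc.emb.mem hzb)) hn).1 hz

end MW
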