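import Pool.Agent.P.MP_064970_gt.ST

/-!
T5. Rotate e to e3 (IsSim.cxg, edZero, bigraph). A regular line meets S: else AREA0 gives int |N3|
dmu = 0, N3 = 0 on S, FLAT1, FLAT2 give Flat (S nonempty). Its highest point is top. Two mirror
heights a <> a' give a vertical period, against CXg. So on a regular line every top point x has
alpha = a, x 2 > a > partner 2, and by the symmetry every point above a is top. For x in S above a
with N3 < 0, LG and a nearby regular line give a contradiction; N3 = 0 is excluded by STRICT and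
FLAT2. zero from symN; ne by connectedness; up: one_cross for x above a; for x at height a points of
S above a accumulate at x (tangent plane vertical: Surf.side or cover_disc) and LG at a second point
gives two points above a on one line; far up is W' by CXg. mid from up, sym and Surf.side.
-/

open scoped Manifold ContDiff
open MeasureTheory Set Filter Topology Metric
open scoped RealInnerProductSpace ENNReal ComplexConjugate Real

noncomputable section

namespace MW

universe u

theorem SYM_add_two (x : E) (t : ℝ) : (x + t • e3) 2 = x 2 + t := by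
  simp

theorem SYM_sub_two (x : E) (t : ℝ) : (x - t • e3) 2 = x 2 - t := by
  simp

theorem SYM_refl_eq (a : ℝ) (x : E) : refl e3 a x = x + (2 * (a - x 2)) • e3 := by
  rw [refl, inner_e3, sub_eq_add_neg, ← neg_smul]
  congr 2
  ring

theorem SYM_refl_two (a : ℝ) (x : E) : refl e3 a x 2 = 2 * a - x 2 := by
  rw [SYM_refl_eq, SYM_add_two]; ring

theorem SYM_mirror_two (b : E) : mirror e3 b 2 = -(b 2) := by
  rw [mirror, inner_e3, SYM_sub_two]; ring

/-- A ray that misses `S` lies in `W'`. -/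
theorem SYM_ray {M : Surf} (hM : M.Mem) (hc : M.CXg e3) {x : E}
    (h : ∀ t : ℝ, 0 < t → x + t • e3 ∉ M.S) : ∀ t : ℝ, 0 < t → x + t • e3 ∈ M.W' := by
  intro t ht
  obtain ⟨T, hT, hW⟩ := (hM.finite_of_cxg norm_e3 hc x).1
  have hq : t ≤ max t T := le_max_left _ _
  have h1 := (M.basic_same (a := x) (v := e3) hq (fun s _ => by rw [hM.univ]; trivial)
    (fun s hs => h s (lt_of_lt_of_le ht hs.1))).2
  exact h1.2 (hW _ ((le_max_right _ _).trans (le_abs_self _)))

/-- Two mirror heights agree. -/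
theorem SYM_unique {M : Surf} (hM : M.Mem) (hc : M.CXg e3) {x : E} (hx : x ∈ M.S) {a a' : ℝ}
    (ha : ∀ z, refl e3 a z ∈ M.S ↔ z ∈ M.S) (ha' : ∀ z, refl e3 a' z ∈ M.S ↔ z ∈ M.S) :
    a = a' := by
  by_contra hne
  have hd : 2 * (a' - a) ≠ 0 := fun h => hne (by linarith)
  set d := 2 * (a' - a) with hdd
  have step : ∀ z ∈ M.S, z + d • e3 ∈ M.S := by
    intro z hz
    have h1 := (ha' _).2 ((ha z).2 hz)
    have h2 : refl e3 a' (refl e3 a z) = z + d • e3 := by
      rw [SYM_refl_eq a', SYM_refl_two, SYM_refl_eq a, add_assoc, ← add_smul]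
      congr 2
      ring
    rwa [h2] at h1
  have iter : ∀ n : ℕ, x + ((n : ℝ) * d) • e3 ∈ M.S := by
    intro n
    induction n with
    | zero => simpa using hx
    | succ n ih =>
      have h1 := step _ ih
      rw [add_assoc, ← add_smul] at h1
      have h2 : ((n + 1 : ℕ) : ℝ) * d = n * d + d := by push_cast; ring
      rwa [h2]
  obtain ⟨T, hT, hW⟩ := (hM.finite_of_cxg norm_e3 hc x).1
  have hdp : 0 < |d| := abs_pos.2 hd
  obtain ⟨n, hn⟩ := exists_nat_ge (T / |d|)
  have h3 : T ≤ |(n : ℝ) * d| := by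
    rw [abs_mul, abs_of_nonneg (Nat.cast_nonneg n)]
    exact (div_le_iff₀ hdp).1 hn
  exact disjoint_left.1 M.disjS' (hW _ h3) (iter n)

/-- Near a point with a non-horizontal normal there are points on regular lines. -/
theorem SYM_near (hAREA0 : S_AREA0) (hLG : S_LG) {M : Surf} {x : E} (hx : x ∈ M.S)
    (hN : M.N x 2 ≠ 0) {P : E → Prop} (hP : ∀ᶠ z in 𝓝[M.S] x, P z) :
    ∃ z ∈ M.S, M.RegLine e3 z ∧ P z := by
  obtain ⟨ρ, δ, u, hρ, hδ, hu, hux, hy⟩ := hLG M x hx hN
  have hb : ball (pr x) ρ ∈ 𝓝 (pr x) := ball_mem_nhds _ hρ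
  have hcu : ContinuousAt u (pr x) := hu.continuousOn.continuousAt hb
  have hmem : ∀ y ∈ ball (pr x) ρ, pt y (u y) ∈ M.S := fun y hyb =>
    ((hy y hyb).2.2.2 (u y) (hy y hyb).1).2 rfl
  have ht : Tendsto (fun y => pt y (u y)) (𝓝 (pr x)) (𝓝[M.S] x) := by
    rw [tendsto_nhdsWithin_iff]
    refine ⟨?_, ?_⟩
    · have h1 : ContinuousAt (fun y => pt y (u y)) (pr x) :=
        continuous_pt.continuousAt.comp (continuousAt_id.prodMk hcu)
      have h2 : pt (pr x) (u (pr x)) = x := by rw [hux, pt_pr]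
      have h3 := h1.tendsto
      rwa [h2] at h3
    · filter_upwards [hb] with y hyb using hmem y hyb
  have hev : ∀ᶠ y in 𝓝 (pr x), y ∈ ball (pr x) ρ ∧ P (pt y (u y)) := by
    filter_upwards [hb, ht.eventually hP] with y h1 h2 using ⟨h1, h2⟩
  have hae := (hAREA0 M).2
  have hfr : ∃ᶠ y in 𝓝 (pr x), ∀ t : ℝ, pt y t ∈ M.S → M.N (pt y t) 2 ≠ 0 :=
    mem_closure_iff_frequently.1 (Measure.dense_of_ae hae (pr x))
  obtain ⟨y, hy1, hy2, hy3⟩ := (hfr.and_eventually hev).exists
  refine ⟨pt y (u y), hmem y hy2, fun t ht => ?_, hy3⟩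
  rw [pt_add_smul_e3] at ht ⊢
  rw [inner_e3]
  exact hy1 _ ht

/-- The highest point of a regular line is a top point. -/
theorem SYM_top {M : Surf} (hM : M.Mem) (hc : M.CXg e3) {x : E} (hx : x ∈ M.S)
    (hr : M.RegLine e3 x) : ∃ z ∈ M.S, M.RegLine e3 z ∧ 0 < M.N z 2 := by
  have hfin := (hM.finite_of_cxg norm_e3 hc x).2 hr
  have hne : {t : ℝ | x + t • e3 ∈ M.S}.Nonempty := ⟨0, by simpa using hx⟩
  obtain ⟨s, hs, hmax⟩ := Set.exists_max_image _ id hfin hne
  refine ⟨x + s • e3, hs, hr.add s, ?_⟩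
  have hne0 : M.N (x + s • e3) 2 ≠ 0 := by
    have := hr s hs
    rwa [inner_e3] at this
  have hup : ∀ t : ℝ, 0 < t → x + s • e3 + t • e3 ∈ M.W' := by
    refine SYM_ray hM hc fun t ht hS => ?_
    rw [add_assoc, ← add_smul] at hS
    have := hmax (s + t) hS
    simp only [id] at this
    linarith
  rcases lt_or_gt_of_ne hne0 with h | h
  · exfalso
    have h1 := M.side _ hs (-e3) (by rw [inner_neg_left, e3_inner]; linarith)
    obtain ⟨t, ht1, ht2⟩ := (h1.and self_mem_nhdsWithin).exists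
    have h2 := ht1.2
    rw [smul_neg, sub_neg_eq_add] at h2
    exact disjoint_left.1 M.disj h2 (hup t ht2)
  · exact h

theorem SYM_e3 (hMIRR : S_MIRR) (hSTRICT : S_STRICT) (hFLAT1 : S_FLAT1) (hFLAT2 : S_FLAT2)
    (hAREA0 : S_AREA0) (hLG : S_LG) {M : Surf} (hM : M.Mem) (hconn : IsPreconnected M.S)
    (hnf : ¬ M.Flat) (hc : M.CXg e3) (hed : M.EdZero e3) : ∃ a, M.Bigraph e3 a := by
  have hO : ∀ x, x ∈ M.O := fun x => by rw [hM.univ]; trivial
  -- a point with a non-horizontal normal
  have h0 : ∃ x ∈ M.S, M.N x 2 ≠ 0 := by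
    by_contra hn
    push Not at hn
    apply hnf
    intro x hx
    have he : (e3 : E) ≠ 0 := fun h => by
      have := norm_e3
      rw [h, norm_zero] at this
      exact zero_ne_one this
    have h1 := (hFLAT1 M x hx).2.1 e3 he (by
      filter_upwards [self_mem_nhdsWithin] with y hy
      rw [e3_inner]; exact hn y hy)
    exact hFLAT2.1 M hconn ⟨x, hx, h1⟩ x hx
  obtain ⟨x0, hx0, hN0⟩ := h0
  obtain ⟨x1, hx1, hr1, -⟩ := SYM_near hAREA0 hLG hx0 hN0 (P := fun _ => True)
    (Eventually.of_forall fun _ => trivial)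
  obtain ⟨x2, hx2, hr2, hN2⟩ := SYM_top hM hc hx1 hr1
  obtain ⟨hS, hW, hW', hN⟩ := hMIRR M x2 hM hconn hc hed hx2 hr2 hN2
  set a := M.alpha e3 x2 with ha
  -- top points of regular lines are above `a`
  have htop : ∀ z ∈ M.S, M.RegLine e3 z → 0 < M.N z 2 → a < z 2 := by
    intro z hz hr hNz
    have h1 := (hMIRR M z hM hconn hc hed hz hr hNz).1
    have h2 : a = M.alpha e3 z := SYM_unique hM hc hz hS h1
    obtain ⟨T, hT, hTW⟩ := (hM.finite_of_cxg norm_e3 hc z).1
    have h3 : z - T • e3 ∈ M.W' := by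
      have := hTW (-T) (by rw [abs_neg, abs_of_pos hT])
      rwa [neg_smul, ← sub_eq_add_neg] at this
    have h4 := (hM.chord hz (by rw [inner_e3]; exact hNz) hT h3).1
    rw [h2, Surf.alpha, inner_e3]
    linarith
  have hN3 : ∀ z ∈ M.S, M.N (refl e3 a z) 2 = -(M.N z 2) := fun z hz => by
    rw [hN z hz, SYM_mirror_two]
  -- on regular lines the points above `a` are top points
  have hreg : ∀ z ∈ M.S, M.RegLine e3 z → a < z 2 → 0 ≤ M.N z 2 := by
    intro z hz hr hza
    by_contra hn
    push Not at hn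
    have h1 : M.RegLine e3 (refl e3 a z) := by
      rw [SYM_refl_eq]; exact hr.add _
    have h2 := htop _ ((hS z).2 hz) h1 (by rw [hN3 z hz]; linarith)
    rw [SYM_refl_two] at h2
    linarith
  have hc2 : Continuous fun z : E => z 2 := by fun_prop
  have hcN : ∀ z ∈ M.S, ContinuousWithinAt (fun y => M.N y 2) M.S z := fun z hz =>
    hc2.continuousAt.comp_continuousWithinAt (M.N_cont z hz)
  have habove : ∀ z : E, a < z 2 → ∀ᶠ y in 𝓝[M.S] z, a < y 2 := fun z hz =>
    nhdsWithin_le_nhds (hc2.continuousAt.eventually (lt_mem_nhds hz))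
  have hge : ∀ z ∈ M.S, a < z 2 → 0 ≤ M.N z 2 := by
    intro z hz hza
    by_contra hn
    push Not at hn
    have h1 : ∀ᶠ y in 𝓝[M.S] z, M.N y 2 < 0 := (hcN z hz).eventually (gt_mem_nhds hn)
    obtain ⟨y, hy, hr, hy1, hy2⟩ := SYM_near hAREA0 hLG hz hn.ne (h1.and (habove z hza))
    have := hreg y hy hr hy2
    linarith
  have hpos : ∀ z ∈ M.S, a < z 2 → 0 < M.N z 2 := by
    intro z hz hza
    rcases (hge z hz hza).lt_or_eq with h | h
    · exact h
    · exfalso
      have h1 := hSTRICT M z e3 hz norm_e3 (by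
        filter_upwards [self_mem_nhdsWithin, habove z hza] with y hy hya
        rw [inner_e3]; exact hge y hy hya) (by rw [inner_e3]; exact h.symm)
      exact hnf (hFLAT2.1 M hconn ⟨z, hz, h1⟩)
  have hzero : ∀ z ∈ M.S, z 2 = a → M.N z 2 = 0 := by
    intro z hz hza
    have h1 := hN3 z hz
    have h2 : refl e3 a z = z := by rw [SYM_refl_eq, hza]; simp
    rw [h2] at h1
    linarith
  -- above a point strictly above `a`
  have hup1 : ∀ z ∈ M.S, a < z 2 → ∀ t : ℝ, 0 < t → z + t • e3 ∈ M.W' := by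
    intro z hz hza
    refine SYM_ray hM hc fun t ht hS' => ?_
    refine M.one_cross hz hS' (fun y _ => hO y) fun y hy hyS => ?_
    rw [segment_eq_image'] at hy
    obtain ⟨s, hs, rfl⟩ := hy
    rw [add_sub_cancel_left] at hyS ⊢
    rw [real_inner_smul_left, e3_inner]
    refine mul_pos ht (hpos _ hyS ?_)
    beta_reduce
    rw [smul_smul, SYM_add_two]
    have := mul_nonneg hs.1 ht.le
    linarith
  have hup : ∀ z ∈ M.S, a ≤ z 2 → ∀ t : ℝ, 0 < t → z + t • e3 ∈ M.W' := by
    intro z hz hza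
    rcases hza.lt_or_eq with h | h
    · exact hup1 z hz h
    have hNz := hzero z hz h.symm
    have hA : ∀ s : ℝ, 0 < s → z + s • e3 ∉ M.W := by
      intro s hs hsW
      obtain ⟨r, hr, hrW⟩ := Metric.isOpen_iff.1 M.isOpen_W _ hsW
      obtain ⟨ρ, hρ, hρO, hρN⟩ := M.basic_ball hz (show (0 : ℝ) < 1 / 2 by norm_num)
      obtain ⟨η, hη0, hη⟩ := exists_between (lt_min (lt_min hs hr) (half_pos hρ))
      have hη1 : η < s := hη.trans_le ((min_le_left _ _).trans (min_le_left _ _))
      have hη2 : η < r := hη.trans_le ((min_le_left _ _).trans (min_le_right _ _))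
      have hη3 : η < ρ / 2 := hη.trans_le (min_le_right _ _)
      have hnη : ‖η • e3‖ = η := by
        rw [norm_smul, norm_e3, mul_one, Real.norm_of_nonneg hη0.le]
      obtain ⟨t, ht, htS⟩ := M.cover_disc hz (M.N_unit z hz) (by norm_num) le_rfl hρO hρN
        (w := η • e3) (by rw [real_inner_smul_left, e3_inner, hNz, mul_zero])
        (by rw [hnη]; exact hη3)
      rw [hnη] at ht
      have h1 : a < (z + η • e3 + t • M.N z) 2 := by
        have : (z + η • e3 + t • M.N z) 2 = z 2 + η + t * M.N z 2 := by simp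
        rw [this, hNz]
        linarith
      have h2 := hup1 _ htS h1 (s - η) (by linarith)
      have h3 : z + η • e3 + t • M.N z + (s - η) • e3 = z + s • e3 + t • M.N z := by
        rw [sub_smul]; abel
      rw [h3] at h2
      refine disjoint_left.1 M.disj (hrW ?_) h2
      rw [mem_ball_iff_norm, add_sub_cancel_left, norm_smul, M.N_unit z hz, mul_one,
        Real.norm_eq_abs]
      linarith
    intro s hs
    rcases M.mem_cases (hO (z + s • e3)) with h1 | h1 | h1
    · exact absurd h1 (hA s hs)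
    · exact h1
    · exfalso
      have h2 : 0 < M.N (z + s • e3) 2 := hpos _ h1 (by rw [SYM_add_two]; linarith)
      have h3 := M.side _ h1 e3 (by rw [e3_inner]; exact h2)
      have h4 : ∀ᶠ t in 𝓝[>] (0 : ℝ), t ∈ Ioo (0 : ℝ) s := Ioo_mem_nhdsGT hs
      obtain ⟨t, ht1, ht2⟩ := (h3.and h4).exists
      have h5 := ht1.2
      have h6 : z + s • e3 - t • e3 = z + (s - t) • e3 := by rw [sub_smul]; abel
      rw [h6] at h5
      exact hA (s - t) (by linarith [ht2.2]) h5
  refine ⟨a, norm_e3, hS, hW, hW', hN, fun z hz h => ?_, fun z hz h => ?_, ?_,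
    fun z hz h => ?_, fun z hz t ht0 ht => ?_⟩
  · rw [inner_e3] at h ⊢
    exact hpos z hz h
  · rw [inner_e3] at h ⊢
    exact hzero z hz h
  · have h1 := htop x2 hx2 hr2 hN2
    have h2 : refl e3 a x2 ∈ M.S := (hS x2).2 hx2
    have h3 := hconn.intermediate_value h2 hx2 hc2.continuousOn
    have h4 : a ∈ Icc (refl e3 a x2 2) (x2 2) := by
      rw [SYM_refl_two]
      constructor <;> linarith
    obtain ⟨z, hz, hza⟩ := h3 h4
    exact ⟨z, hz, by rw [inner_e3]; exact hza⟩
  · rw [inner_e3] at h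
    exact hup z hz h
  · rw [inner_e3] at ht
    have hza : a < z 2 := by linarith
    have hno : ∀ s ∈ Ico (-t) 0, z + s • e3 ∉ M.S := by
      intro s hs hsS
      have hzW : z ∈ M.W' := by
        rcases le_total a ((z + s • e3) 2) with h | h
        · have h1 := hup _ hsS h (-s) (by linarith [hs.2])
          rwa [add_assoc, ← add_smul, add_neg_cancel, zero_smul, add_zero] at h1
        · have h1 := hup _ ((hS _).2 hsS) (by rw [SYM_refl_two]; linarith)
            (2 * (z 2 - a) + s) (by linarith [hs.1])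
          have h2 : refl e3 a (z + s • e3) + (2 * (z 2 - a) + s) • e3 = z := by
            rw [SYM_refl_eq, SYM_add_two, add_assoc, add_assoc, ← add_smul, ← add_smul]
            have : s + (2 * (a - (z 2 + s)) + (2 * (z 2 - a) + s)) = 0 := by ring
            rw [this, zero_smul, add_zero]
          rwa [h2] at h1
      exact disjoint_left.1 M.disjS' hzW hz
    have h1 := M.basic_before (a := z) (v := e3) (p := -t) (s := 0) (by linarith)
      (fun s _ => hO _) hno (by simpa using hz)
      (by rw [e3_inner]; simpa using hpos z hz hza)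
    rwa [neg_smul, ← sub_eq_add_neg] at h1

theorem sym_of (hMIRR : S_MIRR) (hSTRICT : S_STRICT) (hFLAT1 : S_FLAT1) (hFLAT2 : S_FLAT2) (hAREA0 :
    S_AREA0) (hLG : S_LG) : S_SYM := by
  intro M e hM hconn hnf he hc hed
  obtain ⟨A, hA⟩ := exists_iso_e3 he
  have hs := M.isSim A.symm one_pos 0
  have hAe : A.symm e = e3 := by rw [← hA, A.symm_apply_apply]
  obtain ⟨a, ha⟩ := SYM_e3 hMIRR hSTRICT hFLAT1 hFLAT2 hAREA0 hLG (hs.mem hM)
    (hs.isPreconnected.2 hconn) (fun h => hnf (hs.flat.1 h))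
    (by rw [← hAe]; exact (hs.cxg he).2 hc) (by rw [← hAe]; exact (hs.edZero e).2 hed)
  refine ⟨a, (hs.bigraph e a).1 ?_⟩
  rw [hAe, inner_zero_left, one_mul, add_zero]
  exact ha

end MW
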