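import Pool.Agent.P.MP_064970_gt.ST1

/-!
R large, DEFF, T1Hyp. ellT = ell e3 at top points of S over the support (Mem.chord_slab). Ry <=
exp(-delta^-2 (T - T0)) by the last clause of LINE1 with a = -T0 (d < 0 on the band). Let delta ->
0, eps -> 0.
-/

open scoped Manifold ContDiff
open MeasureTheory Set Filter Topology Metric
open scoped RealInnerProductSpace ENNReal ComplexConjugate Real

noncomputable section

namespace MW

universe u

theorem TIL_ellT {M : Surf} (h : M.Mem) {K : Set ℂ} {T₀ T : ℝ} (h0 : 0 < T₀) (hT : T₀ < T)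
    (hs : M.Slab K T₀ T) {x : E} (hx : x ∈ M.S) (hc : x ∈ cyl K T) (hN : 0 < M.N x 2) :
    M.ellT T x = M.ell e3 x := by
  obtain ⟨hpos, -, hcyl, -⟩ := (h.chord_slab h0 hT hs hx hc).2 hN
  have hpt : ∀ t : ℝ, x - t • e3 = pt (pr x) (x 2 - t) := fun t => by
    rw [← pt_sub_smul_e3, pt_pr]
  have hS : pt (pr x) (x 2 - M.ell e3 x) ∈ M.S := by
    rw [← hpt]
    exact h.partner_mem e3 hx
  have h2 : |x 2 - M.ell e3 x| < T₀ := by
    have h3 := hcyl.2
    rw [Surf.partner, hpt] at h3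
    simpa using h3
  have h4 := (abs_lt.1 h2).1
  have hg : IsGreatest (insert (-T) {s | s ∈ Ioo (-T) (x 2) ∧ pt (pr x) s ∈ M.S})
      (x 2 - M.ell e3 x) := by
    refine ⟨Or.inr ⟨⟨by linarith, by linarith⟩, hS⟩, ?_⟩
    rintro s (rfl | ⟨hs1, hs2⟩)
    · linarith
    · have h5 : M.ell e3 x ≤ x 2 - s := by
        refine Surf.ell_le (by linarith [hs1.2]) ?_
        rw [hpt, sub_sub_cancel]
        exact hs2
      linarith
  rw [Surf.ellT, hg.csSup_eq]
  ring

theorem TIL_Ry (hTILM : S_TILM) (hLINE1 : S_LINE1) {M : Surf} {η : ℂ → ℝ} {T₀ T R : ℝ}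
    {d : E → ℝ} {ν : E → E} {δ₀ : ℝ} (H : T1Hyp M η T₀ T R d ν δ₀)
    (hs : M.Slab (tsupport η) T₀ T) {δ : ℝ} (hδ : 0 < δ) :
    ∫ y, η y * Ry d T δ y ≤ (∫ y, η y) * Real.exp (-(δ⁻¹ ^ 2 * (-T₀ + T))) := by
  have hT : 0 < T := H.pos.trans H.lt
  obtain ⟨hK1, -, hs1, -, -, -, -, -, -, hint, -⟩ :=
    hTILM d ν η T δ H.fn.cd H.fn.cν.continuous H.fn.le H.cη H.supp hT hδ
  rw [← integral_mul_const]
  refine integral_mono hint
    ((H.cη.continuous.integrable_of_hasCompactSupport H.supp).mul_const _) fun y => ?_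
  by_cases hy : y ∈ tsupport η
  · refine mul_le_mul_of_nonneg_left ?_ (H.nonneg y)
    have hl : Continuous fun σ : ℝ => pt y σ := by fun_prop
    have hneg : ∀ t, -T ≤ t → t ≤ -T₀ → d (pt y t) < 0 := fun t h1 h2 => by
      have h3 : t < 0 := by linarith [H.pos]
      refine (H.fn.W' _).2 (hs y hy t ?_ ?_) <;> rw [abs_of_neg h3] <;> linarith
    have hW : MeasurableSet (Wy d T y) :=
      measurableSet_Ioo.inter
        (isOpen_lt continuous_const (H.fn.cd.continuous.comp hl)).measurableSet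
    have key := (hLINE1 (fun σ => K1 (d (pt y σ)) δ) (fun _ => 0) (fun _ => 0) (Wy d T y) T hT
      (hK1.continuous.comp hl) continuous_const continuous_const (fun t => (hs1 _).1)
      (fun _ => le_rfl) (fun _ => by simp) hW (fun t ht => ht.1)
      (fun t _ h => absurd rfl h)).2.2.2.2.2 (-T₀) (δ⁻¹ ^ 2) (by linarith [H.lt])
      (fun t ht => ((hs1 _).2.2.1 (by linarith [hneg t ht.1 ht.2])).1.ge)
      (fun t ht => by
        by_contra hn
        have h1 : t < -T₀ := not_le.1 hn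
        linarith [hneg t ht.1.1.le h1.le, ht.2])
    exact key
  · simp [image_eq_zero_of_notMem_tsupport hy]

theorem til_of (hDEFF : S_DEFF) (hTILM : S_TILM) (hLINE1 : S_LINE1) (hTIL0 : S_TIL0) (hTIL1 : S_TIL1)
    (hTIL2 : S_TIL2) : S_TIL := by
  intro M hM η T₀ T cη supp nonneg h0 hT hs
  obtain ⟨r, hr⟩ := supp.isCompact.isBounded.subset_closedBall (0 : ℂ)
  obtain ⟨d, ν, δ₀, fn⟩ := hDEFF M hM (r + T)
  have H : T1Hyp M η T₀ T (r + T) d ν δ₀ := by
    refine ⟨hM, cη, supp, nonneg, h0, hT, fun y hy t h1 h2 => ?_, fun y hy t ht => ?_, fn⟩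
    · exact disjoint_left.1 M.disjS' (hs y hy t h1 h2)
    · have h1 := norm_le_pr_add (pt y t)
      have h2 : ‖y‖ ≤ r := mem_closedBall_zero_iff.1 (hr hy)
      rw [mem_closedBall_zero_iff]
      simp only [pr_pt, pt_two] at h1
      linarith
  have e1 : ∫ x in lay T ∩ M.top e3, M.ell e3 x * fderiv ℝ η (pr x) (pr (M.N x)) * M.N x 2 ∂M.μ
      = ∫ x in lay T ∩ M.top e3, M.ellT T x * fderiv ℝ η (pr x) (pr (M.N x)) * M.N x 2 ∂M.μ := by
    refine setIntegral_congr_ae ((measurableSet_lay T).inter (M.measurableSet_top e3)) ?_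
    filter_upwards [M.ae_mem] with x hx hx'
    by_cases hy : pr x ∈ tsupport η
    · have hN : 0 < M.N x 2 := by
        rw [← inner_e3]
        exact hx'.2
      rw [TIL_ellT hM h0 hT hs hx ⟨hy, hx'.1⟩ hN]
    · simp [fderiv_of_notMem_tsupport ℝ hy]
  rw [e1]
  refine le_of_forall_pos_le_add fun ε hε => ?_
  refine le_of_tendsto (hTIL1 M η T₀ T _ d ν δ₀ H).2 ?_
  have hlim : Tendsto (fun δ : ℝ => (∫ y, η y) * Real.exp (-(δ⁻¹ ^ 2 * (-T₀ + T)))) (𝓝[>] 0)
      (𝓝 ((∫ y, η y) * 0)) :=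
    (Real.tendsto_exp_atBot.comp (tendsto_neg_atTop_atBot.comp
      (((tendsto_pow_atTop two_ne_zero).comp tendsto_inv_nhdsGT_zero).atTop_mul_const
        (by linarith)))).const_mul _
  rw [mul_zero] at hlim
  have hε3 : 0 < ε / 3 := by linarith
  filter_upwards [hTIL0 M η T₀ T _ d ν δ₀ H _ hε3, hTIL2 M η T₀ T _ d ν δ₀ H hs _ hε3,
    hlim.eventually (gt_mem_nhds hε3), self_mem_nhdsWithin] with δ h1 h2 h3 h4
  have h5 := TIL_Ry hTILM hLINE1 H hs h4
  linarith

end MW
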