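import Pool.Agent.P.MP_064970_gt.ST1

/-!
K x = K1 (d x) delta, L = LE K T, zeta(t) a C1 cutoff, 1 on [-T0,T0], support in (-T,T). V = eta(pr
x) zeta(x 2) K L nu is C1 with compact support. GG: int_W dv V = int <V,N> dmu = - int eta K L dmu
over S cap lay T (S over the support lies in |x3| < T0). On S, K L <= 1 + 2T delta^-2 exp(-c/delta)
(K = delta^-2 on [x3 - c delta, x3], d Lipschitz on the box). On W cap band d >= c > 0 (compact), so
K = 0 there for small delta and the zeta' term vanishes. dv V = K L Deta(nu') + eta D(K L) nu + eta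
K L dv nu; DK v = -kp <nu,v> with kp = K2 |Dd| (DefFn.grad where K2 <> 0), LDER,
integral_eq_integral_pt, LINE1 on every line; sup of |dv nu| on {|d| <= delta} cap box -> 0 and
int_W K L dt <= 2T.
-/

open scoped Manifold ContDiff
open MeasureTheory Set Filter Topology Metric
open scoped RealInnerProductSpace ENNReal ComplexConjugate Real

noncomputable section

namespace MW

universe u

theorem TIL0_cut {T₀ T : ℝ} (h0 : 0 < T₀) (h : T₀ < T) : ∃ z : E → ℝ, ContDiff ℝ 1 z ∧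
    (∀ x, 0 ≤ z x ∧ z x ≤ 1) ∧ (∀ x, |x 2| < T₀ → z x = 1 ∧ fderiv ℝ z x = 0) ∧
    ∀ x, T ≤ |x 2| → z x = 0 ∧ fderiv ℝ z x = 0 := by
  let b : ContDiffBump (0 : ℝ) := ⟨T₀, (T₀ + T) / 2, h0, by linarith⟩
  have hc : Continuous fun x : E => |x 2| := by fun_prop
  refine ⟨fun x => b (x 2), b.contDiff.comp (by fun_prop), fun x => ⟨b.nonneg, b.le_one⟩,
    fun x hx => ?_, fun x hx => ?_⟩
  · have : (fun x : E => b (x 2)) =ᶠ[𝓝 x] fun _ => 1 := by
      filter_upwards [(isOpen_lt hc continuous_const).mem_nhds hx] with y hy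
      exact b.one_of_mem_closedBall (by simpa using le_of_lt hy)
    exact ⟨this.eq_of_nhds, by rw [this.fderiv_eq]; simp⟩
  · have : (fun x : E => b (x 2)) =ᶠ[𝓝 x] fun _ => 0 := by
      have hx' : (T₀ + T) / 2 < |x 2| := by linarith
      filter_upwards [(isOpen_lt continuous_const hc).mem_nhds hx'] with y hy
      exact b.zero_of_le_dist (by simpa using le_of_lt hy)
    exact ⟨this.eq_of_nhds, by rw [this.fderiv_eq]; simp⟩

theorem TIL0_dv {f : E → ℝ} {ν : E → E} {x : E} (hf : DifferentiableAt ℝ f x)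
    (hν : DifferentiableAt ℝ ν x) :
    dv (fun x => f x • ν x) x = fderiv ℝ f x (ν x) + f x * dv ν x := by
  have h1 : ν x = ∑ i, ν x i • EuclideanSpace.single i (1 : ℝ) := by
    ext j
    simp [Fin.sum_univ_three]
    fin_cases j <;> simp
  rw [dv, dv, fderiv_fun_smul hf hν, Finset.mul_sum]
  conv_rhs => rw [h1, map_sum]
  rw [← Finset.sum_add_distrib]
  refine Finset.sum_congr rfl fun i _ => ?_
  simp
  ring

theorem TIL0_cont_dv {ν : E → E} (hν : ContDiff ℝ 1 ν) : Continuous (dv ν) := by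
  have := hν.continuous_fderiv one_ne_zero
  unfold dv
  fun_prop

theorem TIL0_int_dv {V : E → E} (hV : ContDiff ℝ 1 V) (hc : HasCompactSupport V) :
    Integrable (dv V) := by
  refine (TIL0_cont_dv hV).integrable_of_hasCompactSupport
    (HasCompactSupport.intro hc fun x hx => ?_)
  simp [dv, fderiv_of_notMem_tsupport ℝ hx]

theorem TIL0_KL {K : ℝ → ℝ} (hK : Continuous K) (h0 : ∀ t, 0 ≤ K t) {T t m a : ℝ} (ht : -T ≤ t)
    (htT : t ≤ T) (hm : 0 < m) (ha : 0 < a) (hKm : ∀ σ ∈ Icc (-T) t, t - a ≤ σ → K σ = m) :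
    m * Lk K T t ≤ 1 + 2 * T * (m * Real.exp (-(m * a))) := by
  have hi : ∀ p q, IntervalIntegrable K volume p q := fun p q => hK.intervalIntegrable p q
  have hc : ∀ s ∈ Icc (-T) t, t - a ≤ s → ∫ σ in s..t, K σ = m * (t - s) := fun s hs h => by
    rw [intervalIntegral.integral_congr (g := fun _ => m), intervalIntegral.integral_const,
      smul_eq_mul, mul_comm]
    intro σ hσ
    rw [uIcc_of_le hs.2] at hσ
    exact hKm σ ⟨hs.1.trans hσ.1, hσ.2⟩ (h.trans hσ.1)
  have hP : ∀ s ∈ Icc (-T) t, Pk K s t ≤ Real.exp (-(m * (t - s))) + Real.exp (-(m * a)) := by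
    intro s hs
    rcases le_total (t - a) s with h | h
    · rw [Pk, hc s hs h]
      linarith [Real.exp_pos (-(m * a))]
    · have h1 := intervalIntegral.integral_add_adjacent_intervals (hi s (t - a)) (hi (t - a) t)
      have h2 : 0 ≤ ∫ σ in s..(t - a), K σ := intervalIntegral.integral_nonneg h fun σ _ => h0 σ
      rw [hc (t - a) ⟨hs.1.trans h, by linarith⟩ le_rfl, sub_sub_cancel] at h1
      have h3 : Pk K s t ≤ Real.exp (-(m * a)) := Real.exp_le_exp.2 (by linarith)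
      linarith [Real.exp_pos (-(m * (t - s)))]
  have hPc : Continuous fun s => Pk K s t := by
    have : (fun s => Pk K s t) = fun s => Real.exp (∫ σ in t..s, K σ) := by
      funext s
      rw [Pk, intervalIntegral.integral_symm, neg_neg]
    rw [this]
    exact Real.continuous_exp.comp (intervalIntegral.continuous_primitive hi t)
  have h1 : Lk K T t ≤ ∫ s in (-T)..t, (Real.exp (-(m * (t - s))) + Real.exp (-(m * a))) :=
    intervalIntegral.integral_mono_on ht (hPc.intervalIntegrable _ _)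
      (Continuous.intervalIntegrable (by fun_prop) _ _) hP
  have h2 : ∫ s in (-T)..t, Real.exp (-(m * (t - s))) =
      Real.exp (-(m * (t - t))) / m - Real.exp (-(m * (t - -T))) / m := by
    refine intervalIntegral.integral_eq_sub_of_hasDerivAt
      (f := fun s => Real.exp (-(m * (t - s))) / m) (fun s _ => ?_)
      (Continuous.intervalIntegrable (by fun_prop) _ _)
    have := ((((hasDerivAt_id s).const_sub t).const_mul m).neg.exp).div_const m
    refine this.congr_deriv ?_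
    simp only [id, Pi.neg_apply]
    field_simp
  rw [intervalIntegral.integral_add (Continuous.intervalIntegrable (by fun_prop) _ _)
    (Continuous.intervalIntegrable (by fun_prop) _ _), h2, intervalIntegral.integral_const,
    smul_eq_mul] at h1
  have h3 := mul_le_mul_of_nonneg_left h1 hm.le
  have h4 : m * (Real.exp (-(m * (t - t))) / m - Real.exp (-(m * (t - -T))) / m +
      (t - -T) * Real.exp (-(m * a))) =
      1 - Real.exp (-(m * (t - -T))) + (t + T) * (m * Real.exp (-(m * a))) := by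
    rw [sub_self, mul_zero, neg_zero, Real.exp_zero]
    field_simp
    ring
  have h5 : (t + T) * (m * Real.exp (-(m * a))) ≤ 2 * T * (m * Real.exp (-(m * a))) :=
    mul_le_mul_of_nonneg_right (by linarith) (by positivity)
  linarith [Real.exp_pos (-(m * (t - -T)))]

theorem TIL0_lim {c : ℝ} (hc : 0 < c) :
    Tendsto (fun δ : ℝ => δ⁻¹ ^ 2 * Real.exp (-(δ⁻¹ ^ 2 * (c * δ)))) (𝓝[>] 0) (𝓝 0) := by
  have h1 : Tendsto (fun δ : ℝ => c * δ⁻¹) (𝓝[>] 0) atTop :=
    tendsto_inv_nhdsGT_zero.const_mul_atTop hc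
  have h2 := ((Real.tendsto_pow_mul_exp_neg_atTop_nhds_zero 2).comp h1).const_mul (c⁻¹ ^ 2)
  rw [mul_zero] at h2
  refine h2.congr' ?_
  filter_upwards [self_mem_nhdsWithin] with δ hδ
  have hδ' : δ ≠ 0 := ne_of_gt hδ
  have : δ⁻¹ ^ 2 * (c * δ) = c * δ⁻¹ := by field_simp
  rw [this, Function.comp_apply]
  field_simp

theorem TIL0_small {f : E → ℝ} (hf : Continuous f) {C : Set E} (hC : IsCompact C)
    (h : ∀ x ∈ C, f x ≠ 0) : ∀ᶠ δ in 𝓝[>] (0 : ℝ), ∀ x ∈ C, δ < |f x| := by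
  obtain ⟨c, hc, h1⟩ := hC.exists_forall_le' hf.abs.continuousOn fun x hx => abs_pos.2 (h x hx)
  filter_upwards [Ioo_mem_nhdsGT hc] with δ hδ x hx using hδ.2.trans_le (h1 x hx)

section fixed
variable {M : Surf} {η : ℂ → ℝ} {T₀ T R : ℝ} {d : E → ℝ} {ν : E → E} {δ₀ δ : ℝ}

theorem TIL0_zero (H : T1Hyp M η T₀ T R d ν δ₀) {x : E} : d x = 0 ↔ x ∈ M.S := by
  constructor
  · intro h
    rcases M.mem_cases (H.mem.univ ▸ mem_univ x) with h1 | h1 | h1
    · exact absurd ((H.fn.W x).2 h1) (by rw [h]; exact lt_irrefl _)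
    · exact absurd ((H.fn.W' x).2 h1) (by rw [h]; exact lt_irrefl _)
    · exact h1
  · intro h
    exact le_antisymm (not_lt.1 fun h1 => disjoint_left.1 M.disjS ((H.fn.W x).1 h1) h)
      (not_lt.1 fun h1 => disjoint_left.1 M.disjS' ((H.fn.W' x).1 h1) h)

theorem TIL0_box (H : T1Hyp M η T₀ T R d ν δ₀) {x : E} (h1 : pr x ∈ tsupport η) (h2 : |x 2| ≤ T) :
    x ∈ closedBall (0 : E) R := by
  simpa using H.box _ h1 _ h2

theorem TIL0_meas (hd : Continuous d) (T : ℝ) (y : ℂ) : MeasurableSet (Wy d T y) :=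
  measurableSet_Ioo.inter (isOpen_lt (f := fun _ => (0 : ℝ)) (g := fun t => d (pt y t))
    continuous_const (by fun_prop)).measurableSet

theorem TIL0_intOn {g : E → ℝ} (hg : Continuous g) (d : E → ℝ) (T : ℝ) (y : ℂ) :
    IntegrableOn (fun t => g (pt y t)) (Wy d T y) :=
  (Continuous.integrableOn_Icc (a := -T) (b := T) (by fun_prop)).mono_set
    fun _ ht => Ioo_subset_Icc_self ht.1

/-- The inequality on one line. -/
theorem TIL0_line (hLDER : S_LDER) (hLINE1 : S_LINE1) (hTILM : S_TILM)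
    (H : T1Hyp M η T₀ T R d ν δ₀) (hδ : 0 < δ) (hδ₀ : δ ≤ δ₀) {y : ℂ} (hy : y ∈ tsupport η) :
    (∫ t in Wy d T y, (fderiv ℝ (fun x => K1 (d x) δ) (pt y t) (ν (pt y t)) *
        LE (fun x => K1 (d x) δ) T (pt y t) + K1 (d (pt y t)) δ *
          fderiv ℝ (LE (fun x => K1 (d x) δ) T) (pt y t) (ν (pt y t)))
      ≤ -Py d ν T δ y + Ry d T δ y) ∧
    (∫ t in Wy d T y, K1 (d (pt y t)) δ * LE (fun x => K1 (d x) δ) T (pt y t) ≤ 2 * T) ∧
    ∀ t, -T ≤ t → 0 ≤ LE (fun x => K1 (d x) δ) T (pt y t) := by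
  have hT : 0 < T := H.pos.trans H.lt
  obtain ⟨hK, hK2, hs, hD, -⟩ := hTILM d ν η T δ H.fn.cd H.fn.cν.continuous H.fn.le H.cη H.supp hT hδ
  have hK2' : ∀ s, K2 s δ ≠ 0 → 0 < s ∧ |s| ≤ δ₀ := fun s h => by
    have h1 : δ / 2 < s := not_le.1 fun h1 => h ((hs s).2.2.1 h1).2
    have h2 : s < δ := not_le.1 fun h2 => h ((hs s).2.2.2 h2).2
    exact ⟨by linarith, by rw [abs_of_pos (by linarith)]; linarith⟩
  have hKc := hK.continuous
  have hν := H.fn.cν.continuous
  have hdd := H.fn.cd.continuous_fderiv (by norm_num)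
  obtain ⟨h1, -, -, h2, h3, -⟩ := hLINE1 (fun σ => K1 (d (pt y σ)) δ)
    (fun σ => K2 (d (pt y σ)) δ * ‖fderiv ℝ d (pt y σ)‖) (fun σ => ν (pt y σ)) (Wy d T y) T hT
    (hKc.comp (by fun_prop)) ((hK2.comp (by fun_prop)).mul (by fun_prop)) (by fun_prop)
    (fun t => (hs _).1) (fun t => mul_nonneg (hs _).2.1 (norm_nonneg _)) (fun t => H.fn.le _)
    (TIL0_meas H.fn.cd.continuous T y) (fun t ht => ht.1)
    (fun t ht h => ⟨ht, (hK2' _ (left_ne_zero_of_mul h)).1⟩)
  refine ⟨le_of_eq_of_le ?_ h1, h2, h3⟩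
  have hg : ∀ σ, |σ| ≤ T → ∀ v, fderiv ℝ (fun x => K1 (d x) δ) (pt y σ) v =
      -(K2 (d (pt y σ)) δ * ‖fderiv ℝ d (pt y σ)‖ * ⟪ν (pt y σ), v⟫) := fun σ hσ v => by
    rw [hD]
    by_cases h : K2 (d (pt y σ)) δ = 0
    · simp [h]
    · rw [mul_assoc, ← (H.fn.grad _ (H.box y hy σ hσ) (hK2' _ h).2).2.2 v]
  refine setIntegral_congr_fun (TIL0_meas H.fn.cd.continuous T y) fun t ht => ?_
  have ht' : |t| ≤ T := (abs_lt.2 ht.1).le
  have hu : K2 (d (pt y t)) δ * ‖fderiv ℝ d (pt y t)‖ * ⟪ν (pt y t), ν (pt y t)⟫ =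
      K2 (d (pt y t)) δ * ‖fderiv ℝ d (pt y t)‖ := by
    by_cases h : K2 (d (pt y t)) δ = 0
    · simp [h]
    · rw [real_inner_self_eq_norm_sq, (H.fn.grad _ (H.box y hy t ht') (hK2' _ h).2).1]
      ring
  have hin : ∫ s in (-T)..t, Pk (fun σ => K1 (d (pt y σ)) δ) s t *
      ∫ σ in s..t, fderiv ℝ (fun x => K1 (d x) δ) (pt y σ) (ν (pt y t)) =
      -∫ s in (-T)..t, Pk (fun σ => K1 (d (pt y σ)) δ) s t *
        ∫ σ in s..t, K2 (d (pt y σ)) δ * ‖fderiv ℝ d (pt y σ)‖ * ⟪ν (pt y σ), ν (pt y t)⟫ := by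
    rw [← intervalIntegral.integral_neg]
    refine intervalIntegral.integral_congr fun s hs => ?_
    rw [uIcc_of_le ht.1.1.le] at hs
    rw [← mul_neg, ← intervalIntegral.integral_neg]
    congr 1
    refine intervalIntegral.integral_congr fun σ hσ => ?_
    rw [uIcc_of_le hs.2] at hσ
    exact hg σ (abs_le.2 ⟨hs.1.trans hσ.1, hσ.2.trans ht.1.2.le⟩) _
  simp only
  rw [(hLDER _ T (hK.of_le (by norm_num))).2, hg t ht', hu, pr_pt, pt_two, hin]
  simp only [LE, pr_pt, pt_two]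
  ring

/-- The volume side. -/
theorem TIL0_vol (hLDER : S_LDER) (hLINE1 : S_LINE1) (hTILM : S_TILM)
    (H : T1Hyp M η T₀ T R d ν δ₀) (hδ : 0 < δ) (hδ₀ : δ ≤ δ₀) {w : ℝ} (hw0 : 0 ≤ w)
    (hband : ∀ x, pr x ∈ tsupport η → T₀ ≤ |x 2| → |x 2| ≤ T → δ < |d x|)
    (hw : ∀ x ∈ closedBall (0 : E) R, |d x| ≤ δ → |dv ν x| ≤ w) {z : E → ℝ} (hz : ContDiff ℝ 1 z)
    (hz1 : ∀ x, |x 2| < T₀ → z x = 1 ∧ fderiv ℝ z x = 0)
    (hz0 : ∀ x, T ≤ |x 2| → z x = 0 ∧ fderiv ℝ z x = 0)
    (hint : Integrable (dv fun x =>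
      (η (pr x) * z x * (K1 (d x) δ * LE (fun x => K1 (d x) δ) T x)) • ν x)) :
    ∫ x in M.W, dv (fun x =>
      (η (pr x) * z x * (K1 (d x) δ * LE (fun x => K1 (d x) δ) T x)) • ν x) x ≤
      (∫ y, Ay d ν η T δ y) - (∫ y, η y * Py d ν T δ y) + (∫ y, η y * Ry d T δ y) +
        2 * T * w * ∫ y, η y := by
  have hT : 0 < T := H.pos.trans H.lt
  obtain ⟨hK, -, hs, hD, -, -, -, iA, iP, iR, -⟩ :=
    hTILM d ν η T δ H.fn.cd H.fn.cν.continuous H.fn.le H.cη H.supp hT hδ
  have hK1 : ContDiff ℝ 1 fun x => K1 (d x) δ := hK.of_le (by norm_num)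
  have hL := (hLDER _ T hK1).1
  have hline := fun y hy => TIL0_line hLDER hLINE1 hTILM H hδ hδ₀ (y := y) hy
  have hA : ∀ y, Ay d ν η T δ y = ∫ t in Wy d T y, K1 (d (pt y t)) δ *
      LE (fun x => K1 (d x) δ) T (pt y t) * fderiv ℝ η (pr (pt y t)) (pr (ν (pt y t))) :=
    fun y => rfl
  have hK0 : ∀ x, 0 ≤ K1 (d x) δ := fun x => (hs _).1
  have hKz : ∀ x, δ ≤ d x → K1 (d x) δ = 0 ∧ ∀ v, fderiv ℝ (fun x => K1 (d x) δ) x v = 0 :=
    fun x h => ⟨((hs _).2.2.2 h).1, fun v => by rw [hD, ((hs _).2.2.2 h).2]; simp⟩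
  generalize LE (fun x => K1 (d x) δ) T = L at *
  obtain ⟨K, hKe⟩ : ∃ K : E → ℝ, K = fun x => K1 (d x) δ := ⟨_, rfl⟩
  have hKe' : ∀ x, K1 (d x) δ = K x := fun x => by rw [hKe]
  rw [← hKe] at hK1 hline hKz
  simp only [hKe'] at hline hA hK0 hKz hint ⊢
  have cK := hK1.continuous
  have cL := hL.continuous
  have cK' := hK1.continuous_fderiv one_ne_zero
  have cL' := hL.continuous_fderiv one_ne_zero
  have cν := H.fn.cν.continuous
  have cη' := H.cη.continuous_fderiv one_ne_zero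
  have cdv := TIL0_cont_dv H.fn.cν
  let a : E → ℝ := fun x => K x * L x * fderiv ℝ η (pr x) (pr (ν x))
  let b : E → ℝ := fun x => fderiv ℝ K x (ν x) * L x + K x * fderiv ℝ L x (ν x)
  let c : E → ℝ := fun x => K x * L x * dv ν x
  have ca : Continuous a := by fun_prop
  have cb : Continuous b := by fun_prop
  have cc : Continuous c := by fun_prop
  have hdv : ∀ x, dv (fun x => (η (pr x) * z x * (K x * L x)) • ν x) x =
      z x * (a x + η (pr x) * b x + η (pr x) * c x) +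
        η (pr x) * fderiv ℝ z x (ν x) * (K x * L x) := fun x => by
    have h1 : HasFDerivAt (fun x => η (pr x)) ((fderiv ℝ η (pr x)).comp prL) x :=
      (H.cη.differentiable one_ne_zero (pr x)).hasFDerivAt.comp x prL.hasFDerivAt
    have h2 := (h1.fun_mul (hz.differentiable one_ne_zero x).hasFDerivAt).fun_mul
      ((hK1.differentiable one_ne_zero x).hasFDerivAt.fun_mul
        (hL.differentiable one_ne_zero x).hasFDerivAt)
    rw [TIL0_dv h2.differentiableAt (H.fn.cν.differentiable one_ne_zero x), h2.fderiv]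
    simp only [a, b, c, add_apply, smul_apply,
      ContinuousLinearMap.comp_apply, prL_apply, smul_eq_mul]
    ring
  have hpt : ∀ y t, M.W.indicator (dv fun x => (η (pr x) * z x * (K x * L x)) • ν x) (pt y t) =
      (Wy d T y).indicator (fun t => a (pt y t) + η y * b (pt y t) + η y * c (pt y t)) t := by
    intro y t
    by_cases hW : pt y t ∈ M.W
    swap
    · rw [indicator_of_notMem hW, indicator_of_notMem fun h => hW ((H.fn.W _).1 h.2)]
    have hd : 0 < d (pt y t) := (H.fn.W _).2 hW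
    rw [indicator_of_mem hW, hdv, pr_pt]
    rcases le_or_gt T |t| with h | h
    · rw [indicator_of_notMem fun h' => not_lt.2 h (abs_lt.2 h'.1), (hz0 (pt y t) h).1,
        (hz0 (pt y t) h).2]
      simp
    rw [indicator_of_mem (show t ∈ Wy d T y from ⟨abs_lt.1 h, hd⟩)]
    rcases lt_or_ge |t| T₀ with h' | h'
    · rw [(hz1 (pt y t) h').1, (hz1 (pt y t) h').2]
      simp
    by_cases hy : y ∈ tsupport η
    · have h1 := hband (pt y t) hy h' h.le
      rw [abs_of_pos hd] at h1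
      simp [a, b, c, (hKz _ h1.le).1, (hKz _ h1.le).2]
    · simp [a, image_eq_zero_of_notMem_tsupport hy, fderiv_of_notMem_tsupport ℝ hy]
  have hI := hint.indicator M.isOpen_W.measurableSet
  have hI' := (measurePreserving_pt.integrable_comp_of_integrable hI).integral_prod_left
  have iη : Integrable η := H.cη.continuous.integrable_of_hasCompactSupport H.supp
  have i1 : Integrable fun y => Ay d ν η T δ y - η y * Py d ν T δ y := iA.sub iP
  have i2 : Integrable fun y => Ay d ν η T δ y - η y * Py d ν T δ y + η y * Ry d T δ y :=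
    i1.add iR
  have i3 : Integrable fun y => Ay d ν η T δ y - η y * Py d ν T δ y + η y * Ry d T δ y +
    2 * T * w * η y := i2.add (iη.const_mul _)
  rw [← integral_indicator M.isOpen_W.measurableSet, integral_eq_integral_pt hI,
    ← integral_sub iA iP, ← integral_add i1 iR, ← integral_const_mul,
    ← integral_add i2 (iη.const_mul _)]
  refine integral_mono hI' i3 fun y => ?_
  have hm := TIL0_meas H.fn.cd.continuous T y
  have ia := TIL0_intOn ca d T y
  have ib := TIL0_intOn cb d T y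
  have ic := TIL0_intOn cc d T y
  simp only [hpt]
  have iab : IntegrableOn (fun t => a (pt y t) + η y * b (pt y t)) (Wy d T y) :=
    ia.add (ib.const_mul _)
  rw [integral_indicator hm, integral_add iab (ic.const_mul _),
    integral_add ia (ib.const_mul _), integral_const_mul, integral_const_mul, hA]
  by_cases hy : y ∈ tsupport η
  swap
  · simp [a, image_eq_zero_of_notMem_tsupport hy]
  obtain ⟨h1, h2, h3⟩ := hline y hy
  have h4 : ∫ t in Wy d T y, c (pt y t) ≤ w * ∫ t in Wy d T y, K (pt y t) * L (pt y t) := by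
    rw [← integral_const_mul]
    refine setIntegral_mono_on ic
      ((TIL0_intOn (g := fun x => K x * L x) (by fun_prop) d T y).const_mul _) hm fun t ht => ?_
    rcases le_total δ (d (pt y t)) with h | h
    · simp [c, (hKz _ h).1]
    · have h5 := hw _ (H.box y hy t (abs_lt.2 ht.1).le) (by rw [abs_of_pos ht.2]; exact h)
      rw [mul_comm w]
      exact mul_le_mul_of_nonneg_left ((le_abs_self _).trans h5)
        (mul_nonneg (hK0 _) (h3 t ht.1.1.le))
  have h5 := mul_le_mul_of_nonneg_left h1 (H.nonneg y)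
  have h6 := mul_le_mul_of_nonneg_left (h4.trans (mul_le_mul_of_nonneg_left h2 hw0)) (H.nonneg y)
  simp only [a, b] at h5 h6 ⊢
  linarith

theorem TIL0_intOn_lay (H : T1Hyp M η T₀ T R d ν δ₀) :
    IntegrableOn (fun x => η (pr x)) (lay T) M.μ := by
  have := H.mem.bd.isFiniteMeasureOnCompacts
  have cη := H.cη.continuous
  refine (ContinuousOn.integrableOn_compact (isCompact_closedBall (0 : E) R)
    (Continuous.continuousOn (by fun_prop))).of_forall_sdiff_eq_zero (measurableSet_lay T)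
    fun x hx => image_eq_zero_of_notMem_tsupport fun h => hx.2 (TIL0_box H h (le_of_lt hx.1))

/-- The surface side. -/
theorem TIL0_surf (H : T1Hyp M η T₀ T R d ν δ₀) {κ : ℝ} (hκ : 0 ≤ κ) {z P : E → ℝ}
    (hz : ∀ x, 0 ≤ z x ∧ z x ≤ 1) (hz0 : ∀ x, T ≤ |x 2| → z x = 0)
    (hP : ∀ x ∈ M.S, pr x ∈ tsupport η → |x 2| < T → 0 ≤ P x ∧ P x ≤ 1 + κ) :
    -∫ x, ⟪(η (pr x) * z x * P x) • ν x, M.N x⟫ ∂M.μ ≤ (1 + κ) * ∫ x in lay T, η (pr x) ∂M.μ := by
  have key : ∀ x ∈ M.S, 0 ≤ -⟪(η (pr x) * z x * P x) • ν x, M.N x⟫ ∧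
      -⟪(η (pr x) * z x * P x) • ν x, M.N x⟫ ≤
        (1 + κ) * (lay T).indicator (fun x => η (pr x)) x := by
    intro x hx
    have h0 : 0 ≤ (1 + κ) * (lay T).indicator (fun x => η (pr x)) x :=
      mul_nonneg (by linarith) (indicator_nonneg (fun _ _ => H.nonneg _) x)
    by_cases h1 : pr x ∈ tsupport η
    swap
    · simpa [image_eq_zero_of_notMem_tsupport h1] using h0
    rcases le_or_gt T |x 2| with h2 | h2
    · simpa [hz0 x h2] using h0
    rw [(H.fn.onS x ⟨hx, TIL0_box H h1 h2.le⟩).1, real_inner_smul_left, inner_neg_left,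
      real_inner_self_eq_norm_sq, M.N_unit x hx, indicator_of_mem (show x ∈ lay T from h2)]
    obtain ⟨h3, h4⟩ := hP x hx h1 h2
    have h5 := H.nonneg (pr x)
    have h6 : 0 ≤ z x * P x := mul_nonneg (hz x).1 h3
    have h7 : z x * P x ≤ 1 + κ := (mul_le_of_le_one_left h3 (hz x).2).trans h4
    constructor <;> nlinarith [mul_nonneg h5 h6, mul_le_mul_of_nonneg_left h7 h5]
  rw [← integral_neg, ← integral_indicator (measurableSet_lay T), ← integral_const_mul]
  exact integral_mono_of_nonneg (M.ae_mem.mono fun x hx => (key x hx).1)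
    (((TIL0_intOn_lay H).integrable_indicator (measurableSet_lay T)).const_mul _)
    (M.ae_mem.mono fun x hx => (key x hx).2)

end fixed

theorem til0_of (hGG : S_GG) (hLDER : S_LDER) (hLINE1 : S_LINE1) (hTILM : S_TILM) : S_TIL0 := by
  intro M η T₀ T R d ν δ₀ H ε hε
  have hT : 0 < T := H.pos.trans H.lt
  have cd := H.fn.cd.continuous
  obtain ⟨z, hz, hz01, hz1, hz0⟩ := TIL0_cut H.pos H.lt
  have hI : 0 ≤ ∫ x in lay T, η (pr x) ∂M.μ := integral_nonneg fun x => H.nonneg _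
  have hJ : 0 ≤ ∫ y, η y := integral_nonneg H.nonneg
  obtain ⟨κ, hκ, hκ'⟩ : ∃ κ : ℝ, 0 < κ ∧ κ * ((∫ x in lay T, η (pr x) ∂M.μ) + 1) = ε / 2 :=
    ⟨ε / 2 / ((∫ x in lay T, η (pr x) ∂M.μ) + 1), by positivity, div_mul_cancel₀ _ (by positivity)⟩
  obtain ⟨w, hw, hw'⟩ : ∃ w : ℝ, 0 < w ∧ w * (2 * T * (∫ y, η y) + 1) = ε / 2 :=
    ⟨ε / 2 / (2 * T * (∫ y, η y) + 1), by positivity, div_mul_cancel₀ _ (by positivity)⟩
  obtain ⟨C, hC⟩ := H.fn.cd.contDiffOn.exists_lipschitzOnWith (by norm_num)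
    (convex_closedBall (0 : E) R) (isCompact_closedBall _ _)
  obtain ⟨c, hc, hc'⟩ : ∃ c : ℝ, 0 < c ∧ c * (2 * (C : ℝ) + 1) = 1 :=
    ⟨1 / (2 * (C : ℝ) + 1), by positivity, div_mul_cancel₀ _ (by positivity)⟩
  have c2 : Continuous fun x : E => |x 2| := by fun_prop
  have e1 := TIL0_small cd (C := {x | pr x ∈ tsupport η ∧ T₀ ≤ |x 2| ∧ |x 2| ≤ T})
    ((isCompact_closedBall (0 : E) R).of_isClosed_subset
      (((isClosed_tsupport η).preimage continuous_pr).inter
        ((isClosed_le continuous_const c2).inter (isClosed_le c2 continuous_const)))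
      fun x hx => TIL0_box H hx.1 hx.2.2)
    fun x hx h => H.band _ hx.1 _ hx.2.1 hx.2.2 (by rw [pt_pr]; exact (TIL0_zero H).1 h)
  have e2 := TIL0_small cd (C := closedBall (0 : E) R ∩ {x | w ≤ |dv ν x|})
    ((isCompact_closedBall (0 : E) R).inter_right
      (isClosed_le continuous_const (TIL0_cont_dv H.fn.cν).abs))
    fun x hx h => by
      have h1 : w ≤ |dv ν x| := hx.2
      rw [(H.fn.onS x ⟨(TIL0_zero H).1 h, hx.1⟩).2, abs_zero] at h1
      exact absurd hw (not_lt.2 h1)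
  have e4 := ((TIL0_lim hc).const_mul (2 * T)).eventually_lt_const
    (show 2 * T * 0 < κ by rwa [mul_zero])
  filter_upwards [e1, e2, e4, Ioo_mem_nhdsGT H.fn.pos] with δ h1 h2 h3 hδ
  obtain ⟨hK, -, hs, -⟩ :=
    hTILM d ν η T δ H.fn.cd H.fn.cν.continuous H.fn.le H.cη H.supp hT hδ.1
  have hK1 : ContDiff ℝ 1 fun x => K1 (d x) δ := hK.of_le (by norm_num)
  have hV : ContDiff ℝ 1 fun x =>
      (η (pr x) * z x * (K1 (d x) δ * LE (fun x => K1 (d x) δ) T x)) • ν x :=
    (((H.cη.comp prL.contDiff).mul hz).mul (hK1.mul (hLDER _ T hK1).1)).smul H.fn.cν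
  have hVc : HasCompactSupport fun x =>
      (η (pr x) * z x * (K1 (d x) δ * LE (fun x => K1 (d x) δ) T x)) • ν x := by
    refine HasCompactSupport.intro (isCompact_closedBall (0 : E) R) fun x hx => ?_
    by_cases h : pr x ∈ tsupport η
    · rw [(hz0 x (not_le.1 fun h' => hx (TIL0_box H h h')).le).1]
      simp
    · simp [image_eq_zero_of_notMem_tsupport h]
  have hv := TIL0_vol hLDER hLINE1 hTILM H hδ.1 hδ.2.le hw.le
    (fun x p q r => h1 x ⟨p, q, r⟩)
    (fun x hx p => (not_le.1 fun q => not_lt.2 p (h2 x ⟨hx, q⟩)).le) hz hz1 hz0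
    (TIL0_int_dv hV hVc)
  have hsf := TIL0_surf H hκ.le (P := fun x => K1 (d x) δ * LE (fun x => K1 (d x) δ) T x) hz01
    (fun x h => (hz0 x h).1) fun x hx p q => by
      have q' := abs_lt.1 q
      have hd0 : d x = 0 := (TIL0_zero H).2 hx
      have h4 := (TIL0_line hLDER hLINE1 hTILM H hδ.1 hδ.2.le p).2.2 (x 2) q'.1.le
      rw [pt_pr] at h4
      refine ⟨mul_nonneg (hs _).1 h4, ?_⟩
      have h5 := TIL0_KL (K := fun σ => K1 (d (pt (pr x) σ)) δ) (hK.continuous.comp (by fun_prop))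
        (fun t => (hs _).1) q'.1.le q'.2.le (m := δ⁻¹ ^ 2) (a := c * δ)
        (by have := hδ.1; positivity) (mul_pos hc hδ.1) fun σ hσ hσ' => by
          refine ((hs _).2.2.1 ?_).1
          have h6 := hC.dist_le_mul _ (H.box _ p σ (abs_le.2 ⟨hσ.1, hσ.2.trans q'.2.le⟩)) _
            (TIL0_box H p q.le)
          have h7 : dist (pt (pr x) σ) x = x 2 - σ := by
            have : pt (pr x) σ = x - (x 2 - σ) • e3 := by
              conv_rhs => rw [← pt_pr x]
              rw [pt_two, pt_sub_smul_e3, sub_sub_cancel]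
            rw [this, dist_eq_norm, sub_sub_cancel_left, norm_neg, norm_smul, norm_e3, mul_one,
              Real.norm_of_nonneg (sub_nonneg.2 hσ.2)]
          rw [h7, hd0, Real.dist_eq, sub_zero] at h6
          have h8 : (C : ℝ) * (x 2 - σ) ≤ C * (c * δ) :=
            mul_le_mul_of_nonneg_left (by linarith) C.2
          have h9 : (C : ℝ) * (c * δ) ≤ δ / 2 := by nlinarith [mul_pos hc hδ.1, hδ.1]
          linarith [le_abs_self (d (pt (pr x) σ))]
      rw [((hs (d x)).2.2.1 (by rw [hd0]; linarith [hδ.1])).1]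
      exact h5.trans (by linarith)
  rw [hGG M H.mem _ hV hVc] at hv
  nlinarith

end MW
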