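import Pool.Agent.P.MP_064970_gt.ST1

/-!
ellT is measurable ({sSup > c} is a countable union of closed sets). For y in tsupport eta with a
regular line LINE2A applies to t -> d (pt y t): zeros are the points of S, the derivative is |Dd|
nu3 = -|Dd| N3, len = ellT, nu = -N. Dominated convergence along the countably generated filter with
the bound of TILM; AREAR for g = indicator (S cap lay T cap top) (ellT * Deta N').
-/

open scoped Manifold ContDiff
open MeasureTheory Set Filter Topology Metric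
open scoped RealInnerProductSpace ENNReal ComplexConjugate Real

noncomputable section

namespace MW

universe u

theorem TIL1_closed {M : Surf} (hM : M.Mem) : IsClosed M.S := by
  rw [M.basic_S_eq, hM.univ, ← compl_eq_univ_sdiff]
  exact (M.isOpen_W.union M.isOpen_W').isClosed_compl

theorem TIL1_seg {S : Set E} (hS : IsClosed S) (p q : ℝ) :
    IsClosed {x : E | ∃ s ∈ Icc p q, pt (pr x) s ∈ S} := by
  have h1 : IsClosed {z : E × Icc p q | pt (pr z.1) (z.2 : ℝ) ∈ S} :=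
    hS.preimage (by fun_prop)
  convert isClosedMap_fst_of_compactSpace _ h1 using 1
  ext x
  constructor
  · rintro ⟨s, hs, h⟩
    exact ⟨(x, ⟨s, hs⟩), h, rfl⟩
  · rintro ⟨z, h, rfl⟩
    exact ⟨z.2, z.2.2, h⟩

theorem TIL1_bdd (T t : ℝ) (P : ℝ → Prop) :
    BddAbove (insert (-T) {s | s ∈ Ioo (-T) t ∧ P s}) :=
  (BddAbove.mono (fun _ hs => hs.1) bddAbove_Ioo).insert _

theorem TIL1_meas {M : Surf} (hM : M.Mem) (T : ℝ) : Measurable (M.ellT T) := by
  refine (by fun_prop : Continuous fun x : E => x 2).measurable.sub (measurable_of_Ioi fun c => ?_)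
  have e : (fun x : E => sSup (insert (-T) {s | s ∈ Ioo (-T) (x 2) ∧ pt (pr x) s ∈ M.S})) ⁻¹' Ioi c
      = {_x | c < -T} ∪ ⋃ p : ℚ, ⋃ q : ℚ, ({_x | c < p ∧ -T < p} ∩ {x : E | (q : ℝ) < x 2}) ∩
        {x : E | ∃ s ∈ Icc (p : ℝ) q, pt (pr x) s ∈ M.S} := by
    ext x
    rw [mem_preimage, mem_Ioi, lt_csSup_iff (TIL1_bdd _ _ _) (insert_nonempty _ _)]
    simp only [mem_union, mem_iUnion]
    constructor
    · rintro ⟨s, rfl | hs, h⟩
      · exact Or.inl h
      · obtain ⟨p, hp, hp'⟩ := exists_rat_btwn (max_lt h hs.1.1)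
        obtain ⟨q, hq, hq'⟩ := exists_rat_btwn hs.1.2
        exact Or.inr ⟨p, q, ⟨max_lt_iff.1 hp, hq'⟩, s, ⟨hp'.le, hq.le⟩, hs.2⟩
    · rintro (h | ⟨p, q, ⟨hp, hq⟩, s, hs, h⟩)
      · exact ⟨-T, mem_insert _ _, h⟩
      · exact ⟨s, Or.inr ⟨⟨hp.2.trans_le hs.1, hs.2.trans_lt hq⟩, h⟩, hp.1.trans_le hs.1⟩
  rw [e]
  refine (MeasurableSet.const _).union (MeasurableSet.iUnion fun p => MeasurableSet.iUnion fun q =>
    ((MeasurableSet.const _).inter ?_).inter (TIL1_seg (TIL1_closed hM) _ _).measurableSet)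
  exact (isOpen_lt continuous_const (by fun_prop)).measurableSet

theorem TIL1_ell_le (M : Surf) {T : ℝ} {x : E} (hx : x ∈ lay T) : |M.ellT T x| ≤ 2 * T := by
  have h := abs_lt.1 (show |x 2| < T from hx)
  have h1 := le_csSup (TIL1_bdd T (x 2) fun s => pt (pr x) s ∈ M.S) (mem_insert _ _)
  have h2 : sSup (insert (-T) {s | s ∈ Ioo (-T) (x 2) ∧ pt (pr x) s ∈ M.S}) ≤ x 2 := by
    refine csSup_le (insert_nonempty _ _) ?_
    rintro s (rfl | hs)
    · exact h.1.le
    · exact hs.1.2.le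
  rw [Surf.ellT, abs_le]
  constructor <;> linarith [h.1, h.2]

theorem TIL1_zero {M : Surf} {R δ₀ : ℝ} {d : E → ℝ} {ν : E → E} (hM : M.Mem)
    (h : DefFn M R d ν δ₀) (x : E) : d x = 0 ↔ x ∈ M.S := by
  constructor
  · intro h0
    rcases M.mem_cases (x := x) (hM.univ ▸ mem_univ x) with h1 | h1 | h1
    · exact absurd ((h.W x).2 h1) (by rw [h0]; exact lt_irrefl _)
    · exact absurd ((h.W' x).2 h1) (by rw [h0]; exact lt_irrefl _)
    · exact h1
  · intro hx
    refine le_antisymm (not_lt.1 fun h1 => ?_) (not_lt.1 fun h1 => ?_)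
    · exact disjoint_left.1 M.disjS ((h.W x).1 h1) hx
    · exact disjoint_left.1 M.disjS' ((h.W' x).1 h1) hx

theorem TIL1_line (y : ℂ) : (fun t : ℝ => pt y t) = fun t : ℝ => pt y 0 + t • e3 := by
  funext t
  rw [pt_add_smul_e3, zero_add]

theorem TIL1_deriv {M : Surf} {R δ₀ : ℝ} {d : E → ℝ} {ν : E → E} (hM : M.Mem)
    (h : DefFn M R d ν δ₀) {y : ℂ} {t : ℝ} (hS : pt y t ∈ M.S)
    (hR : pt y t ∈ closedBall (0 : E) R) :
    ∃ c : ℝ, 0 < c ∧ deriv (fun s => d (pt y s)) t = -(c * M.N (pt y t) 2) := by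
  obtain ⟨-, h1, h2⟩ := h.grad _ hR (by rw [(TIL1_zero hM h _).2 hS, abs_zero]; exact h.pos.le)
  have h3 : HasDerivAt (fun s : ℝ => pt y s) e3 t := by
    rw [TIL1_line]
    simpa using ((hasDerivAt_id t).smul_const e3).const_add (pt y 0)
  have h4 := ((h.cd.differentiable (by norm_num) (pt y t)).hasFDerivAt.comp_hasDerivAt t h3).deriv
  refine ⟨_, h1, h4.trans ?_⟩
  rw [h2, (h.onS _ ⟨hS, hR⟩).1, inner_e3]
  simp

/-- The function to which the area formula is applied. -/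
def TIL1_g (M : Surf) (η : ℂ → ℝ) (T : ℝ) : E → ℝ :=
  (M.S ∩ (lay T ∩ M.top e3)).indicator fun x => M.ellT T x * fderiv ℝ η (pr x) (pr (M.N x))

theorem TIL1_mset (M : Surf) (T : ℝ) : MeasurableSet (lay T ∩ M.top e3) :=
  (isOpen_lt (by fun_prop) continuous_const).measurableSet.inter
    (measurableSet_lt measurable_const (M.N_meas.inner measurable_const))

theorem TIL1_lim (hL : S_LINE2A) {M : Surf} {η : ℂ → ℝ} {T₀ T R δ₀ : ℝ} {d : E → ℝ} {ν : E → E}
    (h : T1Hyp M η T₀ T R d ν δ₀) {y : ℂ} (hy : ∀ t : ℝ, pt y t ∈ M.S → M.N (pt y t) 2 ≠ 0) :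
    Tendsto (fun δ : ℝ => -Ay d ν η T δ y) (𝓝[>] 0)
      (𝓝 (∑ᶠ t ∈ {t : ℝ | pt y t ∈ M.S}, TIL1_g M η T (pt y t))) := by
  have hT : 0 < T := h.pos.trans h.lt
  by_cases hs : y ∈ tsupport η
  swap
  · have h0 : fderiv ℝ η y = 0 := fderiv_of_notMem_tsupport ℝ hs
    have h1 : ∀ t, TIL1_g M η T (pt y t) = 0 := fun t => by
      simp [TIL1_g, indicator, h0]
    simp [Ay, h0, h1]
  have hz := TIL1_zero h.mem h.fn
  have hc : ContDiff ℝ 1 fun t : ℝ => d (pt y t) := by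
    refine (h.fn.cd.of_le (by norm_num)).comp (f := fun t : ℝ => pt y t) ?_
    rw [TIL1_line]
    fun_prop
  have hν := h.fn.cν.continuous
  have h1 := (hL (fun t => d (pt y t)) (fun t => fderiv ℝ η y (pr (ν (pt y t)))) T hT hc
    (by fun_prop)
    (fun e => h.band y hs (-T) (by rw [abs_neg, abs_of_pos hT]; exact h.lt.le)
      (by rw [abs_neg, abs_of_pos hT]) ((hz _).1 e))
    (fun e => h.band y hs T (by rw [abs_of_pos hT]; exact h.lt.le)
      (by rw [abs_of_pos hT]) ((hz _).1 e))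
    (fun t ht e => by
      obtain ⟨c, hc, h2⟩ := TIL1_deriv h.mem h.fn ((hz _).1 e) (h.box y hs t (abs_le.2 ht))
      rw [h2]
      exact neg_ne_zero.2 (mul_ne_zero hc.ne' (hy t ((hz _).1 e))))).neg
  refine Tendsto.mono_right h1 (congrArg 𝓝 (Eq.symm ?_)).le
  rw [finsum_mem_def, finsum_mem_def, ← finsum_neg_distrib]
  refine finsum_congr fun t => ?_
  by_cases ht : pt y t ∈ M.S ∩ (lay T ∩ M.top e3)
  · have h2 : |t| < T := ht.2.1
    have h3 : 0 < M.N (pt y t) 2 := by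
      rw [← inner_e3]
      exact ht.2.2
    obtain ⟨c, hc, h4⟩ := TIL1_deriv h.mem h.fn ht.1 (h.box y hs t h2.le)
    have h5 : t ∈ {t | t ∈ Ioo (-T) T ∧ d (pt y t) = 0 ∧ deriv (fun s => d (pt y s)) t < 0} :=
      ⟨abs_lt.1 h2, (hz _).2 ht.1, by rw [h4]; exact neg_neg_of_pos (mul_pos hc h3)⟩
    rw [indicator_of_mem h5, indicator_of_mem (show t ∈ {t : ℝ | pt y t ∈ M.S} from ht.1), TIL1_g,
      indicator_of_mem ht, (h.fn.onS _ ⟨ht.1, h.box y hs t h2.le⟩).1, pr_neg, map_neg]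
    simp only [len, Surf.ellT, hz, pt_two, pr_pt, mul_neg, neg_neg]
  · have h5 : t ∉ {t | t ∈ Ioo (-T) T ∧ d (pt y t) = 0 ∧ deriv (fun s => d (pt y s)) t < 0} := by
      rintro ⟨h2, h3, h4⟩
      have h6 : |t| < T := abs_lt.2 h2
      obtain ⟨c, hc, h7⟩ := TIL1_deriv h.mem h.fn ((hz _).1 h3) (h.box y hs t h6.le)
      refine ht ⟨(hz _).1 h3, h6, ?_⟩
      rw [h7, neg_lt_zero] at h4
      show 0 < ⟪M.N (pt y t), e3⟫
      rw [inner_e3]
      exact (mul_pos_iff_of_pos_left hc).1 h4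
    rw [indicator_of_notMem h5, neg_zero]
    refine indicator_apply_eq_zero.2 fun _ => ?_
    exact indicator_of_notMem ht _

theorem TIL1_area (hA : S_AREAR) {M : Surf} {η : ℂ → ℝ} {T₀ T R δ₀ : ℝ} {d : E → ℝ} {ν : E → E}
    (h : T1Hyp M η T₀ T R d ν δ₀) :
    ∫ x in lay T ∩ M.top e3, M.ellT T x * fderiv ℝ η (pr x) (pr (M.N x)) * M.N x 2 ∂M.μ =
      ∫ y : ℂ, ∑ᶠ t ∈ {t : ℝ | pt y t ∈ M.S}, TIL1_g M η T (pt y t) := by
  have hT : 0 < T := h.pos.trans h.lt
  have hc := h.cη.continuous_fderiv one_ne_zero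
  obtain ⟨C, hC⟩ := hc.bounded_above_of_compact_support (h.supp.fderiv ℝ)
  have hm : Measurable (TIL1_g M η T) := by
    refine ((TIL1_meas h.mem T).mul ?_).indicator (M.measurableSet_S.inter (TIL1_mset M T))
    exact (by fun_prop : Continuous fun z : E × E => fderiv ℝ η (pr z.1) (pr z.2)).measurable.comp
      (measurable_id.prodMk M.N_meas)
  have hC0 : 0 ≤ C := (norm_nonneg _).trans (hC 0)
  rw [← (hA M h.mem (TIL1_g M η T) (R + 1) (2 * T * C) hm (fun x => ?_) fun x hx => ?_).2.2,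
    ← integral_indicator (TIL1_mset M T)]
  · refine integral_congr_ae (M.ae_mem.mono fun x hx => ?_)
    by_cases h1 : x ∈ lay T ∩ M.top e3
    · have h2 : 0 < M.N x 2 := by
        rw [← inner_e3]
        exact h1.2
      simp only [TIL1_g]
      rw [indicator_of_mem h1, indicator_of_mem (mem_inter hx h1), abs_of_pos h2]
    · simp only [TIL1_g]
      rw [indicator_of_notMem h1, indicator_of_notMem fun h2 => h1 h2.2, zero_mul]
  · by_cases h1 : x ∈ M.S ∩ (lay T ∩ M.top e3)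
    · rw [TIL1_g, indicator_of_mem h1, abs_mul]
      refine mul_le_mul (TIL1_ell_le M h1.2.1) ?_ (abs_nonneg _) (by positivity)
      refine ((fderiv ℝ η (pr x)).le_opNorm _).trans ?_
      have h2 : ‖pr (M.N x)‖ ≤ 1 := (norm_pr_le _).trans (M.N_unit x h1.1).le
      exact (mul_le_of_le_one_right (norm_nonneg _) h2).trans (hC _)
    · rw [TIL1_g, indicator_of_notMem h1, abs_zero]
      positivity
  · refine indicator_apply_eq_zero.2 fun h1 => ?_
    have h2 : pr x ∉ tsupport η := fun h3 => by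
      have h4 := h.box _ h3 (x 2) (le_of_lt h1.2.1)
      rw [pt_pr, mem_closedBall_zero_iff] at h4
      linarith
    rw [fderiv_of_notMem_tsupport ℝ h2]
    simp

theorem til1_of (hLINE2A : S_LINE2A) (hTILM : S_TILM) (hAREA0 : S_AREA0) (hAREAR : S_AREAR) : S_TIL1 := by
  intro M η T₀ T R d ν δ₀ h
  refine ⟨TIL1_meas h.mem T, ?_⟩
  have hT : 0 < T := h.pos.trans h.lt
  have hm := fun (δ : ℝ) (hδ : 0 < δ) =>
    hTILM d ν η T δ h.fn.cd h.fn.cν.continuous h.fn.le h.cη h.supp hT hδ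
  rw [TIL1_area hAREAR h]
  simp only [← integral_neg]
  refine tendsto_integral_filter_of_dominated_convergence (fun y => 2 * T * ‖fderiv ℝ η y‖)
    ?_ ?_ ?_ ((hAREA0 M).2.mono fun y hy => TIL1_lim hLINE2A h hy)
  · filter_upwards [self_mem_nhdsWithin] with δ hδ
    exact (hm δ hδ).2.2.2.2.1.neg.aestronglyMeasurable
  · filter_upwards [self_mem_nhdsWithin] with δ hδ
    refine Eventually.of_forall fun y => ?_
    rw [norm_neg]
    exact ((hm δ hδ).2.2.2.2.2.2.2.2.2.2 y).1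
  · exact ((h.cη.continuous_fderiv one_ne_zero).integrable_of_hasCompactSupport
      (h.supp.fderiv ℝ)).norm.const_mul _

end MW
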