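import Pool.Agent.P.MP_064970_gt.ST1

/-!
On a regular line over tsupport eta LINE2B applies with g = |Dd|; len = ell, t - len is the height
of the partner (Mem.chord_slab), and (1 - a.b)/|b3| = ed/|b3| + 2 a3 >= ed + 2 a3 (ed_eq). f(y) =
sum over top points of (edx + 2 N3) is integrable (AREAR). Fatou in the form: int eta min(f,
Py_delta) -> int eta f by dominated convergence.
-/

open scoped Manifold ContDiff
open MeasureTheory Set Filter Topology Metric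
open scoped RealInnerProductSpace ENNReal ComplexConjugate Real

noncomputable section

namespace MW

universe u

/-- Fatou's lemma for a one-parameter family. -/
theorem TIL2_fatou {F : ℂ → ℝ} {G : ℝ → ℂ → ℝ} (hF : Integrable F)
    (hG : ∀ δ, 0 < δ → Integrable (G δ)) (h0 : ∀ δ, 0 < δ → ∀ y, 0 ≤ G δ y)
    (h : ∀ᵐ y, ∀ ε, 0 < ε → ∀ᶠ δ in 𝓝[>] (0 : ℝ), F y - ε ≤ G δ y) {ε : ℝ} (hε : 0 < ε) :
    ∀ᶠ δ in 𝓝[>] (0 : ℝ), (∫ y, F y) - ε ≤ ∫ y, G δ y := by
  have hpos : ∀ᶠ δ in 𝓝[>] (0 : ℝ), 0 < δ := self_mem_nhdsWithin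
  have hlim : Tendsto (fun δ => ∫ y, min (F y) (G δ y)) (𝓝[>] (0 : ℝ)) (𝓝 (∫ y, F y)) := by
    refine tendsto_integral_filter_of_dominated_convergence (fun y => |F y|) ?_ ?_ hF.abs ?_
    · filter_upwards [hpos] with δ hδ
      exact (hF.inf (hG δ hδ)).aestronglyMeasurable
    · filter_upwards [hpos] with δ hδ
      refine Eventually.of_forall fun y => ?_
      rw [Real.norm_eq_abs, abs_le]
      exact ⟨le_min (neg_abs_le _) ((neg_nonpos.2 (abs_nonneg _)).trans (h0 δ hδ y)),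
        (min_le_left _ _).trans (le_abs_self _)⟩
    · filter_upwards [h] with y hy
      rw [Metric.tendsto_nhds]
      intro e he
      filter_upwards [hy (e / 2) (half_pos he)] with δ hδ
      rw [Real.dist_eq, abs_lt]
      have h1 := min_le_left (F y) (G δ y)
      have h2 : F y - e / 2 ≤ min (F y) (G δ y) := le_min (by linarith) hδ
      constructor <;> linarith
  filter_upwards [hpos, hlim.eventually (lt_mem_nhds (sub_lt_self _ hε))] with δ hδ h1
  exact h1.le.trans (integral_mono (hF.inf (hG δ hδ)) (hG δ hδ) fun y => min_le_right _ _)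

theorem TIL2_hasDerivAt (y : ℂ) (t : ℝ) : HasDerivAt (fun s : ℝ => pt y s) e3 t := by
  have e : (fun s : ℝ => pt y s) = fun s : ℝ => pt y 0 + s • e3 := by
    funext s
    rw [pt_add_smul_e3, zero_add]
  rw [e]
  simpa using ((hasDerivAt_id t).smul_const e3).const_add (pt y 0)

theorem TIL2_contDiff (y : ℂ) : ContDiff ℝ 1 fun s : ℝ => pt y s := by
  have e : (fun s : ℝ => pt y s) = fun s : ℝ => pt y 0 + s • e3 := by
    funext s
    rw [pt_add_smul_e3, zero_add]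
  rw [e]
  fun_prop

theorem TIL2_zero {M : Surf} (hM : M.Mem) {R δ₀ : ℝ} {d : E → ℝ} {ν : E → E}
    (h : DefFn M R d ν δ₀) (x : E) : d x = 0 ↔ x ∈ M.S := by
  constructor
  · intro h0
    rcases M.mem_cases (x := x) (hM.univ ▸ mem_univ x) with h1 | h1 | h1
    · exact absurd ((h.W x).2 h1) (by rw [h0]; exact lt_irrefl _)
    · exact absurd ((h.W' x).2 h1) (by rw [h0]; exact lt_irrefl _)
    · exact h1
  · intro hx
    rcases lt_trichotomy (d x) 0 with h1 | h1 | h1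
    · exact absurd hx (disjoint_left.1 M.disjS' ((h.W' x).1 h1))
    · exact h1
    · exact absurd hx (disjoint_left.1 M.disjS ((h.W x).1 h1))

theorem TIL2_alg {a b : E} (ha : ‖a‖ = 1) (hb : ‖b‖ = 1) (hb2 : b 2 < 0) :
    ed e3 a b + 2 * a 2 ≤ (1 - ⟪-a, -b⟫) / |(-b) 2| := by
  have h1 := ed_eq norm_e3 ha hb
  have h2 := ed_nonneg e3 a b
  have h3 : |b 2| ≤ 1 := hb ▸ abs_two_le b
  rw [inner_e3, inner_e3] at h1
  rw [inner_neg_neg, PiLp.neg_apply, abs_of_pos (neg_pos.2 hb2), le_div_iff₀ (neg_pos.2 hb2)]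
  have h4 := (abs_le.1 h3).1
  nlinarith [mul_nonneg h2 (by linarith : 0 ≤ 1 + b 2)]

section Line

variable {M : Surf} {η : ℂ → ℝ} {T₀ T R δ₀ : ℝ} {d : E → ℝ} {ν : E → E}

theorem TIL2_deriv (h : T1Hyp M η T₀ T R d ν δ₀) {y : ℂ} (hy : y ∈ tsupport η) {t : ℝ}
    (ht : |t| ≤ T) (hd : |d (pt y t)| ≤ δ₀) :
    deriv (fun s => d (pt y s)) t = ‖fderiv ℝ d (pt y t)‖ * ν (pt y t) 2 := by
  have h1 : HasFDerivAt d (fderiv ℝ d (pt y t)) (pt y t) :=
    (h.fn.cd.differentiable (by norm_num) _).hasFDerivAt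
  have h2 := (h1.comp_hasDerivAt t (TIL2_hasDerivAt y t)).deriv
  rw [← inner_e3, ← (h.fn.grad _ (h.box y hy t ht) hd).2.2 e3]
  exact h2

theorem TIL2_deriv_S (h : T1Hyp M η T₀ T R d ν δ₀) {y : ℂ} (hy : y ∈ tsupport η) {t : ℝ}
    (ht : |t| ≤ T) (hS : pt y t ∈ M.S) :
    ∃ c : ℝ, 0 < c ∧ deriv (fun s => d (pt y s)) t = -(c * M.N (pt y t) 2) := by
  have hd : |d (pt y t)| ≤ δ₀ := by
    rw [(TIL2_zero h.mem h.fn _).2 hS, abs_zero]
    exact h.fn.pos.le
  refine ⟨_, (h.fn.grad _ (h.box y hy t ht) hd).2.1, ?_⟩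
  rw [TIL2_deriv h hy ht hd, (h.fn.onS _ ⟨hS, h.box y hy t ht⟩).1, PiLp.neg_apply, mul_neg]

theorem TIL2_set (h : T1Hyp M η T₀ T R d ν δ₀) {y : ℂ} (hy : y ∈ tsupport η) (t : ℝ) :
    (t ∈ Ioo (-T) T ∧ d (pt y t) = 0 ∧ deriv (fun s => d (pt y s)) t < 0) ↔
      pt y t ∈ M.S ∩ (lay T ∩ M.top e3) := by
  have e1 : pt y t ∈ lay T ↔ t ∈ Ioo (-T) T := abs_lt (a := t) (b := T)
  have e2 : pt y t ∈ M.top e3 ↔ 0 < M.N (pt y t) 2 := by
    rw [← inner_e3]
    rfl
  rw [mem_inter_iff, mem_inter_iff, e1, e2, TIL2_zero h.mem h.fn]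
  constructor
  · rintro ⟨h1, h2, h3⟩
    obtain ⟨c, hc, h4⟩ := TIL2_deriv_S h hy (abs_lt.2 h1).le h2
    rw [h4, neg_lt_zero] at h3
    exact ⟨h2, h1, (mul_pos_iff_of_pos_left hc).1 h3⟩
  · rintro ⟨h2, h1, h3⟩
    obtain ⟨c, hc, h4⟩ := TIL2_deriv_S h hy (abs_lt.2 h1).le h2
    rw [h4, neg_lt_zero]
    exact ⟨h1, h2, mul_pos hc h3⟩

theorem TIL2_term (h : T1Hyp M η T₀ T R d ν δ₀) (hs : M.Slab (tsupport η) T₀ T) {y : ℂ}
    (hy : y ∈ tsupport η) (hreg : ∀ t : ℝ, pt y t ∈ M.S → M.N (pt y t) 2 ≠ 0) {t : ℝ}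
    (ht : pt y t ∈ M.S ∩ (lay T ∩ M.top e3)) :
    M.edx e3 (pt y t) + 2 * M.N (pt y t) 2 ≤
      (1 - ⟪ν (pt y t), ν (pt y (t - len (fun s => d (pt y s)) T t))⟫) /
        |ν (pt y (t - len (fun s => d (pt y s)) T t)) 2| := by
  obtain ⟨hS, hl, htop⟩ := ht
  have hl' : |t| < T := hl
  have htop' : 0 < M.N (pt y t) 2 := by
    rw [← inner_e3]
    exact htop
  obtain ⟨h1, -, h2, -, -, -, h3⟩ :=
    (h.mem.chord_slab h.pos h.lt hs hS (⟨hy, hl'⟩ : pt y t ∈ cyl (tsupport η) T)).2 htop'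
  have hp : M.partner e3 (pt y t) = pt y (t - M.ell e3 (pt y t)) := pt_sub_smul_e3 _ _ _
  have hpS := h.mem.partner_mem e3 hS
  have h4 : |t - M.ell e3 (pt y t)| < T := by
    have h5 := h2.2
    rw [hp, pt_two] at h5
    exact h5.trans h.lt
  have hlen : len (fun s => d (pt y s)) T t = M.ell e3 (pt y t) := by
    have h5 : IsGreatest (insert (-T) {s | s ∈ Ioo (-T) t ∧ d (pt y s) = 0})
        (t - M.ell e3 (pt y t)) := by
      refine ⟨Or.inr ⟨⟨(abs_lt.1 h4).1, sub_lt_self _ h1⟩, ?_⟩, ?_⟩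
      · rw [TIL2_zero h.mem h.fn, ← hp]
        exact hpS
      · rintro s (rfl | ⟨hs1, hs2⟩)
        · exact (abs_lt.1 h4).1.le
        · have h6 : M.ell e3 (pt y t) ≤ t - s := Surf.ell_le (sub_pos.2 hs1.2) (by
            rw [pt_sub_smul_e3, sub_sub_cancel]
            exact (TIL2_zero h.mem h.fn _).1 hs2)
          linarith
    rw [len, h5.csSup_eq, sub_sub_cancel]
  rw [hlen, (h.fn.onS _ ⟨hS, h.box y hy t hl'.le⟩).1,
    (h.fn.onS _ ⟨hp ▸ hpS, h.box y hy _ h4.le⟩).1, ← hp]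
  refine TIL2_alg (M.N_unit _ hS) (M.N_unit _ hpS) (lt_of_le_of_ne h3 ?_)
  rw [hp]
  exact hreg _ (hp ▸ hpS)

theorem TIL2_line (hLINE2B : S_LINE2B) (h : T1Hyp M η T₀ T R d ν δ₀)
    (hs : M.Slab (tsupport η) T₀ T) {y : ℂ}
    (hreg : ∀ t : ℝ, pt y t ∈ M.S → M.N (pt y t) 2 ≠ 0)
    (hfin : {t : ℝ | pt y t ∈ M.S ∧ |t| ≤ R + 1}.Finite) {ε : ℝ} (hε : 0 < ε) :
    ∀ᶠ δ in 𝓝[>] (0 : ℝ), (∑ᶠ t ∈ {t : ℝ | pt y t ∈ M.S}, (M.S ∩ (lay T ∩ M.top e3)).indicator
      (fun x => η (pr x) * (M.edx e3 x + 2 * M.N x 2)) (pt y t)) - ε ≤ η y * Py d ν T δ y := by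
  rcases (h.nonneg y).eq_or_lt with h0 | h0
  · refine Eventually.of_forall fun δ => ?_
    rw [finsum_mem_of_eqOn_zero fun t _ => by
      simp only [indicator, pr_pt, ← h0, zero_mul, ite_self, Pi.zero_apply], ← h0, zero_mul]
    linarith
  have hy : y ∈ tsupport η := subset_tsupport _ h0.ne'
  have hT : 0 < T := h.pos.trans h.lt
  have hc : Continuous fun s : ℝ => pt y s := (TIL2_contDiff y).continuous
  have h1 := hLINE2B (fun s => d (pt y s)) (fun s => ‖fderiv ℝ d (pt y s)‖) (fun s => ν (pt y s))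
    T δ₀ hT h.fn.pos ((h.fn.cd.of_le (by norm_num)).comp (TIL2_contDiff y))
    (((h.fn.cd.continuous_fderiv (by norm_num)).comp hc).norm) (h.fn.cν.continuous.comp hc)
    (fun _ => norm_nonneg _) (fun _ => h.fn.le _)
    ((h.fn.W' _).2 (hs y hy _ (by rw [abs_neg, abs_of_pos hT]; exact h.lt.le)
      (by rw [abs_neg, abs_of_pos hT])))
    ((h.fn.W' _).2 (hs y hy _ (by rw [abs_of_pos hT]; exact h.lt.le)
      (by rw [abs_of_pos hT]))).ne
    (fun t ht hd => by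
      have hS := (TIL2_zero h.mem h.fn _).1 hd
      obtain ⟨c, hc, h4⟩ := TIL2_deriv_S h hy (abs_le.2 ht) hS
      rw [h4]
      exact neg_ne_zero.2 (mul_ne_zero hc.ne' (hreg t hS)))
    (fun t ht hd => TIL2_deriv h hy (abs_le.2 ht) hd) (ε / η y) (div_pos hε h0)
  have eZ : {t | t ∈ Ioo (-T) T ∧ d (pt y t) = 0 ∧ deriv (fun s => d (pt y s)) t < 0} =
      {t | pt y t ∈ M.S ∩ (lay T ∩ M.top e3)} := Set.ext (TIL2_set h hy)
  have hZ : {t | pt y t ∈ M.S ∩ (lay T ∩ M.top e3)}.Finite := by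
    refine hfin.subset fun t ht => ⟨ht.1, ?_⟩
    have h2 := mem_closedBall_zero_iff.1 (h.box y hy t (le_of_lt ht.2.1))
    have h3 := abs_two_le (pt y t)
    rw [pt_two] at h3
    linarith
  have e1 : (∑ᶠ t ∈ {t : ℝ | pt y t ∈ M.S}, (M.S ∩ (lay T ∩ M.top e3)).indicator
      (fun x => η (pr x) * (M.edx e3 x + 2 * M.N x 2)) (pt y t)) =
      ∑ t ∈ hZ.toFinset, η y * (M.edx e3 (pt y t) + 2 * M.N (pt y t) 2) := by
    rw [← finsum_mem_eq_finite_toFinset_sum _ hZ, finsum_mem_def, finsum_mem_def]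
    refine finsum_congr fun t => ?_
    by_cases ht : pt y t ∈ M.S ∩ (lay T ∩ M.top e3)
    · rw [indicator_of_mem (show t ∈ {t : ℝ | pt y t ∈ M.S} from ht.1), indicator_of_mem ht,
        indicator_of_mem (show t ∈ {t | pt y t ∈ M.S ∩ (lay T ∩ M.top e3)} from ht), pr_pt]
    · rw [indicator_of_notMem (show t ∉ {t | pt y t ∈ M.S ∩ (lay T ∩ M.top e3)} from ht)]
      exact indicator_apply_eq_zero.2 fun _ => indicator_of_notMem ht _
  rw [eZ, finsum_mem_eq_finite_toFinset_sum _ hZ] at h1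
  rw [e1]
  refine h1.mono fun δ hδ => ?_
  have h2 := mul_le_mul_of_nonneg_left hδ h0.le
  rw [mul_sub, mul_div_cancel₀ _ h0.ne'] at h2
  refine le_trans (sub_le_sub_right ?_ _) h2
  rw [Finset.mul_sum]
  exact Finset.sum_le_sum fun t ht => mul_le_mul_of_nonneg_left
    (TIL2_term h hs hy hreg (hZ.mem_toFinset.1 ht)) h0.le

end Line

theorem til2_of (hLINE2B : S_LINE2B) (hTILM : S_TILM) (hAREA0 : S_AREA0) (hAREAR : S_AREAR) : S_TIL2 := by
  intro M η T₀ T R d ν δ₀ h hs ε hε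
  have hT : 0 < T := h.pos.trans h.lt
  obtain ⟨C, hC⟩ := h.cη.continuous.bounded_above_of_compact_support h.supp
  have hA : MeasurableSet (lay T ∩ M.top e3) := (measurableSet_lay T).inter (M.measurableSet_top e3)
  have hN : Measurable fun x => M.N x 2 := (measurable_pi_apply 2).comp
    ((WithLp.measurable_ofLp 2 _).comp M.N_meas)
  obtain ⟨h1, h2, h3⟩ := hAREAR M h.mem ((M.S ∩ (lay T ∩ M.top e3)).indicator
    fun x => η (pr x) * (M.edx e3 x + 2 * M.N x 2)) (R + 1) (C * 4)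
    (((h.cη.continuous.measurable.comp measurable_pr).mul
      ((h.mem.measurable_edx e3).add (hN.const_mul 2))).indicator (M.measurableSet_S.inter hA))
    (fun x => by
      have hC0 : 0 ≤ C := (norm_nonneg _).trans (hC 0)
      by_cases hx : x ∈ M.S ∩ (lay T ∩ M.top e3)
      · rw [indicator_of_mem hx, abs_mul]
        refine mul_le_mul (hC _) ?_ (abs_nonneg _) hC0
        have h4 := h.mem.edx_le_two norm_e3 hx.1
        have h5 := M.edx_nonneg e3 x
        have h6 := abs_le.1 (M.N_unit x hx.1 ▸ abs_two_le (M.N x))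
        rw [abs_le]
        constructor <;> linarith [h6.1, h6.2]
      · rw [indicator_of_notMem hx, abs_zero]
        positivity)
    (fun x hx => indicator_apply_eq_zero.2 fun hx' => by
      by_contra h4
      have h5 := h.box (pr x) (subset_tsupport _ (left_ne_zero_of_mul h4)) (x 2)
        (le_of_lt hx'.2.1)
      rw [pt_pr, mem_closedBall_zero_iff] at h5
      linarith)
  have e : ∫ x in lay T ∩ M.top e3, η (pr x) * (M.edx e3 x + 2 * M.N x 2) * M.N x 2 ∂M.μ =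
      ∫ x, (M.S ∩ (lay T ∩ M.top e3)).indicator
        (fun x => η (pr x) * (M.edx e3 x + 2 * M.N x 2)) x * |M.N x 2| ∂M.μ := by
    rw [← integral_indicator hA]
    refine integral_congr_ae ?_
    filter_upwards [M.ae_mem] with x hx
    by_cases hx' : x ∈ lay T ∩ M.top e3
    · have h4 : 0 < M.N x 2 := by
        rw [← inner_e3]
        exact hx'.2
      rw [indicator_of_mem hx', indicator_of_mem (mem_inter hx hx'), abs_of_pos h4]
    · rw [indicator_of_notMem hx', indicator_of_notMem fun h4 => hx' h4.2, zero_mul]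
  rw [e, h3]
  have hM := fun δ hδ => hTILM d ν η T δ h.fn.cd h.fn.cν.continuous h.fn.le h.cη h.supp hT hδ
  refine TIL2_fatou (G := fun δ y => η y * Py d ν T δ y) h2
    (fun δ hδ => (hM δ hδ).2.2.2.2.2.2.2.2.1)
    (fun δ hδ y => mul_nonneg (h.nonneg y) ((hM δ hδ).2.2.2.2.2.2.2.2.2.2 y).2.1) ?_ hε
  filter_upwards [(hAREA0 M).2, h1] with y hreg hfin e he
  exact TIL2_line hLINE2B h hs hreg hfin he

end MW
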