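import Pool.Agent.P.MP_064970_gt.ST1

/-!
Real.smoothTransition is smooth and monotone. Joint continuity of (y,s,t) -> Pk, (y,t) -> Lk
(continuity of parametric interval integrals), the set {(y,t) : t in Wy} is open;
StronglyMeasurable.integral_prod_right for indicators. Bounds from LINE1; Py is bounded on compact
sets for fixed delta (kp <= C, L <= 2T, inner integral <= 2).
-/

open scoped Manifold ContDiff
open MeasureTheory Set Filter Topology Metric
open scoped RealInnerProductSpace ENNReal ComplexConjugate Real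

noncomputable section

namespace MW

universe u

theorem TILM_kk_cd {n : ℕ∞} : ContDiff ℝ n kk :=
  contDiff_const.sub (Real.smoothTransition.contDiff.comp
    ((contDiff_const.mul contDiff_id).sub contDiff_const))

theorem TILM_kk_nonneg (s : ℝ) : 0 ≤ kk s := sub_nonneg.2 (Real.smoothTransition.le_one _)

theorem TILM_kk_le (s : ℝ) : kk s ≤ 1 := sub_le_self _ (Real.smoothTransition.nonneg _)

theorem TILM_kk_one {s : ℝ} (hs : s ≤ 1 / 2) : kk s = 1 := by
  rw [kk, Real.smoothTransition.zero_of_nonpos (by linarith), sub_zero]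

theorem TILM_kk_zero {s : ℝ} (hs : 1 ≤ s) : kk s = 0 := by
  rw [kk, Real.smoothTransition.one_of_one_le (by linarith), sub_self]

theorem TILM_kk_anti : Antitone kk := fun a b h =>
  sub_le_sub_left (Real.smoothTransition.monotone (by linarith)) 1

theorem TILM_dkk_one {s : ℝ} (hs : s ≤ 1 / 2) : deriv kk s = 0 :=
  IsLocalMax.deriv_eq_zero (Eventually.of_forall fun t => (TILM_kk_one hs).symm ▸ TILM_kk_le t)

theorem TILM_dkk_zero {s : ℝ} (hs : 1 ≤ s) : deriv kk s = 0 :=
  IsLocalMin.deriv_eq_zero (Eventually.of_forall fun t => (TILM_kk_zero hs).symm ▸ TILM_kk_nonneg t)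

theorem TILM_K1_cd (δ : ℝ) : ContDiff ℝ 2 fun s => K1 s δ :=
  contDiff_const.mul ((TILM_kk_cd (n := 2)).comp (contDiff_id.div_const δ))

theorem TILM_K2_cont (δ : ℝ) : Continuous fun s => K2 s δ :=
  (continuous_const.mul (((TILM_kk_cd (n := 1)).continuous_deriv le_rfl).comp
    (continuous_id.div_const δ))).neg

theorem TILM_K1_deriv (δ s : ℝ) : HasDerivAt (fun s => K1 s δ) (-K2 s δ) s := by
  have h1 : HasDerivAt kk (deriv kk (s / δ)) (s / δ) :=
    (((TILM_kk_cd (n := 1)).differentiable one_ne_zero) _).hasDerivAt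
  have h2 := (h1.comp s ((hasDerivAt_id s).div_const δ)).const_mul (δ⁻¹ ^ 2)
  have e : -K2 s δ = δ⁻¹ ^ 2 * (deriv kk (s / δ) * (1 / δ)) := by
    simp only [K2, neg_neg, one_div]
    ring
  rw [e]
  exact h2

theorem TILM_K {δ : ℝ} (hδ : 0 < δ) (s : ℝ) :
    0 ≤ K1 s δ ∧ 0 ≤ K2 s δ ∧ (s ≤ δ / 2 → K1 s δ = δ⁻¹ ^ 2 ∧ K2 s δ = 0) ∧
      (δ ≤ s → K1 s δ = 0 ∧ K2 s δ = 0) := by
  refine ⟨mul_nonneg (by positivity) (TILM_kk_nonneg _), ?_, fun h => ?_, fun h => ?_⟩
  · exact neg_nonneg.2 (mul_nonpos_of_nonneg_of_nonpos (by positivity) TILM_kk_anti.deriv_nonpos)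
  · have h' : s / δ ≤ 1 / 2 := by rw [div_le_iff₀ hδ]; linarith
    simp [K1, K2, TILM_kk_one h', TILM_dkk_one h']
  · have h' : 1 ≤ s / δ := by rw [le_div_iff₀ hδ]; linarith
    simp [K1, K2, TILM_kk_zero h', TILM_dkk_zero h']

theorem TILM_c2 {X Y Z : Type*} [TopologicalSpace X] [TopologicalSpace Y] [TopologicalSpace Z]
    {k : X → ℝ → Z} (hk : Continuous fun q : X × ℝ => k q.1 q.2) {a : Y → X} {b : Y → ℝ}
    (ha : Continuous a) (hb : Continuous b) : Continuous fun y => k (a y) (b y) :=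
  hk.comp (ha.prodMk hb)

/-- Joint continuity of the survival factor. -/
theorem TILM_Pk_cont {X Y : Type*} [TopologicalSpace X] [TopologicalSpace Y] {k : X → ℝ → ℝ}
    (hk : Continuous fun q : X × ℝ => k q.1 q.2) {a : Y → X} {s t : Y → ℝ} (ha : Continuous a)
    (hs : Continuous s) (ht : Continuous t) : Continuous fun x => Pk (k (a x)) (s x) (t x) := by
  have e : (fun x => Pk (k (a x)) (s x) (t x)) = fun x =>
      Real.exp (-((∫ σ in (0 : ℝ)..t x, k (a x) σ) - ∫ σ in (0 : ℝ)..s x, k (a x) σ)) := by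
    funext x
    have hc : Continuous (k (a x)) := TILM_c2 hk continuous_const continuous_id
    rw [Pk, intervalIntegral.integral_interval_sub_left (hc.intervalIntegrable _ _)
      (hc.intervalIntegrable _ _)]
  have hk' : Continuous (Function.uncurry fun x σ => k (a x) σ) :=
    TILM_c2 hk (ha.comp continuous_fst) continuous_snd
  rw [e]
  exact Real.continuous_exp.comp
    ((intervalIntegral.continuous_parametric_intervalIntegral_of_continuous hk' ht).sub
      (intervalIntegral.continuous_parametric_intervalIntegral_of_continuous hk' hs)).neg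

/-- Joint continuity of the regularised length. -/
theorem TILM_Lk_cont {X : Type*} [TopologicalSpace X] {k : X → ℝ → ℝ}
    (hk : Continuous fun q : X × ℝ => k q.1 q.2) (T : ℝ) :
    Continuous fun q : X × ℝ => Lk (k q.1) T q.2 := by
  refine intervalIntegral.continuous_parametric_intervalIntegral_of_continuous
    (f := fun (q : X × ℝ) s => Pk (k q.1) s q.2) ?_ continuous_snd
  exact TILM_Pk_cont (Y := (X × ℝ) × ℝ) hk (continuous_fst.comp continuous_fst) continuous_snd
    (continuous_snd.comp continuous_fst)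

/-- Integrals over the sections of a measurable set. -/
theorem TILM_meas {X : Type*} [MeasurableSpace X] {S : X → Set ℝ}
    (hS : MeasurableSet {q : X × ℝ | q.2 ∈ S q.1}) {F : X → ℝ → ℝ}
    (hF : Measurable fun q : X × ℝ => F q.1 q.2) : Measurable fun x => ∫ t in S x, F x t := by
  have h := ((hF.indicator hS).stronglyMeasurable.integral_prod_right' (ν := volume)).measurable
  convert h using 2 with x
  have hx : MeasurableSet (S x) := measurable_prodMk_left hS
  rw [← integral_indicator hx]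
  rfl

theorem TILM_bd {S : Set ℝ} {T C : ℝ} (hT : 0 < T) (hC : 0 ≤ C) (hS : S ⊆ Ioo (-T) T) {f : ℝ → ℝ}
    (hf : ∀ t ∈ S, ‖f t‖ ≤ C) : ‖∫ t in S, f t‖ ≤ C * (2 * T) := by
  refine (norm_setIntegral_le_of_norm_le_const
    ((measure_mono hS).trans_lt measure_Ioo_lt_top) hf).trans (mul_le_mul_of_nonneg_left ?_ hC)
  refine (measureReal_mono hS measure_Ioo_lt_top.ne).trans ?_
  rw [Real.volume_real_Ioo_of_le (by linarith)]
  linarith

section abstract
variable {k kp : ℂ → ℝ → ℝ} {n : ℂ → ℝ → E} {W : ℂ → Set ℝ} {T : ℝ}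

theorem TILM_cI (ck : Continuous fun q : ℂ × ℝ => k q.1 q.2)
    (cn : Continuous fun q : ℂ × ℝ => n q.1 q.2) : Continuous fun q : (ℂ × ℝ) × ℝ =>
      k q.1.1 q.2 * Pk (k q.1.1) q.1.2 q.2 * (1 - ⟪n q.1.1 q.1.2, n q.1.1 q.2⟫) :=
  ((TILM_c2 ck (continuous_fst.comp continuous_fst) continuous_snd).mul
    (TILM_Pk_cont ck (continuous_fst.comp continuous_fst) (continuous_snd.comp continuous_fst)
      continuous_snd)).mul (continuous_const.sub ((cn.comp continuous_fst).inner
        (TILM_c2 cn (continuous_fst.comp continuous_fst) continuous_snd)))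

theorem TILM_mP (ck : Continuous fun q : ℂ × ℝ => k q.1 q.2)
    (ckp : Continuous fun q : ℂ × ℝ => kp q.1 q.2) (cn : Continuous fun q : ℂ × ℝ => n q.1 q.2)
    (oW : IsOpen {q : ℂ × ℝ | q.2 ∈ W q.1}) :
    Measurable fun y => PosK (k y) (kp y) (n y) (W y) T := by
  have mG : Measurable fun q : ℂ × ℝ => ∫ t in W q.1 ∩ Ioi q.2,
      k q.1 t * Pk (k q.1) q.2 t * (1 - ⟪n q.1 q.2, n q.1 t⟫) :=
    TILM_meas (S := fun q : ℂ × ℝ => W q.1 ∩ Ioi q.2)
      ((oW.preimage ((continuous_fst.comp continuous_fst).prodMk continuous_snd)).inter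
        (isOpen_lt (continuous_snd.comp continuous_fst) continuous_snd)).measurableSet
      (TILM_cI ck cn).measurable
  exact TILM_meas (S := fun _ : ℂ => Ioo (-T) T) (isOpen_Ioo.preimage continuous_snd).measurableSet
    ((ckp.mul (TILM_Lk_cont ck T)).measurable.mul mG)

theorem TILM_bP (ck : Continuous fun q : ℂ × ℝ => k q.1 q.2)
    (ckp : Continuous fun q : ℂ × ℝ => kp q.1 q.2) (cn : Continuous fun q : ℂ × ℝ => n q.1 q.2)
    (hT : 0 < T) (sW : ∀ y, W y ⊆ Ioo (-T) T) {Z : Set ℂ} (hZ : IsCompact Z) :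
    ∃ C, ∀ y ∈ Z, ‖PosK (k y) (kp y) (n y) (W y) T‖ ≤ C := by
  have hb : IsCompact (Z ×ˢ Icc (-T) T) := hZ.prod isCompact_Icc
  obtain ⟨C₁, hC₁⟩ := hb.exists_bound_of_continuousOn
    (f := fun q : ℂ × ℝ => kp q.1 q.2 * Lk (k q.1) T q.2) (ckp.mul (TILM_Lk_cont ck T)).continuousOn
  obtain ⟨C₂, hC₂⟩ := (hb.prod (isCompact_Icc (a := -T) (b := T))).exists_bound_of_continuousOn
    (TILM_cI ck cn).continuousOn
  refine ⟨|C₁| * (|C₂| * (2 * T)) * (2 * T), fun y hy => ?_⟩
  rw [PosK]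
  refine TILM_bd hT (by positivity) subset_rfl fun σ hσ => ?_
  have h1 := (hC₁ (y, σ) ⟨hy, Ioo_subset_Icc_self hσ⟩).trans (le_abs_self _)
  have h2 := TILM_bd (S := W y ∩ Ioi σ) hT (abs_nonneg C₂)
    (inter_subset_left.trans (sW y)) fun t ht =>
    (hC₂ ((y, σ), t) ⟨⟨hy, Ioo_subset_Icc_self hσ⟩, Ioo_subset_Icc_self (sW y ht.1)⟩).trans
      (le_abs_self _)
  rw [norm_mul]
  exact mul_le_mul h1 h2 (norm_nonneg _) (abs_nonneg _)

theorem TILM_mA {φ : ℂ → ℝ → ℝ} (ck : Continuous fun q : ℂ × ℝ => k q.1 q.2)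
    (cφ : Continuous fun q : ℂ × ℝ => φ q.1 q.2) (oW : IsOpen {q : ℂ × ℝ | q.2 ∈ W q.1}) :
    Measurable fun y => ∫ t in W y, k y t * Lk (k y) T t * φ y t :=
  TILM_meas oW.measurableSet ((ck.mul (TILM_Lk_cont ck T)).mul cφ).measurable

theorem TILM_mR (ck : Continuous fun q : ℂ × ℝ => k q.1 q.2)
    (oW : IsOpen {q : ℂ × ℝ | q.2 ∈ W q.1}) :
    Measurable fun y => ∫ t in W y, k y t * Pk (k y) (-T) t :=
  TILM_meas oW.measurableSet
    (ck.mul (TILM_Pk_cont ck continuous_fst continuous_const continuous_snd)).measurable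

theorem TILM_bA {K φ : ℝ → ℝ} {S : Set ℝ} {C : ℝ} (cK : Continuous K) (hS : MeasurableSet S)
    (sS : S ⊆ Ioo (-T) T) (h0 : ∀ t ∈ S, 0 ≤ K t * Lk K T t) (hφ : ∀ t, ‖φ t‖ ≤ C)
    (hb : ∫ t in S, K t * Lk K T t ≤ 2 * T) : |∫ t in S, K t * Lk K T t * φ t| ≤ 2 * T * C := by
  have cL : Continuous fun t => Lk K T t :=
    TILM_c2 (k := fun (_ : Unit) t => Lk K T t)
      (TILM_Lk_cont (k := fun (_ : Unit) t => K t) (cK.comp continuous_snd) T)
      (continuous_const (y := ())) continuous_id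
  have hi : IntegrableOn (fun t => K t * Lk K T t) S :=
    ((cK.mul cL).integrableOn_Icc (a := -T) (b := T)).mono_set (sS.trans Ioo_subset_Icc_self)
  rw [← Real.norm_eq_abs]
  refine (norm_integral_le_of_norm_le (hi.mul_const C) ?_).trans ?_
  · filter_upwards [ae_restrict_mem hS] with t ht
    rw [norm_mul, Real.norm_of_nonneg (h0 t ht)]
    exact mul_le_mul_of_nonneg_left (hφ t) (h0 t ht)
  · rw [integral_mul_const]
    exact mul_le_mul_of_nonneg_right hb ((norm_nonneg _).trans (hφ 0))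

end abstract

theorem tilm_of (hLINE1 : S_LINE1) : S_TILM := by
  intro d ν η T δ hd hν hν1 hη hηc hT hδ
  have cK1 : ContDiff ℝ 2 fun x => K1 (d x) δ := (TILM_K1_cd δ).comp hd
  have cK2 : Continuous fun x => K2 (d x) δ := (TILM_K2_cont δ).comp hd.continuous
  have cD : Continuous (fderiv ℝ d) := hd.continuous_fderiv (by norm_num)
  have cη : Continuous (fderiv ℝ η) := hη.continuous_fderiv one_ne_zero
  have ck : Continuous fun q : ℂ × ℝ => K1 (d (pt q.1 q.2)) δ :=
    cK1.continuous.comp continuous_pt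
  have ckp : Continuous fun q : ℂ × ℝ => K2 (d (pt q.1 q.2)) δ * ‖fderiv ℝ d (pt q.1 q.2)‖ :=
    (cK2.comp continuous_pt).mul (cD.comp continuous_pt).norm
  have cn : Continuous fun q : ℂ × ℝ => ν (pt q.1 q.2) := hν.comp continuous_pt
  have oW : IsOpen {q : ℂ × ℝ | q.2 ∈ Wy d T q.1} :=
    (isOpen_Ioo.preimage continuous_snd).inter
      (isOpen_lt continuous_const (hd.continuous.comp continuous_pt))
  have mW : ∀ y, MeasurableSet (Wy d T y) := fun y => measurable_prodMk_left oW.measurableSet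
  have sW : ∀ y, Wy d T y ⊆ Ioo (-T) T := fun y t ht => ht.1
  have mA : Measurable (Ay d ν η T δ) :=
    TILM_mA (k := fun y σ => K1 (d (pt y σ)) δ) (φ := fun y t => fderiv ℝ η y (pr (ν (pt y t))))
      ck ((cη.comp continuous_fst).clm_apply (continuous_pr.comp cn)) oW
  have mR : Measurable (Ry d T δ) := TILM_mR (k := fun y σ => K1 (d (pt y σ)) δ) ck oW
  have mP : Measurable (Py d ν T δ) :=
    TILM_mP (k := fun y σ => K1 (d (pt y σ)) δ)
      (kp := fun y σ => K2 (d (pt y σ)) δ * ‖fderiv ℝ d (pt y σ)‖) (n := fun y σ => ν (pt y σ))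
      ck ckp cn oW
  have cy : ∀ y, Continuous fun σ => K1 (d (pt y σ)) δ := fun y =>
    TILM_c2 (k := fun y σ => K1 (d (pt y σ)) δ) ck continuous_const continuous_id
  have line := fun y => hLINE1 (fun σ => K1 (d (pt y σ)) δ)
    (fun σ => K2 (d (pt y σ)) δ * ‖fderiv ℝ d (pt y σ)‖) (fun σ => ν (pt y σ)) (Wy d T y) T hT
    (cy y) (TILM_c2 (k := fun y σ => K2 (d (pt y σ)) δ * ‖fderiv ℝ d (pt y σ)‖) ckp
      continuous_const continuous_id)
    (TILM_c2 (k := fun y σ => ν (pt y σ)) cn continuous_const continuous_id)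
    (fun t => (TILM_K hδ _).1)
    (fun t => mul_nonneg (TILM_K hδ _).2.1 (norm_nonneg _)) (fun t => hν1 _) (mW y) (sW y)
    (fun t ht hne => ⟨ht, by
      by_contra hle
      exact hne (by rw [((TILM_K hδ _).2.2.1 (by linarith [not_lt.1 hle])).2, zero_mul])⟩)
  have bA : ∀ y, |Ay d ν η T δ y| ≤ 2 * T * ‖fderiv ℝ η y‖ := fun y =>
    TILM_bA (cy y) (mW y) (sW y)
      (fun t ht => mul_nonneg (TILM_K hδ _).1 ((line y).2.2.2.2.1 t ht.1.1.le))
      (fun t => ((fderiv ℝ η y).le_opNorm _).trans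
        (mul_le_of_le_one_right (norm_nonneg _) ((norm_pr_le _).trans (hν1 _))))
      (line y).2.2.2.1
  have bR0 : ∀ y, 0 ≤ Ry d T δ y := fun y =>
    integral_nonneg fun t => mul_nonneg (TILM_K hδ _).1 (Real.exp_pos _).le
  have bR1 : ∀ y, Ry d T δ y ≤ 1 := fun y => (line y).2.2.1
  have iη : Integrable η := hη.continuous.integrable_of_hasCompactSupport hηc
  refine ⟨cK1, cK2, TILM_K hδ, fun x v => ?_, mA, mP, mR, ?_, ?_, ?_,
    fun y => ⟨bA y, (line y).2.1, bR0 y, bR1 y⟩⟩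
  · have h1 := (TILM_K1_deriv δ (d x)).comp_hasFDerivAt x
      ((hd.differentiable (by norm_num)) x).hasFDerivAt
    have h2 : fderiv ℝ (fun x => K1 (d x) δ) x = (-K2 (d x) δ) • fderiv ℝ d x := h1.fderiv
    rw [h2]
    simp
  · exact ((cη.norm.integrable_of_hasCompactSupport (hηc.fderiv ℝ).norm).const_mul (2 * T)).mono'
      mA.aestronglyMeasurable (Eventually.of_forall bA)
  · obtain ⟨C, hC⟩ := TILM_bP (k := fun y σ => K1 (d (pt y σ)) δ)
      (kp := fun y σ => K2 (d (pt y σ)) δ * ‖fderiv ℝ d (pt y σ)‖) (n := fun y σ => ν (pt y σ))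
      ck ckp cn hT sW hηc.isCompact
    refine (iη.norm.mul_const C).mono'
      (hη.continuous.measurable.mul mP).aestronglyMeasurable (Eventually.of_forall fun y => ?_)
    by_cases hy : y ∈ tsupport η
    · rw [norm_mul]
      exact mul_le_mul_of_nonneg_left (hC y hy) (norm_nonneg _)
    · simp [image_eq_zero_of_notMem_tsupport hy]
  · refine iη.norm.mono' (hη.continuous.measurable.mul mR).aestronglyMeasurable
      (Eventually.of_forall fun y => ?_)
    rw [norm_mul, Real.norm_of_nonneg (bR0 y)]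
    exact mul_le_of_le_one_right (norm_nonneg _) (bR1 y)

end MW
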