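import Pool.Agent.P.MP_064970_gt.T.DEF0
import Pool.Agent.P.MP_064970_gt.T.DEFF
import Pool.Agent.P.MP_064970_gt.T.LDER
import Pool.Agent.P.MP_064970_gt.T.LINE1
import Pool.Agent.P.MP_064970_gt.T.LINE2A
import Pool.Agent.P.MP_064970_gt.T.LINE2B
import Pool.Agent.P.MP_064970_gt.T.TILM
import Pool.Agent.P.MP_064970_gt.T.TIL0
import Pool.Agent.P.MP_064970_gt.T.TIL1
import Pool.Agent.P.MP_064970_gt.T.TIL2
import Pool.Agent.P.MP_064970_gt.T.TIL
import Pool.Agent.P.MP_064970_gt.T.PI
import Pool.Agent.P.MP_064970_gt.T.BIJ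
import Pool.Agent.P.MP_064970_gt.T.CI
import Pool.Agent.P.MP_064970_gt.T.CAC
import Pool.Agent.P.MP_064970_gt.T.CACO
import Pool.Agent.P.MP_064970_gt.T.ELB
import Pool.Agent.P.MP_064970_gt.T.EDZ
import Pool.Agent.P.MP_064970_gt.T.STRICT
import Pool.Agent.P.MP_064970_gt.T.MIRR
import Pool.Agent.P.MP_064970_gt.T.SYM
import Pool.Agent.P.MP_064970_gt.I.All

/-! Section 3 of the paper: all statements proved. -/

namespace MW

theorem t_def0 : S_DEF0 := def0_of i_lg
theorem t_deff : S_DEFF := deff_of t_def0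
theorem t_lder : S_LDER := lder_of
theorem t_line1 : S_LINE1 := line1_of
theorem t_line2a : S_LINE2A := line2a_of
theorem t_line2b : S_LINE2B := line2b_of
theorem t_tilm : S_TILM := tilm_of t_line1
theorem t_til0 : S_TIL0 := til0_of i_gg t_lder t_line1 t_tilm
theorem t_til1 : S_TIL1 := til1_of t_line2a t_tilm i_area0 i_arear
theorem t_til2 : S_TIL2 := til2_of t_line2b t_tilm i_area0 i_arear
theorem t_til : S_TIL := til_of t_deff t_tilm t_line1 t_til0 t_til1 t_til2
theorem t_pi : S_PI := pi_of t_deff t_tilm t_til0 t_til1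
theorem t_bij : S_BIJ := bij_of i_area0 i_arear
theorem t_ci : S_CI := ci_of t_til t_bij i_fv
theorem t_cac : S_CAC := cac_of t_ci
theorem t_caco : S_CACO := caco_of t_cac i_area0
theorem t_elb : S_ELB := elb_of t_bij
theorem t_edz : S_EDZ := edz_of i_persist i_conv i_low
theorem t_strict : S_STRICT := strict_of
theorem t_mirr : S_MIRR := mirr_of i_lg i_uc i_side
theorem t_sym : S_SYM := sym_of t_mirr t_strict i_flat1 i_flat2 i_area0 i_lg

end MW
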