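import Pool.Agent.P.MP_064970_gt.ST

/-!
On a regular line (AREA0) with finitely many points (AREAR) x -> partner e3 x is a bijection from
the top points to the bottom points in cyl K T, with inverse partner (-e3): Mem.chord for e3 and for
-e3, Mem.chord_slab. AREAR for g = indicator (S cap cyl cap top (-e3)) H and g = indicator (S cap
cyl cap top e3) (H o partner); finsum_mem_eq_of_bijOn. The a.e. clause: the set of x in S with N 2 >
0 over a null set of y is mu-null by AREA0.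
-/

open scoped Manifold ContDiff
open MeasureTheory Set Filter Topology Metric
open scoped RealInnerProductSpace ENNReal ComplexConjugate Real

noncomputable section

namespace MW

universe u

theorem BIJ_top_iff (M : Surf) (x : E) : x ∈ M.top e3 ↔ 0 < M.N x 2 := by
  rw [Surf.top, mem_ofPred_eq, inner_e3]

theorem BIJ_bot_iff (M : Surf) (x : E) : x ∈ M.top (-e3) ↔ M.N x 2 < 0 := by
  rw [Surf.top, mem_ofPred_eq, inner_neg_right, inner_e3, neg_pos]

theorem BIJ_partner_top (M : Surf) (y : ℂ) (t : ℝ) :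
    M.partner e3 (pt y t) = pt y (t - M.ell e3 (pt y t)) := by
  rw [Surf.partner, pt_sub_smul_e3]

theorem BIJ_partner_bot (M : Surf) (y : ℂ) (t : ℝ) :
    M.partner (-e3) (pt y t) = pt y (t + M.ell (-e3) (pt y t)) := by
  rw [Surf.partner, smul_neg, sub_neg_eq_add, pt_add_smul_e3]

theorem BIJ_mem_cyl (K : Set ℂ) (T : ℝ) (y : ℂ) (t : ℝ) : pt y t ∈ cyl K T ↔ y ∈ K ∧ |t| < T := by
  simp [cyl]

section

variable {M : Surf} {K : Set ℂ} {T₀ T : ℝ}

/-- The chord below a top point. -/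
theorem BIJ_down (hM : M.Mem) (h0 : 0 < T₀) (hT : T₀ < T) (hs : M.Slab K T₀ T) {y : ℂ} {t : ℝ}
    (hx : pt y t ∈ M.S) (hc : pt y t ∈ cyl K T) (hn : pt y t ∈ M.top e3) :
    M.partner e3 (pt y t) ∈ M.S ∧ M.partner e3 (pt y t) ∈ cyl K T ∧
      M.N (M.partner e3 (pt y t)) 2 ≤ 0 ∧ M.partner (-e3) (M.partner e3 (pt y t)) = pt y t := by
  obtain ⟨hy, ht⟩ := (BIJ_mem_cyl K T y t).1 hc
  obtain ⟨h1, h2⟩ := abs_lt.1 ht
  have hW : pt y t - (t + T) • e3 ∈ M.W' := by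
    rw [pt_sub_smul_e3]
    have h3 : |t - (t + T)| = T := by
      rw [sub_add_cancel_left, abs_neg, abs_of_pos (h0.trans hT)]
    exact hs y hy _ (by rw [h3]; exact hT.le) h3.le
  obtain ⟨h3, h4, -, h5, -, h6⟩ := hM.chord hx hn (by linarith) hW
  refine ⟨hM.partner_mem e3 hx, ?_, by rwa [inner_e3] at h5, h6⟩
  rw [BIJ_partner_top, BIJ_mem_cyl]
  exact ⟨hy, abs_lt.2 ⟨by linarith, by linarith⟩⟩

/-- The chord above a bottom point. -/
theorem BIJ_up (hM : M.Mem) (h0 : 0 < T₀) (hT : T₀ < T) (hs : M.Slab K T₀ T) {y : ℂ} {t : ℝ}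
    (hx : pt y t ∈ M.S) (hc : pt y t ∈ cyl K T) (hn : pt y t ∈ M.top (-e3)) :
    M.partner (-e3) (pt y t) ∈ M.S ∧ M.partner (-e3) (pt y t) ∈ cyl K T ∧
      0 ≤ M.N (M.partner (-e3) (pt y t)) 2 ∧
        M.partner e3 (M.partner (-e3) (pt y t)) = pt y t := by
  obtain ⟨hy, ht⟩ := (BIJ_mem_cyl K T y t).1 hc
  obtain ⟨h1, h2⟩ := abs_lt.1 ht
  have hW : pt y t - (T - t) • (-e3) ∈ M.W' := by
    rw [smul_neg, sub_neg_eq_add, pt_add_smul_e3]
    have h3 : |t + (T - t)| = T := by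
      rw [add_sub_cancel, abs_of_pos (h0.trans hT)]
    exact hs y hy _ (by rw [h3]; exact hT.le) h3.le
  obtain ⟨h3, h4, -, h5, -, h6⟩ := hM.chord hx hn (by linarith) hW
  rw [neg_neg] at h6
  refine ⟨hM.partner_mem _ hx, ?_, by rwa [inner_neg_right, inner_e3, neg_nonpos] at h5, h6⟩
  rw [BIJ_partner_bot, BIJ_mem_cyl]
  exact ⟨hy, abs_lt.2 ⟨by linarith, by linarith⟩⟩

/-- The bijection on a regular line. -/
theorem BIJ_bijOn (hM : M.Mem) (h0 : 0 < T₀) (hT : T₀ < T) (hs : M.Slab K T₀ T) {y : ℂ}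
    (hy : ∀ t : ℝ, pt y t ∈ M.S → M.N (pt y t) 2 ≠ 0) :
    BijOn (fun t => t - M.ell e3 (pt y t)) {t | pt y t ∈ M.S ∩ (cyl K T ∩ M.top e3)}
      {t | pt y t ∈ M.S ∩ (cyl K T ∩ M.top (-e3))} := by
  have hinj : ∀ s t : ℝ, pt y s = pt y t → s = t := fun s t h => by
    simpa using congrArg (fun x : E => x 2) h
  refine InvOn.bijOn (f' := fun t => t + M.ell (-e3) (pt y t)) ⟨?_, ?_⟩ ?_ ?_
  · intro t ht
    have h1 := (BIJ_down hM h0 hT hs ht.1 ht.2.1 ht.2.2).2.2.2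
    rw [BIJ_partner_top, BIJ_partner_bot] at h1
    exact hinj _ _ h1
  · intro t ht
    have h1 := (BIJ_up hM h0 hT hs ht.1 ht.2.1 ht.2.2).2.2.2
    rw [BIJ_partner_bot, BIJ_partner_top] at h1
    exact hinj _ _ h1
  · intro t ht
    obtain ⟨h1, h2, h3, -⟩ := BIJ_down hM h0 hT hs ht.1 ht.2.1 ht.2.2
    rw [BIJ_partner_top] at h1 h2 h3
    exact ⟨h1, h2, (BIJ_bot_iff M _).2 (lt_of_le_of_ne h3 (hy _ h1))⟩
  · intro t ht
    obtain ⟨h1, h2, h3, -⟩ := BIJ_up hM h0 hT hs ht.1 ht.2.1 ht.2.2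
    rw [BIJ_partner_bot] at h1 h2 h3
    exact ⟨h1, h2, (BIJ_top_iff M _).2 (lt_of_le_of_ne h3 (hy _ h1).symm)⟩

theorem BIJ_finsum (M : Surf) (A : Set E) (g : E → ℝ) (y : ℂ) :
    ∑ᶠ t ∈ {t : ℝ | pt y t ∈ M.S}, (M.S ∩ A).indicator g (pt y t)
      = ∑ᶠ t ∈ {t : ℝ | pt y t ∈ M.S ∩ A}, g (pt y t) := by
  rw [finsum_mem_def, finsum_mem_def]
  refine finsum_congr fun t => ?_
  by_cases h : pt y t ∈ M.S ∩ A
  · rw [indicator_of_mem (show t ∈ {t : ℝ | pt y t ∈ M.S} from h.1), indicator_of_mem h,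
      indicator_of_mem (show t ∈ {t : ℝ | pt y t ∈ M.S ∩ A} from h)]
  · rw [indicator_of_notMem (show t ∉ {t : ℝ | pt y t ∈ M.S ∩ A} from h)]
    by_cases h' : pt y t ∈ M.S
    · rw [indicator_of_mem (show t ∈ {t : ℝ | pt y t ∈ M.S} from h'), indicator_of_notMem h]
    · rw [indicator_of_notMem (show t ∉ {t : ℝ | pt y t ∈ M.S} from h')]

/-- The area formula on a bounded measurable set. -/
theorem BIJ_area (hAREAR : S_AREAR) (hM : M.Mem) {A : Set E} (hA : MeasurableSet A)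
    (hb : Bornology.IsBounded A) {g : E → ℝ} (hg : Measurable g) {C : ℝ}
    (hC : ∀ x ∈ M.S ∩ A, |g x| ≤ C) :
    ∫ x in A, g x * |M.N x 2| ∂M.μ = ∫ y : ℂ, ∑ᶠ t ∈ {t : ℝ | pt y t ∈ M.S ∩ A}, g (pt y t) := by
  obtain ⟨R, hR⟩ := hb.subset_ball 0
  have h1 := (hAREAR M hM ((M.S ∩ A).indicator g) R |C|
    (hg.indicator (M.measurableSet_S.inter hA)) (fun x => by
      by_cases hx : x ∈ M.S ∩ A
      · rw [indicator_of_mem hx]
        exact (hC x hx).trans (le_abs_self C)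
      · rw [indicator_of_notMem hx, abs_zero]
        exact abs_nonneg C)
    (fun x hx => indicator_of_notMem
      (fun h => absurd (mem_ball_zero_iff.1 (hR h.2)) (not_lt.2 hx)) _)).2.2
  simp only [BIJ_finsum] at h1
  rw [← h1, ← integral_indicator hA]
  refine integral_congr_ae (M.ae_mem.mono fun x hx => ?_)
  by_cases h : x ∈ A
  · simp only [indicator_of_mem h, indicator_of_mem (show x ∈ M.S ∩ A from ⟨hx, h⟩)]
  · simp only [indicator_of_notMem h, indicator_of_notMem (show x ∉ M.S ∩ A from fun h' => h h'.2),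
      zero_mul]

/-- Almost every point with a normal which is not horizontal lies on a regular line. -/
theorem BIJ_ae (hAREA0 : S_AREA0) (M : Surf) :
    ∀ᵐ x ∂M.μ, M.N x 2 ≠ 0 → ∀ t : ℝ, pt (pr x) t ∈ M.S → M.N (pt (pr x) t) 2 ≠ 0 := by
  classical
  obtain ⟨h1, h2⟩ := hAREA0 M
  obtain ⟨Z, hZ1, hZ2, hZ3⟩ := exists_measurable_superset_of_null (ae_iff.1 h2)
  have hm : Measurable ((pr ⁻¹' Z).indicator fun _ => (1 : ℝ≥0∞)) :=
    measurable_const.indicator (measurable_pr hZ2)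
  have h3 := (h1 _ hm).2
  have h4 : ∀ᵐ y : ℂ, y ∉ Z := measure_eq_zero_iff_ae_notMem.1 hZ3
  rw [lintegral_congr_ae (g := fun _ => 0) (μ := volume) (h4.mono fun y hy => ?_), lintegral_zero,
    lintegral_eq_zero_iff] at h3
  · filter_upwards [h3] with x hx hn
    by_contra hc
    have h5 : x ∈ pr ⁻¹' Z := hZ1 hc
    rw [indicator_of_mem h5, one_mul, Pi.zero_apply, ENNReal.ofReal_eq_zero] at hx
    exact hn (abs_nonpos_iff.1 hx)
  · refine hm.mul (ENNReal.measurable_ofReal.comp (continuous_abs.measurable.comp ?_))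
    exact (EuclideanSpace.proj (𝕜 := ℝ) (2 : Fin 3)).continuous.measurable.comp M.N_meas
  · have h5 : ∀ t : ℝ, (pr ⁻¹' Z).indicator (fun _ => (1 : ℝ≥0∞)) (pt y t) = 0 := fun t =>
      indicator_of_notMem (by simpa using hy) _
    simp only [h5, ite_self, tsum_zero]

end

theorem bij_of (hAREA0 : S_AREA0) (hAREAR : S_AREAR) : S_BIJ := by
  intro M hM K T₀ T hK hb h0 hT hs
  have hd : ∀ x ∈ M.S, x ∈ cyl K T → x ∈ M.top e3 → M.partner e3 x ∈ M.S ∧
      M.partner e3 x ∈ cyl K T ∧ M.N (M.partner e3 x) 2 ≤ 0 := by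
    intro x hx hc hn
    rw [← pt_pr x] at hx hc hn ⊢
    obtain ⟨h1, h2, h3, -⟩ := BIJ_down hM h0 hT hs hx hc hn
    exact ⟨h1, h2, h3⟩
  refine ⟨fun H C hH hC => ?_, ?_⟩
  · have hm : ∀ e, MeasurableSet (cyl K T ∩ M.top e) := fun e =>
      (measurableSet_cyl hK T).inter (M.measurableSet_top e)
    have hb' : ∀ e, Bornology.IsBounded (cyl K T ∩ M.top e) := fun e =>
      (isBounded_cyl hb T).subset inter_subset_left
    have h1 : ∫ x in cyl K T ∩ M.top e3, H (M.partner e3 x) * M.N x 2 ∂M.μ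
        = ∫ x in cyl K T ∩ M.top e3, H (M.partner e3 x) * |M.N x 2| ∂M.μ :=
      setIntegral_congr_fun (hm _) fun x hx => by
        simp only [abs_of_pos ((BIJ_top_iff M x).1 hx.2)]
    rw [h1, BIJ_area hAREAR hM (hm _) (hb' _) hH (fun x hx => hC x ⟨hx.1, hx.2.1⟩),
      BIJ_area hAREAR hM (hm _) (hb' _) (g := fun x => H (M.partner e3 x))
        (hH.comp (hM.measurable_partner e3)) (fun x hx =>
          hC _ ⟨(hd x hx.1 hx.2.1 hx.2.2).1, (hd x hx.1 hx.2.1 hx.2.2).2.1⟩)]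
    refine integral_congr_ae ((hAREA0 M).2.mono fun y hy => ?_)
    refine (finsum_mem_eq_of_bijOn _ (BIJ_bijOn hM h0 hT hs hy) fun t _ => ?_).symm
    rw [BIJ_partner_top]
  · filter_upwards [BIJ_ae hAREA0 M, M.ae_mem] with x hx hS hc hn
    obtain ⟨h1, -, h3⟩ := hd x hS hc ((BIJ_top_iff M x).2 hn)
    refine lt_of_le_of_ne h3 ?_
    have h4 : M.partner e3 x = pt (pr x) (x 2 - M.ell e3 x) := by
      conv_lhs => rw [← pt_pr x, BIJ_partner_top, pt_pr]
    rw [h4] at h1 ⊢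
    exact hx hn.ne' _ h1

end MW
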