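import Pool.Agent.P.MP_064970_gt.ST1

/-!
For p in S rotate N p to e3 (exists_iso_e3, Surf.sim), LG gives near p a smooth d_p = -(height - u)
with d_p > 0 exactly on W, < 0 exactly on W' (the regions above and below the graph in the box are
connected, Surf.side), D d_p = -c <N,.> on S. Smooth partition of unity
(SmoothPartitionOfUnity.exists_isSubordinate on E) for the open cover by these boxes, W and W'; d =
sum rho_i d_i with d_i = 1 on W, -1 on W'. Alternatively exists_contMDiff_forall_mem_convex_of_local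
style gluing. On S the terms d_i D rho_i vanish.
-/

open scoped Manifold ContDiff
open MeasureTheory Set Filter Topology Metric
open scoped RealInnerProductSpace ENNReal ComplexConjugate Real

noncomputable section

namespace MW

universe u

/-- A local defining function. -/
structure DEF0_Loc (M : Surf) (U : Set E) (g : E → ℝ) : Prop where
  opn : IsOpen U
  cd : ContDiffOn ℝ 2 g U
  W : ∀ y ∈ U, y ∈ M.W → 0 < g y
  W' : ∀ y ∈ U, y ∈ M.W' → g y < 0
  S : ∀ y ∈ U, y ∈ M.S → g y = 0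
  D : ∀ y ∈ U, y ∈ M.S → ∃ c : ℝ, 0 < c ∧ HasFDerivAt g ((-c) • innerSL ℝ (M.N y)) y

theorem DEF0_vert (hLG : S_LG) (M : Surf) (hO : M.O = univ) {x : E} (hx : x ∈ M.S)
    (hN : 0 < M.N x 2) : ∃ U g, x ∈ U ∧ DEF0_Loc M U g := by
  obtain ⟨ρ, δ, u, hρ, hδ, hu, hux, hb⟩ := hLG M x hx hN.ne'
  have hS : ∀ y ∈ ball (pr x) ρ, pt y (u y) ∈ M.S := fun y hy =>
    ((hb y hy).2.2.2 _ (hb y hy).1).2 rfl
  have hc1 : ContinuousOn (fun y => pt y (u y)) (ball (pr x) ρ) :=
    continuous_pt.comp_continuousOn (continuousOn_id.prodMk hu.continuousOn)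
  have hc2 : ContinuousOn (fun y => M.N (pt y (u y)) 2) (ball (pr x) ρ) :=
    (EuclideanSpace.proj (2 : Fin 3) : E →L[ℝ] ℝ).continuous.comp_continuousOn
      (M.N_cont.comp hc1 hS)
  have hB : IsOpen (ball (pr x) ρ ∩ (fun y => M.N (pt y (u y)) 2) ⁻¹' Ioi 0) :=
    hc2.isOpen_inter_preimage isOpen_ball isOpen_Ioi
  have h2 : Continuous fun y : E => y 2 := (EuclideanSpace.proj (2 : Fin 3) : E →L[ℝ] ℝ).continuous
  set U : Set E := pr ⁻¹' (ball (pr x) ρ ∩ (fun y => M.N (pt y (u y)) 2) ⁻¹' Ioi 0) ∩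
    {y | |y 2 - x 2| < δ} with hU
  have hUo : IsOpen U :=
    (hB.preimage continuous_pr).inter (isOpen_lt (h2.sub continuous_const).abs continuous_const)
  have hline : ∀ (y : ℂ) (t : ℝ), pt y 0 + t • e3 = pt y t := fun y t => by
    rw [pt_add_smul_e3, zero_add]
  have hpos : ∀ y ∈ U, y 2 < u (pr y) → y ∈ M.W := by
    rintro y ⟨⟨hy1, hy2⟩, hy3⟩ hlt
    have h := M.basic_before (a := pt (pr y) 0) (v := e3) hlt (fun t _ => hO ▸ mem_univ _)
      (fun t ht => ?_) (by rw [hline]; exact hS _ hy1) (by rw [hline, e3_inner]; exact hy2)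
    · rwa [hline, pt_pr] at h
    · rw [hline, (hb _ hy1).2.2.2 t]
      · exact ht.2.ne
      · have h1 := abs_lt.1 (hb _ hy1).1
        have h3 := abs_lt.1 (show |y 2 - x 2| < δ from hy3)
        exact abs_lt.2 ⟨by linarith [ht.1], by linarith [ht.2]⟩
  have hneg : ∀ y ∈ U, u (pr y) < y 2 → y ∈ M.W' := by
    rintro y ⟨⟨hy1, hy2⟩, hy3⟩ hlt
    have h := M.basic_after (a := pt (pr y) 0) (v := e3) hlt (fun t _ => hO ▸ mem_univ _)
      (fun t ht => ?_) (by rw [hline]; exact hS _ hy1) (by rw [hline, e3_inner]; exact hy2)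
    · rwa [hline, pt_pr] at h
    · rw [hline, (hb _ hy1).2.2.2 t]
      · exact ht.1.ne'
      · have h1 := abs_lt.1 (hb _ hy1).1
        have h3 := abs_lt.1 (show |y 2 - x 2| < δ from hy3)
        exact abs_lt.2 ⟨by linarith [ht.1], by linarith [ht.2]⟩
  have hiff : ∀ y ∈ U, (y ∈ M.S ↔ y 2 = u (pr y)) := by
    rintro y ⟨⟨hy1, -⟩, hy3⟩
    have h := (hb _ hy1).2.2.2 (y 2) hy3
    rwa [pt_pr] at h
  have hupr : ContDiffOn ℝ 2 (fun y => u (pr y)) U :=
    (hu.of_le (WithTop.coe_le_coe.2 (le_top : (2 : ℕ∞) ≤ ⊤))).comp prL.contDiff.contDiffOn fun y hy => hy.1.1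
  refine ⟨U, fun y => u (pr y) - y 2, ⟨⟨mem_ball_self hρ, ?_⟩, by simpa using hδ⟩, hUo, ?_,
    fun y hy hW => ?_, fun y hy hW => ?_, fun y hy hyS => ?_, fun y hy hyS => ?_⟩
  · show 0 < M.N (pt (pr x) (u (pr x))) 2
    rwa [hux, pt_pr]
  · exact hupr.sub (EuclideanSpace.proj (2 : Fin 3) : E →L[ℝ] ℝ).contDiff.contDiffOn
  · rcases lt_trichotomy (y 2) (u (pr y)) with h | h | h
    · exact sub_pos.2 h
    · exact absurd ((hiff y hy).2 h) (disjoint_left.1 M.disjS hW)
    · exact absurd (hneg y hy h) (disjoint_left.1 M.disj hW)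
  · rcases lt_trichotomy (y 2) (u (pr y)) with h | h | h
    · exact absurd hW (disjoint_left.1 M.disj (hpos y hy h))
    · exact absurd ((hiff y hy).2 h) (disjoint_left.1 M.disjS' hW)
    · exact sub_neg.2 h
  · exact sub_eq_zero.2 ((hiff y hy).1 hyS).symm
  · have he : pt (pr y) (u (pr y)) = y := by rw [← (hiff y hy).1 hyS, pt_pr]
    have hp : 0 < M.N y 2 := by
      have h : 0 < M.N (pt (pr y) (u (pr y))) 2 := hy.1.2
      rwa [he] at h
    have hd : HasFDerivAt u (fderiv ℝ u (pr y)) (pr y) :=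
      ((hu.contDiffAt (isOpen_ball.mem_nhds hy.1.1)).differentiableAt (by simp)).hasFDerivAt
    have hd2 := (hd.comp y prL.hasFDerivAt).sub
      (EuclideanSpace.proj (2 : Fin 3) : E →L[ℝ] ℝ).hasFDerivAt
    refine ⟨(M.N y 2)⁻¹, inv_pos.2 hp, ?_⟩
    refine hd2.congr_fderiv (ContinuousLinearMap.ext fun v => ?_)
    have h := (hb _ hy.1.1).2.2.1 (pr v)
    rw [he] at h
    simp only [smul_apply, innerSL_apply_apply, smul_eq_mul,
      sub_apply, ContinuousLinearMap.comp_apply, prL_apply, h]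
    rw [inner_eq_pr]
    have : (EuclideanSpace.proj (2 : Fin 3) : E →L[ℝ] ℝ) v = v 2 := rfl
    rw [this]
    field_simp
    ring

theorem DEF0_loc (hLG : S_LG) (M : Surf) (hO : M.O = univ) (x : E) :
    ∃ U g, x ∈ U ∧ DEF0_Loc M U g := by
  rcases M.mem_cases (x := x) (hO ▸ mem_univ _) with hx | hx | hx
  · exact ⟨M.W, fun _ => 1, hx, M.isOpen_W, contDiffOn_const, fun _ _ _ => one_pos,
      fun y hy h => absurd h (disjoint_left.1 M.disj hy),
      fun y hy h => absurd h (disjoint_left.1 M.disjS hy),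
      fun y hy h => absurd h (disjoint_left.1 M.disjS hy)⟩
  · exact ⟨M.W', fun _ => -1, hx, M.isOpen_W', contDiffOn_const,
      fun y hy h => absurd hy (disjoint_left.1 M.disj h), fun _ _ _ => neg_one_lt_zero,
      fun y hy h => absurd h (disjoint_left.1 M.disjS' hy),
      fun y hy h => absurd h (disjoint_left.1 M.disjS' hy)⟩
  obtain ⟨A, hA⟩ := exists_iso_e3 (M.N_unit x hx)
  obtain ⟨M', hs⟩ := exists_isSim M A.symm one_pos 0
  have hm : ∀ y, simMap A.symm 1 0 y = A.symm y := fun y => by simp [simMap]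
  have hO' : M'.O = univ := by
    refine eq_univ_of_forall fun y => ?_
    have h := (hs.O (A y)).2 (hO ▸ mem_univ _)
    rwa [hm, A.symm_apply_apply] at h
  have hS : ∀ y, y ∈ M.S → A.symm y ∈ M'.S := fun y hy => hm y ▸ (hs.S y).2 hy
  have hN : ∀ y, M'.N (A.symm y) = A.symm (M.N y) := fun y => hm y ▸ hs.N y
  obtain ⟨U, g, hxU, hg⟩ := DEF0_vert hLG M' hO' (hS x hx)
    (by rw [hN, ← hA, A.symm_apply_apply]; simp)
  refine ⟨A.symm ⁻¹' U, fun y => g (A.symm y), hxU, hg.opn.preimage A.symm.continuous,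
    hg.cd.comp A.symm.contDiff.contDiffOn fun y hy => hy,
    fun y hy h => hg.W _ hy (hm y ▸ (hs.W y).2 h), fun y hy h => hg.W' _ hy (hm y ▸ (hs.W' y).2 h),
    fun y hy h => hg.S _ hy (hS y h), fun y hy h => ?_⟩
  obtain ⟨c, hc, hd⟩ := hg.D _ hy (hS y h)
  refine ⟨c, hc, ?_⟩
  refine (hd.comp y A.symm.toContinuousLinearEquiv.hasFDerivAt).congr_fderiv
    (ContinuousLinearMap.ext fun v => ?_)
  simp [hN]

theorem def0_of (hLG : S_LG) : S_DEF0 := by
  intro M hM
  choose U g hxU hg using DEF0_loc hLG M hM.univ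
  obtain ⟨ρ, hρ⟩ := SmoothPartitionOfUnity.exists_isSubordinate 𝓘(ℝ, E) isClosed_univ U
    (fun i => (hg i).opn) fun x _ => mem_iUnion.2 ⟨x, hxU x⟩
  have hU : ∀ i y, ρ i y ≠ 0 → y ∈ U i := fun i y h => hρ i (subset_closure h)
  have hW : ∀ y ∈ M.W, 0 < ∑ᶠ i, ρ i y • g i y := fun y hy =>
    ρ.finsum_smul_mem_convex (g := g) (t := Ioi (0 : ℝ))
      (mem_univ y) (fun i hi => (hg i).W y (hU i y hi) hy)
      (convex_Ioi 0)
  have hW' : ∀ y ∈ M.W', ∑ᶠ i, ρ i y • g i y < 0 := fun y hy =>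
    ρ.finsum_smul_mem_convex (g := g) (t := Iio (0 : ℝ))
      (mem_univ y) (fun i hi => (hg i).W' y (hU i y hi) hy)
      (convex_Iio 0)
  have hS : ∀ y ∈ M.S, ∑ᶠ i, ρ i y • g i y = 0 := fun y hy =>
    ρ.finsum_smul_mem_convex (g := g) (t := {(0 : ℝ)})
      (mem_univ y) (fun i hi => (hg i).S y (hU i y hi) hy)
      (convex_singleton 0)
  refine ⟨fun y => ∑ᶠ i, ρ i y • g i y, ?_, fun y => ⟨fun h => ?_, hW y⟩,
    fun y => ⟨fun h => ?_, hW' y⟩, fun x hx => ?_⟩
  · exact contMDiff_iff_contDiff.1 (hρ.contMDiff_finsum_smul (n := 2) (fun i => (hg i).opn)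
      fun i => contMDiffOn_iff_contDiffOn.2 (hg i).cd)
  · rcases M.mem_cases (x := y) (hM.univ ▸ mem_univ _) with hy | hy | hy
    · exact hy
    · exact absurd h (hW' y hy).not_gt
    · exact absurd (hS y hy) h.ne'
  · rcases M.mem_cases (x := y) (hM.univ ▸ mem_univ _) with hy | hy | hy
    · exact absurd h (hW y hy).not_gt
    · exact hy
    · exact absurd (hS y hy) h.ne
  have hch : ∀ i, ∃ c : ℝ, 0 < c ∧
      (x ∈ U i → HasFDerivAt (g i) ((-c) • innerSL ℝ (M.N x)) x) := fun i => by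
    by_cases hi : x ∈ U i
    · obtain ⟨c, hc, hd⟩ := (hg i).D x hi hx
      exact ⟨c, hc, fun _ => hd⟩
    · exact ⟨1, one_pos, fun h => absurd h hi⟩
  choose c hc hd using hch
  have hev : (fun y => ∑ᶠ i, ρ i y • g i y) =ᶠ[𝓝 x]
      fun y => ∑ i ∈ ρ.fintsupport x, ρ i y * g i y := by
    filter_upwards [ρ.eventually_finsupport_subset x] with y hy
    rw [← ρ.sum_finsupport_smul_eq_finsum y g]
    refine Finset.sum_subset hy fun i _ hi => ?_
    have h0 : ρ i y = 0 := by simpa using hi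
    rw [h0, zero_smul]
  have hder : HasFDerivAt (fun y => ∑ i ∈ ρ.fintsupport x, ρ i y * g i y)
      (∑ i ∈ ρ.fintsupport x, (-(ρ i x * c i)) • innerSL ℝ (M.N x)) x := by
    refine HasFDerivAt.fun_sum fun i hi => ?_
    have hxi : x ∈ U i := hρ i ((ρ.mem_fintsupport_iff x i).1 hi)
    have h1 : DifferentiableAt ℝ (ρ i) x :=
      (contMDiff_iff_contDiff.1 (ρ i).contMDiff).differentiable (by simp) x
    refine (h1.hasFDerivAt.mul (hd i hxi)).congr_fderiv ?_
    rw [(hg i).S x hxi hx, zero_smul, add_zero, smul_smul, mul_neg]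
  refine ⟨∑ i ∈ ρ.fintsupport x, ρ i x * c i, ?_, fun v => ?_⟩
  · obtain ⟨i, hi⟩ := ρ.exists_pos_of_mem (mem_univ x)
    exact Finset.sum_pos' (fun j _ => mul_nonneg (ρ.nonneg j x) (hc j).le)
      ⟨i, (ρ.mem_fintsupport_iff x i).2 (subset_closure hi.ne'), mul_pos hi (hc i)⟩
  · rw [(hder.congr_of_eventuallyEq hev).fderiv, ← Finset.sum_smul, Finset.sum_neg_distrib]
    simp

end MW
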